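import Pool.Agent.E8helper59.PT.Loc

set_option autoImplicit false
set_option linter.unusedSectionVars false
set_option linter.unusedVariables false

/-!
# The recognition of rectangle contact graphs in polynomial time
-/

namespace Pool.Agent.E8helper59.PT

open Pool.Agent.NPC Pool.Agent.H622R2

/-- the equations of a separating function -/
def sepE (M : List (List Bool)) (c x y : ℕ) : List (List ℕ × Bool) :=
  (((List.range M.length) ×ˢ (List.range M.length)).filter fun q =>
    SD.adjB M q.1 q.2 && (!(decide (q.1 = c)) && !(decide (q.2 = c)))).map (fun q =>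
      ([q.1, q.2], false)) ++ [([x], false), ([y], true)]

/-- the test for separated vertices in the graph without `c` -/
def ncon (M : List (List Bool)) (c x y : ℕ) : Bool := slv (List.range M.length) (sepE M c x y)

/-- the vertices different from `c` -/
def Tc (n c : ℕ) : Finset (Fin n) := Finset.univ.filter fun x => x.1 ≠ c

theorem ncon_spec {M : List (List Bool)} (c : ℕ) (x y : Fin M.length) :
    ncon M c x y = true ↔ Sepa (matGraph M) (Tc M.length c) x y := by
  unfold ncon
  rw [slv_spec _ _ List.nodup_range]
  · have h2 : ∀ a b : ZMod 2, a + b = 0 ↔ a = b := by decide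
    constructor
    · rintro ⟨X, hX⟩
      refine ⟨fun i => X i.1, fun u hu v hv huv => ?_, ?_, ?_⟩
      · have := hX ([u.1, v.1], false) (List.mem_append_left _ (by
          refine List.mem_map.2 ⟨(u.1, v.1), List.mem_filter.2 ⟨?_, ?_⟩, rfl⟩
          · exact List.mem_product.2 ⟨List.mem_range.2 u.2, List.mem_range.2 v.2⟩
          · have h3 := (Finset.mem_filter.1 hu).2
            have h4 := (Finset.mem_filter.1 hv).2
            simp [(SD.adjB_iff u v).2 huv, h3, h4]))
        simp only [List.map_cons, List.map_nil, List.sum_cons, List.sum_nil, add_zero,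
          Bool.false_eq_true, if_false] at this
        exact (h2 _ _).1 this
      · have := hX ([x.1], false) (List.mem_append_right _ (by simp))
        simpa using this
      · have := hX ([y.1], true) (List.mem_append_right _ (by simp))
        simpa using this
    · rintro ⟨f, h1, hx, hy⟩
      obtain ⟨X, hX⟩ : ∃ X : ℕ → ZMod 2, ∀ i : Fin M.length, X i.1 = f i :=
        ⟨fun j => if h : j < M.length then f ⟨j, h⟩ else 0, fun i => dif_pos i.2⟩
      refine ⟨X, fun e he => ?_⟩
      rcases List.mem_append.1 he with he | he
      · obtain ⟨⟨a, b⟩, hq, rfl⟩ := List.mem_map.1 he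
        rw [List.mem_filter, List.mem_product, List.mem_range, List.mem_range] at hq
        simp only [Bool.and_eq_true, Bool.not_eq_true', decide_eq_false_iff_not] at hq
        obtain ⟨⟨ha, hb⟩, hab, hac, hbc⟩ := hq
        have h3 := h1 ⟨a, ha⟩ (Finset.mem_filter.2 ⟨Finset.mem_univ _, hac⟩) ⟨b, hb⟩
          (Finset.mem_filter.2 ⟨Finset.mem_univ _, hbc⟩) ((SD.adjB_iff ⟨a, ha⟩ ⟨b, hb⟩).1 hab)
        have h4 := hX ⟨a, ha⟩
        have h5 := hX ⟨b, hb⟩
        simp only at h4 h5
        simp only [List.map_cons, List.map_nil, List.sum_cons, List.sum_nil, add_zero,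
          Bool.false_eq_true, if_false]
        rw [h4, h5, h2]
        exact h3
      · simp only [List.mem_cons, List.not_mem_nil, or_false] at he
        rcases he with rfl | rfl
        · simp [hX, hx]
        · simp [hX, hy]
  · intro e he j hj
    rcases List.mem_append.1 he with he | he
    · obtain ⟨⟨a, b⟩, hq, rfl⟩ := List.mem_map.1 he
      rw [List.mem_filter, List.mem_product] at hq
      simp only [List.mem_cons, List.not_mem_nil, or_false] at hj
      rcases hj with rfl | rfl
      · exact hq.1.1
      · exact hq.1.2
    · simp only [List.mem_cons, List.not_mem_nil, or_false] at he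
      rcases he with rfl | rfl <;> simp only [List.mem_cons, List.not_mem_nil, or_false] at hj <;>
        rw [hj, List.mem_range]
      · exact x.2
      · exact y.2

theorem Tc_top (n : ℕ) : Tc n n = Finset.univ := by
  unfold Tc
  rw [Finset.filter_true_of_mem]
  intro x _
  exact x.2.ne

theorem Tc_erase {n : ℕ} (c : Fin n) : Tc n c.1 = Finset.univ.erase c := by
  unfold Tc
  ext x
  rw [Finset.mem_filter, Finset.mem_erase, Ne, Ne, Fin.ext_iff]
  tauto

/-- the test of the number of triangles at an edge -/
def fewB (M : List (List Bool)) (c k : ℕ) : Bool :=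
  (List.range M.length).all fun w => (List.range M.length).all fun w' =>
    !(SD.adjB M c w && (SD.adjB M k w && (SD.adjB M c w' && SD.adjB M k w'))) || decide (w = w')

theorem fewB_spec {M : List (List Bool)} (c k : Fin M.length) :
    fewB M c k = true ↔ Few (matGraph M) Finset.univ c k := by
  unfold fewB Few
  simp only [SD.all_range, Bool.or_eq_true, Bool.not_eq_true', decide_eq_true_eq, Finset.mem_univ,
    forall_true_left]
  refine forall_congr' fun w => forall_congr' fun w' => ?_
  rw [← Bool.not_eq_true]
  simp only [Bool.and_eq_true, SD.adjB_iff, ← Fin.ext_iff]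
  tauto

/-- the test of the condition at `c` and `x` -/
def locX (M : List (List Bool)) (v a c x : ℕ) : Bool :=
  decide (x = c) || (ncon M M.length v x ||
    ((!(decide (c = a)) && (List.range M.length).all fun y =>
      decide (y = c) || (ncon M M.length v y || !(ncon M c x y))) ||
      (List.range M.length).any fun k =>
        !(decide (k = c)) && (!(ncon M c x k) && (SD.adjB M c k && fewB M c k))))

/-- the test of the local conditions -/
def locB (M : List (List Bool)) : Bool :=
  (List.range M.length).all fun v => (List.range M.length).any fun a =>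
    !(ncon M M.length v a) && (List.range M.length).all fun c =>
      ncon M M.length v c || (List.range M.length).all fun x => locX M v a c x

theorem locX_spec {M : List (List Bool)} (v a c x : Fin M.length) :
    locX M v a c x = true ↔ (x ≠ c → ¬ Sepa (matGraph M) Finset.univ v x →
      (c = a ∨ ∃ y, y ≠ c ∧ ¬ Sepa (matGraph M) Finset.univ v y ∧
        Sepa (matGraph M) (Finset.univ.erase c) x y) →
        ∃ k, k ≠ c ∧ ¬ Sepa (matGraph M) (Finset.univ.erase c) x k ∧ (matGraph M).Adj c k ∧
          Few (matGraph M) Finset.univ c k) := by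
  unfold locX
  simp only [Bool.or_eq_true, Bool.and_eq_true, Bool.not_eq_true', decide_eq_true_eq,
    decide_eq_false_iff_not, SD.any_range, SD.all_range, ← Bool.not_eq_true, ncon_spec,
    SD.adjB_iff, fewB_spec, Tc_top, Tc_erase, ← Fin.ext_iff]
  constructor
  · rintro (h | h | ⟨h1, h2⟩ | h) g1 g2 g3
    · exact absurd h g1
    · exact absurd h g2
    · exfalso
      rcases g3 with g3 | ⟨y, y1, y2, y3⟩
      · exact h1 g3
      · rcases h2 y with h4 | h4 | h4
        · exact y1 h4
        · exact y2 h4
        · exact h4 y3
    · exact h
  · intro h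
    by_cases g1 : x = c
    · exact Or.inl g1
    · by_cases g2 : Sepa (matGraph M) Finset.univ v x
      · exact Or.inr (Or.inl g2)
      · by_cases g3 : (c = a ∨ ∃ y, y ≠ c ∧ ¬ Sepa (matGraph M) Finset.univ v y ∧
          Sepa (matGraph M) (Finset.univ.erase c) x y)
        · exact Or.inr (Or.inr (Or.inr (h g1 g2 g3)))
        · refine Or.inr (Or.inr (Or.inl ⟨fun h' => g3 (Or.inl h'), fun y => ?_⟩))
          by_cases y1 : y = c
          · exact Or.inl y1
          · by_cases y2 : Sepa (matGraph M) Finset.univ v y
            · exact Or.inr (Or.inl y2)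
            · exact Or.inr (Or.inr (fun y3 => g3 (Or.inr ⟨y, y1, y2, y3⟩)))

theorem locB_spec (M : List (List Bool)) : locB M = true ↔ LC (matGraph M) := by
  unfold locB LC
  simp only [SD.all_range, SD.any_range, Bool.and_eq_true, Bool.or_eq_true, locX_spec,
    Bool.not_eq_true', ← Bool.not_eq_true, ncon_spec, Tc_top]
  refine forall_congr' fun v => exists_congr fun a => and_congr_right fun _ =>
    forall_congr' fun c => ?_
  exact or_iff_not_imp_left

/-- **The recognition algorithm.** -/
def recB (M : List (List Bool)) : Bool := decide (M.length ≤ 2) || (tsB M && locB M)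

theorem recB_spec (M : List (List Bool)) : SD.RectContact (matGraph M) ↔ recB M = true := by
  unfold recB
  rw [Bool.or_eq_true, Bool.and_eq_true, decide_eq_true_eq, tsB_spec, locB_spec, TSys_LG]
  rcases Nat.lt_or_ge 2 M.length with h | h
  · rw [rect_iff (by rw [Fintype.card_fin]; exact h)]
    constructor
    · exact Or.inr
    · rintro (h' | h')
      · omega
      · exact h'
  · exact ⟨fun _ => Or.inl h, fun _ => rect_small (by rw [Fintype.card_fin]; exact h)⟩

section poly

variable {α : Type} [TEnc α]

attribute [local fun_prop] range_poly adjB_poly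

theorem sepE_poly {M : α → List (List Bool)} {c x y : α → ℕ} (hM : Poly M) (hc : Poly c)
    (hx : Poly x) (hy : Poly y) : Poly (fun a => sepE (M a) (c a) (x a) (y a)) := by
  unfold sepE
  fun_prop

theorem ncon_poly {M : α → List (List Bool)} {c x y : α → ℕ} (hM : Poly M) (hc : Poly c)
    (hx : Poly x) (hy : Poly y) : Poly (fun a => ncon (M a) (c a) (x a) (y a)) := by
  unfold ncon
  exact slv_poly (range_poly hM) (sepE_poly hM hc hx hy)

theorem fewB_poly {M : α → List (List Bool)} {c k : α → ℕ} (hM : Poly M) (hc : Poly c)
    (hk : Poly k) : Poly (fun a => fewB (M a) (c a) (k a)) := by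
  unfold fewB
  fun_prop

attribute [local fun_prop] ncon_poly fewB_poly

theorem locX_poly {M : α → List (List Bool)} {v a c x : α → ℕ} (hM : Poly M) (hv : Poly v)
    (ha : Poly a) (hc : Poly c) (hx : Poly x) :
    Poly (fun i => locX (M i) (v i) (a i) (c i) (x i)) := by
  unfold locX
  fun_prop

attribute [local fun_prop] locX_poly

theorem locB_poly {M : α → List (List Bool)} (hM : Poly M) : Poly (fun a => locB (M a)) := by
  unfold locB
  fun_prop

theorem recB_poly : Poly recB := by
  unfold recB
  have h1 : NPC.Poly (fun M : List (List Bool) => decide (M.length ≤ 2)) := by fun_prop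
  exact NPC.Poly.or h1 (NPC.Poly.and tsB_poly (locB_poly NPC.Poly.id))

end poly

/-- **Contact graphs of rectangles are recognized in polynomial time.** -/
theorem rect_inP : InP (lang fun M : List (List Bool) => SD.RectContact (matGraph M)) :=
  inPP_of recB_poly recB_spec

/-- **Separation dimension two is in `P`.** -/
theorem sepDim_inP : InP (lang fun M : List (List Bool) => SD.SepDimLE (matGraph M) 2) :=
  InP.of_reduces SD.reduces_core rect_inP

end Pool.Agent.E8helper59.PT
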