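import Pool.Agent.E8helper59.SD.Ins

set_option autoImplicit false

/-!
# Strictly suitable pairs with a front
-/

namespace Pool.Agent.E8helper59.PT

open Pool.Agent.E8helper59.SD

variable {V : Type}

/-- `c`, `d` are consecutive in the front: everything between them is older than both. -/
def Gap (W : Finset V) (f g : V → ℝ) (c d : V) : Prop :=
  f c < f d ∧ ∀ x ∈ W, f c < f x → f x < f d → g x < g c ∧ g x < g d

/-- A strictly suitable pair on the vertices of `W` with the front `C`. -/
structure Swp (G : SimpleGraph V) (W : Finset V) (C : List V) (f g : V → ℝ) : Prop where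
  inv : Inv G ∅ W f g
  sub : ∀ x ∈ C, x ∈ W
  chain : C.IsChain (Gap W f g)
  vis : ∀ a ∈ W, ∀ b ∈ W, G.Adj a b → ∀ x ∈ C, f a < f x → f x < f b → g a < g x ∧ g b < g x

/-- no interior local maximum -/
def Valley (g : V → ℝ) (l : List V) : Prop :=
  ∀ A B x y z, l = A ++ x :: y :: z :: B → g y < g x ∨ g y < g z

theorem Valley.tail {g : V → ℝ} {a : V} {l : List V} (h : Valley g (a :: l)) : Valley g l :=
  fun A B x y z hl => h (a :: A) B x y z (by rw [hl]; rfl)

theorem valley_split (g : V → ℝ) : ∀ l : List V, 2 ≤ l.length →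
    (l.Pairwise fun x y => g x ≠ g y) → Valley g l →
    ∃ L p q R, l = L ++ p :: q :: R ∧ (∀ x ∈ L, g p < g x ∧ g q < g x) ∧
      (L.Pairwise fun x y => g y < g x) ∧ (∀ x ∈ R, g p < g x ∧ g q < g x) ∧
      R.Pairwise fun x y => g x < g y := by
  intro l
  induction l with
  | nil => intro h; simp at h
  | cons x l ih =>
    intro h2 hne hv
    rcases Nat.lt_or_ge l.length 2 with h3 | h3
    · have h4 : l.length = 1 := by simp at h2; omega
      obtain ⟨y, rfl⟩ := List.length_eq_one_iff.1 h4
      exact ⟨[], x, y, [], rfl, by simp, by simp, by simp, by simp⟩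
    · obtain ⟨L, p, q, R, hl, hL, hLp, hR, hRp⟩ := ih h3 hne.of_cons hv.tail
      have hne' : ∀ y ∈ l, g x ≠ g y := fun y hy => List.rel_of_pairwise_cons hne hy
      cases L with
      | cons a L =>
        have hnext : ∃ b B, l = a :: b :: B ∧ g b < g a := by
          cases L with
          | nil => exact ⟨p, q :: R, by rw [hl]; rfl, (hL a (by simp)).1⟩
          | cons b L => exact ⟨b, L ++ p :: q :: R, by rw [hl]; rfl,
              List.rel_of_pairwise_cons hLp (by simp)⟩
        obtain ⟨b, B, hab, hba⟩ := hnext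
        have hax : g a < g x := by
          rcases hv [] B x a b (by rw [hab]; rfl) with h5 | h5
          · exact h5
          · exact absurd hba (not_lt.2 h5.le)
        refine ⟨x :: a :: L, p, q, R, by rw [hl]; rfl, ?_, ?_, hR, hRp⟩
        · intro y hy
          rcases List.mem_cons.1 hy with rfl | hy
          · exact ⟨(hL a (by simp)).1.trans hax, (hL a (by simp)).2.trans hax⟩
          · exact hL y hy
        · refine List.pairwise_cons.2 ⟨fun y hy => ?_, hLp⟩
          rcases List.mem_cons.1 hy with rfl | hy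
          · exact hax
          · exact (List.rel_of_pairwise_cons hLp hy).trans hax
      | nil =>
        simp only [List.nil_append] at hl
        have hxp : g x ≠ g p := hne' p (by rw [hl]; simp)
        have hxq : g x ≠ g q := hne' q (by rw [hl]; simp)
        have hval := hv [] R x p q (by rw [hl]; rfl)
        by_cases h5 : g p < g x ∧ g q < g x
        · exact ⟨[x], p, q, R, by rw [hl]; rfl, by simpa using h5, by simp, hR, hRp⟩
        · have h6 : g x < g q := by
            rcases lt_or_gt_of_ne hxq with h | h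
            · exact h
            · exfalso
              rcases lt_or_gt_of_ne hxp with h' | h'
              · rcases hval with h8 | h8
                · exact lt_asymm h8 h'
                · exact lt_asymm (h8.trans h) h'
              · exact h5 ⟨h', h⟩
          have h7 : g p < g q := by
            rcases hval with h8 | h8
            · exact h8.trans h6
            · exact h8
          refine ⟨[], x, p, q :: R, by rw [hl]; rfl, by simp, by simp, ?_, ?_⟩
          · intro y hy
            rcases List.mem_cons.1 hy with rfl | hy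
            · exact ⟨h6, h7⟩
            · exact ⟨h6.trans (hR y hy).2, (hR y hy).1⟩
          · exact List.pairwise_cons.2 ⟨fun y hy => (hR y hy).2, hRp⟩

/-- elements between `z` and `q` are older than `z` -/
theorem between {W : Finset V} {f g : V → ℝ} (inj : ∀ u ∈ W, ∀ v ∈ W, f u = f v → u = v) :
    ∀ (L : List V) (z q : V), (z :: (L ++ [q])).IsChain (Gap W f g) → (∀ y ∈ L, y ∈ W) →
    (∀ y ∈ L, g y < g z) → (L.Pairwise fun x y => g y < g x) →
    ∀ x ∈ W, f z < f x → f x < f q → g x < g z := by
  intro L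
  induction L with
  | nil =>
    intro z q h _ _ _ x hx h1 h2
    exact ((List.isChain_pair.1 h).2 x hx h1 h2).1
  | cons y L ih =>
    intro z q h hW hz hp x hx h1 h2
    rw [List.cons_append, List.isChain_cons_cons] at h
    have hyz := hz y (by simp)
    rcases lt_trichotomy (f x) (f y) with h3 | h3 | h3
    · exact (h.1.2 x hx h1 h3).1
    · rw [inj x hx y (hW y (by simp)) h3]
      exact hyz
    · exact (ih y q h.2 (fun a ha => hW a (by simp [ha])) (fun a ha => List.rel_of_pairwise_cons hp ha)
        hp.of_cons x hx h3 h2).trans hyz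

theorem Gap.neg {W : Finset V} {f g : V → ℝ} {c d : V} (h : Gap W f g c d) :
    Gap W (fun v => -f v) g d c :=
  ⟨neg_lt_neg h.1, fun x hx h1 h2 => (h.2 x hx (neg_lt_neg_iff.1 h2) (neg_lt_neg_iff.1 h1)).symm⟩

/-- elements between `p` and `z` are older than `z` -/
theorem between' {W : Finset V} {f g : V → ℝ} (inj : ∀ u ∈ W, ∀ v ∈ W, f u = f v → u = v)
    (L : List V) (z p : V) (h : (p :: (L ++ [z])).IsChain (Gap W f g)) (hW : ∀ y ∈ L, y ∈ W)
    (hz : ∀ y ∈ L, g y < g z) (hp : L.Pairwise fun x y => g x < g y) :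
    ∀ x ∈ W, f p < f x → f x < f z → g x < g z := by
  intro x hx h1 h2
  refine between (f := fun v => -f v) (fun u hu v hv huv => inj u hu v hv (neg_injective huv))
    L.reverse z p ?_ (fun y hy => hW y (List.mem_reverse.1 hy))
    (fun y hy => hz y (List.mem_reverse.1 hy)) (List.pairwise_reverse.2 hp) x hx (neg_lt_neg h2)
    (neg_lt_neg h1)
  have h3 : z :: (L.reverse ++ [p]) = (p :: (L ++ [z])).reverse := by simp
  rw [h3, List.isChain_reverse]
  exact h.imp fun a b hab => hab.neg

/-- The edges at a new vertex, one side. -/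
theorem sepSide {G : SimpleGraph V} {W : Finset V} {f g : V → ℝ}
    (inj : ∀ u ∈ W, ∀ v ∈ W, f u = f v → u = v) (ginj : ∀ u ∈ W, ∀ v ∈ W, g u = g v → u = v)
    {z p q : V} (hzW : z ∈ W) (hpW : p ∈ W) (hqW : q ∈ W)
    (hz : z = p ∨ (f z < f p ∧ g p < g z ∧ g q < g z)) {m m' : ℝ} (hm' : ∀ x ∈ W, g x < m')
    (hpm : f p < m) (hmq : m < f q)
    (K1 : ∀ x ∈ W, f z < f x → f x < m → g x < g z)
    (vis : ∀ x, (x = z ∨ x = p ∨ x = q) → ∀ a ∈ W, ∀ b ∈ W, G.Adj a b →
      f a < f x → f x < f b → g a < g x ∧ g b < g x)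
    (gap : ∀ x ∈ W, f p < f x → f x < f q → g x < g p ∧ g x < g q)
    (hm : (g p < g q ∧ ∀ x ∈ W, f p < f x → m < f x) ∨ (g q < g p ∧ ∀ x ∈ W, f x < f q → f x < m))
    {a b : V} (ha : a ∈ W) (hb : b ∈ W) (hab : G.Adj a b) (hza : z ≠ a) (hzb : z ≠ b) :
      ((m < f a ∧ m < f b ∧ f z < f a ∧ f z < f b) ∨ (f a < m ∧ f b < m ∧ f a < f z ∧ f b < f z) ∨
       (m' < g a ∧ m' < g b ∧ g z < g a ∧ g z < g b) ∨ (g a < m' ∧ g b < m' ∧ g a < g z ∧ g b < g z)) := by
  have hzm : f z < m := by
    rcases hz with rfl | hz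
    · exact hpm
    · exact hz.1.trans hpm
  have hgz : g p ≤ g z := by
    rcases hz with rfl | hz
    · exact le_rfl
    · exact hz.2.1.le
  -- a lemma for `a` older than `b`
  have key : ∀ a ∈ W, ∀ b ∈ W, G.Adj a b → z ≠ a → z ≠ b → g a < g b → g z < g b →
      (m < f a ∧ m < f b ∧ f z < f a ∧ f z < f b) ∨ (f a < m ∧ f b < m ∧ f a < f z ∧ f b < f z) := by
    intro a ha b hb hab hza hzb hgab hgzb
    have hfza : f z ≠ f a := fun h => hza (inj z hzW a ha h)
    have hfzb : f z ≠ f b := fun h => hzb (inj z hzW b hb h)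
    by_cases h1 : f b < f z
    · rcases lt_or_gt_of_ne hfza with h2 | h2
      · exact absurd (vis z (Or.inl rfl) b hb a ha hab.symm h1 h2).1 (not_lt.2 hgzb.le)
      · exact Or.inr ⟨h2.trans hzm, h1.trans hzm, h2, h1⟩
    · have h1' : f z < f b := lt_of_le_of_ne (not_lt.1 h1) hfzb
      by_cases h2 : f b < m
      · exact absurd (K1 b hb h1' h2) (not_lt.2 hgzb.le)
      rcases lt_or_gt_of_ne hfza with h3 | h3
      swap
      · exact absurd (vis z (Or.inl rfl) a ha b hb hab h3 h1').2 (not_lt.2 hgzb.le)
      -- `b` is beyond `m`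
      by_cases hbm : f b = m
      · -- then `b` is between `p` and `q`
        exfalso
        rcases hm with hm | hm
        · exact absurd (hm.2 b hb (by rw [hbm]; exact hpm)) (by rw [hbm]; exact lt_irrefl _)
        · exact absurd (hm.2 b hb (by rw [hbm]; exact hmq)) (by rw [hbm]; exact lt_irrefl _)
      have h2' : m < f b := lt_of_le_of_ne (not_lt.1 h2) (Ne.symm hbm)
      by_cases h4 : m < f a
      · exact Or.inl ⟨h4, h2', h3, h1'⟩
      by_cases ham : f a = m
      · exfalso
        rcases hm with hm | hm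
        · exact absurd (hm.2 a ha (by rw [ham]; exact hpm)) (by rw [ham]; exact lt_irrefl _)
        · exact absurd (hm.2 a ha (by rw [ham]; exact hmq)) (by rw [ham]; exact lt_irrefl _)
      have h4' : f a < m := lt_of_le_of_ne (not_lt.1 h4) ham
      exfalso
      rcases lt_trichotomy (f a) (f p) with h5 | h5 | h5
      · -- `a` before `p`
        have h6 := (vis p (Or.inr (Or.inl rfl)) a ha b hb hab h5 (hpm.trans h2')).2
        rcases hz with rfl | hz
        · exact lt_asymm h3 h5
        · exact lt_asymm (h6.trans hz.2.1) hgzb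
      · have h6 : a = p := inj a ha p hpW h5
        subst h6
        have hz' := hz.resolve_left hza
        rcases lt_trichotomy (f b) (f q) with h7 | h7 | h7
        · exact lt_asymm (gap b hb (hpm.trans h2') h7).1 hgab
        · rw [inj b hb q hqW h7] at hgzb
          exact lt_asymm hgzb hz'.2.2
        · have h8 := (vis q (Or.inr (Or.inr rfl)) a ha b hb hab (h4'.trans hmq) h7).2
          exact lt_asymm (h8.trans hz'.2.2) hgzb
      · -- `a` in the gap
        rcases hm with hm | hm
        · exact absurd (hm.2 a ha h5) (not_lt.2 h4'.le)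
        · rcases lt_trichotomy (f b) (f q) with h7 | h7 | h7
          · exact absurd (hm.2 b hb h7) (not_lt.2 h2'.le)
          · rw [inj b hb q hqW h7] at hgzb
            exact lt_asymm (hm.1.trans_le hgz) hgzb
          · have h8 := (vis q (Or.inr (Or.inr rfl)) a ha b hb hab (h4'.trans hmq) h7).2
            exact lt_asymm (h8.trans (hm.1.trans_le hgz)) hgzb
  rcases lt_or_gt_of_ne (fun h => hza (ginj z hzW a ha h)) with h1 | h1
  · rcases lt_or_gt_of_ne (fun h => hab.ne (ginj a ha b hb h)) with h2 | h2
    · rcases key a ha b hb hab hza hzb h2 (h1.trans h2) with h | h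
      · exact Or.inl h
      · exact Or.inr (Or.inl h)
    · rcases key b hb a ha hab.symm hzb hza h2 h1 with h | h
      · exact Or.inl ⟨h.2.1, h.1, h.2.2.2, h.2.2.1⟩
      · exact Or.inr (Or.inl ⟨h.2.1, h.1, h.2.2.2, h.2.2.1⟩)
  · rcases lt_or_gt_of_ne (fun h => hzb (ginj z hzW b hb h)) with h2 | h2
    · rcases key a ha b hb hab hza hzb (h1.trans h2) h2 with h | h
      · exact Or.inl h
      · exact Or.inr (Or.inl h)
    · exact Or.inr (Or.inr (Or.inr ⟨hm' a ha, hm' b hb, h1, h2⟩))

/-- Combining: it suffices to treat the edges at the new vertex. -/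
theorem inv_insert [DecidableEq V] {G : SimpleGraph V} {S : Set V} {W : Finset V} {f g : V → ℝ}
    (h : Inv G S W f g) {v : V} (hv : v ∉ W) (m m' : ℝ)
    (hnew : v ∉ S → ∀ a ∈ W, ∀ b ∈ W, G.Adj a b → (m < f a ∧ m < f b) ∨ (f a < m ∧ f b < m) ∨
      (m' < g a ∧ m' < g b) ∨ (g a < m' ∧ g b < m')) (hm : ∀ w ∈ W, f w ≠ m)
    (hm' : ∀ w ∈ W, g w ≠ m')
    (hsep : ∀ z ∈ W, G.Adj v z → ∀ p ∈ W, ∀ q ∈ W, G.Adj p q → z ≠ p → z ≠ q →
      ((m < f p ∧ m < f q ∧ f z < f p ∧ f z < f q) ∨ (f p < m ∧ f q < m ∧ f p < f z ∧ f q < f z) ∨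
       (m' < g p ∧ m' < g q ∧ g z < g p ∧ g z < g q) ∨ (g p < m' ∧ g q < m' ∧ g p < g z ∧ g q < g z)))
    (hout : ∀ z ∈ W, G.Adj v z → ∀ w ∈ W, w ∉ S → w ≠ z →
      ((m < f w ∧ f z < f w) ∨ (f w < m ∧ f w < f z) ∨ (m' < g w ∧ g z < g w) ∨
        (g w < m' ∧ g w < g z))) :
    Inv G S (Insert.insert v W) (Function.update f v m) (Function.update g v m') := by
  have hne : ∀ {w : V}, w ∈ W → w ≠ v := fun hw he => hv (he ▸ hw)
  refine ⟨?_, ?_, ?_, ?_⟩
  · intro u hu w hw huw
    rcases Finset.mem_insert.1 hu with rfl | hu' <;> rcases Finset.mem_insert.1 hw with rfl | hw'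
    · rfl
    · rw [Function.update_self, Function.update_of_ne (hne hw')] at huw
      exact absurd huw.symm (hm w hw')
    · rw [Function.update_self, Function.update_of_ne (hne hu')] at huw
      exact absurd huw (hm u hu')
    · rw [Function.update_of_ne (hne hu'), Function.update_of_ne (hne hw')] at huw
      exact h.finj u hu' w hw' huw
  · intro u hu w hw huw
    rcases Finset.mem_insert.1 hu with rfl | hu' <;> rcases Finset.mem_insert.1 hw with rfl | hw'
    · rfl
    · rw [Function.update_self, Function.update_of_ne (hne hw')] at huw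
      exact absurd huw.symm (hm' w hw')
    · rw [Function.update_self, Function.update_of_ne (hne hu')] at huw
      exact absurd huw (hm' u hu')
    · rw [Function.update_of_ne (hne hu'), Function.update_of_ne (hne hw')] at huw
      exact h.ginj u hu' w hw' huw
  · -- edges
    have key : ∀ z ∈ W, G.Adj v z → ∀ p ∈ W, ∀ q ∈ W, G.Adj p q → z ≠ p → z ≠ q →
        SD.Sep (Function.update f v m) v z p q ∨ SD.Sep (Function.update g v m') v z p q := by
      intro z hz hvz p hp q hq hpq h1 h2
      unfold SD.Sep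
      rw [Function.update_self, Function.update_self, Function.update_of_ne (hne hz),
        Function.update_of_ne (hne hp), Function.update_of_ne (hne hq),
        Function.update_of_ne (hne hz), Function.update_of_ne (hne hp),
        Function.update_of_ne (hne hq)]
      rcases hsep z hz hvz p hp q hq hpq h1 h2 with h3 | h3 | h3 | h3
      · exact Or.inl (Or.inl h3)
      · exact Or.inl (Or.inr ⟨h3.1, h3.2.2.1, h3.2.1, h3.2.2.2⟩)
      · exact Or.inr (Or.inl h3)
      · exact Or.inr (Or.inr ⟨h3.1, h3.2.2.1, h3.2.1, h3.2.2.2⟩)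
    intro a ha b hb c hc d hd hab hcd h1 h2 h3 h4
    rcases Finset.mem_insert.1 ha with rfl | ha'
    · -- a = v
      rcases Finset.mem_insert.1 hb with rfl | hb'
      · exact absurd hab (G.irrefl)
      rcases Finset.mem_insert.1 hc with rfl | hc'
      · exact absurd rfl h1
      rcases Finset.mem_insert.1 hd with rfl | hd'
      · exact absurd rfl h2
      exact key b hb' hab c hc' d hd' hcd h3 h4
    rcases Finset.mem_insert.1 hb with rfl | hb'
    · rcases Finset.mem_insert.1 hc with rfl | hc'
      · exact absurd rfl h3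
      rcases Finset.mem_insert.1 hd with rfl | hd'
      · exact absurd rfl h4
      exact (key a ha' hab.symm c hc' d hd' hcd h1 h2).imp SD.Sep.swap_left SD.Sep.swap_left
    rcases Finset.mem_insert.1 hc with rfl | hc'
    · rcases Finset.mem_insert.1 hd with rfl | hd'
      · exact absurd hcd (G.irrefl)
      exact (key d hd' hcd a ha' b hb' hab h2.symm h4.symm).imp SD.Sep.comm SD.Sep.comm
    rcases Finset.mem_insert.1 hd with rfl | hd'
    · exact (key c hc' hcd.symm a ha' b hb' hab h1.symm h3.symm).imp
        (fun h => h.swap_left.comm) (fun h => h.swap_left.comm)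
    · have := h.sep a ha' b hb' c hc' d hd' hab hcd h1 h2 h3 h4
      unfold SD.Sep at this ⊢
      rw [Function.update_of_ne (hne ha'), Function.update_of_ne (hne hb'),
        Function.update_of_ne (hne hc'), Function.update_of_ne (hne hd'),
        Function.update_of_ne (hne ha'), Function.update_of_ne (hne hb'),
        Function.update_of_ne (hne hc'), Function.update_of_ne (hne hd')]
      exact this
  · have key : ∀ z ∈ W, G.Adj v z → ∀ w ∈ W, w ∉ S → w ≠ z →
        SD.Sep (Function.update f v m) v z w w ∨ SD.Sep (Function.update g v m') v z w w := by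
      intro z hz hvz w hw hwS h1
      unfold SD.Sep
      rw [Function.update_self, Function.update_self, Function.update_of_ne (hne hz),
        Function.update_of_ne (hne hw), Function.update_of_ne (hne hz),
        Function.update_of_ne (hne hw)]
      rcases hout z hz hvz w hw hwS h1 with h3 | h3 | h3 | h3
      · exact Or.inl (Or.inl ⟨h3.1, h3.1, h3.2, h3.2⟩)
      · exact Or.inl (Or.inr ⟨h3.1, h3.2, h3.1, h3.2⟩)
      · exact Or.inr (Or.inl ⟨h3.1, h3.1, h3.2, h3.2⟩)
      · exact Or.inr (Or.inr ⟨h3.1, h3.2, h3.1, h3.2⟩)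
    intro a ha b hb w hw hwS hab h1 h2
    rcases Finset.mem_insert.1 hw with rfl | hw'
    · rcases Finset.mem_insert.1 ha with rfl | ha'
      · exact absurd rfl h1
      rcases Finset.mem_insert.1 hb with rfl | hb'
      · exact absurd rfl h2
      unfold SD.Sep
      rw [Function.update_self, Function.update_self, Function.update_of_ne (hne ha'),
        Function.update_of_ne (hne hb'), Function.update_of_ne (hne ha'),
        Function.update_of_ne (hne hb')]
      rcases hnew hwS a ha' b hb' hab with h3 | h3 | h3 | h3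
      · exact Or.inl (Or.inr ⟨h3.1, h3.2, h3.1, h3.2⟩)
      · exact Or.inl (Or.inl ⟨h3.1, h3.1, h3.2, h3.2⟩)
      · exact Or.inr (Or.inr ⟨h3.1, h3.2, h3.1, h3.2⟩)
      · exact Or.inr (Or.inl ⟨h3.1, h3.1, h3.2, h3.2⟩)
    rcases Finset.mem_insert.1 ha with rfl | ha'
    · rcases Finset.mem_insert.1 hb with rfl | hb'
      · exact absurd hab (G.irrefl)
      exact key b hb' hab w hw' hwS h2
    rcases Finset.mem_insert.1 hb with rfl | hb'
    · exact (key a ha' hab.symm w hw' hwS h1).imp SD.Sep.swap_left SD.Sep.swap_left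
    · have := h.out a ha' b hb' w hw' hwS hab h1 h2
      unfold SD.Sep at this ⊢
      rw [Function.update_of_ne (hne ha'), Function.update_of_ne (hne hb'),
        Function.update_of_ne (hne hw'),
        Function.update_of_ne (hne ha'), Function.update_of_ne (hne hb'),
        Function.update_of_ne (hne hw')]
      exact this

theorem Gap.update [DecidableEq V] {W : Finset V} {f g : V → ℝ} {c d w : V} {m m' : ℝ}
    (h : Gap W f g c d) (hc : c ≠ w) (hd : d ≠ w) (hw : w ∉ W) (hm : ¬ (f c < m ∧ m < f d)) :
    Gap (insert w W) (Function.update f w m) (Function.update g w m') c d := by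
  refine ⟨by rw [Function.update_of_ne hc, Function.update_of_ne hd]; exact h.1, ?_⟩
  intro x hx h1 h2
  rw [Function.update_of_ne hc] at h1 ⊢
  rw [Function.update_of_ne hd] at h2 ⊢
  rcases Finset.mem_insert.1 hx with rfl | hx
  · rw [Function.update_self] at h1 h2
    exact absurd ⟨h1, h2⟩ hm
  · have hxw : x ≠ w := fun he => hw (he ▸ hx)
    rw [Function.update_of_ne hxw] at h1 h2 ⊢
    exact h.2 x hx h1 h2

theorem sorted_of_chain {W : Finset V} {f g : V → ℝ} {C : List V} (h : C.IsChain (Gap W f g)) :
    C.Pairwise fun x y => f x < f y := by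
  have h1 : C.IsChain (fun x y => f x < f y) := h.imp fun a b hab => hab.1
  have : IsTrans V (fun x y => f x < f y) := ⟨fun a b c hab hbc => lt_trans hab hbc⟩
  exact List.isChain_iff_pairwise.1 h1

set_option maxHeartbeats 4000000 in
/-- **Insertion of a new vertex in front of a block of the front without interior local maximum.** -/
theorem Swp.insert [DecidableEq V] {G : SimpleGraph V} {W : Finset V} {f g : V → ℝ}
    {X Y I : List V} {i j w : V}
    (h : Swp G W (X ++ i :: (I ++ j :: Y)) f g) (hw : w ∉ W) (hval : Valley g (i :: (I ++ [j])))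
    (hN : ∀ x ∈ W, G.Adj w x → x ∈ i :: (I ++ [j])) :
    ∃ m m' : ℝ, (∀ x ∈ W, g x < m') ∧ f i < m ∧ m < f j ∧
      Swp G (insert w W) (X ++ i :: w :: j :: Y) (Function.update f w m) (Function.update g w m') := by
  obtain ⟨C, hC⟩ : ∃ C, C = X ++ i :: (I ++ j :: Y) := ⟨_, rfl⟩
  obtain ⟨Bl, hBl⟩ : ∃ Bl, Bl = i :: (I ++ [j]) := ⟨_, rfl⟩
  have hCB : C = X ++ Bl ++ Y := by rw [hC, hBl]; simp
  rw [← hC] at h
  rw [← hBl] at hval hN
  have hsort := sorted_of_chain h.chain
  have hBsort : Bl.Pairwise fun x y => f x < f y := by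
    rw [hCB] at hsort
    exact (List.pairwise_append.1 (List.pairwise_append.1 hsort).1).2.1
  have hBW : ∀ x ∈ Bl, x ∈ W := fun x hx => h.sub x (by rw [hCB]; simp [hx])
  have hBC : ∀ x ∈ Bl, x ∈ C := fun x hx => by rw [hCB]; simp [hx]
  have hBne : Bl.Pairwise fun x y => g x ≠ g y := by
    refine hBsort.imp_of_mem fun {x y} hx hy hxy he => ?_
    rw [h.inv.ginj x (hBW x hx) y (hBW y hy) he] at hxy
    exact lt_irrefl _ hxy
  obtain ⟨L, p, q, R, hL0, hL, hLp, hR, hRp⟩ := valley_split g Bl (by rw [hBl]; simp) hBne hval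
  have hchB : (L ++ p :: q :: R).IsChain (Gap W f g) := by
    have h1 := h.chain
    rw [hCB, hL0] at h1
    exact h1.left_of_append.right_of_append
  have hLW : ∀ x ∈ L, x ∈ W := fun x hx => hBW x (by rw [hL0]; simp [hx])
  have hRW : ∀ x ∈ R, x ∈ W := fun x hx => hBW x (by rw [hL0]; simp [hx])
  have hpW : p ∈ W := hBW p (by rw [hL0]; simp)
  have hqW : q ∈ W := hBW q (by rw [hL0]; simp)
  have hpC : p ∈ C := hBC p (by rw [hL0]; simp)
  have hqC : q ∈ C := hBC q (by rw [hL0]; simp)
  have hgap : Gap W f g p q := by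
    have h1 := hchB.right_of_append
    rw [List.isChain_cons_cons] at h1
    exact h1.1
  have hgpq : g p ≠ g q := fun he => by
    rw [h.inv.ginj p hpW q hqW he] at hgap
    exact lt_irrefl _ hgap.1
  -- the new coordinates
  obtain ⟨M, hM⟩ := (W.image g).bddAbove
  have hm' : ∀ x ∈ W, g x < M + 1 := fun x hx => by
    have := hM (Finset.mem_coe.2 (Finset.mem_image_of_mem g hx))
    linarith
  obtain ⟨m, hm1, hm2, hm3, hmne⟩ : ∃ m : ℝ, f p < m ∧ m < f q ∧
      ((g p < g q ∧ ∀ x ∈ W, f p < f x → m < f x) ∨ (g q < g p ∧ ∀ x ∈ W, f x < f q → f x < m)) ∧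
      ∀ x ∈ W, f x ≠ m := by
    rcases lt_or_gt_of_ne hgpq with h1 | h1
    · obtain ⟨m, a1, a2, a3⟩ := exists_above W f p
      exact ⟨m, a1, a2 q hqW hgap.1, Or.inl ⟨h1, a2⟩, a3⟩
    · obtain ⟨m, a1, a2, a3⟩ := exists_below W f q
      exact ⟨m, a2 p hpW hgap.1, a1, Or.inr ⟨h1, a2⟩, a3⟩
  -- box emptiness on the left
  have KL : ∀ z, (z ∈ L ∨ z = p) → (z = p ∨ (f z < f p ∧ g p < g z ∧ g q < g z)) ∧
      ∀ x ∈ W, f z < f x → f x < f q → g x < g z := by
    intro z hz
    rcases hz with hz | rfl
    · obtain ⟨P, Q, rfl⟩ := List.append_of_mem hz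
      have h1 : f z < f p := by
        have h2 := hBsort
        rw [hL0] at h2
        exact (List.pairwise_append.1 h2).2.2 z (by simp) p (by simp)
      have h4 := List.pairwise_append.1 hLp
      refine ⟨Or.inr ⟨h1, (hL z (by simp)).1, (hL z (by simp)).2⟩, ?_⟩
      refine between h.inv.finj (Q ++ [p]) z q ?_ ?_ ?_ ?_
      · have h2 : P ++ z :: Q ++ p :: q :: R = P ++ (z :: (Q ++ [p] ++ [q]) ++ R) := by simp
        rw [h2] at hchB
        exact hchB.right_of_append.left_of_append
      · intro y hy
        rcases List.mem_append.1 hy with hy | hy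
        · exact hLW y (by simp [hy])
        · rw [List.mem_singleton.1 hy]; exact hpW
      · intro y hy
        rcases List.mem_append.1 hy with hy | hy
        · exact List.rel_of_pairwise_cons h4.2.1 hy
        · rw [List.mem_singleton.1 hy]; exact (hL z (by simp)).1
      · refine List.pairwise_append.2 ⟨h4.2.1.of_cons, by simp, fun a ha b hb => ?_⟩
        rw [List.mem_singleton.1 hb]
        exact (hL a (by simp [ha])).1
    · exact ⟨Or.inl rfl, fun x hx h1 h2 => (hgap.2 x hx h1 h2).1⟩
  -- box emptiness on the right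
  have KR : ∀ z, (z ∈ R ∨ z = q) → (z = q ∨ (f q < f z ∧ g q < g z ∧ g p < g z)) ∧
      ∀ x ∈ W, f p < f x → f x < f z → g x < g z := by
    intro z hz
    rcases hz with hz | rfl
    · obtain ⟨P, Q, rfl⟩ := List.append_of_mem hz
      have h1 : f q < f z := by
        have h2 := hBsort
        rw [hL0] at h2
        have h3 := (List.pairwise_append.1 h2).2.1.of_cons
        exact List.rel_of_pairwise_cons h3 (by simp)
      have h4 := List.pairwise_append.1 hRp
      refine ⟨Or.inr ⟨h1, (hR z (by simp)).2, (hR z (by simp)).1⟩, ?_⟩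
      refine between' h.inv.finj (q :: P) z p ?_ ?_ ?_ ?_
      · have h2 : L ++ p :: q :: (P ++ z :: Q) = L ++ (p :: (q :: P ++ [z]) ++ Q) := by simp
        rw [h2] at hchB
        exact hchB.right_of_append.left_of_append
      · intro y hy
        rcases List.mem_cons.1 hy with rfl | hy
        · exact hqW
        · exact hRW y (by simp [hy])
      · intro y hy
        rcases List.mem_cons.1 hy with rfl | hy
        · exact (hR z (by simp)).2
        · exact h4.2.2 y hy z (by simp)
      · exact List.pairwise_cons.2 ⟨fun y hy => (hR y (by simp [hy])).2, h4.1⟩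
    · exact ⟨Or.inl rfl, fun x hx h1 h2 => (hgap.2 x hx h1 h2).2⟩
  have hBcase : ∀ x ∈ Bl, (x ∈ L ∨ x = p) ∨ (x ∈ R ∨ x = q) := by
    intro x hx
    rw [hL0] at hx
    simp only [List.mem_append, List.mem_cons] at hx
    tauto
  have hfp : ∀ z, (z ∈ L ∨ z = p) → f z ≤ f p := by
    intro z hz
    rcases (KL z hz).1 with h1 | h1
    · rw [h1]
    · exact h1.1.le
  have hfq : ∀ z, (z ∈ R ∨ z = q) → f q ≤ f z := by
    intro z hz
    rcases (KR z hz).1 with h1 | h1
    · rw [h1]
    · exact h1.1.le
  have hiB : i ∈ Bl := by rw [hBl]; simp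
  have hjB : j ∈ Bl := by rw [hBl]; simp
  have hiL : i ∈ L ∨ i = p := by
    cases L with
    | nil =>
      rw [hL0] at hBl
      simp only [List.nil_append, List.cons.injEq] at hBl
      exact Or.inr hBl.1.symm
    | cons a L =>
      rw [hL0] at hBl
      simp only [List.cons_append, List.cons.injEq] at hBl
      exact Or.inl (by rw [← hBl.1]; simp)
  have hjR : j ∈ R ∨ j = q := by
    rcases List.eq_nil_or_concat R with rfl | ⟨R', b, rfl⟩
    · rw [hL0] at hBl
      have h1 : (L ++ [p]) ++ [q] = (i :: I) ++ [j] := by simpa using hBl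
      exact Or.inr (List.append_inj_right' h1 rfl |> fun h => by simpa using h.symm)
    · rw [hL0] at hBl
      have h1 : (L ++ p :: q :: R') ++ [b] = (i :: I) ++ [j] := by simpa using hBl
      have h2 := List.append_inj_right' h1 rfl
      simp only [List.cons.injEq, and_true] at h2
      exact Or.inl (by rw [← h2]; simp)
  have him : f i < m := (hfp i hiL).trans_lt hm1
  have hmj : m < f j := hm2.trans_le (hfq j hjR)
  have hvis : ∀ x ∈ C, ∀ a ∈ W, ∀ b ∈ W, G.Adj a b → f a < f x → f x < f b → g a < g x ∧ g b < g x :=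
    fun x hx a ha b hb hab => h.vis a ha b hb hab x hx
  refine ⟨m, M + 1, hm', him, hmj, ?_⟩
  have hne : ∀ {x : V}, x ∈ W → x ≠ w := fun hx he => hw (he ▸ hx)
  refine ⟨?_, ?_, ?_, ?_⟩
  · -- strictness
    refine inv_insert h.inv hw m (M + 1) ?_ hmne (fun x hx => (hm' x hx).ne) ?_ ?_
    · intro _ a ha b hb _
      exact Or.inr (Or.inr (Or.inr ⟨hm' a ha, hm' b hb⟩))
    · intro z hz hwz a ha b hb hab hza hzb
      rcases hBcase z (hN z hz hwz) with hz' | hz'
      · refine sepSide h.inv.finj h.inv.ginj hz hpW hqW (KL z hz').1 hm' hm1 hm2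
          (fun x hx h1 h2 => (KL z hz').2 x hx h1 (h2.trans hm2)) ?_ hgap.2 hm3 ha hb hab hza hzb
        rintro x (rfl | rfl | rfl)
        · exact hvis x (hBC x (hN x hz hwz))
        · exact hvis x hpC
        · exact hvis x hqC
      · have h5 := sepSide (G := G) (W := W) (f := fun v => -f v) (g := g) (z := z) (p := q) (q := p)
          (m := -m) (m' := M + 1) (fun u hu v hv huv => h.inv.finj u hu v hv (neg_injective huv))
          h.inv.ginj hz hqW hpW
          ((KR z hz').1.imp id fun h6 => ⟨neg_lt_neg h6.1, h6.2.1, h6.2.2⟩) hm' (neg_lt_neg hm2)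
          (neg_lt_neg hm1)
          (fun x hx h1 h2 => (KR z hz').2 x hx (hm1.trans (neg_lt_neg_iff.1 h2)) (neg_lt_neg_iff.1 h1))
          (by
            intro x hx a ha b hb hab h1 h2
            have hxC : x ∈ C := by
              rcases hx with rfl | rfl | rfl
              · exact hBC x (hN x hz hwz)
              · exact hqC
              · exact hpC
            exact (hvis x hxC b hb a ha hab.symm (neg_lt_neg_iff.1 h2) (neg_lt_neg_iff.1 h1)).symm)
          (fun x hx h1 h2 => (hgap.2 x hx (neg_lt_neg_iff.1 h2) (neg_lt_neg_iff.1 h1)).symm)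
          (by
            rcases hm3 with h6 | h6
            · exact Or.inr ⟨h6.1, fun x hx h7 => neg_lt_neg (h6.2 x hx (neg_lt_neg_iff.1 h7))⟩
            · exact Or.inl ⟨h6.1, fun x hx h7 => neg_lt_neg (h6.2 x hx (neg_lt_neg_iff.1 h7))⟩)
          ha hb hab hza hzb
        simp only [neg_lt_neg_iff] at h5
        rcases h5 with h5 | h5 | h5 | h5
        · exact Or.inr (Or.inl h5)
        · exact Or.inl h5
        · exact Or.inr (Or.inr (Or.inl h5))
        · exact Or.inr (Or.inr (Or.inr h5))
    · intro z hz hwz x hx _ hxz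
      have hzx : f z ≠ f x := fun he => hxz (h.inv.finj z hz x hx he).symm
      have hgzx : g z ≠ g x := fun he => hxz (h.inv.ginj z hz x hx he).symm
      have hmx : m ≠ f x := fun he => hmne x hx he.symm
      rcases lt_or_gt_of_ne hgzx with h1 | h1
      swap
      · exact Or.inr (Or.inr (Or.inr ⟨hm' x hx, h1⟩))
      rcases hBcase z (hN z hz hwz) with hz' | hz'
      · rcases lt_or_gt_of_ne hzx with h2 | h2
        · rcases lt_or_gt_of_ne hmx with h3 | h3
          · exact Or.inl ⟨h3, h2⟩
          · exact absurd ((KL z hz').2 x hx h2 (h3.trans hm2)) (not_lt.2 h1.le)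
        · exact Or.inr (Or.inl ⟨h2.trans ((hfp z hz').trans_lt hm1), h2⟩)
      · rcases lt_or_gt_of_ne hzx with h2 | h2
        · exact Or.inl ⟨hm2.trans_le ((hfq z hz').trans h2.le), h2⟩
        · rcases lt_or_gt_of_ne hmx with h3 | h3
          · exact absurd ((KR z hz').2 x hx (hm1.trans h3) h2) (not_lt.2 h1.le)
          · exact Or.inr (Or.inl ⟨h3, h2⟩)
  · intro x hx
    simp only [List.mem_append, List.mem_cons] at hx
    rcases hx with hx | rfl | rfl | rfl | hx
    · exact Finset.mem_insert_of_mem (h.sub x (by rw [hC]; simp [hx]))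
    · exact Finset.mem_insert_of_mem (hBW x hiB)
    · exact Finset.mem_insert_self _ _
    · exact Finset.mem_insert_of_mem (hBW x hjB)
    · exact Finset.mem_insert_of_mem (h.sub x (by rw [hC]; simp [hx]))
  · -- the front
    have hch := h.chain
    rw [hC] at hch
    have h1 : (X ++ [i]).IsChain (Gap W f g) := by
      have h2 : X ++ i :: (I ++ j :: Y) = (X ++ [i]) ++ (I ++ j :: Y) := by simp
      rw [h2] at hch
      exact hch.left_of_append
    have h2 : (j :: Y).IsChain (Gap W f g) := by
      have h3 : X ++ i :: (I ++ j :: Y) = (X ++ i :: I) ++ (j :: Y) := by simp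
      rw [h3] at hch
      exact hch.right_of_append
    rw [hC] at hsort
    have hXi : ∀ x ∈ X, f x < f i := fun x hx => (List.pairwise_append.1 hsort).2.2 x hx i (by simp)
    have hYj : ∀ x ∈ Y, f j < f x := by
      intro x hx
      have h3 : X ++ i :: (I ++ j :: Y) = (X ++ i :: I) ++ (j :: Y) := by simp
      rw [h3] at hsort
      exact List.rel_of_pairwise_cons (List.pairwise_append.1 hsort).2.1 hx
    have hXW : ∀ x ∈ X, x ∈ W := fun x hx => h.sub x (by rw [hC]; simp [hx])
    have hYW : ∀ x ∈ Y, x ∈ W := fun x hx => h.sub x (by rw [hC]; simp [hx])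
    have hC2 : X ++ i :: w :: j :: Y = (X ++ [i]) ++ (w :: j :: Y) := by simp
    rw [hC2, List.isChain_append]
    refine ⟨?_, ?_, ?_⟩
    · refine List.IsChain.imp_of_mem_imp (fun a b ha hb hab => ?_) h1
      have h3 : ∀ x ∈ X ++ [i], x ∈ W ∧ f x ≤ f i := by
        intro x hx
        rcases List.mem_append.1 hx with hx | hx
        · exact ⟨hXW x hx, (hXi x hx).le⟩
        · rw [List.mem_singleton.1 hx]; exact ⟨hBW i hiB, le_rfl⟩
      exact hab.update (hne (h3 a ha).1) (hne (h3 b hb).1) hw
        (fun h4 => lt_irrefl _ (h4.2.trans_le ((h3 b hb).2.trans him.le)))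
    · rw [List.isChain_cons_cons]
      constructor
      · refine ⟨?_, ?_⟩
        · rw [Function.update_self, Function.update_of_ne (hne (hBW j hjB))]
          exact hmj
        · intro x hx h3 h4
          rw [Function.update_self] at h3 ⊢
          rw [Function.update_of_ne (hne (hBW j hjB))] at h4 ⊢
          rcases Finset.mem_insert.1 hx with rfl | hx
          · rw [Function.update_self] at h3
            exact absurd h3 (lt_irrefl _)
          · rw [Function.update_of_ne (hne hx)] at h3 h4 ⊢
            exact ⟨hm' x hx, (KR j hjR).2 x hx (hm1.trans h3) h4⟩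
      · refine List.IsChain.imp_of_mem_imp (fun a b ha hb hab => ?_) h2
        have h3 : ∀ x ∈ j :: Y, x ∈ W ∧ f j ≤ f x := by
          intro x hx
          rcases List.mem_cons.1 hx with rfl | hx
          · exact ⟨hBW x hjB, le_rfl⟩
          · exact ⟨hYW x hx, (hYj x hx).le⟩
        exact hab.update (hne (h3 a ha).1) (hne (h3 b hb).1) hw
          (fun h4 => lt_irrefl _ ((h4.1.trans hmj).trans_le (h3 a ha).2))
    · intro a ha b hb
      simp only [List.getLast?_append, List.getLast?_singleton, Option.some_or,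
        Option.mem_def, Option.some.injEq, List.head?_cons] at ha hb
      subst ha; subst hb
      refine ⟨?_, ?_⟩
      · rw [Function.update_self, Function.update_of_ne (hne (hBW i hiB))]
        exact him
      · intro x hx h3 h4
        rw [Function.update_self] at h4 ⊢
        rw [Function.update_of_ne (hne (hBW i hiB))] at h3 ⊢
        rcases Finset.mem_insert.1 hx with rfl | hx
        · rw [Function.update_self] at h4
          exact absurd h4 (lt_irrefl _)
        · rw [Function.update_of_ne (hne hx)] at h3 h4 ⊢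
          exact ⟨(KL i hiL).2 x hx h3 (h4.trans hm2), hm' x hx⟩
  · -- visibility
    have hCs : ∀ x ∈ X ++ i :: w :: j :: Y, x = w ∨ (x ∈ C ∧ x ∈ W ∧ (f x ≤ f i ∨ f j ≤ f x)) := by
      rw [hC] at hsort
      intro x hx
      simp only [List.mem_append, List.mem_cons] at hx
      rcases hx with hx | rfl | rfl | rfl | hx
      · exact Or.inr ⟨by rw [hC]; simp [hx], h.sub x (by rw [hC]; simp [hx]),
          Or.inl ((List.pairwise_append.1 hsort).2.2 x hx i (by simp)).le⟩
      · exact Or.inr ⟨hBC x hiB, hBW x hiB, Or.inl le_rfl⟩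
      · exact Or.inl rfl
      · exact Or.inr ⟨hBC x hjB, hBW x hjB, Or.inr le_rfl⟩
      · refine Or.inr ⟨by rw [hC]; simp [hx], h.sub x (by rw [hC]; simp [hx]), Or.inr ?_⟩
        have h3 : X ++ i :: (I ++ j :: Y) = (X ++ i :: I) ++ (j :: Y) := by simp
        rw [h3] at hsort
        exact (List.rel_of_pairwise_cons (List.pairwise_append.1 hsort).2.1 hx).le
    have hBij : ∀ b ∈ Bl, f i ≤ f b ∧ f b ≤ f j := by
      intro b hb
      rw [hBl] at hb hBsort
      constructor
      · rcases List.mem_cons.1 hb with rfl | hb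
        · exact le_rfl
        · exact (List.rel_of_pairwise_cons hBsort hb).le
      · have h3 : i :: (I ++ [j]) = (i :: I) ++ [j] := rfl
        rw [h3] at hb hBsort
        rcases List.mem_append.1 hb with hb | hb
        · exact ((List.pairwise_append.1 hBsort).2.2 b hb j (by simp)).le
        · rw [List.mem_singleton.1 hb]
    intro a ha b hb hab x hx h1 h2
    rcases Finset.mem_insert.1 ha with rfl | ha'
    · rcases Finset.mem_insert.1 hb with rfl | hb'
      · exact absurd hab (G.irrefl)
      exfalso
      have hb3 := hBij b (hN b hb' hab)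
      rcases hCs x hx with rfl | ⟨-, hxW, hx3⟩
      · exact lt_irrefl _ h1
      rw [Function.update_self, Function.update_of_ne (hne hxW)] at h1
      rw [Function.update_of_ne (hne hxW), Function.update_of_ne (hne hb')] at h2
      rcases hx3 with h4 | h4
      · exact lt_irrefl _ ((h1.trans_le h4).trans him)
      · exact lt_irrefl _ (h2.trans_le (hb3.2.trans h4))
    rcases Finset.mem_insert.1 hb with rfl | hb'
    · exfalso
      have hb3 := hBij a (hN a ha' hab.symm)
      rcases hCs x hx with rfl | ⟨-, hxW, hx3⟩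
      · exact lt_irrefl _ h2
      rw [Function.update_self, Function.update_of_ne (hne hxW)] at h2
      rw [Function.update_of_ne (hne hxW), Function.update_of_ne (hne ha')] at h1
      rcases hx3 with h4 | h4
      · exact lt_irrefl _ (h1.trans_le (h4.trans hb3.1))
      · exact lt_irrefl _ ((hmj.trans_le h4).trans h2)
    rw [Function.update_of_ne (hne ha')] at h1 ⊢
    rw [Function.update_of_ne (hne hb')] at h2 ⊢
    rcases hCs x hx with rfl | ⟨hxC, hxW, -⟩
    · rw [Function.update_self]
      exact ⟨hm' a ha', hm' b hb'⟩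
    · rw [Function.update_of_ne (hne hxW)] at h1 h2 ⊢
      exact h.vis a ha' b hb' hab x hxC h1 h2

end Pool.Agent.E8helper59.PT
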