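import Pool.Agent.E8helper59.PT.Remove
import Pool.Agent.E8helper59.PT.Sweep

set_option autoImplicit false
set_option linter.unusedSectionVars false

/-!
# Triangulations: the sweep
-/

namespace Pool.Agent.E8helper59.PT

open Pool.Agent.E8helper59.SD

variable {U : Type} {G : SimpleGraph U} {rot : U → Equiv.Perm U} {R : Finset U} [Fintype U]
  [DecidableEq U]

/-- Output of the sweep. -/
structure Out (G : SimpleGraph U) (R : Finset U) (v1 : U) (L : List U) (f g : U → ℝ) : Prop where
  swp : Swp G Rᶜ L f g
  corner : ∀ x, x ∉ R → x ≠ v1 → f v1 < f x ∧ g v1 < g x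

/-- locked vertices are not local maxima -/
def LM (G : SimpleGraph U) (R : Finset U) (L : List U) (g : U → ℝ) : Prop :=
  ∀ X a x b Y, L = X ++ a :: x :: b :: Y → Locked G R x → g x < g a ∨ g x < g b

theorem swp_base {v1 v2 : U} (hne : v1 ≠ v2) : Swp G {v1, v2} ([] ++ v1 :: ([] ++ v2 :: []))
    (fun x => if x = v2 then 1 else 0) (fun x => if x = v2 then 1 else 0) := by
  have h01 : ∀ x : U, (if x = v2 then (1 : ℝ) else 0) = 1 ∨ (if x = v2 then (1 : ℝ) else 0) = 0 := by
    intro x; by_cases h : x = v2 <;> simp [h]
  refine ⟨⟨?_, ?_, ?_, ?_⟩, ?_, ?_, ?_⟩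
  · intro u hu v hv huv
    simp only [Finset.mem_insert, Finset.mem_singleton] at hu hv
    rcases hu with rfl | rfl <;> rcases hv with rfl | rfl <;> simp_all
  · intro u hu v hv huv
    simp only [Finset.mem_insert, Finset.mem_singleton] at hu hv
    rcases hu with rfl | rfl <;> rcases hv with rfl | rfl <;> simp_all
  · intro a ha b hb c hc d hd hab hcd h1 h2 h3 h4
    exfalso
    simp only [Finset.mem_insert, Finset.mem_singleton] at ha hb hc
    have := hab.ne
    rcases ha with rfl | rfl <;> rcases hb with rfl | rfl <;> rcases hc with rfl | rfl <;> simp_all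
  · intro a ha b hb c hc _ hab h1 h2
    exfalso
    simp only [Finset.mem_insert, Finset.mem_singleton] at ha hb hc
    have := hab.ne
    rcases ha with rfl | rfl <;> rcases hb with rfl | rfl <;> rcases hc with rfl | rfl <;> simp_all
  · intro x hx
    simpa using hx
  · simp only [List.nil_append, List.isChain_pair]
    refine ⟨by simp [hne], ?_⟩
    intro x _ h1 h2
    exfalso
    simp only [if_neg hne, if_true] at h1 h2
    rcases h01 x with h | h <;> rw [h] at h1 h2 <;> linarith
  · intro a _ b _ _ x _ h1 h2
    exfalso
    rcases h01 a with h | h <;> rcases h01 b with h' | h' <;> rcases h01 x with h'' | h'' <;>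
      rw [h, h''] at h1 <;> rw [h', h''] at h2 <;> linarith

theorem State.step {v1 v2 : U} {L : List U} (hT : Tri G rot)
    (h : State G rot R v1 v2 L) {P Q : List U} {i w j : U} (hL : L = P ++ i :: w :: j :: Q)
    (hch : ∀ z ∈ L, G.Adj w z → z = i ∨ z = j)
    (ih : ∀ L', State G rot (insert w R) v1 v2 L' → ∃ f g, Out G (insert w R) v1 L' f g ∧
      LM G (insert w R) L' g) :
    ∃ f g, Out G R v1 L f g ∧ (∀ X a x b Y, L = X ++ a :: x :: b :: Y → x ≠ w → Locked G R x →
      g x < g a ∨ g x < g b) ∧ ∀ x, x ∉ R → x ≠ w → g x < g w := by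
  have hwL : w ∈ L := by rw [hL]; simp
  have hwR := h.notR w hwL
  have hnd := h.nodup
  have h12 := h.adj12.ne
  rcases h.remove hT hL hch with ⟨hL3, hall⟩ | ⟨N, hS, hN, hNw⟩
  · -- the last vertex
    have hne : w ≠ v1 ∧ w ≠ v2 := by
      rw [hL3] at hnd
      simp at hnd
      tauto
    have hv1R : v1 ∉ R := h.notR v1 (by rw [hL3]; simp)
    have hv2R : v2 ∉ R := h.notR v2 (by rw [hL3]; simp)
    obtain ⟨m, m', h1, h2, h3, h4⟩ := (swp_base (G := G) h12).insert (w := w)
      (by simp [hne.1, hne.2]) (by
        intro A B x y z hl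
        have := congrArg List.length hl
        simp at this
        omega) (by intro x hx _; simpa using hx)
    have hW : insert w ({v1, v2} : Finset U) = Rᶜ := by
      ext x
      simp only [Finset.mem_insert, Finset.mem_singleton, Finset.mem_compl]
      constructor
      · rintro (rfl | rfl | rfl)
        · exact hwR
        · exact hv1R
        · exact hv2R
      · intro hx
        rcases hall x with h5 | h5 | h5 | h5
        · exact absurd h5 hx
        · exact Or.inr (Or.inl h5)
        · exact Or.inl h5
        · exact Or.inr (Or.inr h5)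
    rw [hW] at h4
    simp only [List.nil_append] at h4
    rw [← hL3] at h4
    have e1 : (if v1 = v2 then (1 : ℝ) else 0) = 0 := if_neg h12
    simp only [e1, if_true] at h2 h3
    have g1 := h1 v1 (by simp)
    have g2 := h1 v2 (by simp)
    simp only [e1, if_true] at g1 g2
    have hx3 : ∀ x, x ∉ R → x = w ∨ x = v1 ∨ x = v2 := by
      intro x hx
      rcases hall x with h5 | h5 | h5 | h5
      · exact absurd h5 hx
      · exact Or.inr (Or.inl h5)
      · exact Or.inl h5
      · exact Or.inr (Or.inr h5)
    refine ⟨_, _, ⟨h4, ?_⟩, ?_, ?_⟩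
    · intro x hx hx1
      rw [Function.update_of_ne hne.1.symm, Function.update_of_ne hne.1.symm]
      rcases hx3 x hx with rfl | rfl | rfl
      · rw [Function.update_self, Function.update_self]
        simp only [e1]
        exact ⟨h2, by linarith⟩
      · exact absurd rfl hx1
      · rw [Function.update_of_ne hne.2.symm, Function.update_of_ne hne.2.symm]
        simp [e1]
    · intro X a x b Y hX hxw
      exfalso
      rw [hL3] at hX
      have h5 := congrArg List.length hX
      simp at h5
      have h6 : X = [] := List.length_eq_zero_iff.1 (by omega)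
      subst h6
      simp only [List.nil_append, List.cons.injEq] at hX
      exact hxw hX.2.1.symm
    · intro x hx hxw
      rw [Function.update_self, Function.update_of_ne hxw]
      rcases hx3 x hx with rfl | rfl | rfl
      · exact absurd rfl hxw
      · simp only [e1]; exact g1
      · simp only [if_true]; exact g2
  · obtain ⟨f, g, hO, hLM⟩ := ih _ hS
    have hcompl : insert w (insert w R)ᶜ = Rᶜ := by
      ext x
      simp only [Finset.mem_insert, Finset.mem_compl, not_or]
      by_cases hx : x = w
      · subst hx; simp [hwR]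
      · simp [hx]
    have hwc : w ∉ (insert w R)ᶜ := by simp
    obtain ⟨m, m', h1, h2, h3, h4⟩ := hO.swp.insert hwc (by
      intro A B x y z hl
      have hyN : y ∈ N := by
        have e1 : (i :: N) ++ [j] = (A ++ [x, y]) ++ (z :: B) := by
          rw [List.cons_append, hl]; simp
        obtain ⟨B', b, hB⟩ := snoc_of_cons z B
        rw [hB, ← List.append_assoc] at e1
        have e2 := List.append_inj_left' e1 rfl
        cases A with
        | nil =>
          simp only [List.nil_append, List.cons_append, List.cons.injEq] at e2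
          rw [e2.2]; simp
        | cons a A =>
          simp only [List.cons_append, List.cons.injEq] at e2
          rw [e2.2]; simp
      refine hLM (P ++ A) x y z (B ++ Q) ?_ ⟨w, Finset.mem_insert_self _ _, (hN y hyN).2.2⟩
      calc P ++ i :: (N ++ j :: Q) = P ++ (i :: (N ++ [j])) ++ Q := by simp
        _ = _ := by rw [hl]; simp) (by
      intro x hx hwx
      exact hNw x (by simpa using hx) hwx)
    rw [hcompl, ← hL] at h4
    have hne : ∀ {x : U}, x ∉ insert w R → x ≠ w := fun hx he => hx (by simp [he])
    have hv1R : v1 ∉ insert w R := by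
      obtain ⟨T, hT1⟩ := hS.hd
      exact hS.notR v1 (by rw [hT1]; simp)
    have hiR : i ∉ insert w R := hS.notR i (by simp)
    have hx2 : ∀ x, x ∉ R → x ≠ w → x ∉ insert w R := by
      intro x hx hxw
      simp [hx, hxw]
    refine ⟨_, _, ⟨h4, ?_⟩, ?_, ?_⟩
    · intro x hx hx1
      rw [Function.update_of_ne (hne hv1R), Function.update_of_ne (hne hv1R)]
      by_cases hxw : x = w
      · subst hxw
        rw [Function.update_self, Function.update_self]
        refine ⟨?_, h1 v1 (Finset.mem_compl.2 hv1R)⟩
        by_cases hi : i = v1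
        · rw [← hi]; exact h2
        · exact (hO.corner i hiR hi).1.trans h2
      · rw [Function.update_of_ne hxw, Function.update_of_ne hxw]
        exact hO.corner x (hx2 x hx hxw) hx1
    · intro X a x b Y hX hxw hlock
      have hxL : x ∈ L := by rw [hX]; simp
      have haL : a ∈ L := by rw [hX]; simp
      have hbL : b ∈ L := by rw [hX]; simp
      have hxR := h.notR x hxL
      by_cases haw : a = w
      · left
        rw [haw, Function.update_self, Function.update_of_ne hxw]
        exact h1 x (Finset.mem_compl.2 (hx2 x hxR hxw))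
      by_cases hbw : b = w
      · right
        rw [hbw, Function.update_self, Function.update_of_ne hxw]
        exact h1 x (Finset.mem_compl.2 (hx2 x hxR hxw))
      rw [Function.update_of_ne hxw, Function.update_of_ne haw, Function.update_of_ne hbw]
      -- the triple is in the old contour
      have hnx : ∀ (hxi : x ≠ i) (hxj : x ≠ j), Locked G (insert w R) x := by
        intro hxi hxj
        obtain ⟨r, hr, hr'⟩ := hlock
        refine ⟨r, Finset.mem_insert_of_mem hr, ?_⟩
        intro y hy hxy
        rcases Finset.mem_insert.1 hy with h5 | h5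
        · rw [h5] at hxy
          rcases hch x hxL hxy.symm with h6 | h6
          · exact absurd h6 hxi
          · exact absurd h6 hxj
        · exact hr' y h5 hxy
      have hX2 : X ++ (a :: x :: b :: Y) = (P ++ [i]) ++ (w :: j :: Q) := by
        rw [← hX, hL]; simp
      rw [hL] at hnd
      rcases List.append_eq_append_iff.1 hX2 with ⟨as', e1, e2⟩ | ⟨cs', e1, e2⟩
      · cases as' with
        | nil =>
          simp only [List.nil_append, List.cons.injEq] at e2
          exact absurd e2.1 haw
        | cons c1 as' =>
          cases as' with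
          | nil =>
            simp only [List.cons_append, List.nil_append, List.cons.injEq] at e2
            exact absurd e2.2.1 hxw
          | cons c2 as' =>
            cases as' with
            | nil =>
              simp only [List.cons_append, List.nil_append, List.cons.injEq] at e2
              exact absurd e2.2.2.1 hbw
            | cons c3 as' =>
              simp only [List.cons_append, List.cons.injEq] at e2
              obtain ⟨rfl, rfl, rfl, -⟩ := e2
              have hxP : x ∈ P := by
                obtain ⟨Z, c', hZ⟩ := snoc_of_cons b as'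
                rw [hZ] at e1
                have e3 : P ++ [i] = (X ++ a :: x :: Z) ++ [c'] := by rw [e1]; simp
                rw [List.append_inj_left' e3 rfl]; simp
              have hxi : x ≠ i := (List.nodup_append.1 hnd).2.2 x hxP i (by simp)
              have hxj : x ≠ j := (List.nodup_append.1 hnd).2.2 x hxP j (by simp)
              refine hLM X a x b (as' ++ (N ++ j :: Q)) ?_ (hnx hxi hxj)
              calc P ++ i :: (N ++ j :: Q) = (P ++ [i]) ++ (N ++ j :: Q) := by simp
                _ = _ := by rw [e1]; simp
      · cases cs' with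
        | nil =>
          simp only [List.nil_append, List.cons.injEq] at e2
          exact absurd e2.1.symm haw
        | cons c cs' =>
          simp only [List.cons_append, List.cons.injEq] at e2
          obtain ⟨-, e2⟩ := e2
          have hxQ : x ∈ Q := by
            cases cs' with
            | nil =>
              simp only [List.nil_append, List.cons.injEq] at e2
              rw [e2.2]; simp
            | cons c' cs' =>
              simp only [List.cons_append, List.cons.injEq] at e2
              rw [e2.2]; simp
          have h7 := (List.nodup_append.1 hnd).2.1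
          have h8 := List.nodup_cons.1 h7
          have h9 := List.nodup_cons.1 h8.2
          have h10 := List.nodup_cons.1 h9.2
          have hxi : x ≠ i := by rintro rfl; exact h8.1 (by simp [hxQ])
          have hxj : x ≠ j := by rintro rfl; exact h10.1 hxQ
          refine hLM (P ++ i :: (N ++ cs')) a x b Y ?_ (hnx hxi hxj)
          rw [e2]; simp
    · intro x hx hxw
      rw [Function.update_self, Function.update_of_ne hxw]
      exact h1 x (Finset.mem_compl.2 (hx2 x hx hxw))

theorem State.sweep (hT : Tri G rot) : ∀ (n : ℕ) (R : Finset U) (v1 v2 : U) (L : List U),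
    Rᶜ.card = n → State G rot R v1 v2 L → (∀ r ∈ R, ∃ r' ∈ R, G.Adj r r') →
    ∃ f g, Out G R v1 L f g ∧ LM G R L g := by
  intro n
  induction n with
  | zero =>
    intro R v1 v2 L hn h _
    exfalso
    obtain ⟨T, hT1⟩ := h.hd
    have h1 := h.notR v1 (by rw [hT1]; simp)
    rw [Finset.card_eq_zero] at hn
    have h2 : v1 ∈ Rᶜ := Finset.mem_compl.2 h1
    rw [hn] at h2
    simp at h2
  | succ n ih =>
    intro R v1 v2 L hn h hR
    obtain ⟨P, i, w, j, Q, hL, hch, hlock⟩ := h.exists_removable hT hR
    have hwL : w ∈ L := by rw [hL]; simp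
    have hwR := h.notR w hwL
    have hcompl : insert w (insert w R)ᶜ = Rᶜ := by
      ext x
      simp only [Finset.mem_insert, Finset.mem_compl, not_or]
      by_cases hx : x = w
      · subst hx; simp [hwR]
      · simp [hx]
    obtain ⟨f, g, h1, h2, -⟩ := h.step hT hL hch (fun L' hS => ih (insert w R) v1 v2 L' (by
      rw [← hcompl, Finset.card_insert_of_notMem (by simp)] at hn
      omega) hS (by
      obtain ⟨r, hr, hwr⟩ := h.hasR hwL
      intro x hx
      rcases Finset.mem_insert.1 hx with h5 | h5
      · exact ⟨r, Finset.mem_insert_of_mem hr, h5 ▸ hwr⟩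
      · obtain ⟨r', h6, h7⟩ := hR x h5
        exact ⟨r', Finset.mem_insert_of_mem h6, h7⟩))
    refine ⟨f, g, h1, ?_⟩
    intro X a x b Y hX hlx
    refine h2 X a x b Y hX ?_ hlx
    rintro rfl
    exact hlock hlx

theorem arc_single (hT : Tri G rot) {R' : Finset U} {n w i c : U} (hw : w ∈ R')
    (f1 : rot n i = w) (f2 : rot n w = c) (hic : i ≠ c) (hni : G.Adj n i)
    (hloc : ∀ y ∈ R', G.Adj n y → y = w) : ArcAt G rot R' i n c := by
  obtain ⟨l, hl⟩ := hT.exists_cycL hni
  have h1 := hl.chain
  have hiw : i ≠ w := by
    rintro rfl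
    exact hic (f1.symm.trans f2)
  cases l with
  | nil =>
    exfalso
    simp only [List.nil_append, List.isChain_pair] at h1
    rw [f1] at h1
    exact hiw h1.symm
  | cons a l =>
    simp only [List.cons_append, List.isChain_cons_cons] at h1
    have ha : a = w := by rw [← h1.1, f1]
    subst ha
    cases l with
    | nil =>
      exfalso
      simp only [List.nil_append, List.isChain_pair] at h1
      rw [f2] at h1
      exact hic h1.2.symm
    | cons b l =>
      simp only [List.cons_append, List.isChain_cons_cons] at h1
      have hb2 : b = c := by rw [← h1.2.1, f2]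
      subst hb2
      refine ⟨[a], l, hl, by simp, by simpa using hw, ?_⟩
      intro x hx hxR
      have h2 := hloc x hxR ((hl.mem x).1 (by simp [hx]))
      have h3 := hl.nodup
      rw [← h2] at h3
      simp [hx] at h3

/-- the first state -/
theorem State.init (hT : Tri G rot) {t v1 : U} {c1 c2 : U} {I : List U}
    (hc : CycL G rot t (rot t v1) (I ++ [c2, c1, v1])) :
    State G rot {t} v1 (rot t v1) (v1 :: c1 :: c2 :: (I.reverse ++ [rot t v1])) := by
  have htv : G.Adj t v1 := (hc.mem v1).1 (by simp)
  obtain ⟨v2, hv2⟩ : ∃ v2, v2 = rot t v1 := ⟨_, rfl⟩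
  rw [← hv2] at hc ⊢
  obtain ⟨L, hL⟩ : ∃ L, L = v1 :: c1 :: c2 :: (I.reverse ++ [v2]) := ⟨_, rfl⟩
  rw [← hL]
  have hrev : L = (v2 :: (I ++ [c2, c1, v1])).reverse := by rw [hL]; simp
  have hmem : ∀ x, x ∈ L ↔ G.Adj t x := by
    intro x
    rw [hrev, List.mem_reverse]
    exact hc.mem x
  have hnt : ∀ x ∈ L, x ≠ t := fun x hx he => ((hmem x).1 hx).ne he.symm
  have hLc : L.IsChain (fun u v => rot t v = u) := by
    rw [hrev, List.isChain_reverse]
    have h1 := hc.chain
    have h2 : v2 :: (I ++ [c2, c1, v1] ++ [v2]) = (v2 :: (I ++ [c2, c1, v1])) ++ [v2] := by simp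
    rw [h2] at h1
    exact h1.left_of_append
  have hLend : L ++ [v1] = (v1 :: c1 :: c2 :: I.reverse) ++ v2 :: [v1] := by rw [hL]; simp
  have hchain : (v2 :: (L ++ [v1])).IsChain (fun u v => rot t v = u) := by
    have h1 : (L ++ [v1]).IsChain (fun u v => rot t v = u) := by
      rw [hLend, List.isChain_split]
      refine ⟨?_, by simp [hv2]⟩
      have h2 : (v1 :: c1 :: c2 :: I.reverse) ++ [v2] = L := by rw [hL]; simp
      rw [h2]; exact hLc
    have h3 : L ++ [v1] = v1 :: (c1 :: c2 :: (I.reverse ++ [v2]) ++ [v1]) := by rw [hL]; simp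
    rw [h3] at h1 ⊢
    rw [List.isChain_cons_cons]
    exact ⟨hv2.symm, h1⟩
  have hnd : L.Nodup := by rw [hrev, List.nodup_reverse]; exact hc.nodup
  refine ⟨hnd, ?_, ?_, ?_, ?_, ⟨_, hL⟩, ⟨v1 :: c1 :: c2 :: I.reverse, by rw [hL]; simp⟩⟩
  · intro x hx
    simpa using hnt x hx
  · intro X p v q Y hX
    rw [hX, List.isChain_split (l₁ := X), List.isChain_cons_cons, List.isChain_cons_cons] at hchain
    obtain ⟨-, h1, h2, -⟩ := hchain
    have hv : v ∈ v2 :: (L ++ [v1]) := by rw [hX]; simp
    have hvL : v ∈ L := by
      simp only [List.mem_cons, List.mem_append, List.not_mem_nil, or_false] at hv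
      rcases hv with hv | hv | hv
      · rw [hv, hL]; simp
      · exact hv
      · rw [hv, hL]; simp
    have hq : q ∈ v2 :: (L ++ [v1]) := by rw [hX]; simp
    have hqL : q ∈ L := by
      simp only [List.mem_cons, List.mem_append, List.not_mem_nil, or_false] at hq
      rcases hq with hq | hq | hq
      · rw [hq, hL]; simp
      · exact hq
      · rw [hq, hL]; simp
    have htv' := (hmem v).1 hvL
    have htq := (hmem q).1 hqL
    have f1 := hT.face htv'.symm h1
    have f2 := hT.face htq.symm h2
    have hpq : p ≠ q := by
      rintro rfl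
      have hcl : ∀ n : ℕ, ((rot t) ^ n) v = v ∨ ((rot t) ^ n) v = p := by
        intro n
        induction n with
        | zero => exact Or.inl rfl
        | succ n ih =>
          rw [pow_succ', Equiv.Perm.mul_apply]
          rcases ih with ih | ih
          · rw [ih]; exact Or.inr h1
          · rw [ih]; exact Or.inl h2
      have hall : ∀ x ∈ L, x = v ∨ x = p := by
        intro x hx
        obtain ⟨n, -, hn⟩ := (hT.cyc t v x htv' ((hmem x).1 hx)).exists_pow_eq'
        rw [← hn]
        exact hcl n
      have a1 := hall v1 (by rw [hL]; simp)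
      have a2 := hall c1 (by rw [hL]; simp)
      have a3 := hall c2 (by rw [hL]; simp)
      rw [hL] at hnd
      have e1 : v1 ≠ c1 := by rintro rfl; simp at hnd
      have e2 : v1 ≠ c2 := by rintro rfl; simp at hnd
      have e3 : c1 ≠ c2 := by rintro rfl; simp at hnd
      rcases a1 with a1 | a1 <;> rcases a2 with a2 | a2 <;> rcases a3 with a3 | a3 <;>
        simp_all
    exact arc_single hT (by simp) f1.2.2.2 f2.2.2.1 hpq f1.2.1.symm (by
      intro y hy _
      simpa using hy)
  · rintro x hx ⟨y, hy, hxy⟩
    rw [Finset.mem_singleton.1 hy] at hxy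
    exact (hmem x).2 hxy.symm
  · rintro X ⟨x, hxX, hx⟩ _ v hv
    rw [Finset.mem_singleton.1 hv, ← Finset.mem_singleton.1 hx]
    exact hxX

theorem Swp.mono {G G' : SimpleGraph U} (hG : G' ≤ G) {W : Finset U} {C : List U} {f g : U → ℝ}
    (h : Swp G W C f g) : Swp G' W C f g where
  inv := ⟨h.inv.finj, h.inv.ginj,
    fun a ha b hb c hc d hd h1 h2 => h.inv.sep a ha b hb c hc d hd (hG h1) (hG h2),
    fun a ha b hb w hw h0 h1 => h.inv.out a ha b hb w hw h0 (hG h1)⟩
  sub := h.sub
  chain := h.chain
  vis := fun a ha b hb hab => h.vis a ha b hb (hG hab)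

/-- **The strictly suitable pair of a triangulation without separating triangles, minus an edge.** -/
theorem Tri.strict (hT : Tri G rot) {t v1 : U} {c1 c2 : U} {I : List U}
    (hc : CycL G rot t (rot t v1) (I ++ [c2, c1, v1])) {G' : SimpleGraph U} (hG : G' ≤ G)
    (hG' : ¬ G'.Adj t v1) :
    ∃ f g : U → ℝ, Strict G' f g ∧ ∀ x, x ≠ v1 → f v1 < f x ∧ g v1 < g x := by
  have hS := State.init hT hc
  obtain ⟨v2, hv2⟩ : ∃ v2, v2 = rot t v1 := ⟨_, rfl⟩
  rw [← hv2] at hc hS
  have hndt := hc.nodup
  have hrc1 : rot t c1 = v1 := by
    have h1 : I ++ [c2, c1, v1] = (I ++ [c2]) ++ c1 :: v1 :: [] := by simp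
    rw [h1] at hc
    exact hc.next
  have hrc2 : rot t c2 = c1 := by
    have h1 : I ++ [c2, c1, v1] = I ++ c2 :: c1 :: [v1] := by simp
    rw [h1] at hc
    exact hc.next
  have htc1 : G.Adj t c1 := (hc.mem c1).1 (by simp)
  have htc2 : G.Adj t c2 := (hc.mem c2).1 (by simp)
  have f1 := hT.face htc1.symm hrc1
  have f2 := hT.face htc2.symm hrc2
  have hmemt : ∀ z, z ∈ v1 :: c1 :: c2 :: (I.reverse ++ [v2]) → G.Adj t z := by
    intro z hz
    apply (hc.mem z).1
    simp only [List.mem_cons, List.mem_append, List.mem_reverse, List.not_mem_nil, or_false] at hz ⊢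
    tauto
  have hch : ∀ z ∈ v1 :: c1 :: c2 :: (I.reverse ++ [v2]), G.Adj c1 z → z = v1 ∨ z = c2 := by
    intro z hz hcz
    have htz := hmemt z hz
    rcases hT.fac t c1 z htc1 hcz htz.symm with h1 | h1
    · -- rot c1 t = z
      right
      have := f2.2.2.1
      rw [← h1, this]
    · left
      rw [← h1, hrc1]
  have hL : v1 :: c1 :: c2 :: (I.reverse ++ [v2]) = [] ++ v1 :: c1 :: c2 :: (I.reverse ++ [v2]) := rfl
  obtain ⟨f, g, hO, hLM, hgw⟩ := hS.step hT hL hch (fun L' hS' =>
    State.sweep hT _ _ _ _ _ rfl hS' (by
      intro r hr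
      simp only [Finset.mem_insert, Finset.mem_singleton] at hr
      rcases hr with rfl | rfl
      · exact ⟨t, by simp, htc1.symm⟩
      · exact ⟨c1, by simp, htc1⟩))
  have hswp := hO.swp.mono hG
  have hndL := hS.nodup
  -- insert `t`
  have hsplit : v1 :: c1 :: c2 :: (I.reverse ++ [v2]) = [v1] ++ c1 :: ((c2 :: I.reverse) ++ v2 :: []) := by
    simp
  rw [hsplit] at hswp
  obtain ⟨m, m', h1, h2, h3, h4⟩ := hswp.insert (w := t) (by simp) (by
    intro A B x y z hl
    have hL2 : v1 :: c1 :: c2 :: (I.reverse ++ [v2]) = (v1 :: A) ++ x :: y :: z :: B := by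
      rw [List.cons_append, ← hl]; simp
    have hyL : y ∈ v1 :: c1 :: c2 :: (I.reverse ++ [v2]) := by rw [hL2]; simp
    by_cases hyc : y = c1
    · exfalso
      subst hyc
      cases A with
      | nil =>
        simp only [List.nil_append, List.cons_append, List.cons.injEq] at hl
        rw [← hl.1] at hL2
        rw [hL2] at hndL
        simp at hndL
      | cons a A =>
        simp only [List.cons_append, List.cons.injEq] at hl
        rw [hL2, ← hl.1] at hndL
        simp at hndL
    · by_cases hyc2 : y = c2
      · -- the previous one is `c1`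
        left
        subst hyc2
        have hx : x = c1 := by
          cases A with
          | nil =>
            simp only [List.nil_append, List.cons_append, List.cons.injEq] at hl
            exact hl.1.symm
          | cons a A =>
            exfalso
            simp only [List.cons_append, List.cons.injEq] at hl
            cases A with
            | nil =>
              simp only [List.nil_append, List.cons.injEq] at hl
              rw [hL2, ← hl.1, ← hl.2.1] at hndL
              simp at hndL
            | cons b A =>
              simp only [List.cons_append, List.cons.injEq] at hl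
              rw [hL2, ← hl.1, ← hl.2.1] at hndL
              simp at hndL
        rw [hx]
        exact hgw y (by simpa using fun he => htc2.ne he.symm) hyc
      · refine hLM (v1 :: A) x y z B hL2 hyc ⟨t, by simp, fun y' hy' _ => by simpa using hy'⟩) (by
    intro x hx htx
    have hx1 : x ≠ v1 := by rintro rfl; exact hG' htx
    have h5 := (hc.mem x).2 (hG htx)
    simp only [List.mem_cons, List.mem_append, List.not_mem_nil, or_false, List.mem_reverse] at h5 ⊢
    tauto)
  have hW : insert t ({t}ᶜ : Finset U) = Finset.univ := by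
    ext x
    by_cases hx : x = t <;> simp [hx]
  rw [hW] at h4
  have hv1t : v1 ≠ t := fun he => ((hc.mem v1).1 (by simp)).ne he.symm
  refine ⟨_, _, ⟨fun u v huv => h4.inv.finj u (Finset.mem_univ _) v (Finset.mem_univ _) huv,
    fun u v huv => h4.inv.ginj u (Finset.mem_univ _) v (Finset.mem_univ _) huv,
    fun a b c d hab hcd e1 e2 e3 e4 => h4.inv.sep a (Finset.mem_univ _) b (Finset.mem_univ _) c
      (Finset.mem_univ _) d (Finset.mem_univ _) hab hcd e1 e2 e3 e4,
    fun a b w hab e1 e2 => h4.inv.out a (Finset.mem_univ _) b (Finset.mem_univ _) w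
      (Finset.mem_univ _) (by simp) hab e1 e2⟩, ?_⟩
  intro x hx
  rw [Function.update_of_ne hv1t, Function.update_of_ne hv1t]
  by_cases hxt : x = t
  · rw [hxt, Function.update_self, Function.update_self]
    have hc1 : c1 ≠ v1 := fun he => by rw [he] at hndL; simp at hndL
    exact ⟨(hO.corner c1 (by simpa using fun he => htc1.ne he.symm) hc1).1.trans h2,
      h1 v1 (by simpa using hv1t)⟩
  · rw [Function.update_of_ne hxt, Function.update_of_ne hxt]
    exact hO.corner x (by simpa using hxt) hx

end Pool.Agent.E8helper59.PT
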