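import Pool.Agent.E8helper59.PT.TB3
import Pool.Agent.E8helper59.PT.Run

set_option autoImplicit false
set_option linter.unusedSectionVars false

/-!
# Strictly suitable pairs for plane maps without separating triangles
-/

namespace Pool.Agent.E8helper59.PT

open Classical Pool.Agent.E8helper59.SD

variable {V : Type} [Fintype V] {B : SimpleGraph V} {rot : V → Equiv.Perm V} (h : PMap B rot)

/-- the neighbours of a vertex of an open dart -/
theorem cycL_y (d : OD B rot) : CycL (TG h) (rotT h) (Sum.inr (Sum.inl d))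
    (rotT h (Sum.inr (Sum.inl d)) (Sum.inl d.s))
    ([Sum.inr (Sum.inr (face h d))] ++ [Sum.inr (Sum.inl (phi h d)), Sum.inl d.t, Sum.inl d.s]) := by
  have hst := d.adj.ne
  have h2 : (phi h).symm d ≠ phi h d := fun he => phi2_ne h d (by
      rw [← he, Equiv.apply_symm_apply])
  refine ⟨?_, ?_, ?_⟩
  · rw [rotT_ys]
    simp [h2, hst.symm]
  · intro x
    rw [rotT_ys]
    rcases x with u | e | F
    · simp only [List.cons_append, List.nil_append, List.mem_cons, reduceCtorEq, Sum.inl.injEq,
        List.not_mem_nil, or_false, false_or]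
      exact or_comm
    · simp only [List.cons_append, List.nil_append, List.mem_cons, reduceCtorEq, Sum.inr.injEq,
        Sum.inl.injEq, List.not_mem_nil, or_false, false_or]
      constructor
      · rintro (rfl | rfl)
        · exact Or.inr ((phi h).apply_symm_apply d).symm
        · exact Or.inl rfl
      · rintro (h3 | h3)
        · exact Or.inr h3
        · exact Or.inl (by rw [h3, Equiv.symm_apply_apply])
    · simp only [List.cons_append, List.nil_append, List.mem_cons, reduceCtorEq, Sum.inr.injEq,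
        List.not_mem_nil, or_false, false_or]
      exact eq_comm
  · rw [rotT_ys]
    simp only [List.cons_append, List.nil_append, List.isChain_cons_cons, List.isChain_singleton,
      and_true]
    refine ⟨?_, rotT_yz h d, rotT_yy h d, rotT_yt h d, rotT_ys h d⟩
    have := rotT_yy' h ((phi h).symm d)
    rw [Equiv.apply_symm_apply, face_phi_symm] at this
    exact this

/-- **The strictly suitable pair of a graph embedded in the triangulation of a plane map.** -/
theorem block_strict {W : Type} (H : SimpleGraph W) (ι : W → TV h) (hι : Function.Injective ι)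
    (hadj : ∀ x y, H.Adj x y → (TG h).Adj (ι x) (ι y)) (d : OD B rot) (a : W)
    (ha : ι a = Sum.inl d.s) (hno : ∀ x, ι x = Sum.inr (Sum.inl d) → ¬ H.Adj x a) :
    ∃ f g : W → ℝ, Strict H f g ∧ ∀ x, x ≠ a → f a < f x ∧ g a < g x := by
  let G' : SimpleGraph (TV h) :=
    { Adj := fun x y => (TG h).Adj x y ∧ ¬ (x = Sum.inr (Sum.inl d) ∧ y = Sum.inl d.s) ∧
        ¬ (y = Sum.inr (Sum.inl d) ∧ x = Sum.inl d.s)
      symm := ⟨fun x y hxy => ⟨hxy.1.symm, hxy.2.2, hxy.2.1⟩⟩
      loopless := ⟨fun x hx => (TG h).irrefl hx.1⟩ }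
  obtain ⟨f, g, hS, hcor⟩ := (TG_Tri h).strict (cycL_y h d) (G' := G') (fun x y hxy => hxy.1)
    (fun hc => hc.2.1 ⟨rfl, rfl⟩)
  have hadj' : ∀ x y, H.Adj x y → G'.Adj (ι x) (ι y) := by
    intro x y hxy
    refine ⟨hadj x y hxy, ?_, ?_⟩
    · rintro ⟨h1, h2⟩
      have : y = a := hι (h2.trans ha.symm)
      subst this
      exact hno x h1 hxy
    · rintro ⟨h1, h2⟩
      have : x = a := hι (h2.trans ha.symm)
      subst this
      exact hno y h1 hxy.symm
  refine ⟨f ∘ ι, g ∘ ι, ⟨hS.finj.comp hι, hS.ginj.comp hι, ?_, ?_⟩, ?_⟩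
  · intro x y z w h1 h2 h3 h4 h5 h6
    exact hS.sep _ _ _ _ (hadj' _ _ h1) (hadj' _ _ h2) (hι.ne h3) (hι.ne h4) (hι.ne h5) (hι.ne h6)
  · intro x y w h1 h2 h3
    exact hS.out _ _ _ (hadj' _ _ h1) (hι.ne h2) (hι.ne h3)
  · intro x hx
    have h1 : ι x ≠ Sum.inl d.s := fun he => hx (hι (he.trans ha.symm))
    have h2 := hcor (ι x) h1
    show f (ι a) < f (ι x) ∧ g (ι a) < g (ι x)
    rw [ha]
    exact h2

end Pool.Agent.E8helper59.PT
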