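import Pool.Agent.E8helper59.PT.Dec
import Pool.Agent.E8helper59.PT.Block

set_option autoImplicit false
set_option linter.unusedSectionVars false

/-!
# Strictly suitable pairs: the indecomposable case
-/

namespace Pool.Agent.E8helper59.PT

open Classical Pool.Agent.E8helper59.SD

/-- coordinates of the triangle with two pendant vertices -/
def F5 : Fin 5 → ℕ := ![0, 2, 6, 1, 8]
/-- coordinates of the triangle with two pendant vertices -/
def G5 : Fin 5 → ℕ := ![0, 6, 2, 8, 1]
/-- the adjacency of the triangle with two pendant vertices -/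
def E5 (i j : Fin 5) : Prop :=
  i ≠ j ∧ ((i.1 < 3 ∧ j.1 < 3) ∨ (i = 1 ∧ j = 3) ∨ (i = 3 ∧ j = 1) ∨ (i = 2 ∧ j = 4) ∨
    (i = 4 ∧ j = 2))

instance : DecidableRel E5 := fun i j => by unfold E5; infer_instance

/-- separation of natural numbers -/
def SepN (f : Fin 5 → ℕ) (a b c d : Fin 5) : Prop :=
  (f a < f c ∧ f a < f d ∧ f b < f c ∧ f b < f d) ∨ (f c < f a ∧ f c < f b ∧ f d < f a ∧ f d < f b)

instance (f : Fin 5 → ℕ) (a b c d : Fin 5) : Decidable (SepN f a b c d) := by
  unfold SepN; infer_instance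

theorem five_sep : ∀ a b c d : Fin 5, E5 a b → E5 c d → a ≠ c → a ≠ d → b ≠ c → b ≠ d →
    SepN F5 a b c d ∨ SepN G5 a b c d := by decide

theorem five_out : ∀ a b w : Fin 5, E5 a b → w ≠ a → w ≠ b →
    SepN F5 a b w w ∨ SepN G5 a b w w := by decide

theorem F5_inj : ∀ a b : Fin 5, F5 a = F5 b → a = b := by decide
theorem G5_inj : ∀ a b : Fin 5, G5 a = G5 b → a = b := by decide

variable {V : Type} [DecidableEq V] {G : SimpleGraph V}

theorem five_Q {S : Finset V} {a : V} (ha : a ∈ S) (κ : V → Fin 5)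
    (hinj : ∀ x ∈ S, ∀ y ∈ S, κ x = κ y → x = y) (h0 : κ a = 0)
    (hE : ∀ x ∈ S, ∀ y ∈ S, G.Adj x y → E5 (κ x) (κ y)) : Q G S a := by
  have hcast : ∀ (f : Fin 5 → ℕ) (x y z w : V), SepN f (κ x) (κ y) (κ z) (κ w) →
      SD.Sep (fun v => (f (κ v) : ℝ)) x y z w := by
    intro f x y z w h
    unfold SD.Sep
    simp only [Nat.cast_lt]
    exact h
  refine ⟨fun v => (F5 (κ v) : ℝ), fun v => (G5 (κ v) : ℝ), ⟨?_, ?_, ?_, ?_⟩, ?_⟩
  · intro x hx y hy hxy
    exact hinj x hx y hy (F5_inj _ _ (by exact_mod_cast hxy))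
  · intro x hx y hy hxy
    exact hinj x hx y hy (G5_inj _ _ (by exact_mod_cast hxy))
  · intro x hx y hy z hz w hw hxy hzw e1 e2 e3 e4
    exact (five_sep _ _ _ _ (hE x hx y hy hxy) (hE z hz w hw hzw)
      (fun he => e1 (hinj _ hx _ hz he)) (fun he => e2 (hinj _ hx _ hw he))
      (fun he => e3 (hinj _ hy _ hz he)) (fun he => e4 (hinj _ hy _ hw he))).imp
      (hcast _ _ _ _ _) (hcast _ _ _ _ _)
  · intro x hx y hy w hw _ hxy e1 e2
    exact (five_out _ _ _ (hE x hx y hy hxy)
      (fun he => e1 (hinj _ hw _ hx he)) (fun he => e2 (hinj _ hw _ hy he))).imp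
      (hcast _ _ _ _ _) (hcast _ _ _ _ _)
  · intro x hx hxa
    have h1 : κ x ≠ 0 := fun he => hxa (hinj _ hx _ ha (he.trans h0.symm))
    have h2 : ∀ i : Fin 5, i ≠ 0 → F5 0 < F5 i ∧ G5 0 < G5 i := by decide
    obtain ⟨h3, h4⟩ := h2 _ h1
    simp only [h0]
    exact ⟨by exact_mod_cast h3, by exact_mod_cast h4⟩

/-- an edge in at most one triangle has an open side -/
theorem open_side {W : Type} [Fintype W] {B : SimpleGraph W} {rot : W → Equiv.Perm W}
    (h : PMap B rot) (h4 : 4 ≤ Fintype.card W) {c k : W} (hck : B.Adj c k)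
    (hfew : ∀ w w', B.Adj c w → B.Adj k w → B.Adj c w' → B.Adj k w' → w = w') :
    (∃ d : OD B rot, d.s = c) ∧ ∃ d : OD B rot, d.t = c := by
  have hmain : ¬ (Closed rot k c ∧ Closed rot c k) := by
    rintro ⟨⟨h1, h2⟩, ⟨h3, h5⟩⟩
    obtain ⟨w, hw⟩ : ∃ w, w = rot c k := ⟨_, rfl⟩
    obtain ⟨w', hw'⟩ : ∃ w', w' = rot k c := ⟨_, rfl⟩
    rw [← hw] at h1 h2
    rw [← hw'] at h3 h5
    -- h1 : rot w c = k, h2 : rot k w = c, h3 : rot w' k = c, h5 : rot c w' = k
    have a1 : B.Adj c w := by rw [hw]; exact h.adj_rot _ _ hck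
    have a2 : B.Adj k w' := by rw [hw']; exact h.adj_rot _ _ hck.symm
    have a3 : B.Adj w k := by rw [← h1]; exact h.adj_rot _ _ a1.symm
    have a4 : B.Adj w' c := by rw [← h3]; exact h.adj_rot _ _ a2.symm
    have hww : w = w' := hfew w w' a1 a3.symm a4.symm a2
    rw [← hww] at h3 h5 hw'
    have hall := h.conn {x | x = c ∨ x = k ∨ x = w} ⟨c, Or.inl rfl⟩ (by
      have hpow : ∀ (v x y : W), rot v x = y → rot v y = x → B.Adj v x → ∀ z, B.Adj v z →
          z = x ∨ z = y := by
        intro v x y e1 e2 e3 z e4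
        obtain ⟨n, -, hn⟩ := (h.cyc v x z e3 e4).exists_pow_eq'
        rw [← hn]
        have : ∀ n : ℕ, ((rot v) ^ n) x = x ∨ ((rot v) ^ n) x = y := by
          intro n
          induction n with
          | zero => exact Or.inl rfl
          | succ n ih =>
            rw [pow_succ', Equiv.Perm.mul_apply]
            rcases ih with ih | ih
            · rw [ih]; exact Or.inr e1
            · rw [ih]; exact Or.inl e2
        exact this n
      rintro u (rfl | rfl | rfl) v huv
      · rcases hpow u k w hw.symm h5 hck v huv with h6 | h6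
        · exact Or.inr (Or.inl h6)
        · exact Or.inr (Or.inr h6)
      · rcases hpow u c w hw'.symm h2 hck.symm v huv with h6 | h6
        · exact Or.inl h6
        · exact Or.inr (Or.inr h6)
      · rcases hpow u c k h1 h3 a1.symm v huv with h6 | h6
        · exact Or.inl h6
        · exact Or.inr (Or.inl h6))
    have h6 : (Finset.univ : Finset W) ⊆ {c, k, w} := by
      intro x _
      have := hall x
      simpa using this
    have h7 := Finset.card_le_card h6
    have h8 : ({c, k, w} : Finset W).card ≤ 3 := Finset.card_le_three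
    rw [Finset.card_univ] at h7
    omega
  by_cases h1 : Closed rot k c
  · have h2 : ¬ Closed rot c k := fun h2 => hmain ⟨h1, h2⟩
    let d : OD B rot := ⟨c, k, hck, h2⟩
    exact ⟨⟨d, rfl⟩, ⟨(phi h).symm d, rfl⟩⟩
  · let d : OD B rot := ⟨k, c, hck.symm, h1⟩
    exact ⟨⟨phi h d, rfl⟩, ⟨d, rfl⟩⟩

/-- **The indecomposable case.** -/
theorem base_case (hP4 : ∀ B : Finset V, 4 ≤ B.card → (∀ X, Cl G B X → X = B) →
      (∀ x ∈ B, ∀ X, Cl G (B.erase x) X → X = B.erase x) →
      ∃ rot : {x // x ∈ B} → Equiv.Perm {x // x ∈ B}, PMap (G.comap (Subtype.val)) rot)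
    (S : Finset V) (a : V) (hG : Good G S a) (h4 : 4 ≤ S.card)
    (hns : ∀ c ∈ S, ∀ X, Cl G (S.erase c) X → a ∉ X → (c = a → X ≠ S.erase c) → X.card ≤ 1) :
    Q G S a := by
  -- `S \ a` is connected
  have hSa : ∀ X, Cl G (S.erase a) X → X = S.erase a := by
    intro X hX
    by_contra hne
    have haX : ∀ X : Finset V, Cl G (S.erase a) X → a ∉ X := fun X hX h => by
      have := hX.1 h
      simp at this
    have h1 := hns a hG.mem X hX (haX X hX) (fun _ => hne)
    have hZ := hX.compl hne
    have h2 := hns a hG.mem _ hZ (haX _ hZ) (fun _ he => by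
      obtain ⟨x, hx⟩ := hX.2.1
      have h3 : x ∈ (S.erase a) \ X := by rw [he]; exact hX.1 hx
      exact (Finset.mem_sdiff.1 h3).2 hx)
    have h3 := Finset.card_sdiff_add_card_eq_card hX.1
    rw [Finset.card_erase_of_mem hG.mem] at h3
    omega
  -- pendant vertices
  let pend : V → V → Prop := fun v c => v ∈ S ∧ v ≠ a ∧ c ∈ S ∧ c ≠ v ∧ ∀ y ∈ S, G.Adj v y → y = c
  have hpadj : ∀ v c, pend v c → G.Adj v c := by
    rintro v c ⟨h1, h2, h3, h5, h6⟩
    by_contra hno
    have h7 : ({v} : Finset V) = S := by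
      apply hG.conn
      refine ⟨by simpa using h1, ⟨v, by simp⟩, ?_⟩
      intro x hx y hy hxy
      rw [Finset.mem_singleton.1 hx] at hxy
      have h8 := h6 y hy hxy
      rw [h8] at hxy
      exact absurd hxy hno
    rw [← h7] at h4
    simp at h4
  have hpCl : ∀ v c, pend v c → Cl G (S.erase c) {v} := by
    rintro v c ⟨h1, h2, h3, h5, h6⟩
    refine ⟨by simpa using ⟨h5.symm, h1⟩, ⟨v, by simp⟩, ?_⟩
    intro x hx y hy hxy
    rw [Finset.mem_singleton.1 hx] at hxy
    have h7 := Finset.mem_erase.1 hy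
    exact absurd (h6 y h7.2 hxy) h7.1
  have hpa : ∀ v c, pend v c → c ≠ a := by
    intro v c hp
    rintro rfl
    have h1 := hSa _ (hpCl v c hp)
    have h2 : (S.erase c).card = 1 := by rw [← h1]; simp
    rw [Finset.card_erase_of_mem hG.mem] at h2
    omega
  have hpuniq : ∀ v v' c, pend v c → pend v' c → v = v' := by
    intro v v' c hp hp'
    have hca := hpa v c hp
    have h1 := hns c hp.2.2.1 {v, v'} ⟨?_, ⟨v, by simp⟩, ?_⟩ ?_ (fun he => absurd he hca)
    · by_contra hne
      rw [Finset.card_pair hne] at h1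
      omega
    · intro x hx
      simp only [Finset.mem_insert, Finset.mem_singleton] at hx
      rcases hx with rfl | rfl
      · exact Finset.mem_erase.2 ⟨hp.2.2.2.1.symm, hp.1⟩
      · exact Finset.mem_erase.2 ⟨hp'.2.2.2.1.symm, hp'.1⟩
    · intro x hx y hy hxy
      have h7 := Finset.mem_erase.1 hy
      simp only [Finset.mem_insert, Finset.mem_singleton] at hx
      rcases hx with rfl | rfl
      · exact absurd (hp.2.2.2.2 y h7.2 hxy) h7.1
      · exact absurd (hp'.2.2.2.2 y h7.2 hxy) h7.1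
    · simp only [Finset.mem_insert, Finset.mem_singleton, not_or]
      exact ⟨hp.2.1.symm, hp'.2.1.symm⟩
  have hpnot : ∀ v c c', pend v c → ¬ pend c c' := by
    intro v c c' hp hp'
    have h1 := hpadj v c hp
    have h2 : v = c' := hp'.2.2.2.2 v hp.1 h1.symm
    subst h2
    have h3 : ({v, c} : Finset V) = S := by
      apply hG.conn
      refine ⟨?_, ⟨v, by simp⟩, ?_⟩
      · intro x hx
        simp only [Finset.mem_insert, Finset.mem_singleton] at hx
        rcases hx with rfl | rfl
        · exact hp.1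
        · exact hp'.1
      · intro x hx y hy hxy
        simp only [Finset.mem_insert, Finset.mem_singleton] at hx ⊢
        rcases hx with rfl | rfl
        · exact Or.inr (hp.2.2.2.2 y hy hxy)
        · exact Or.inl (hp'.2.2.2.2 y hy hxy)
    have h5 : ({v, c} : Finset V).card ≤ 2 := Finset.card_le_two
    rw [h3] at h5
    omega
  obtain ⟨P, hP⟩ : ∃ P, P = S.filter fun v => ∃ c, pend v c := ⟨_, rfl⟩
  have hPmem : ∀ v, v ∈ P ↔ ∃ c, pend v c := by
    intro v
    rw [hP, Finset.mem_filter]
    exact ⟨fun h => h.2, fun h => ⟨h.choose_spec.1, h⟩⟩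
  obtain ⟨nb, hnb⟩ : ∃ nb : V → V, ∀ v ∈ P, pend v (nb v) := by
    refine ⟨fun v => if h : ∃ c, pend v c then h.choose else v, fun v hv => ?_⟩
    have h := (hPmem v).1 hv
    simp only [dif_pos h]
    exact h.choose_spec
  obtain ⟨B, hB⟩ : ∃ B, B = S \ P := ⟨_, rfl⟩
  have hPS : P ⊆ S := fun v hv => (hnb v hv).1
  have hBS : B ⊆ S := by rw [hB]; exact Finset.sdiff_subset
  have hSB : ∀ v ∈ S, v ∉ P → v ∈ B := fun v hv hvP => by rw [hB]; exact Finset.mem_sdiff.2 ⟨hv, hvP⟩
  have hBP : ∀ v ∈ B, v ∉ P := fun v hv => by rw [hB] at hv; exact (Finset.mem_sdiff.1 hv).2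
  have haP : a ∉ P := fun h => (hnb a h).2.1 rfl
  have haB : a ∈ B := hSB a hG.mem haP
  have hnbB : ∀ v ∈ P, nb v ∈ B := by
    intro v hv
    refine hSB _ (hnb v hv).2.2.1 (fun hc => ?_)
    exact hpnot v (nb v) _ (hnb v hv) (hnb _ hc)
  have hnbinj : ∀ v ∈ P, ∀ v' ∈ P, nb v = nb v' → v = v' := by
    intro v hv v' hv' he
    exact hpuniq v v' (nb v) (hnb v hv) (by rw [he]; exact hnb v' hv')
  have hPadj : ∀ v ∈ P, ∀ y ∈ S, G.Adj v y → y = nb v := fun v hv y hy hvy =>
    (hnb v hv).2.2.2.2 y hy hvy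
  have hcardP : P.card ≤ (B.erase a).card := by
    apply Finset.card_le_card_of_injOn nb
    · intro v hv
      exact Finset.mem_coe.2 (Finset.mem_erase.2 ⟨hpa _ _ (hnb v hv), hnbB v hv⟩)
    · intro v hv v' hv' he
      exact hnbinj v hv v' hv' he
  have hcardS : B.card + P.card = S.card := by
    rw [hB]; exact Finset.card_sdiff_add_card_eq_card hPS
  have hBcard : 3 ≤ B.card := by
    rw [Finset.card_erase_of_mem haB] at hcardP
    omega
  -- extension of closed sets
  have hext : ∀ (T : Finset V), T ⊆ S → ∀ X, Cl G (T ∩ B) X → (∀ v ∈ P, v ∈ T) →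
      Cl G T (X ∪ P.filter fun v => nb v ∈ X) := by
    intro T hT X hX hPT
    refine ⟨?_, ?_, ?_⟩
    · intro x hx
      rcases Finset.mem_union.1 hx with hx | hx
      · exact (Finset.mem_inter.1 (hX.1 hx)).1
      · exact hPT x (Finset.mem_filter.1 hx).1
    · obtain ⟨x, hx⟩ := hX.2.1
      exact ⟨x, Finset.mem_union_left _ hx⟩
    · intro x hx y hy hxy
      by_cases hyP : y ∈ P
      · have h1 : x = nb y := by
          refine hPadj y hyP x ?_ hxy.symm
          rcases Finset.mem_union.1 hx with hx | hx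
          · exact hT (Finset.mem_inter.1 (hX.1 hx)).1
          · exact hT (hPT x (Finset.mem_filter.1 hx).1)
        have h2 : x ∈ X := by
          rcases Finset.mem_union.1 hx with hx | hx
          · exact hx
          · exfalso
            have := hnbB y hyP
            rw [← h1] at this
            exact hBP x this (Finset.mem_filter.1 hx).1
        exact Finset.mem_union_right _ (Finset.mem_filter.2 ⟨hyP, h1 ▸ h2⟩)
      · have hyB := hSB y (hT hy) hyP
        rcases Finset.mem_union.1 hx with hx | hx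
        · exact Finset.mem_union_left _ (hX.2.2 x hx y (Finset.mem_inter.2 ⟨hy, hyB⟩) hxy)
        · have h3 := Finset.mem_filter.1 hx
          rw [hPadj x h3.1 y (hT hy) hxy]
          exact Finset.mem_union_left _ h3.2
  have hBconn : ∀ X, Cl G B X → X = B := by
    intro X hX
    have h1 := hG.conn _ (hext S (Finset.Subset.refl _) X (by
      rwa [Finset.inter_eq_right.2 hBS]) (fun v hv => hPS hv))
    apply Finset.Subset.antisymm hX.1
    intro x hx
    have h2 : x ∈ X ∪ P.filter fun v => nb v ∈ X := by rw [h1]; exact hBS hx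
    rcases Finset.mem_union.1 h2 with h3 | h3
    · exact h3
    · exact absurd (Finset.mem_filter.1 h3).1 (hBP x hx)
  have hB2 : ∀ x ∈ B, ∀ X, Cl G (B.erase x) X → X = B.erase x := by
    intro x hx X hX
    have hxS := hBS hx
    have hTB : (S.erase x) ∩ B = B.erase x := by
      ext y
      simp only [Finset.mem_inter, Finset.mem_erase]
      constructor
      · rintro ⟨⟨h1, h2⟩, h3⟩; exact ⟨h1, h3⟩
      · rintro ⟨h1, h3⟩; exact ⟨⟨h1, hBS h3⟩, h3⟩
    have h1 := hext (S.erase x) (Finset.erase_subset _ _) X (by rwa [hTB])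
      (fun v hv => Finset.mem_erase.2 ⟨fun he => hBP x hx (he ▸ hv), hPS hv⟩)
    obtain ⟨X', hX'⟩ : ∃ X', X' = X ∪ P.filter fun v => nb v ∈ X := ⟨_, rfl⟩
    rw [← hX'] at h1
    have hXX' : ∀ y ∈ X', y ∈ B → y ∈ X := by
      intro y hy hyB
      rw [hX'] at hy
      rcases Finset.mem_union.1 hy with h3 | h3
      · exact h3
      · exact absurd (Finset.mem_filter.1 h3).1 (hBP y hyB)
    have hXsub : X ⊆ X' := by rw [hX']; exact Finset.subset_union_left
    have hpend1 : ∀ v, v ∈ S → v ≠ a → v ≠ x → (∀ y ∈ S.erase x, G.Adj v y → y = v) → v ∈ P := by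
      intro v hvS hva hvx hv
      refine (hPmem v).2 ⟨x, hvS, hva, hxS, hvx.symm, ?_⟩
      intro y hy hvy
      by_contra hyx
      have := hv y (Finset.mem_erase.2 ⟨hyx, hy⟩) hvy
      rw [this] at hvy
      exact G.irrefl hvy
    by_cases hxa : x = a
    · rw [hxa] at h1 hX ⊢
      have h2 := hSa _ h1
      apply Finset.Subset.antisymm hX.1
      intro y hy
      have h3 := Finset.mem_erase.1 hy
      refine hXX' y ?_ h3.2
      rw [h2]
      exact Finset.mem_erase.2 ⟨h3.1, hBS h3.2⟩
    · by_cases haX : a ∈ X'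
      · by_cases hfull : X' = S.erase x
        · apply Finset.Subset.antisymm hX.1
          intro y hy
          have h3 := Finset.mem_erase.1 hy
          refine hXX' y ?_ h3.2
          rw [hfull]
          exact Finset.mem_erase.2 ⟨h3.1, hBS h3.2⟩
        · have hZ := h1.compl hfull
          have haZ : a ∉ (S.erase x) \ X' := fun h => (Finset.mem_sdiff.1 h).2 haX
          have hZ1 := hns x hxS _ hZ haZ (fun he => absurd he hxa)
          obtain ⟨v, hv⟩ := hZ.2.1
          have hZv : ∀ y ∈ (S.erase x) \ X', y = v := fun y hy => Finset.card_le_one.1 hZ1 y hy v hv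
          have hv1 := Finset.mem_sdiff.1 hv
          have hv2 := Finset.mem_erase.1 hv1.1
          have hvP : v ∈ P := hpend1 v hv2.2 (fun he => haZ (he ▸ hv)) hv2.1 (by
            intro y hy hvy
            exact hZv y (hZ.2.2 v hv y hy hvy))
          apply Finset.Subset.antisymm hX.1
          intro y hy
          have h3 := Finset.mem_erase.1 hy
          refine hXX' y ?_ h3.2
          by_contra hyX
          have := hZv y (Finset.mem_sdiff.2 ⟨Finset.mem_erase.2 ⟨h3.1, hBS h3.2⟩, hyX⟩)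
          rw [this] at h3
          exact hBP v h3.2 hvP
      · exfalso
        have h2 := hns x hxS X' h1 haX (fun he => absurd he hxa)
        obtain ⟨v, hv⟩ := hX.2.1
        have hvX' := hXsub hv
        have hXv : ∀ y ∈ X', y = v := fun y hy => Finset.card_le_one.1 h2 y hy v hvX'
        have hv2 := Finset.mem_erase.1 (hX.1 hv)
        have hvP : v ∈ P := hpend1 v (hBS hv2.2) (fun he => haX (he ▸ hvX')) hv2.1 (by
          intro y hy hvy
          exact hXv y (h1.2.2 v hvX' y hy hvy))
        exact hBP v hv2.2 hvP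
  rcases Nat.lt_or_ge B.card 4 with h3 | h3
  · -- the triangle
    obtain ⟨b, c, hbc, hbc'⟩ := Finset.card_eq_two.1
      (by rw [Finset.card_erase_of_mem haB]; omega : (B.erase a).card = 2)
    have hab : b ≠ a := by
      have : b ∈ B.erase a := by rw [hbc']; simp
      exact (Finset.mem_erase.1 this).1
    have hac : c ≠ a := by
      have : c ∈ B.erase a := by rw [hbc']; simp
      exact (Finset.mem_erase.1 this).1
    have hBcases : ∀ x ∈ B, x = a ∨ x = b ∨ x = c := by
      intro x hx
      by_cases hxa : x = a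
      · exact Or.inl hxa
      · have : x ∈ B.erase a := Finset.mem_erase.2 ⟨hxa, hx⟩
        rw [hbc'] at this
        right
        simpa using this
    have hPcases : ∀ x ∈ P, nb x = b ∨ nb x = c := by
      intro x hx
      rcases hBcases _ (hnbB x hx) with h5 | h5
      · exact absurd h5 (hpa _ _ (hnb x hx))
      · exact h5
    let κ : V → Fin 5 := fun x => if x ∈ P then (if nb x = b then 3 else 4) else
      if x = a then 0 else if x = b then 1 else 2
    have bB : b ∈ B := by
      have : b ∈ B.erase a := by rw [hbc']; simp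
      exact (Finset.mem_erase.1 this).2
    have cB : c ∈ B := by
      have : c ∈ B.erase a := by rw [hbc']; simp
      exact (Finset.mem_erase.1 this).2
    have ka : κ a = 0 := by simp only [κ, if_neg haP, if_true]
    have kb : κ b = 1 := by simp only [κ, if_neg (hBP b bB), if_neg hab, if_true]
    have kc : κ c = 2 := by simp only [κ, if_neg (hBP c cB), if_neg hac, if_neg hbc.symm]
    have kp3 : ∀ x ∈ P, nb x = b → κ x = 3 := fun x hx hn => by
      simp only [κ, if_pos hx, if_pos hn]
    have kp4 : ∀ x ∈ P, nb x = c → κ x = 4 := fun x hx hn => by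
      simp only [κ, if_pos hx, hn, if_neg hbc.symm]
    clear_value κ
    have hSc : ∀ x ∈ S, x = a ∨ x = b ∨ x = c ∨ (x ∈ P ∧ nb x = b) ∨ (x ∈ P ∧ nb x = c) := by
      intro x hx
      by_cases hxP : x ∈ P
      · rcases hPcases x hxP with h5 | h5
        · exact Or.inr (Or.inr (Or.inr (Or.inl ⟨hxP, h5⟩)))
        · exact Or.inr (Or.inr (Or.inr (Or.inr ⟨hxP, h5⟩)))
      · rcases hBcases x (hSB x hx hxP) with h5 | h5 | h5
        · exact Or.inl h5
        · exact Or.inr (Or.inl h5)
        · exact Or.inr (Or.inr (Or.inl h5))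
    refine five_Q hG.mem κ ?_ ka ?_
    · intro x hx y hy hxy
      rcases hSc x hx with h5 | h5 | h5 | ⟨h5, h5'⟩ | ⟨h5, h5'⟩ <;>
        rcases hSc y hy with h6 | h6 | h6 | ⟨h6, h6'⟩ | ⟨h6, h6'⟩
      · rw [h5, h6]
      · rw [h5, h6, ka, kb] at hxy; exact absurd hxy (by decide)
      · rw [h5, h6, ka, kc] at hxy; exact absurd hxy (by decide)
      · rw [h5, ka, kp3 y h6 h6'] at hxy; exact absurd hxy (by decide)
      · rw [h5, ka, kp4 y h6 h6'] at hxy; exact absurd hxy (by decide)
      · rw [h5, h6, ka, kb] at hxy; exact absurd hxy (by decide)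
      · rw [h5, h6]
      · rw [h5, h6, kb, kc] at hxy; exact absurd hxy (by decide)
      · rw [h5, kb, kp3 y h6 h6'] at hxy; exact absurd hxy (by decide)
      · rw [h5, kb, kp4 y h6 h6'] at hxy; exact absurd hxy (by decide)
      · rw [h5, h6, ka, kc] at hxy; exact absurd hxy (by decide)
      · rw [h5, h6, kb, kc] at hxy; exact absurd hxy (by decide)
      · rw [h5, h6]
      · rw [h5, kc, kp3 y h6 h6'] at hxy; exact absurd hxy (by decide)
      · rw [h5, kc, kp4 y h6 h6'] at hxy; exact absurd hxy (by decide)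
      · rw [h6, ka, kp3 x h5 h5'] at hxy; exact absurd hxy (by decide)
      · rw [h6, kb, kp3 x h5 h5'] at hxy; exact absurd hxy (by decide)
      · rw [h6, kc, kp3 x h5 h5'] at hxy; exact absurd hxy (by decide)
      · exact hnbinj x h5 y h6 (h5'.trans h6'.symm)
      · rw [kp3 x h5 h5', kp4 y h6 h6'] at hxy; exact absurd hxy (by decide)
      · rw [h6, ka, kp4 x h5 h5'] at hxy; exact absurd hxy (by decide)
      · rw [h6, kb, kp4 x h5 h5'] at hxy; exact absurd hxy (by decide)
      · rw [h6, kc, kp4 x h5 h5'] at hxy; exact absurd hxy (by decide)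
      · rw [kp4 x h5 h5', kp3 y h6 h6'] at hxy; exact absurd hxy (by decide)
      · exact hnbinj x h5 y h6 (h5'.trans h6'.symm)
    · intro x hx y hy hxy
      rcases hSc x hx with h5 | h5 | h5 | ⟨h5, h5'⟩ | ⟨h5, h5'⟩
      · rcases hSc y hy with h6 | h6 | h6 | ⟨h6, h6'⟩ | ⟨h6, h6'⟩
        · rw [h5, h6] at hxy; exact absurd hxy G.irrefl
        · rw [h5, h6, ka, kb]; decide
        · rw [h5, h6, ka, kc]; decide
        · exfalso
          have h7 := hPadj y h6 x hx hxy.symm
          rw [h5, h6'] at h7; exact hab h7.symm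
        · exfalso
          have h7 := hPadj y h6 x hx hxy.symm
          rw [h5, h6'] at h7; exact hac h7.symm
      · rcases hSc y hy with h6 | h6 | h6 | ⟨h6, h6'⟩ | ⟨h6, h6'⟩
        · rw [h5, h6, ka, kb]; decide
        · rw [h5, h6] at hxy; exact absurd hxy G.irrefl
        · rw [h5, h6, kb, kc]; decide
        · rw [h5, kb, kp3 y h6 h6']; decide
        · exfalso
          have h7 := hPadj y h6 x hx hxy.symm
          rw [h5, h6'] at h7; exact hbc h7
      · rcases hSc y hy with h6 | h6 | h6 | ⟨h6, h6'⟩ | ⟨h6, h6'⟩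
        · rw [h5, h6, ka, kc]; decide
        · rw [h5, h6, kb, kc]; decide
        · rw [h5, h6] at hxy; exact absurd hxy G.irrefl
        · exfalso
          have h7 := hPadj y h6 x hx hxy.symm
          rw [h5, h6'] at h7; exact hbc h7.symm
        · rw [h5, kc, kp4 y h6 h6']; decide
      · have h7 := hPadj x h5 y hy hxy
        rw [kp3 x h5 h5', h7, h5', kb]; decide
      · have h7 := hPadj x h5 y hy hxy
        rw [kp4 x h5 h5', h7, h5', kc]; decide
  · -- the map
    obtain ⟨rot, h⟩ := hP4 B h3 hBconn hB2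
    have hcardB : 4 ≤ Fintype.card {x // x ∈ B} := by simpa using h3
    have hopen : ∀ (c : V) (hc : c ∈ B), (∃ k ∈ B, G.Adj c k ∧ Few G S c k) →
        (∃ d : OD (G.comap (Subtype.val)) rot, d.s = ⟨c, hc⟩) ∧
          ∃ d : OD (G.comap (Subtype.val)) rot, d.t = ⟨c, hc⟩ := by
      rintro c hc ⟨k, hk, hck, hfew⟩
      refine open_side h hcardB (c := ⟨c, hc⟩) (k := ⟨k, hk⟩) hck ?_
      intro w w' k1 k2 k3 k4
      exact Subtype.ext (hfew w.1 (hBS w.2) w'.1 (hBS w'.2) k1 k2 k3 k4)
    -- the root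
    obtain ⟨d, hd⟩ := (hopen a haB (by
      have hCl : Cl G (S.erase a) (S.erase a) := by
        refine ⟨Finset.Subset.refl _, ?_, fun x _ y hy _ => hy⟩
        rw [← Finset.card_pos, Finset.card_erase_of_mem hG.mem]
        omega
      obtain ⟨k, hk1, hk2, hk3⟩ := hG.cond a hG.mem _ hCl (Or.inl rfl)
      refine ⟨k, hSB k (Finset.mem_of_mem_erase hk1) (fun hkP => ?_), hk2, hk3⟩
      exact hpa _ _ (hnb k hkP) (hPadj k hkP a hG.mem hk2.symm).symm)).1
    -- the pendant vertices
    have hex : ∀ v ∈ P, ∃ e : OD (G.comap (Subtype.val)) rot, e.t.1 = nb v := by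
      intro v hv
      have hc := hnbB v hv
      have hp := hnb v hv
      have hadj := hpadj _ _ hp
      obtain ⟨e, he⟩ := (hopen (nb v) hc (by
        have hcl1 := hpCl v _ hp
        have hne : ({v} : Finset V) ≠ S.erase (nb v) := by
          intro he
          have h5 : (S.erase (nb v)).card = 1 := by rw [← he]; simp
          rw [Finset.card_erase_of_mem (hBS hc)] at h5
          omega
        have hcl2 := hcl1.compl hne
        have hne2 : (S.erase (nb v)) \ {v} ≠ S.erase (nb v) := by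
          intro he
          have h5 : v ∈ S.erase (nb v) := Finset.mem_erase.2 ⟨hp.2.2.2.1.symm, hp.1⟩
          rw [← he] at h5
          simp at h5
        obtain ⟨k, hk1, hk2, hk3⟩ := hG.cond (nb v) (hBS hc) _ hcl2 (Or.inr hne2)
        have hk4 := Finset.mem_sdiff.1 hk1
        refine ⟨k, hSB k (Finset.mem_of_mem_erase hk4.1) (fun hkP => ?_), hk2, hk3⟩
        have h5 := hPadj k hkP (nb v) (hBS hc) hk2.symm
        have h6 := hnbinj v hv k hkP h5
        exact hk4.2 (by rw [h6]; simp))).2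
      exact ⟨e, by rw [he]⟩
    have : Nonempty (OD (G.comap (Subtype.val : {x // x ∈ B} → V)) rot) := ⟨d⟩
    choose! e he using hex
    let ι : {x // x ∈ S} → TV h := fun x => if hx : x.1 ∈ P then Sum.inr (Sum.inl (e x.1)) else
      Sum.inl ⟨x.1, hSB x.1 x.2 hx⟩
    have ιP : ∀ (x : {x // x ∈ S}), x.1 ∈ P → ι x = Sum.inr (Sum.inl (e x.1)) :=
      fun x hx => dif_pos hx
    have ιB : ∀ (x : {x // x ∈ S}) (hx : x.1 ∉ P), ι x = Sum.inl ⟨x.1, hSB x.1 x.2 hx⟩ :=
      fun x hx => dif_neg hx
    clear_value ι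
    obtain ⟨f, g, hS, hcor⟩ := block_strict h (H := G.comap (Subtype.val : {x // x ∈ S} → V)) ι (by
      intro x y hxy
      by_cases hx : x.1 ∈ P <;> by_cases hy : y.1 ∈ P
      · rw [ιP x hx, ιP y hy] at hxy
        have h5 : e x.1 = e y.1 := Sum.inl_injective (Sum.inr_injective hxy)
        exact Subtype.ext (hnbinj _ hx _ hy (by rw [← he _ hx, ← he _ hy, h5]))
      · rw [ιP x hx, ιB y hy] at hxy
        exact absurd hxy (by simp)
      · rw [ιB x hx, ιP y hy] at hxy
        exact absurd hxy (by simp)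
      · rw [ιB x hx, ιB y hy] at hxy
        have h5 := Sum.inl_injective hxy
        simp only [Subtype.mk.injEq] at h5
        exact Subtype.ext h5) (by
      intro x y hxy
      have hxy' : G.Adj x.1 y.1 := hxy
      by_cases hx : x.1 ∈ P <;> by_cases hy : y.1 ∈ P
      · exfalso
        have h5 := hPadj x.1 hx y.1 y.2 hxy'
        exact hBP _ (hnbB _ hx) (h5 ▸ hy)
      · rw [ιP x hx, ιB y hy]
        right
        apply Subtype.ext
        show y.1 = (e x.1).t.1
        rw [he _ hx]
        exact hPadj x.1 hx y.1 y.2 hxy'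
      · rw [ιB x hx, ιP y hy]
        right
        apply Subtype.ext
        show x.1 = (e y.1).t.1
        rw [he _ hy]
        exact hPadj y.1 hy x.1 x.2 hxy'.symm
      · rw [ιB x hx, ιB y hy]
        exact hxy') d ⟨a, hG.mem⟩ (by
      rw [ιB ⟨a, hG.mem⟩ haP, hd]) (by
      intro x hx hadj
      have hxP : x.1 ∈ P := by
        by_contra hxP
        rw [ιB x hxP] at hx
        exact absurd hx (by simp)
      have h5 : G.Adj x.1 a := hadj
      exact hpa _ _ (hnb _ hxP) (hPadj _ hxP a hG.mem h5).symm)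
    refine ⟨fun x => if hx : x ∈ S then f ⟨x, hx⟩ else 0, fun x => if hx : x ∈ S then g ⟨x, hx⟩ else 0,
      ⟨?_, ?_, ?_, ?_⟩, ?_⟩
    · intro u hu v hv huv
      simp only [dif_pos hu, dif_pos hv] at huv
      exact congrArg Subtype.val (hS.finj huv)
    · intro u hu v hv huv
      simp only [dif_pos hu, dif_pos hv] at huv
      exact congrArg Subtype.val (hS.ginj huv)
    · intro x hx y hy z hz w hw hxy hzw e1 e2 e3 e4
      unfold SD.Sep
      simp only [dif_pos hx, dif_pos hy, dif_pos hz, dif_pos hw]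
      exact hS.sep ⟨x, hx⟩ ⟨y, hy⟩ ⟨z, hz⟩ ⟨w, hw⟩ hxy hzw
        (fun h => e1 (congrArg Subtype.val h)) (fun h => e2 (congrArg Subtype.val h))
        (fun h => e3 (congrArg Subtype.val h)) (fun h => e4 (congrArg Subtype.val h))
    · intro x hx y hy w hw _ hxy e1 e2
      unfold SD.Sep
      simp only [dif_pos hx, dif_pos hy, dif_pos hw]
      exact hS.out ⟨x, hx⟩ ⟨y, hy⟩ ⟨w, hw⟩ hxy
        (fun h => e1 (congrArg Subtype.val h)) (fun h => e2 (congrArg Subtype.val h))
    · intro x hx hxa
      simp only [dif_pos hx, dif_pos hG.mem]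
      exact hcor ⟨x, hx⟩ (fun he => hxa (congrArg Subtype.val he))

end Pool.Agent.E8helper59.PT
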