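import Pool.Agent.E8helper59.PT.H3
import Pool.Agent.E8helper59.SD.Rect

set_option autoImplicit false
set_option linter.unusedSectionVars false

/-!
# A contact representation of the incidence graph of the cliques

If `G` is a spanning subgraph of a contact graph of rectangles then so is the incidence graph `H3 G`
of its vertices, edges and triangles.  For a clique `s` let `K` be the intersection of the rectangles
of `s` (a rectangle, a segment or a point).  The new rectangle of `s` is obtained from `K` by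
shrinking the nondegenerate coordinates by `ε` and by enlarging the degenerate ones by `ε`.
-/

namespace Pool.Agent.E8helper59.PT.Box

open Pool.Agent.E8helper59

/-! ### One coordinate -/

/-- the relative interior of `[a, b]` -/
def RI (a b x : ℝ) : Prop := (a < x ∧ x < b) ∨ (a = x ∧ x = b)

open Classical in
/-- the new left end -/
noncomputable def lo (ε a b : ℝ) : ℝ := if a < b then a + ε else a - ε

open Classical in
/-- the new right end -/
noncomputable def hi (ε a b : ℝ) : ℝ := if a < b then b - ε else b + ε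

theorem lo_lt_hi {ε a b : ℝ} (hε : 0 < ε) (h : a ≤ b) (h1 : a < b → a + 2 * ε < b) :
    lo ε a b < hi ε a b := by
  unfold lo hi
  split_ifs with h2
  · linarith [h1 h2]
  · linarith

theorem overlap {ε a b a' b' : ℝ} (hε : 0 < ε) (h : a ≤ b) (h' : a' ≤ b')
    (h1 : b < a' → b + 2 * ε < a') (h2 : b' < a → b' + 2 * ε < a)
    (o1 : lo ε a b < hi ε a' b') (o2 : lo ε a' b' < hi ε a b) :
    ∃ x, RI a b x ∧ RI a' b' x := by
  unfold lo hi at *
  rcases lt_or_eq_of_le h with h3 | h3 <;> rcases lt_or_eq_of_le h' with h4 | h4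
  · rw [if_pos h3, if_pos h4] at o1 o2
    have h5 : max a a' < min b b' := by
      rw [max_lt_iff, lt_min_iff, lt_min_iff]
      exact ⟨⟨h3, by linarith⟩, ⟨by linarith, h4⟩⟩
    obtain ⟨x, hx1, hx2⟩ := exists_between h5
    rw [max_lt_iff] at hx1
    rw [lt_min_iff] at hx2
    exact ⟨x, Or.inl ⟨hx1.1, hx2.1⟩, Or.inl ⟨hx1.2, hx2.2⟩⟩
  · subst h4
    rw [if_pos h3, if_neg (lt_irrefl _)] at o1 o2
    exact ⟨a', Or.inl ⟨by linarith, by linarith⟩, Or.inr ⟨rfl, rfl⟩⟩
  · subst h3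
    rw [if_neg (lt_irrefl _), if_pos h4] at o1 o2
    exact ⟨a, Or.inr ⟨rfl, rfl⟩, Or.inl ⟨by linarith, by linarith⟩⟩
  · subst h3 h4
    rw [if_neg (lt_irrefl _), if_neg (lt_irrefl _)] at o1 o2
    have h5 : a = a' := by
      rcases lt_trichotomy a a' with h6 | h6 | h6
      · linarith [h1 h6]
      · exact h6
      · linarith [h2 h6]
    exact ⟨a, Or.inr ⟨rfl, rfl⟩, Or.inr ⟨h5.symm, h5⟩⟩

/-- A point of the relative interior of a smaller interval of the same kind. -/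
theorem RI_mono {a b a' b' x : ℝ} (h1 : a ≤ a') (h2 : b' ≤ b) (h3 : a < b ↔ a' < b') (h4 : a ≤ b)
    (hx : RI a' b' x) : RI a b x := by
  rcases hx with ⟨h5, h6⟩ | ⟨h5, h6⟩
  · exact Or.inl ⟨lt_of_le_of_lt h1 h5, lt_of_lt_of_le h6 h2⟩
  · have h7 : ¬ a < b := fun h => by
      have := h3.1 h
      linarith
    have h8 : a = b := le_antisymm h4 (not_lt.1 h7)
    exact Or.inr ⟨by linarith, by linarith⟩

/-- The new intervals of the same kind overlap. -/
theorem same {ε a b a' b' : ℝ} (hε : 0 < ε) (h1 : a ≤ a') (h2 : b' ≤ b) (h3 : a < b ↔ a' < b')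
    (h5 : a' ≤ b') (h6 : a' < b' → a' + 2 * ε < b') :
    lo ε a b < hi ε a' b' ∧ lo ε a' b' < hi ε a b := by
  unfold lo hi
  by_cases h : a < b
  · have h' := h3.1 h
    rw [if_pos h, if_pos h', if_pos h', if_pos h]
    have := h6 h'
    constructor <;> linarith
  · have h' : ¬ a' < b' := fun h' => h (h3.2 h')
    rw [if_neg h, if_neg h', if_neg h', if_neg h]
    constructor <;> linarith

/-! ### The cliques -/

section cliques

variable {V : Type} [DecidableEq V]

/-- the largest left end -/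
noncomputable def al (l : V → ℝ) (s : Finset V) (hs : s.Nonempty) : ℝ := s.sup' hs l

/-- the smallest right end -/
noncomputable def be (r : V → ℝ) (s : Finset V) (hs : s.Nonempty) : ℝ := s.inf' hs r

theorem le_al {l : V → ℝ} {s : Finset V} (hs : s.Nonempty) {u : V} (hu : u ∈ s) :
    l u ≤ al l s hs := Finset.le_sup' l hu

theorem be_le {r : V → ℝ} {s : Finset V} (hs : s.Nonempty) {u : V} (hu : u ∈ s) :
    be r s hs ≤ r u := Finset.inf'_le r hu

theorem exists_al (l : V → ℝ) {s : Finset V} (hs : s.Nonempty) : ∃ u ∈ s, al l s hs = l u :=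
  Finset.exists_mem_eq_sup' hs l

theorem exists_be (r : V → ℝ) {s : Finset V} (hs : s.Nonempty) : ∃ u ∈ s, be r s hs = r u :=
  Finset.exists_mem_eq_inf' hs r

theorem al_mono {l : V → ℝ} {s t : Finset V} (hs : s.Nonempty) (ht : t.Nonempty) (h : s ⊆ t) :
    al l s hs ≤ al l t ht := by
  obtain ⟨u, hu, e⟩ := exists_al l hs
  rw [e]
  exact le_al ht (h hu)

theorem be_mono {r : V → ℝ} {s t : Finset V} (hs : s.Nonempty) (ht : t.Nonempty) (h : s ⊆ t) :
    be r t ht ≤ be r s hs := by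
  obtain ⟨u, hu, e⟩ := exists_be r hs
  rw [e]
  exact be_le ht (h hu)

variable {G : SimpleGraph V} {l r b t : V → ℝ}

theorem touch_le (hR : SD.Rects l r b t) {u v : V} (h : SD.Touch l r b t u v) :
    l u ≤ r v ∧ l v ≤ r u ∧ b u ≤ t v ∧ b v ≤ t u := by
  have h1 := hR.lr u; have h2 := hR.lr v; have h3 := hR.bt u; have h4 := hR.bt v
  rcases h with ⟨h5 | h5, h6, h7⟩ | ⟨h5 | h5, h6, h7⟩ <;>
    exact ⟨by linarith, by linarith, by linarith, by linarith⟩

/-- Helly's theorem in each coordinate -/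
theorem al_le_be (hR : SD.Rects l r b t) (hT : ∀ u v, G.Adj u v → SD.Touch l r b t u v)
    {s : Finset V} (hs : IsC G s) : al l s hs.1 ≤ be r s hs.1 ∧ al b s hs.1 ≤ be t s hs.1 := by
  constructor
  · obtain ⟨u, hu, e1⟩ := exists_al l hs.1
    obtain ⟨v, hv, e2⟩ := exists_be r hs.1
    rw [e1, e2]
    by_cases huv : u = v
    · subst huv
      exact (hR.lr u).le
    · exact (touch_le hR (hT u v (hs.2.2 hu hv huv))).1
  · obtain ⟨u, hu, e1⟩ := exists_al b hs.1
    obtain ⟨v, hv, e2⟩ := exists_be t hs.1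
    rw [e1, e2]
    by_cases huv : u = v
    · subst huv
      exact (hR.bt u).le
    · exact (touch_le hR (hT u v (hs.2.2 hu hv huv))).2.2.1

theorem al_singleton (l : V → ℝ) (u : V) (h : ({u} : Finset V).Nonempty) : al l {u} h = l u := by
  obtain ⟨v, hv, e⟩ := exists_al l h
  rw [e, Finset.mem_singleton.1 hv]

theorem be_singleton (l : V → ℝ) (u : V) (h : ({u} : Finset V).Nonempty) : be l {u} h = l u := by
  obtain ⟨v, hv, e⟩ := exists_be l h
  rw [e, Finset.mem_singleton.1 hv]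

/-- the kind of the intersection of the rectangles of a clique -/
theorem kind (hR : SD.Rects l r b t) (hT : ∀ u v, G.Adj u v → SD.Touch l r b t u v)
    {s : Finset V} (hs : IsC G s) :
    (s.card = 1 ∧ al l s hs.1 < be r s hs.1 ∧ al b s hs.1 < be t s hs.1) ∨
    (s.card = 2 ∧ ((al l s hs.1 = be r s hs.1 ∧ al b s hs.1 < be t s hs.1) ∨
      (al l s hs.1 < be r s hs.1 ∧ al b s hs.1 = be t s hs.1))) ∨
    (s.card = 3 ∧ al l s hs.1 = be r s hs.1 ∧ al b s hs.1 = be t s hs.1) := by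
  have hle := al_le_be hR hT hs
  have hc : s.card = 1 ∨ s.card = 2 ∨ s.card = 3 := by
    have h1 := hs.1.card_pos
    have h2 := hs.2.1
    omega
  rcases hc with hc | hc | hc
  · left
    refine ⟨hc, ?_, ?_⟩
    · obtain ⟨u, hu, e1⟩ := exists_al l hs.1
      obtain ⟨v, hv, e2⟩ := exists_be r hs.1
      obtain ⟨w, hw⟩ := Finset.card_eq_one.1 hc
      rw [hw, Finset.mem_singleton] at hu hv
      rw [e1, e2, hu, hv]
      exact hR.lr w
    · obtain ⟨u, hu, e1⟩ := exists_al b hs.1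
      obtain ⟨v, hv, e2⟩ := exists_be t hs.1
      obtain ⟨w, hw⟩ := Finset.card_eq_one.1 hc
      rw [hw, Finset.mem_singleton] at hu hv
      rw [e1, e2, hu, hv]
      exact hR.bt w
  · right; left
    refine ⟨hc, ?_⟩
    obtain ⟨u, v, huv, hw⟩ := Finset.card_eq_two.1 hc
    have hu : u ∈ s := by rw [hw]; simp
    have hv : v ∈ s := by rw [hw]; simp
    have ht := hT u v (hs.2.2 hu hv huv)
    have h1 := hR.lr u; have h2 := hR.lr v; have h3 := hR.bt u; have h4 := hR.bt v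
    obtain ⟨x1, hx1, e1⟩ := exists_al l hs.1
    obtain ⟨x2, hx2, e2⟩ := exists_be r hs.1
    obtain ⟨x3, hx3, e3⟩ := exists_al b hs.1
    obtain ⟨x4, hx4, e4⟩ := exists_be t hs.1
    have a1 := le_al (l := l) hs.1 hu
    have a2 := le_al (l := l) hs.1 hv
    have a3 := be_le (r := r) hs.1 hu
    have a4 := be_le (r := r) hs.1 hv
    have a5 := le_al (l := b) hs.1 hu
    have a6 := le_al (l := b) hs.1 hv
    have a7 := be_le (r := t) hs.1 hu
    have a8 := be_le (r := t) hs.1 hv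
    rcases ht with ⟨h5, h6, h7⟩ | ⟨h5, h6, h7⟩
    · left
      refine ⟨le_antisymm hle.1 (by rcases h5 with h5 | h5 <;> linarith), ?_⟩
      rw [e3, e4]
      rw [hw, Finset.mem_insert, Finset.mem_singleton] at hx3 hx4
      rcases hx3 with rfl | rfl <;> rcases hx4 with rfl | rfl <;> assumption
    · right
      refine ⟨?_, le_antisymm hle.2 (by rcases h5 with h5 | h5 <;> linarith)⟩
      rw [e1, e2]
      rw [hw, Finset.mem_insert, Finset.mem_singleton] at hx1 hx2
      rcases hx1 with rfl | rfl <;> rcases hx2 with rfl | rfl <;> assumption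
  · right; right
    refine ⟨hc, ?_⟩
    obtain ⟨u, v, w, huv, huw, hvw, he⟩ := Finset.card_eq_three.1 hc
    have hu : u ∈ s := by rw [he]; simp
    have hv : v ∈ s := by rw [he]; simp
    have hw : w ∈ s := by rw [he]; simp
    have t1 := hT u v (hs.2.2 hu hv huv)
    have t2 := hT u w (hs.2.2 hu hw huw)
    have t3 := hT v w (hs.2.2 hv hw hvw)
    have a1 := le_al (l := l) hs.1 hu
    have a2 := le_al (l := l) hs.1 hv
    have a3 := le_al (l := l) hs.1 hw
    have a4 := be_le (r := r) hs.1 hu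
    have a5 := be_le (r := r) hs.1 hv
    have a6 := be_le (r := r) hs.1 hw
    have b1 := le_al (l := b) hs.1 hu
    have b2 := le_al (l := b) hs.1 hv
    have b3 := le_al (l := b) hs.1 hw
    have b4 := be_le (r := t) hs.1 hu
    have b5 := be_le (r := t) hs.1 hv
    have b6 := be_le (r := t) hs.1 hw
    have c1 := hR.lr u; have c2 := hR.lr v; have c3 := hR.lr w
    have c4 := hR.bt u; have c5 := hR.bt v; have c6 := hR.bt w
    constructor
    · by_contra hne
      have hlt := lt_of_le_of_ne hle.1 hne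
      have k : ∀ {x y : V}, x ∈ s → y ∈ s → SD.Touch l r b t x y → t x = b y ∨ t y = b x := by
        intro x y hx hy h
        rcases h with ⟨h5, h6, h7⟩ | ⟨h5, h6, h7⟩
        · have d1 := le_al (l := l) hs.1 hx
          have d2 := le_al (l := l) hs.1 hy
          have d3 := be_le (r := r) hs.1 hx
          have d4 := be_le (r := r) hs.1 hy
          rcases h5 with h5 | h5 <;> linarith
        · exact h5
      rcases k hu hv t1 with k1 | k1 <;> rcases k hu hw t2 with k2 | k2 <;>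
        rcases k hv hw t3 with k3 | k3 <;> linarith
    · by_contra hne
      have hlt := lt_of_le_of_ne hle.2 hne
      have k : ∀ {x y : V}, x ∈ s → y ∈ s → SD.Touch l r b t x y → r x = l y ∨ r y = l x := by
        intro x y hx hy h
        rcases h with ⟨h5, h6, h7⟩ | ⟨h5, h6, h7⟩
        · exact h5
        · have d1 := le_al (l := b) hs.1 hx
          have d2 := le_al (l := b) hs.1 hy
          have d3 := be_le (r := t) hs.1 hx
          have d4 := be_le (r := t) hs.1 hy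
          rcases h5 with h5 | h5 <;> linarith
      rcases k hu hv t1 with k1 | k1 <;> rcases k hu hw t2 with k2 | k2 <;>
        rcases k hv hw t3 with k3 | k3 <;> linarith

end cliques

/-! ### The quadrants -/

/-- Three product sets of quadrants which are pairwise disjoint and adjacent cover the four
quadrants. -/
theorem cover : ∀ a1 b1 c1 d1 a2 b2 c2 d2 a3 b3 c3 d3 : Bool,
    (a1 || b1) = true → (c1 || d1) = true → (a2 || b2) = true → (c2 || d2) = true →
    (a3 || b3) = true → (c3 || d3) = true →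
    (((a1 && a2) || (b1 && b2)) ^^ ((c1 && c2) || (d1 && d2))) = true →
    (((a1 && a3) || (b1 && b3)) ^^ ((c1 && c3) || (d1 && d3))) = true →
    (((a2 && a3) || (b2 && b3)) ^^ ((c2 && c3) || (d2 && d3))) = true →
    ((a1 && c1) || (a2 && c2) || (a3 && c3)) = true ∧
    ((a1 && d1) || (a2 && d2) || (a3 && d3)) = true ∧
    ((b1 && c1) || (b2 && c2) || (b3 && c3)) = true ∧
    ((b1 && d1) || (b2 && d2) || (b3 && d3)) = true := by
  decide +kernel

/-- exclusive or -/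
def Xo (p q : Prop) : Prop := (p ∨ q) ∧ ¬ (p ∧ q)

theorem cover_prop {a1 b1 c1 d1 a2 b2 c2 d2 a3 b3 c3 d3 : Prop}
    (h1 : a1 ∨ b1) (h2 : c1 ∨ d1) (h3 : a2 ∨ b2) (h4 : c2 ∨ d2) (h5 : a3 ∨ b3) (h6 : c3 ∨ d3)
    (h7 : Xo ((a1 ∧ a2) ∨ (b1 ∧ b2)) ((c1 ∧ c2) ∨ (d1 ∧ d2)))
    (h8 : Xo ((a1 ∧ a3) ∨ (b1 ∧ b3)) ((c1 ∧ c3) ∨ (d1 ∧ d3)))
    (h9 : Xo ((a2 ∧ a3) ∨ (b2 ∧ b3)) ((c2 ∧ c3) ∨ (d2 ∧ d3))) :
    (((a1 ∧ c1) ∨ (a2 ∧ c2)) ∨ (a3 ∧ c3)) ∧ (((a1 ∧ d1) ∨ (a2 ∧ d2)) ∨ (a3 ∧ d3)) ∧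
    (((b1 ∧ c1) ∨ (b2 ∧ c2)) ∨ (b3 ∧ c3)) ∧ (((b1 ∧ d1) ∨ (b2 ∧ d2)) ∨ (b3 ∧ d3)) := by
  classical
  have xo : ∀ p q : Bool, Xo (p = true) (q = true) → (p ^^ q) = true := by
    intro p q h
    unfold Xo at h
    revert h
    revert p q
    decide
  obtain ⟨a1, rfl⟩ : ∃ z : Bool, (z = true) = a1 := ⟨decide a1, by simp⟩
  obtain ⟨b1, rfl⟩ : ∃ z : Bool, (z = true) = b1 := ⟨decide b1, by simp⟩
  obtain ⟨c1, rfl⟩ : ∃ z : Bool, (z = true) = c1 := ⟨decide c1, by simp⟩
  obtain ⟨d1, rfl⟩ : ∃ z : Bool, (z = true) = d1 := ⟨decide d1, by simp⟩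
  obtain ⟨a2, rfl⟩ : ∃ z : Bool, (z = true) = a2 := ⟨decide a2, by simp⟩
  obtain ⟨b2, rfl⟩ : ∃ z : Bool, (z = true) = b2 := ⟨decide b2, by simp⟩
  obtain ⟨c2, rfl⟩ : ∃ z : Bool, (z = true) = c2 := ⟨decide c2, by simp⟩
  obtain ⟨d2, rfl⟩ : ∃ z : Bool, (z = true) = d2 := ⟨decide d2, by simp⟩
  obtain ⟨a3, rfl⟩ : ∃ z : Bool, (z = true) = a3 := ⟨decide a3, by simp⟩
  obtain ⟨b3, rfl⟩ : ∃ z : Bool, (z = true) = b3 := ⟨decide b3, by simp⟩
  obtain ⟨c3, rfl⟩ : ∃ z : Bool, (z = true) = c3 := ⟨decide c3, by simp⟩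
  obtain ⟨d3, rfl⟩ : ∃ z : Bool, (z = true) = d3 := ⟨decide d3, by simp⟩
  simp only [← Bool.and_eq_true, ← Bool.or_eq_true] at h1 h2 h3 h4 h5 h6 h7 h8 h9
  have key := cover a1 b1 c1 d1 a2 b2 c2 d2 a3 b3 c3 d3 h1 h2 h3 h4 h5 h6 (xo _ _ h7) (xo _ _ h8)
    (xo _ _ h9)
  simpa only [Bool.and_eq_true, Bool.or_eq_true] using key

section only

variable {V : Type} [DecidableEq V] {G : SimpleGraph V} {l r b t : V → ℝ}

/-- the rectangle of `v` contains `(x, y)` -/
def Has (l r b t : V → ℝ) (x y : ℝ) (v : V) : Prop := l v ≤ x ∧ x ≤ r v ∧ b v ≤ y ∧ y ≤ t v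

theorem not_both (hR : SD.Rects l r b t) {x y : ℝ} {u v : V} (huv : u ≠ v)
    (hu : Has l r b t x y u) (hv : Has l r b t x y v)
    (h1 : (l u < x ∧ l v < x) ∨ (x < r u ∧ x < r v))
    (h2 : (b u < y ∧ b v < y) ∨ (y < t u ∧ y < t v)) : False := by
  obtain ⟨a1, a2, a3, a4⟩ := hu
  obtain ⟨a5, a6, a7, a8⟩ := hv
  rcases hR.disj u v huv with h | h | h | h
  · rcases h1 with ⟨h3, h4⟩ | ⟨h3, h4⟩ <;> linarith
  · rcases h1 with ⟨h3, h4⟩ | ⟨h3, h4⟩ <;> linarith
  · rcases h2 with ⟨h3, h4⟩ | ⟨h3, h4⟩ <;> linarith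
  · rcases h2 with ⟨h3, h4⟩ | ⟨h3, h4⟩ <;> linarith

theorem one_of (hR : SD.Rects l r b t) {x y : ℝ} {u v : V} (hu : Has l r b t x y u)
    (hv : Has l r b t x y v) (h : SD.Touch l r b t u v) :
    ((l u < x ∧ l v < x) ∨ (x < r u ∧ x < r v)) ∨ ((b u < y ∧ b v < y) ∨ (y < t u ∧ y < t v)) := by
  obtain ⟨a1, a2, a3, a4⟩ := hu
  obtain ⟨a5, a6, a7, a8⟩ := hv
  have c1 := hR.lr u; have c2 := hR.lr v; have c3 := hR.bt u; have c4 := hR.bt v
  rcases h with ⟨h5, h6, h7⟩ | ⟨h5, h6, h7⟩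
  · right
    rcases lt_or_ge y (t u) with h | h
    · rcases lt_or_ge y (t v) with h' | h'
      · exact Or.inr ⟨h, h'⟩
      · exact Or.inl ⟨by linarith, by linarith⟩
    · exact Or.inl ⟨by linarith, by linarith⟩
  · left
    rcases lt_or_ge x (r u) with h | h
    · rcases lt_or_ge x (r v) with h' | h'
      · exact Or.inr ⟨h, h'⟩
      · exact Or.inl ⟨by linarith, by linarith⟩
    · exact Or.inl ⟨by linarith, by linarith⟩

theorem sides {l r : V → ℝ} (hlr : ∀ v, l v < r v) {s : Finset V} (hs : s.Nonempty) {x : ℝ}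
    (hx : RI (al l s hs) (be r s hs) x) : (∃ u ∈ s, l u < x) ∧ ∃ u ∈ s, x < r u := by
  obtain ⟨u, hu, e1⟩ := exists_al l hs
  obtain ⟨v, hv, e2⟩ := exists_be r hs
  rcases hx with ⟨h1, h2⟩ | ⟨h1, h2⟩
  · exact ⟨⟨u, hu, by rwa [← e1]⟩, ⟨v, hv, by rwa [← e2]⟩⟩
  · refine ⟨⟨v, hv, ?_⟩, ⟨u, hu, ?_⟩⟩
    · rw [h2, e2]; exact hlr v
    · rw [← h1, e1]; exact hlr u

theorem inside {l r : V → ℝ} {s : Finset V} (hs : s.Nonempty) {x : ℝ}
    (hx : RI (al l s hs) (be r s hs) x) (h : al l s hs < be r s hs) {u : V} (hu : u ∈ s) :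
    l u < x ∧ x < r u := by
  have h1 := le_al (l := l) hs hu
  have h2 := be_le (r := r) hs hu
  rcases hx with hx | hx
  · exact ⟨by linarith [hx.1], by linarith [hx.2]⟩
  · linarith [hx.1, hx.2]

/-- **The rectangles which contain a point of the relative interior of the intersection of the
rectangles of a clique.** -/
theorem only (hR : SD.Rects l r b t) (hT : ∀ u v, G.Adj u v → SD.Touch l r b t u v)
    {s : Finset V} (hs : IsC G s) {x y : ℝ} (hx : RI (al l s hs.1) (be r s hs.1) x)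
    (hy : RI (al b s hs.1) (be t s hs.1) y) {v : V} (hv : Has l r b t x y v) : v ∈ s := by
  by_contra hvs
  have hall : ∀ u ∈ s, Has l r b t x y u := by
    intro u hu
    have h1 := le_al (l := l) hs.1 hu
    have h2 := be_le (r := r) hs.1 hu
    have h3 := le_al (l := b) hs.1 hu
    have h4 := be_le (r := t) hs.1 hu
    refine ⟨?_, ?_, ?_, ?_⟩
    · rcases hx with hx | hx <;> linarith [hx.1]
    · rcases hx with hx | hx <;> linarith [hx.2]
    · rcases hy with hy | hy <;> linarith [hy.1]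
    · rcases hy with hy | hy <;> linarith [hy.2]
  have hne : ∀ u ∈ s, u ≠ v := fun u hu he => hvs (he ▸ hu)
  have v1 : l v < x ∨ x < r v := by
    by_contra hc
    push Not at hc
    linarith [hR.lr v]
  have v2 : b v < y ∨ y < t v := by
    by_contra hc
    push Not at hc
    linarith [hR.bt v]
  obtain ⟨⟨p1, hp1, q1⟩, ⟨p2, hp2, q2⟩⟩ := sides hR.lr hs.1 hx
  obtain ⟨⟨p3, hp3, q3⟩, ⟨p4, hp4, q4⟩⟩ := sides hR.bt hs.1 hy
  by_cases ny : al b s hs.1 < be t s hs.1
  · rcases v1 with h | h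
    · refine not_both hR (hne p1 hp1) (hall p1 hp1) hv (Or.inl ⟨q1, h⟩) ?_
      have y1 := inside hs.1 hy ny hp1
      exact v2.imp (fun h => ⟨y1.1, h⟩) (fun h => ⟨y1.2, h⟩)
    · refine not_both hR (hne p2 hp2) (hall p2 hp2) hv (Or.inr ⟨q2, h⟩) ?_
      have y1 := inside hs.1 hy ny hp2
      exact v2.imp (fun h => ⟨y1.1, h⟩) (fun h => ⟨y1.2, h⟩)
  by_cases nx : al l s hs.1 < be r s hs.1
  · rcases v2 with h | h
    · refine not_both hR (hne p3 hp3) (hall p3 hp3) hv ?_ (Or.inl ⟨q3, h⟩)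
      have x1 := inside hs.1 hx nx hp3
      exact v1.imp (fun h => ⟨x1.1, h⟩) (fun h => ⟨x1.2, h⟩)
    · refine not_both hR (hne p4 hp4) (hall p4 hp4) hv ?_ (Or.inr ⟨q4, h⟩)
      have x1 := inside hs.1 hx nx hp4
      exact v1.imp (fun h => ⟨x1.1, h⟩) (fun h => ⟨x1.2, h⟩)
  have hc : s.card = 3 := by
    rcases kind hR hT hs with ⟨hc, k1, k2⟩ | ⟨hc, k | k⟩ | ⟨hc, k1, k2⟩
    · exact absurd k1 nx
    · exact absurd k.2 ny
    · exact absurd k.1 nx
    · exact hc
  obtain ⟨u1, u2, u3, h12, h13, h23, he⟩ := Finset.card_eq_three.1 hc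
  have m1 : u1 ∈ s := by rw [he]; simp
  have m2 : u2 ∈ s := by rw [he]; simp
  have m3 : u3 ∈ s := by rw [he]; simp
  have hq : ∀ u ∈ s, (l u < x ∨ x < r u) ∧ (b u < y ∨ y < t u) := by
    intro u hu
    obtain ⟨z1, z2, z3, z4⟩ := hall u hu
    constructor
    · by_contra hc
      push Not at hc
      linarith [hR.lr u]
    · by_contra hc
      push Not at hc
      linarith [hR.bt u]
  have hxor : ∀ u ∈ s, ∀ w ∈ s, u ≠ w →
      Xo ((l u < x ∧ l w < x) ∨ (x < r u ∧ x < r w)) ((b u < y ∧ b w < y) ∨ (y < t u ∧ y < t w)) := by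
    intro u hu w hw huw
    exact ⟨one_of hR (hall u hu) (hall w hw) (hT u w (hs.2.2 hu hw huw)),
      fun h => not_both hR huw (hall u hu) (hall w hw) h.1 h.2⟩
  obtain ⟨k1, k2, k3, k4⟩ := cover_prop (hq u1 m1).1 (hq u1 m1).2 (hq u2 m2).1 (hq u2 m2).2
    (hq u3 m3).1 (hq u3 m3).2 (hxor u1 m1 u2 m2 h12) (hxor u1 m1 u3 m3 h13) (hxor u2 m2 u3 m3 h23)
  rcases v1 with v1 | v1 <;> rcases v2 with v2 | v2
  · rcases k1 with (k | k) | k
    · exact not_both hR (hne u1 m1) (hall u1 m1) hv (Or.inl ⟨k.1, v1⟩) (Or.inl ⟨k.2, v2⟩)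
    · exact not_both hR (hne u2 m2) (hall u2 m2) hv (Or.inl ⟨k.1, v1⟩) (Or.inl ⟨k.2, v2⟩)
    · exact not_both hR (hne u3 m3) (hall u3 m3) hv (Or.inl ⟨k.1, v1⟩) (Or.inl ⟨k.2, v2⟩)
  · rcases k2 with (k | k) | k
    · exact not_both hR (hne u1 m1) (hall u1 m1) hv (Or.inl ⟨k.1, v1⟩) (Or.inr ⟨k.2, v2⟩)
    · exact not_both hR (hne u2 m2) (hall u2 m2) hv (Or.inl ⟨k.1, v1⟩) (Or.inr ⟨k.2, v2⟩)
    · exact not_both hR (hne u3 m3) (hall u3 m3) hv (Or.inl ⟨k.1, v1⟩) (Or.inr ⟨k.2, v2⟩)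
  · rcases k3 with (k | k) | k
    · exact not_both hR (hne u1 m1) (hall u1 m1) hv (Or.inr ⟨k.1, v1⟩) (Or.inl ⟨k.2, v2⟩)
    · exact not_both hR (hne u2 m2) (hall u2 m2) hv (Or.inr ⟨k.1, v1⟩) (Or.inl ⟨k.2, v2⟩)
    · exact not_both hR (hne u3 m3) (hall u3 m3) hv (Or.inr ⟨k.1, v1⟩) (Or.inl ⟨k.2, v2⟩)
  · rcases k4 with (k | k) | k
    · exact not_both hR (hne u1 m1) (hall u1 m1) hv (Or.inr ⟨k.1, v1⟩) (Or.inr ⟨k.2, v2⟩)
    · exact not_both hR (hne u2 m2) (hall u2 m2) hv (Or.inr ⟨k.1, v1⟩) (Or.inr ⟨k.2, v2⟩)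
    · exact not_both hR (hne u3 m3) (hall u3 m3) hv (Or.inr ⟨k.1, v1⟩) (Or.inr ⟨k.2, v2⟩)

end only

/-! ### The new rectangles -/

/-- A small positive number. -/
theorem exists_small {ι : Type} [Finite ι] (f : ι → ℝ) :
    ∃ ε : ℝ, 0 < ε ∧ ∀ i, 0 < f i → 2 * ε < f i := by
  classical
  cases nonempty_fintype ι
  have h : ∀ s : Finset ι, ∃ ε : ℝ, 0 < ε ∧ ∀ i ∈ s, 0 < f i → 2 * ε < f i := by
    intro s
    induction s using Finset.induction_on with
    | empty => exact ⟨1, one_pos, by simp⟩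
    | insert a s _ ih =>
      obtain ⟨ε, h1, h2⟩ := ih
      by_cases ha : 0 < f a
      · refine ⟨min ε (f a / 3), lt_min h1 (by linarith), fun i hi hfi => ?_⟩
        rcases Finset.mem_insert.1 hi with rfl | hi
        · linarith [min_le_right ε (f i / 3)]
        · linarith [min_le_left ε (f a / 3), h2 i hi hfi]
      · refine ⟨ε, h1, fun i hi hfi => ?_⟩
        rcases Finset.mem_insert.1 hi with rfl | hi
        · exact absurd hfi ha
        · exact h2 i hi hfi
  obtain ⟨ε, h1, h2⟩ := h Finset.univ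
  exact ⟨ε, h1, fun i => h2 i (Finset.mem_univ _)⟩

section final

variable {V : Type} [Fintype V] [DecidableEq V] {G : SimpleGraph V} {l r b t : V → ℝ}

/-- `ε` is small -/
structure Small (ε : ℝ) (l r b t : V → ℝ) : Prop where
  pos : 0 < ε
  x1 : ∀ u v, l u < r v → l u + 2 * ε < r v
  x2 : ∀ u v, r u < l v → r u + 2 * ε < l v
  y1 : ∀ u v, b u < t v → b u + 2 * ε < t v
  y2 : ∀ u v, t u < b v → t u + 2 * ε < b v

omit [DecidableEq V] in
theorem exists_Small (l r b t : V → ℝ) : ∃ ε, Small ε l r b t := by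
  obtain ⟨ε, h1, h2⟩ := exists_small (ι := (V × V) × Bool × Bool) (fun p =>
    if p.2.1 then (if p.2.2 then r p.1.2 - l p.1.1 else l p.1.2 - r p.1.1)
    else (if p.2.2 then t p.1.2 - b p.1.1 else b p.1.2 - t p.1.1))
  refine ⟨ε, h1, fun u v h => ?_, fun u v h => ?_, fun u v h => ?_, fun u v h => ?_⟩
  · have := h2 ((u, v), true, true) (by simpa using h)
    simp only [if_true] at this
    linarith
  · have := h2 ((u, v), true, false) (by simpa using h)
    simp only [if_true, Bool.false_eq_true, if_false] at this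
    linarith
  · have := h2 ((u, v), false, true) (by simpa using h)
    simp only [if_true, Bool.false_eq_true, if_false] at this
    linarith
  · have := h2 ((u, v), false, false) (by simpa using h)
    simp only [Bool.false_eq_true, if_false] at this
    linarith

/-- the four bounds for the intersections -/
theorem gap1 {ε : ℝ} {l r : V → ℝ} (h : ∀ u v, l u < r v → l u + 2 * ε < r v) {s s' : Finset V}
    (hs : s.Nonempty) (hs' : s'.Nonempty) (h1 : al l s hs < be r s' hs') :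
    al l s hs + 2 * ε < be r s' hs' := by
  obtain ⟨u, _, e1⟩ := exists_al l hs
  obtain ⟨v, _, e2⟩ := exists_be r hs'
  rw [e1, e2] at h1
  rw [e1, e2]
  exact h u v h1

theorem gap2 {ε : ℝ} {l r : V → ℝ} (h : ∀ u v, r u < l v → r u + 2 * ε < l v) {s s' : Finset V}
    (hs : s.Nonempty) (hs' : s'.Nonempty) (h1 : be r s hs < al l s' hs') :
    be r s hs + 2 * ε < al l s' hs' := by
  obtain ⟨u, _, e1⟩ := exists_be r hs
  obtain ⟨v, _, e2⟩ := exists_al l hs'
  rw [e1, e2] at h1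
  rw [e1, e2]
  exact h u v h1

/-- **The new rectangles of different cliques have disjoint interiors.** -/
theorem disj_new (hR : SD.Rects l r b t) (hT : ∀ u v, G.Adj u v → SD.Touch l r b t u v) {ε : ℝ}
    (hε : Small ε l r b t) {s s' : Finset V} (hs : IsC G s) (hs' : IsC G s')
    (o1 : lo ε (al l s hs.1) (be r s hs.1) < hi ε (al l s' hs'.1) (be r s' hs'.1))
    (o2 : lo ε (al l s' hs'.1) (be r s' hs'.1) < hi ε (al l s hs.1) (be r s hs.1))
    (o3 : lo ε (al b s hs.1) (be t s hs.1) < hi ε (al b s' hs'.1) (be t s' hs'.1))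
    (o4 : lo ε (al b s' hs'.1) (be t s' hs'.1) < hi ε (al b s hs.1) (be t s hs.1)) : s = s' := by
  have l1 := al_le_be hR hT hs
  have l2 := al_le_be hR hT hs'
  obtain ⟨x, hx, hx'⟩ := overlap hε.pos l1.1 l2.1 (gap2 hε.x2 _ _) (gap2 hε.x2 _ _) o1 o2
  obtain ⟨y, hy, hy'⟩ := overlap hε.pos l1.2 l2.2 (gap2 hε.y2 _ _) (gap2 hε.y2 _ _) o3 o4
  have hall : ∀ {s : Finset V} (hs : IsC G s), RI (al l s hs.1) (be r s hs.1) x →
      RI (al b s hs.1) (be t s hs.1) y → ∀ u ∈ s, Has l r b t x y u := by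
    intro s hs hx hy u hu
    have h1 := le_al (l := l) hs.1 hu
    have h2 := be_le (r := r) hs.1 hu
    have h3 := le_al (l := b) hs.1 hu
    have h4 := be_le (r := t) hs.1 hu
    refine ⟨?_, ?_, ?_, ?_⟩
    · rcases hx with hx | hx <;> linarith [hx.1]
    · rcases hx with hx | hx <;> linarith [hx.2]
    · rcases hy with hy | hy <;> linarith [hy.1]
    · rcases hy with hy | hy <;> linarith [hy.2]
  apply Finset.Subset.antisymm
  · intro u hu
    exact only hR hT hs' hx' hy' (hall hs hx hy u hu)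
  · intro u hu
    exact only hR hT hs hx hy (hall hs' hx' hy' u hu)

theorem touch_aux {ε a b a' b' c d c' d' : ℝ} (h1 : a < b) (h2 : a' = b')
    (h3 : a' = a ∨ a' = b) (hy : lo ε c d < hi ε c' d' ∧ lo ε c' d' < hi ε c d) :
    (hi ε a b = lo ε a' b' ∨ hi ε a' b' = lo ε a b) ∧ lo ε c d < hi ε c' d' ∧
      lo ε c' d' < hi ε c d := by
  refine ⟨?_, hy⟩
  subst h2
  unfold lo hi
  rw [if_pos h1, if_neg (lt_irrefl _), if_neg (lt_irrefl _), if_pos h1]
  rcases h3 with rfl | rfl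
  · right; rfl
  · left; rfl

/-- the end of a segment -/
theorem end_x (hR : SD.Rects l r b t) (hT : ∀ u v, G.Adj u v → SD.Touch l r b t u v)
    {s s' : Finset V} (hs : IsC G s) (hs' : IsC G s') (hss : s ⊆ s') (hne : ∃ v ∈ s', v ∉ s)
    (h2 : al l s' hs'.1 = be r s' hs'.1)
    (h3 : al b s hs.1 < be t s hs.1 ↔ al b s' hs'.1 < be t s' hs'.1) :
    al l s' hs'.1 = al l s hs.1 ∨ al l s' hs'.1 = be r s hs.1 := by
  by_contra hc
  push Not at hc
  have m1 := al_mono (l := l) hs.1 hs'.1 hss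
  have m2 := be_mono (r := r) hs.1 hs'.1 hss
  have m3 := al_mono (l := b) hs.1 hs'.1 hss
  have m4 := be_mono (r := t) hs.1 hs'.1 hss
  have l1 := al_le_be hR hT hs
  have l2 := al_le_be hR hT hs'
  have hx : RI (al l s hs.1) (be r s hs.1) (al l s' hs'.1) :=
    Or.inl ⟨lt_of_le_of_ne m1 (Ne.symm hc.1), lt_of_le_of_ne (h2.le.trans m2) hc.2⟩
  have hy' : ∃ y, RI (al b s' hs'.1) (be t s' hs'.1) y := by
    rcases lt_or_eq_of_le l2.2 with h | h
    · obtain ⟨y, hy⟩ := exists_between h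
      exact ⟨y, Or.inl hy⟩
    · exact ⟨_, Or.inr ⟨rfl, h⟩⟩
  obtain ⟨y, hy'⟩ := hy'
  have hy := RI_mono m3 m4 h3 l1.2 hy'
  obtain ⟨v, hv, hvs⟩ := hne
  apply hvs
  have h4 := le_al (l := l) hs'.1 hv
  have h5 := be_le (r := r) hs'.1 hv
  have h6 := le_al (l := b) hs'.1 hv
  have h7 := be_le (r := t) hs'.1 hv
  refine only hR hT hs hx hy ⟨h4, h2.le.trans h5, ?_, ?_⟩
  · rcases hy' with h | h <;> linarith [h.1]
  · rcases hy' with h | h <;> linarith [h.2]

theorem end_y (hR : SD.Rects l r b t) (hT : ∀ u v, G.Adj u v → SD.Touch l r b t u v)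
    {s s' : Finset V} (hs : IsC G s) (hs' : IsC G s') (hss : s ⊆ s') (hne : ∃ v ∈ s', v ∉ s)
    (h2 : al b s' hs'.1 = be t s' hs'.1)
    (h3 : al l s hs.1 < be r s hs.1 ↔ al l s' hs'.1 < be r s' hs'.1) :
    al b s' hs'.1 = al b s hs.1 ∨ al b s' hs'.1 = be t s hs.1 := by
  by_contra hc
  push Not at hc
  have m1 := al_mono (l := l) hs.1 hs'.1 hss
  have m2 := be_mono (r := r) hs.1 hs'.1 hss
  have m3 := al_mono (l := b) hs.1 hs'.1 hss
  have m4 := be_mono (r := t) hs.1 hs'.1 hss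
  have l1 := al_le_be hR hT hs
  have l2 := al_le_be hR hT hs'
  have hy : RI (al b s hs.1) (be t s hs.1) (al b s' hs'.1) :=
    Or.inl ⟨lt_of_le_of_ne m3 (Ne.symm hc.1), lt_of_le_of_ne (h2.le.trans m4) hc.2⟩
  have hx' : ∃ x, RI (al l s' hs'.1) (be r s' hs'.1) x := by
    rcases lt_or_eq_of_le l2.1 with h | h
    · obtain ⟨x, hx⟩ := exists_between h
      exact ⟨x, Or.inl hx⟩
    · exact ⟨_, Or.inr ⟨rfl, h⟩⟩
  obtain ⟨x, hx'⟩ := hx'
  have hx := RI_mono m1 m2 h3 l1.1 hx'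
  obtain ⟨v, hv, hvs⟩ := hne
  apply hvs
  have h4 := le_al (l := l) hs'.1 hv
  have h5 := be_le (r := r) hs'.1 hv
  have h6 := le_al (l := b) hs'.1 hv
  have h7 := be_le (r := t) hs'.1 hv
  refine only hR hT hs hx hy ⟨?_, ?_, h6, h2.le.trans h7⟩
  · rcases hx' with h | h <;> linarith [h.1]
  · rcases hx' with h | h <;> linarith [h.2]

open Classical in
/-- the new left ends; the sets which are not cliques get rectangles far to the right -/
noncomputable def nl (G : SimpleGraph V) (ε M : ℝ) (l r : V → ℝ) (s : Finset V) : ℝ :=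
  if h : IsC G s then lo ε (al l s h.1) (be r s h.1) else M + 2 * (Fintype.equivFin (Finset V) s : ℕ)

open Classical in
/-- the new right ends -/
noncomputable def nr (G : SimpleGraph V) (ε M : ℝ) (l r : V → ℝ) (s : Finset V) : ℝ :=
  if h : IsC G s then hi ε (al l s h.1) (be r s h.1)
  else M + 2 * (Fintype.equivFin (Finset V) s : ℕ) + 1

theorem nl_pos {ε M : ℝ} {l r : V → ℝ} {s : Finset V} (h : IsC G s) :
    nl G ε M l r s = lo ε (al l s h.1) (be r s h.1) := by
  unfold nl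
  rw [dif_pos h]

theorem nr_pos {ε M : ℝ} {l r : V → ℝ} {s : Finset V} (h : IsC G s) :
    nr G ε M l r s = hi ε (al l s h.1) (be r s h.1) := by
  unfold nr
  rw [dif_pos h]

theorem nl_neg {ε M : ℝ} {l r : V → ℝ} {s : Finset V} (h : ¬ IsC G s) :
    nl G ε M l r s = M + 2 * (Fintype.equivFin (Finset V) s : ℕ) := by
  unfold nl
  rw [dif_neg h]

theorem nr_neg {ε M : ℝ} {l r : V → ℝ} {s : Finset V} (h : ¬ IsC G s) :
    nr G ε M l r s = M + 2 * (Fintype.equivFin (Finset V) s : ℕ) + 1 := by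
  unfold nr
  rw [dif_neg h]

theorem card_kind {s s' : Finset V} (h : s'.card = s.card + 1) : ∃ v ∈ s', v ∉ s := by
  by_contra hc
  push Not at hc
  have := Finset.card_le_card (show s' ⊆ s from hc)
  omega

theorem touch_new (hR : SD.Rects l r b t) (hT : ∀ u v, G.Adj u v → SD.Touch l r b t u v) {ε M : ℝ}
    (hε : Small ε l r b t) {s s' : Finset V} (hs : IsC G s) (hs' : IsC G s') (hss : s ⊆ s')
    (hc : s'.card = s.card + 1) :
    SD.Touch (nl G ε M l r) (nr G ε M l r) (nl G ε M b t) (nr G ε M b t) s s' := by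
  have hne := card_kind hc
  unfold SD.Touch
  rw [nl_pos hs, nr_pos hs, nl_pos hs', nr_pos hs', nl_pos hs, nr_pos hs, nl_pos hs', nr_pos hs']
  have m1 := al_mono (l := l) hs.1 hs'.1 hss
  have m2 := be_mono (r := r) hs.1 hs'.1 hss
  have m3 := al_mono (l := b) hs.1 hs'.1 hss
  have m4 := be_mono (r := t) hs.1 hs'.1 hss
  have l2 := al_le_be hR hT hs'
  -- the two possibilities
  have X : al l s hs.1 < be r s hs.1 → al l s' hs'.1 = be r s' hs'.1 →
      (al b s hs.1 < be t s hs.1 ↔ al b s' hs'.1 < be t s' hs'.1) →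
      ((hi ε (al l s hs.1) (be r s hs.1) = lo ε (al l s' hs'.1) (be r s' hs'.1) ∨
        hi ε (al l s' hs'.1) (be r s' hs'.1) = lo ε (al l s hs.1) (be r s hs.1)) ∧
        lo ε (al b s hs.1) (be t s hs.1) < hi ε (al b s' hs'.1) (be t s' hs'.1) ∧
        lo ε (al b s' hs'.1) (be t s' hs'.1) < hi ε (al b s hs.1) (be t s hs.1)) := by
    intro h1 h2 h3
    exact touch_aux h1 h2 (end_x hR hT hs hs' hss hne h2 h3)
      (same hε.pos m3 m4 h3 l2.2 (gap1 hε.y1 _ _))
  have Y : al b s hs.1 < be t s hs.1 → al b s' hs'.1 = be t s' hs'.1 →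
      (al l s hs.1 < be r s hs.1 ↔ al l s' hs'.1 < be r s' hs'.1) →
      ((hi ε (al b s hs.1) (be t s hs.1) = lo ε (al b s' hs'.1) (be t s' hs'.1) ∨
        hi ε (al b s' hs'.1) (be t s' hs'.1) = lo ε (al b s hs.1) (be t s hs.1)) ∧
        lo ε (al l s hs.1) (be r s hs.1) < hi ε (al l s' hs'.1) (be r s' hs'.1) ∧
        lo ε (al l s' hs'.1) (be r s' hs'.1) < hi ε (al l s hs.1) (be r s hs.1)) := by
    intro h1 h2 h3
    exact touch_aux h1 h2 (end_y hR hT hs hs' hss hne h2 h3)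
      (same hε.pos m1 m2 h3 l2.1 (gap1 hε.x1 _ _))
  rcases kind hR hT hs with ⟨hc1, k1, k2⟩ | ⟨hc1, k⟩ | ⟨hc1, k1, k2⟩
  · rcases kind hR hT hs' with ⟨hc2, j1, j2⟩ | ⟨hc2, j⟩ | ⟨hc2, j1, j2⟩
    · omega
    · rcases j with ⟨j1, j2⟩ | ⟨j1, j2⟩
      · exact Or.inl (X k1 j1 (iff_of_true k2 j2))
      · exact Or.inr (Y k2 j2 (iff_of_true k1 j1))
    · omega
  · rcases kind hR hT hs' with ⟨hc2, j1, j2⟩ | ⟨hc2, j⟩ | ⟨hc2, j1, j2⟩
    · omega
    · omega
    · rcases k with ⟨k1, k2⟩ | ⟨k1, k2⟩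
      · exact Or.inr (Y k2 j2 (iff_of_false (by rw [k1]; exact lt_irrefl _)
          (by rw [j1]; exact lt_irrefl _)))
      · exact Or.inl (X k1 j1 (iff_of_false (by rw [k2]; exact lt_irrefl _)
          (by rw [j2]; exact lt_irrefl _)))
  · have := hs'.2.1
    omega

theorem exists_M (ε : ℝ) (G : SimpleGraph V) (l r : V → ℝ) :
    ∃ M : ℝ, ∀ s (h : IsC G s), hi ε (al l s h.1) (be r s h.1) ≤ M := by
  classical
  have : ∃ M : ℝ, ∀ s, nr G ε 0 l r s ≤ M := by
    obtain ⟨M, hM⟩ := (Set.finite_range (nr G ε 0 l r)).bddAbove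
    exact ⟨M, fun s => hM ⟨s, rfl⟩⟩
  obtain ⟨M, hM⟩ := this
  refine ⟨M, fun s h => ?_⟩
  have := hM s
  rwa [nr_pos h] at this

theorem rects_new (hR : SD.Rects l r b t) (hT : ∀ u v, G.Adj u v → SD.Touch l r b t u v) {ε M : ℝ}
    (hε : Small ε l r b t) (hM : ∀ s (h : IsC G s), hi ε (al l s h.1) (be r s h.1) ≤ M) :
    SD.Rects (nl G ε M l r) (nr G ε M l r) (nl G ε M b t) (nr G ε M b t) := by
  refine ⟨fun s => ?_, fun s => ?_, fun s s' hss => ?_⟩
  · by_cases h : IsC G s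
    · rw [nl_pos h, nr_pos h]
      exact lo_lt_hi hε.pos (al_le_be hR hT h).1 (gap1 hε.x1 _ _)
    · rw [nl_neg h, nr_neg h]
      linarith
  · by_cases h : IsC G s
    · rw [nl_pos h, nr_pos h]
      exact lo_lt_hi hε.pos (al_le_be hR hT h).2 (gap1 hε.y1 _ _)
    · rw [nl_neg h, nr_neg h]
      linarith
  · by_cases h : IsC G s <;> by_cases h' : IsC G s'
    · by_contra hc
      push Not at hc
      rw [nl_pos h, nr_pos h, nl_pos h', nr_pos h', nl_pos h, nr_pos h, nl_pos h', nr_pos h'] at hc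
      exact hss (disj_new hR hT hε h h' hc.2.1 hc.1 hc.2.2.2 hc.2.2.1)
    · left
      rw [nr_pos h, nl_neg h']
      have := hM s h
      have h3 : (0 : ℝ) ≤ ((Fintype.equivFin (Finset V) s' : ℕ) : ℝ) := Nat.cast_nonneg _
      linarith
    · right; left
      rw [nr_pos h', nl_neg h]
      have := hM s' h'
      have h3 : (0 : ℝ) ≤ ((Fintype.equivFin (Finset V) s : ℕ) : ℝ) := Nat.cast_nonneg _
      linarith
    · have hne : (Fintype.equivFin (Finset V) s : ℕ) ≠ (Fintype.equivFin (Finset V) s' : ℕ) := by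
        intro he
        exact hss ((Fintype.equivFin (Finset V)).injective (Fin.ext he))
      rcases lt_or_gt_of_ne hne with h3 | h3
      · left
        rw [nr_neg h, nl_neg h']
        have : ((Fintype.equivFin (Finset V) s : ℕ) : ℝ) + 1 ≤
          ((Fintype.equivFin (Finset V) s' : ℕ) : ℝ) := by exact_mod_cast h3
        linarith
      · right; left
        rw [nr_neg h', nl_neg h]
        have : ((Fintype.equivFin (Finset V) s' : ℕ) : ℝ) + 1 ≤
          ((Fintype.equivFin (Finset V) s : ℕ) : ℝ) := by exact_mod_cast h3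
        linarith

end final

end Pool.Agent.E8helper59.PT.Box

namespace Pool.Agent.E8helper59.PT

/-- **The incidence graph of the vertices, edges and triangles of a spanning subgraph of a contact
graph of rectangles is a spanning subgraph of a contact graph of rectangles.** -/
theorem rect_H3 {V : Type} [Fintype V] [DecidableEq V] {G : SimpleGraph V}
    (h : SD.RectContact G) : SD.RectContact (H3 G) := by
  obtain ⟨l, r, b, t, hR, hT⟩ := h
  obtain ⟨ε, hε⟩ := Box.exists_Small l r b t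
  obtain ⟨M, hM⟩ := Box.exists_M ε G l r
  refine ⟨_, _, _, _, Box.rects_new hR hT hε hM, ?_⟩
  rintro s s' ⟨⟨hs, hs'⟩, h | h⟩
  · exact Box.touch_new hR hT hε hs hs' h.1 h.2
  · exact SD.touch_symm (Box.touch_new hR hT hε hs' hs h.1 h.2)

end Pool.Agent.E8helper59.PT
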