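import Pool.Agent.E8helper59.PT.Dec

set_option autoImplicit false
set_option linter.unusedSectionVars false

/-!
# Strictly suitable pairs on the components
-/

namespace Pool.Agent.E8helper59.PT

open Pool.Agent.E8helper59.SD

theorem sep_shift {V : Type} {F f : V → ℝ} {C : ℝ} {a b c d : V} (ha : f a = F a + C)
    (hb : f b = F b + C) (hc : f c = F c + C) (hd : f d = F d + C) (h : SD.Sep F a b c d) :
    SD.Sep f a b c d := by
  unfold SD.Sep at *
  rw [ha, hb, hc, hd]
  rcases h with ⟨h1, h2, h3, h4⟩ | ⟨h1, h2, h3, h4⟩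
  · left
    refine ⟨?_, ?_, ?_, ?_⟩ <;> linarith
  · right
    refine ⟨?_, ?_, ?_, ?_⟩ <;> linarith

/-- **Strictly suitable pairs on the components give one on the graph.** -/
theorem strict_of_comps {V : Type} [Fintype V] [DecidableEq V] {G : SimpleGraph V}
    (h : ∀ v, ∃ S : Finset V, v ∈ S ∧ (∀ x ∈ S, ∀ y, G.Adj x y → y ∈ S) ∧
      (∀ X, Cl G S X → X = S) ∧ ∃ f g : V → ℝ, SD.Inv G (∅ : Set V) S f g) :
    ∃ f g : V → ℝ, SD.Strict G f g := by
  classical
  choose S hmem hcl hcon hfg using h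
  have hex : ∀ T : Finset V, ∃ f g : V → ℝ, (∃ f g : V → ℝ, SD.Inv G (∅ : Set V) T f g) →
      SD.Inv G (∅ : Set V) T f g := by
    intro T
    by_cases hT : ∃ f g : V → ℝ, SD.Inv G (∅ : Set V) T f g
    · obtain ⟨f, g, hfg⟩ := hT
      exact ⟨f, g, fun _ => hfg⟩
    · exact ⟨fun _ => 0, fun _ => 0, fun h => absurd h hT⟩
  choose F H hFH using hex
  have hI : ∀ v, SD.Inv G (∅ : Set V) (S v) (F (S v)) (H (S v)) := fun v => hFH (S v) (hfg v)
  have hsub : ∀ v w, w ∈ S v → S v = S w := by
    intro v w hw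
    have h1 : S v ∩ S w = S v := by
      apply hcon v
      refine ⟨Finset.inter_subset_left, ⟨w, Finset.mem_inter.2 ⟨hw, hmem w⟩⟩, ?_⟩
      intro x hx y hy hxy
      exact Finset.mem_inter.2 ⟨hy, hcl w x (Finset.mem_inter.1 hx).2 y hxy⟩
    have h2 : S v ∩ S w = S w := by
      apply hcon w
      refine ⟨Finset.inter_subset_right, ⟨w, Finset.mem_inter.2 ⟨hw, hmem w⟩⟩, ?_⟩
      intro x hx y hy hxy
      exact Finset.mem_inter.2 ⟨hcl v x (Finset.mem_inter.1 hx).1 y hxy, hy⟩
    exact h1.symm.trans h2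
  have hadj : ∀ x y, G.Adj x y → S x = S y := fun x y hxy =>
    hsub x y (hcl x x (hmem x) y hxy)
  obtain ⟨M, hM⟩ : ∃ M : ℝ, ∀ (T : Finset V) (v : V), |F T v| < M ∧ |H T v| < M := by
    refine ⟨∑ T : Finset V, ∑ v, (|F T v| + |H T v|) + 1, fun T v => ?_⟩
    have h1 : |F T v| + |H T v| ≤ ∑ v, (|F T v| + |H T v|) :=
      Finset.single_le_sum (f := fun v => |F T v| + |H T v|)
        (fun i _ => add_nonneg (abs_nonneg _) (abs_nonneg _)) (Finset.mem_univ v)
    have h2 : ∑ v, (|F T v| + |H T v|) ≤ ∑ T : Finset V, ∑ v, (|F T v| + |H T v|) :=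
      Finset.single_le_sum (f := fun T => ∑ v, (|F T v| + |H T v|))
        (fun i _ => Finset.sum_nonneg fun j _ => add_nonneg (abs_nonneg _) (abs_nonneg _))
        (Finset.mem_univ T)
    have h3 := abs_nonneg (F T v)
    have h4 := abs_nonneg (H T v)
    constructor <;> linarith
  let idx : Finset V → ℕ := fun T => (Fintype.equivFin (Finset V) T : ℕ)
  have hidx : ∀ T T', T ≠ T' → idx T < idx T' ∨ idx T' < idx T := by
    intro T T' hne
    apply lt_or_gt_of_ne
    intro he
    exact hne ((Fintype.equivFin (Finset V)).injective (Fin.ext he))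
  -- the general comparison
  have key : ∀ (K : Finset V → V → ℝ), (∀ T v, |K T v| < M) → ∀ x y, idx (S x) < idx (S y) →
      K (S x) x + 4 * M * idx (S x) < K (S y) y + 4 * M * idx (S y) := by
    intro K hK x y hxy
    have h1 := abs_lt.1 (hK (S x) x)
    have h2 := abs_lt.1 (hK (S y) y)
    have h3 : ((idx (S x) : ℕ) : ℝ) + 1 ≤ ((idx (S y) : ℕ) : ℝ) := by exact_mod_cast hxy
    have hM0 : 0 < M := by linarith
    nlinarith
  have keyF := key F (fun T v => (hM T v).1)
  have keyH := key H (fun T v => (hM T v).2)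
  refine ⟨fun x => F (S x) x + 4 * M * idx (S x), fun x => H (S x) x + 4 * M * idx (S x),
    ?_, ?_, ?_, ?_⟩
  · intro x y hxy
    simp only at hxy
    by_cases hS : S x = S y
    · rw [← hS] at hxy
      exact (hI x).finj x (hmem x) y (hS ▸ hmem y) (by linarith)
    · rcases hidx _ _ hS with h1 | h1
      · exact absurd hxy (keyF x y h1).ne
      · exact absurd hxy (keyF y x h1).ne'
  · intro x y hxy
    simp only at hxy
    by_cases hS : S x = S y
    · rw [← hS] at hxy
      exact (hI x).ginj x (hmem x) y (hS ▸ hmem y) (by linarith)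
    · rcases hidx _ _ hS with h1 | h1
      · exact absurd hxy (keyH x y h1).ne
      · exact absurd hxy (keyH y x h1).ne'
  · intro a b c d hab hcd h1 h2 h3 h4
    have e1 := hadj a b hab
    have e2 := hadj c d hcd
    by_cases hS : S a = S c
    · have hb : b ∈ S a := e1 ▸ hmem b
      have hc : c ∈ S a := hS ▸ hmem c
      have hd : d ∈ S a := by rw [hS, e2]; exact hmem d
      rcases (hI a).sep a (hmem a) b hb c hc d hd hab hcd h1 h2 h3 h4 with h5 | h5
      · left
        refine sep_shift (F := F (S a)) (C := 4 * M * idx (S a)) rfl ?_ ?_ ?_ h5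
        · simp only [← e1]
        · simp only [← hS]
        · simp only [← e2, ← hS]
      · right
        refine sep_shift (F := H (S a)) (C := 4 * M * idx (S a)) rfl ?_ ?_ ?_ h5
        · simp only [← e1]
        · simp only [← hS]
        · simp only [← e2, ← hS]
    · left
      unfold SD.Sep
      rcases hidx _ _ hS with h5 | h5
      · left
        exact ⟨keyF a c h5, keyF a d (e2 ▸ h5), keyF b c (e1 ▸ h5), keyF b d (e1 ▸ e2 ▸ h5)⟩
      · right
        exact ⟨keyF c a h5, keyF c b (e1 ▸ h5), keyF d a (e2 ▸ h5), keyF d b (e1 ▸ e2 ▸ h5)⟩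
  · intro a b w hab h1 h2
    have e1 := hadj a b hab
    by_cases hS : S a = S w
    · have hb : b ∈ S a := e1 ▸ hmem b
      have hw : w ∈ S a := hS ▸ hmem w
      rcases (hI a).out a (hmem a) b hb w hw (Set.notMem_empty w) hab h1 h2 with h5 | h5
      · left
        refine sep_shift (F := F (S a)) (C := 4 * M * idx (S a)) rfl ?_ ?_ ?_ h5
        · simp only [← e1]
        · simp only [← hS]
        · simp only [← hS]
      · right
        refine sep_shift (F := H (S a)) (C := 4 * M * idx (S a)) rfl ?_ ?_ ?_ h5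
        · simp only [← e1]
        · simp only [← hS]
        · simp only [← hS]
    · left
      unfold SD.Sep
      rcases hidx _ _ hS with h5 | h5
      · left
        exact ⟨keyF a w h5, keyF a w h5, keyF b w (e1 ▸ h5), keyF b w (e1 ▸ h5)⟩
      · right
        exact ⟨keyF w a h5, keyF w b (e1 ▸ h5), keyF w a h5, keyF w b (e1 ▸ h5)⟩

end Pool.Agent.E8helper59.PT
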