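import Pool.Agent.E8helper59.PT.Glue

set_option autoImplicit false
set_option linter.unusedSectionVars false

/-!
# Decomposition at cut vertices
-/

namespace Pool.Agent.E8helper59.PT

open Pool.Agent.E8helper59.SD

variable {V : Type} [DecidableEq V] {G : SimpleGraph V}

/-- the edge `ck` is in at most one triangle -/
def Few (G : SimpleGraph V) (S : Finset V) (c k : V) : Prop :=
  ∀ w ∈ S, ∀ w' ∈ S, G.Adj c w → G.Adj k w → G.Adj c w' → G.Adj k w' → w = w'

/-- `X` is a nonempty union of components of `T` -/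
def Cl (G : SimpleGraph V) (T X : Finset V) : Prop :=
  X ⊆ T ∧ X.Nonempty ∧ ∀ x ∈ X, ∀ y ∈ T, G.Adj x y → y ∈ X

theorem Cl.compl {T X : Finset V} (h : Cl G T X) (hne : X ≠ T) : Cl G T (T \ X) := by
  refine ⟨Finset.sdiff_subset, ?_, ?_⟩
  · rw [Finset.sdiff_nonempty]
    exact fun hs => hne (Finset.Subset.antisymm h.1 hs)
  · intro x hx y hy hxy
    rw [Finset.mem_sdiff] at hx ⊢
    exact ⟨hy, fun hyX => hx.2 (h.2.2 y hyX x hx.1 hxy.symm)⟩

theorem Few.mono {S S' : Finset V} (hS : S' ⊆ S) {c k : V} (h : Few G S c k) : Few G S' c k :=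
  fun w hw w' hw' => h w (hS hw) w' (hS hw')

/-- the condition of the decomposition -/
structure Good (G : SimpleGraph V) (S : Finset V) (a : V) : Prop where
  mem : a ∈ S
  conn : ∀ X, Cl G S X → X = S
  cond : ∀ c ∈ S, ∀ X, Cl G (S.erase c) X → (c = a ∨ X ≠ S.erase c) →
    ∃ k ∈ X, G.Adj c k ∧ Few G S c k

/-- the conclusion of the decomposition: a strictly suitable pair with `a` in the corner -/
def Q (G : SimpleGraph V) (S : Finset V) (a : V) : Prop :=
  ∃ f g : V → ℝ, Inv G ∅ S f g ∧ ∀ x ∈ S, x ≠ a → f a < f x ∧ g a < g x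

theorem small_Q {a b c : V} (hb : a ≠ b) (hc : a ≠ c) (hbc : b ≠ c) {S : Finset V}
    (hS : S ⊆ {a, b, c}) : Q G S a := by
  have hcases : ∀ x ∈ S, x = a ∨ x = b ∨ x = c := fun x hx => by simpa using hS hx
  let f : V → ℝ := fun x => if x = a then 0 else if x = b then 1 else 2
  let g : V → ℝ := fun x => if x = a then 0 else if x = b then 2 else 1
  have fa : f a = 0 := if_pos rfl
  have fb : f b = 1 := by simp only [f, if_neg hb.symm, if_true]
  have fc : f c = 2 := by simp only [f, if_neg hc.symm, if_neg hbc.symm]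
  have ga : g a = 0 := if_pos rfl
  have gb : g b = 2 := by simp only [g, if_neg hb.symm, if_true]
  have gc : g c = 1 := by simp only [g, if_neg hc.symm, if_neg hbc.symm]
  clear_value f g
  refine ⟨f, g, ⟨?_, ?_, ?_, ?_⟩, ?_⟩
  · intro u hu v hv huv
    rcases hcases u hu with rfl | rfl | rfl <;> rcases hcases v hv with rfl | rfl | rfl <;>
      first | rfl | (exfalso; simp only [fa, fb, fc] at huv; norm_num at huv)
  · intro u hu v hv huv
    rcases hcases u hu with rfl | rfl | rfl <;> rcases hcases v hv with rfl | rfl | rfl <;>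
      first | rfl | (exfalso; simp only [ga, gb, gc] at huv; norm_num at huv)
  · intro x hx y hy z hz w hw hxy hzw e1 e2 e3 e4
    exfalso
    have e5 := hxy.ne
    have e6 := hzw.ne
    rcases hcases x hx with rfl | rfl | rfl <;> rcases hcases y hy with rfl | rfl | rfl <;>
      rcases hcases z hz with rfl | rfl | rfl <;> first | contradiction | skip
    all_goals rcases hcases w hw with h | h | h <;> first | contradiction | skip
    all_goals first | exact e2 h.symm | exact e4 h.symm | exact e6 h.symm
  · intro x hx y hy w hw _ hxy e1 e2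
    have e5 := hxy.ne
    unfold SD.Sep
    rcases hcases x hx with rfl | rfl | rfl <;> rcases hcases y hy with rfl | rfl | rfl <;>
      rcases hcases w hw with rfl | rfl | rfl <;> first | contradiction | skip
    all_goals simp only [fa, fb, fc, ga, gb, gc]
    all_goals norm_num
  · intro x hx hxa
    rcases hcases x hx with h | h | h
    · exact absurd h hxa
    · rw [h, fa, fb, ga, gb]; norm_num
    · rw [h, fa, fc, ga, gc]; norm_num

theorem card_le_three_Q {S : Finset V} {a : V} (ha : a ∈ S) (hS : S.card ≤ 3)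
    (hV : ∃ b c : V, a ≠ b ∧ a ≠ c ∧ b ≠ c) : Q G S a := by
  have h1 : (S.erase a).card ≤ 2 := by
    rw [Finset.card_erase_of_mem ha]; omega
  obtain ⟨b0, c0, h2, h3, h4⟩ := hV
  have key : ∃ b c, a ≠ b ∧ a ≠ c ∧ b ≠ c ∧ S.erase a ⊆ {b, c} := by
    rcases Nat.lt_or_ge (S.erase a).card 2 with h5 | h5
    · rcases Nat.lt_or_ge (S.erase a).card 1 with h6 | h6
      · have h7 : S.erase a = ∅ := Finset.card_eq_zero.1 (by omega)
        exact ⟨b0, c0, h2, h3, h4, by rw [h7]; simp⟩
      · obtain ⟨b, hb⟩ := Finset.card_eq_one.1 (by omega : (S.erase a).card = 1)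
        have hab : a ≠ b := by
          rintro rfl
          have : a ∈ S.erase a := by rw [hb]; simp
          simp at this
        by_cases h8 : b = b0
        · exact ⟨b, c0, hab, h3, by rw [h8]; exact h4, by rw [hb]; simp⟩
        · exact ⟨b, b0, hab, h2, h8, by rw [hb]; simp⟩
    · obtain ⟨b, c, hbc, hb⟩ := Finset.card_eq_two.1 (by omega : (S.erase a).card = 2)
      have h8 : ∀ x ∈ S.erase a, a ≠ x := fun x hx he => by simp [← he] at hx
      exact ⟨b, c, h8 b (by rw [hb]; simp), h8 c (by rw [hb]; simp), hbc, by rw [hb]⟩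
  obtain ⟨b, c, h5, h6, h7, h8⟩ := key
  refine small_Q h5 h6 h7 ?_
  intro x hx
  by_cases hxa : x = a
  · simp [hxa]
  · have := h8 (Finset.mem_erase.2 ⟨hxa, hx⟩)
    simp only [Finset.mem_insert, Finset.mem_singleton] at this ⊢
    exact Or.inr this

/-- the part of the root -/
theorem Good.split1 {S : Finset V} {a : V} (h : Good G S a) {c : V} (hc : c ∈ S) {X : Finset V}
    (hX : Cl G (S.erase c) X) (haX : a ∉ X) {p : V} (hp : p ∈ X) (hcp : G.Adj c p) :
    Good G (insert p (S \ X)) a := by
  have hXS : X ⊆ S := fun x hx => Finset.mem_of_mem_erase (hX.1 hx)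
  have hcX : c ∉ X := fun hc' => by
    have := hX.1 hc'
    simp at this
  have hnb : ∀ x ∈ X, ∀ w ∈ S, w ∉ X → G.Adj x w → w = c := by
    intro x hx w hw hwX hxw
    by_contra hne
    exact hwX (hX.2.2 x hx w (Finset.mem_erase.2 ⟨hne, hw⟩) hxw)
  have hpS := hXS hp
  have hcY : c ∈ S \ X := Finset.mem_sdiff.2 ⟨hc, hcX⟩
  have hsub : insert p (S \ X) ⊆ S := by
    intro x hx
    rcases Finset.mem_insert.1 hx with rfl | hx
    · exact hpS
    · exact (Finset.mem_sdiff.1 hx).1
  have haY : a ∈ S \ X := Finset.mem_sdiff.2 ⟨h.mem, haX⟩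
  -- connectivity of `S \ X`
  have hconnY : ∀ Z, Cl G (S \ X) Z → Z = S \ X := by
    intro Z hZ
    by_cases hcZ : c ∈ Z
    · have h1 : Z ∪ X = S := by
        apply h.conn
        refine ⟨?_, ⟨c, Finset.mem_union_left _ hcZ⟩, ?_⟩
        · intro x hx
          rcases Finset.mem_union.1 hx with hx | hx
          · exact (Finset.mem_sdiff.1 (hZ.1 hx)).1
          · exact hXS hx
        · intro x hx y hy hxy
          by_cases hyX : y ∈ X
          · exact Finset.mem_union_right _ hyX
          · rcases Finset.mem_union.1 hx with hx | hx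
            · exact Finset.mem_union_left _ (hZ.2.2 x hx y (Finset.mem_sdiff.2 ⟨hy, hyX⟩) hxy)
            · rw [hnb x hx y hy hyX hxy]
              exact Finset.mem_union_left _ hcZ
      apply Finset.Subset.antisymm hZ.1
      intro x hx
      rw [Finset.mem_sdiff, ← h1] at hx
      rcases Finset.mem_union.1 hx.1 with h2 | h2
      · exact h2
      · exact absurd h2 hx.2
    · exfalso
      have h1 : Z = S := by
        apply h.conn
        refine ⟨fun x hx => (Finset.mem_sdiff.1 (hZ.1 hx)).1, hZ.2.1, ?_⟩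
        intro x hx y hy hxy
        by_cases hyX : y ∈ X
        · have hxs := Finset.mem_sdiff.1 (hZ.1 hx)
          have := hnb y hyX x hxs.1 hxs.2 hxy.symm
          rw [this] at hx
          exact absurd hx hcZ
        · exact hZ.2.2 x hx y (Finset.mem_sdiff.2 ⟨hy, hyX⟩) hxy
      exact hcZ (h1 ▸ hc)
  refine ⟨Finset.mem_insert_of_mem haY, ?_, ?_⟩
  · -- connectivity
    intro Z hZ
    have hcZ : c ∈ Z := by
      by_cases hpZ : p ∈ Z
      · exact hZ.2.2 p hpZ c (Finset.mem_insert_of_mem hcY) hcp.symm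
      · have h1 : Z = S \ X := by
          apply hconnY
          refine ⟨?_, hZ.2.1, fun x hx y hy hxy => hZ.2.2 x hx y (Finset.mem_insert_of_mem hy) hxy⟩
          intro x hx
          rcases Finset.mem_insert.1 (hZ.1 hx) with h1 | h1
          · exact absurd (h1 ▸ hx) hpZ
          · exact h1
        rw [h1]; exact hcY
    have hpZ : p ∈ Z := hZ.2.2 c hcZ p (Finset.mem_insert_self _ _) hcp
    have h1 : Z ∩ (S \ X) = S \ X := by
      apply hconnY
      refine ⟨Finset.inter_subset_right, ⟨c, Finset.mem_inter.2 ⟨hcZ, hcY⟩⟩, ?_⟩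
      intro x hx y hy hxy
      rw [Finset.mem_inter] at hx ⊢
      exact ⟨hZ.2.2 x hx.1 y (Finset.mem_insert_of_mem hy) hxy, hy⟩
    apply Finset.Subset.antisymm hZ.1
    intro x hx
    rcases Finset.mem_insert.1 hx with h2 | h2
    · rw [h2]; exact hpZ
    · rw [← h1] at h2
      exact (Finset.mem_inter.1 h2).1
  · -- the condition
    intro c' hc' Z hZ hZ'
    by_cases e1 : c' = c
    · subst e1
      by_cases hpZ : p ∈ Z
      · refine ⟨p, hpZ, hcp, ?_⟩
        intro w hw w' hw' k1 k2 k3 k4
        exfalso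
        rcases Finset.mem_insert.1 hw with h1 | h1
        · rw [h1] at k2; exact G.irrefl k2
        · have := hnb p hp w (Finset.mem_sdiff.1 h1).1 (Finset.mem_sdiff.1 h1).2 k2
          rw [this] at k1
          exact G.irrefl k1
      · have hZc : Cl G (S.erase c') Z := by
          refine ⟨?_, hZ.2.1, ?_⟩
          · intro x hx
            have h1 := Finset.mem_erase.1 (hZ.1 hx)
            exact Finset.mem_erase.2 ⟨h1.1, hsub h1.2⟩
          · intro x hx y hy hxy
            have h1 := Finset.mem_erase.1 hy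
            have h2 := Finset.mem_erase.1 (hZ.1 hx)
            have hxX : x ∉ X := by
              rcases Finset.mem_insert.1 h2.2 with h3 | h3
              · exact absurd (h3 ▸ hx) hpZ
              · exact (Finset.mem_sdiff.1 h3).2
            by_cases hyX : y ∈ X
            · exact absurd (hnb y hyX x (hsub h2.2) hxX hxy.symm) h2.1
            · exact hZ.2.2 x hx y (Finset.mem_erase.2 ⟨h1.1, Finset.mem_insert_of_mem
                (Finset.mem_sdiff.2 ⟨h1.2, hyX⟩)⟩) hxy
        obtain ⟨k, hk1, hk2, hk3⟩ := h.cond c' hc Z hZc (by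
          rcases hZ' with h1 | h1
          · exact Or.inl h1
          · right
            rintro rfl
            exact hpZ (Finset.mem_erase.2 ⟨hcp.ne.symm, hpS⟩))
        exact ⟨k, hk1, hk2, hk3.mono hsub⟩
    · by_cases e2 : c' = p
      · exfalso
        subst e2
        have h1 : (insert c' (S \ X)).erase c' = S \ X := by
          rw [Finset.erase_insert]
          exact fun hm => (Finset.mem_sdiff.1 hm).2 hp
        rw [h1] at hZ hZ'
        rcases hZ' with h2 | h2
        · exact haX (h2 ▸ hp)
        · exact h2 (hconnY Z hZ)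
      · -- another vertex
        have hc'Y : c' ∈ S \ X := by
          rcases Finset.mem_insert.1 hc' with h1 | h1
          · exact absurd h1 e2
          · exact h1
        have hc'S := (Finset.mem_sdiff.1 hc'Y).1
        have hc'X := (Finset.mem_sdiff.1 hc'Y).2
        have hcE : c ∈ (insert p (S \ X)).erase c' :=
          Finset.mem_erase.2 ⟨Ne.symm e1, Finset.mem_insert_of_mem hcY⟩
        have hpE : p ∈ (insert p (S \ X)).erase c' :=
          Finset.mem_erase.2 ⟨Ne.symm e2, Finset.mem_insert_self _ _⟩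
        have hfin : ∀ Z' : Finset V, Cl G (S.erase c') Z' → Z' \ X ⊆ Z →
            (c' = a ∨ Z' ≠ S.erase c') → ∃ k ∈ Z, G.Adj c' k ∧ Few G (insert p (S \ X)) c' k := by
          intro Z' h1 h2 h3
          obtain ⟨k, hk1, hk2, hk3⟩ := h.cond c' hc'S Z' h1 h3
          refine ⟨k, h2 (Finset.mem_sdiff.2 ⟨hk1, fun hkX => ?_⟩), hk2, hk3.mono hsub⟩
          exact e1 (hnb k hkX c' hc'S hc'X hk2.symm)
        by_cases hcZ : c ∈ Z
        · refine hfin (Z ∪ X) ⟨?_, ⟨c, Finset.mem_union_left _ hcZ⟩, ?_⟩ ?_ ?_
          · intro x hx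
            rcases Finset.mem_union.1 hx with hx | hx
            · have h1 := Finset.mem_erase.1 (hZ.1 hx)
              exact Finset.mem_erase.2 ⟨h1.1, hsub h1.2⟩
            · exact Finset.mem_erase.2 ⟨fun he => hc'X (he ▸ hx), hXS hx⟩
          · intro x hx y hy hxy
            have h1 := Finset.mem_erase.1 hy
            by_cases hyX : y ∈ X
            · exact Finset.mem_union_right _ hyX
            · rcases Finset.mem_union.1 hx with hx | hx
              · exact Finset.mem_union_left _ (hZ.2.2 x hx y (Finset.mem_erase.2 ⟨h1.1,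
                  Finset.mem_insert_of_mem (Finset.mem_sdiff.2 ⟨h1.2, hyX⟩)⟩) hxy)
              · rw [hnb x hx y h1.2 hyX hxy]
                exact Finset.mem_union_left _ hcZ
          · intro x hx
            rcases Finset.mem_union.1 (Finset.mem_sdiff.1 hx).1 with h1 | h1
            · exact h1
            · exact absurd h1 (Finset.mem_sdiff.1 hx).2
          · rcases hZ' with h1 | h1
            · exact Or.inl h1
            · right
              intro he
              apply h1
              apply Finset.Subset.antisymm hZ.1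
              intro x hx
              have h2 := Finset.mem_erase.1 hx
              rcases Finset.mem_insert.1 h2.2 with h3 | h3
              · rw [h3]
                exact hZ.2.2 c hcZ p hpE hcp
              · have h4 : x ∈ Z ∪ X := by
                  rw [he]; exact Finset.mem_erase.2 ⟨h2.1, (Finset.mem_sdiff.1 h3).1⟩
                rcases Finset.mem_union.1 h4 with h5 | h5
                · exact h5
                · exact absurd h5 (Finset.mem_sdiff.1 h3).2
        · have hpZ : p ∉ Z := fun hpZ => hcZ (hZ.2.2 p hpZ c hcE hcp.symm)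
          have hZX : ∀ x ∈ Z, x ∉ X := by
            intro x hx
            have h2 := Finset.mem_erase.1 (hZ.1 hx)
            rcases Finset.mem_insert.1 h2.2 with h3 | h3
            · exact absurd (h3 ▸ hx) hpZ
            · exact (Finset.mem_sdiff.1 h3).2
          refine hfin Z ⟨?_, hZ.2.1, ?_⟩ Finset.sdiff_subset ?_
          · intro x hx
            have h1 := Finset.mem_erase.1 (hZ.1 hx)
            exact Finset.mem_erase.2 ⟨h1.1, hsub h1.2⟩
          · intro x hx y hy hxy
            have h1 := Finset.mem_erase.1 hy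
            have h2 := Finset.mem_erase.1 (hZ.1 hx)
            by_cases hyX : y ∈ X
            · have h3 := hnb y hyX x (hsub h2.2) (hZX x hx) hxy.symm
              exact absurd (h3 ▸ hx) hcZ
            · exact hZ.2.2 x hx y (Finset.mem_erase.2 ⟨h1.1,
                  Finset.mem_insert_of_mem (Finset.mem_sdiff.2 ⟨h1.2, hyX⟩)⟩) hxy
          · rcases hZ' with h1 | h1
            · exact Or.inl h1
            · right
              rintro rfl
              exact hcZ (Finset.mem_erase.2 ⟨Ne.symm e1, hc⟩)

/-- the other part -/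
theorem Good.split2 {S : Finset V} {a : V} (h : Good G S a) {c : V} (hc : c ∈ S) {X : Finset V}
    (hX : Cl G (S.erase c) X) (hXne : c = a ∨ X ≠ S.erase c) :
    Good G (insert c X) c := by
  have hXS : X ⊆ S := fun x hx => Finset.mem_of_mem_erase (hX.1 hx)
  have hcX : c ∉ X := fun hc' => by
    have := hX.1 hc'
    simp at this
  have hnb : ∀ x ∈ X, ∀ w ∈ S, w ∉ X → G.Adj x w → w = c := by
    intro x hx w hw hwX hxw
    by_contra hne
    exact hwX (hX.2.2 x hx w (Finset.mem_erase.2 ⟨hne, hw⟩) hxw)
  have hsub : insert c X ⊆ S := by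
    intro x hx
    rcases Finset.mem_insert.1 hx with rfl | hx
    · exact hc
    · exact hXS hx
  refine ⟨Finset.mem_insert_self _ _, ?_, ?_⟩
  · intro Z hZ
    have hcZ : c ∈ Z := by
      by_contra hcZ
      have hZX : ∀ x ∈ Z, x ∈ X := by
        intro x hx
        rcases Finset.mem_insert.1 (hZ.1 hx) with h1 | h1
        · exact absurd (h1 ▸ hx) hcZ
        · exact h1
      have h1 : Z = S := by
        apply h.conn
        refine ⟨fun x hx => hXS (hZX x hx), hZ.2.1, ?_⟩
        intro x hx y hy hxy
        by_cases hyX : y ∈ X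
        · exact hZ.2.2 x hx y (Finset.mem_insert_of_mem hyX) hxy
        · have h3 := hnb x (hZX x hx) y hy hyX hxy
          rw [h3] at hxy ⊢
          exact hZ.2.2 x hx c (Finset.mem_insert_self _ _) hxy
      exact hcZ (h1 ▸ hc)
    have h1 : Z ∪ (S \ X) = S := by
      apply h.conn
      refine ⟨?_, ⟨c, Finset.mem_union_left _ hcZ⟩, ?_⟩
      · intro x hx
        rcases Finset.mem_union.1 hx with hx | hx
        · exact hsub (hZ.1 hx)
        · exact (Finset.mem_sdiff.1 hx).1
      · intro x hx y hy hxy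
        by_cases hyX : y ∈ X
        · rcases Finset.mem_union.1 hx with hx | hx
          · exact Finset.mem_union_left _ (hZ.2.2 x hx y (Finset.mem_insert_of_mem hyX) hxy)
          · have h3 := hnb y hyX x (Finset.mem_sdiff.1 hx).1 (Finset.mem_sdiff.1 hx).2 hxy.symm
            rw [h3] at hxy
            exact Finset.mem_union_left _ (hZ.2.2 c hcZ y (Finset.mem_insert_of_mem hyX) hxy)
        · exact Finset.mem_union_right _ (Finset.mem_sdiff.2 ⟨hy, hyX⟩)
    apply Finset.Subset.antisymm hZ.1
    intro x hx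
    rcases Finset.mem_insert.1 hx with h2 | h2
    · rw [h2]; exact hcZ
    · have h3 : x ∈ Z ∪ (S \ X) := by rw [h1]; exact hXS h2
      rcases Finset.mem_union.1 h3 with h4 | h4
      · exact h4
      · exact absurd h2 (Finset.mem_sdiff.1 h4).2
  · intro c' hc' Z hZ hZ'
    by_cases e1 : c' = c
    · subst e1
      have h1 : (insert c' X).erase c' = X := Finset.erase_insert hcX
      rw [h1] at hZ hZ'
      obtain ⟨k, hk1, hk2, hk3⟩ := h.cond c' hc Z ⟨fun x hx => hX.1 (hZ.1 hx), hZ.2.1, (by
        intro x hx y hy hxy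
        exact hZ.2.2 x hx y (hX.2.2 x (hZ.1 hx) y hy hxy) hxy)⟩ (by
        rcases hXne with h2 | h2
        · exact Or.inl h2
        · right
          intro he
          apply h2
          apply Finset.Subset.antisymm hX.1
          rw [← he]
          exact hZ.1)
      exact ⟨k, hk1, hk2, hk3.mono hsub⟩
    · have hc'X : c' ∈ X := by
        rcases Finset.mem_insert.1 hc' with h1 | h1
        · exact absurd h1 e1
        · exact h1
      have hZne : Z ≠ (insert c X).erase c' := by
        rcases hZ' with h1 | h1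
        · exact absurd h1 e1
        · exact h1
      have hcE : c ∈ (insert c X).erase c' :=
        Finset.mem_erase.2 ⟨Ne.symm e1, Finset.mem_insert_self _ _⟩
      have hfin : ∀ Z' : Finset V, Cl G (S.erase c') Z' → (∀ x ∈ Z', x ∈ insert c X → x ∈ Z) →
          Z' ≠ S.erase c' → ∃ k ∈ Z, G.Adj c' k ∧ Few G (insert c X) c' k := by
        intro Z' h1 h2 h3
        obtain ⟨k, hk1, hk2, hk3⟩ := h.cond c' (hXS hc'X) Z' h1 (Or.inr h3)
        refine ⟨k, h2 k hk1 ?_, hk2, hk3.mono hsub⟩
        by_cases hkX : k ∈ X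
        · exact Finset.mem_insert_of_mem hkX
        · have h4 := hnb c' hc'X k (Finset.mem_of_mem_erase (h1.1 hk1)) hkX hk2
          rw [h4]; exact Finset.mem_insert_self _ _
      by_cases hcZ : c ∈ Z
      · refine hfin (Z ∪ (S \ X)) ⟨?_, ⟨c, Finset.mem_union_left _ hcZ⟩, ?_⟩ ?_ ?_
        · intro x hx
          rcases Finset.mem_union.1 hx with hx | hx
          · have h1 := Finset.mem_erase.1 (hZ.1 hx)
            exact Finset.mem_erase.2 ⟨h1.1, hsub h1.2⟩
          · exact Finset.mem_erase.2 ⟨fun he => (Finset.mem_sdiff.1 hx).2 (he ▸ hc'X),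
              (Finset.mem_sdiff.1 hx).1⟩
        · intro x hx y hy hxy
          have h1 := Finset.mem_erase.1 hy
          by_cases hyX : y ∈ X
          · rcases Finset.mem_union.1 hx with hx | hx
            · exact Finset.mem_union_left _ (hZ.2.2 x hx y
                (Finset.mem_erase.2 ⟨h1.1, Finset.mem_insert_of_mem hyX⟩) hxy)
            · have h3 := hnb y hyX x (Finset.mem_sdiff.1 hx).1 (Finset.mem_sdiff.1 hx).2 hxy.symm
              rw [h3] at hxy
              exact Finset.mem_union_left _ (hZ.2.2 c hcZ y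
                (Finset.mem_erase.2 ⟨h1.1, Finset.mem_insert_of_mem hyX⟩) hxy)
          · exact Finset.mem_union_right _ (Finset.mem_sdiff.2 ⟨h1.2, hyX⟩)
        · intro x hx hx'
          rcases Finset.mem_union.1 hx with h1 | h1
          · exact h1
          · rcases Finset.mem_insert.1 hx' with h2 | h2
            · rw [h2]; exact hcZ
            · exact absurd h2 (Finset.mem_sdiff.1 h1).2
        · intro he
          apply hZne
          apply Finset.Subset.antisymm hZ.1
          intro x hx
          have h2 := Finset.mem_erase.1 hx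
          have h4 : x ∈ Z ∪ (S \ X) := by
            rw [he]; exact Finset.mem_erase.2 ⟨h2.1, hsub h2.2⟩
          rcases Finset.mem_union.1 h4 with h5 | h5
          · exact h5
          · rcases Finset.mem_insert.1 h2.2 with h6 | h6
            · rw [h6]; exact hcZ
            · exact absurd h6 (Finset.mem_sdiff.1 h5).2
      · have hZX : ∀ x ∈ Z, x ∈ X := by
          intro x hx
          rcases Finset.mem_insert.1 (Finset.mem_erase.1 (hZ.1 hx)).2 with h1 | h1
          · exact absurd (h1 ▸ hx) hcZ
          · exact h1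
        refine hfin Z ⟨?_, hZ.2.1, ?_⟩ (fun x hx _ => hx) ?_
        · intro x hx
          have h1 := Finset.mem_erase.1 (hZ.1 hx)
          exact Finset.mem_erase.2 ⟨h1.1, hsub h1.2⟩
        · intro x hx y hy hxy
          have h1 := Finset.mem_erase.1 hy
          by_cases hyX : y ∈ X
          · exact hZ.2.2 x hx y (Finset.mem_erase.2 ⟨h1.1, Finset.mem_insert_of_mem hyX⟩) hxy
          · have h3 := hnb x (hZX x hx) y h1.2 hyX hxy
            rw [h3] at hxy ⊢
            exact hZ.2.2 x hx c hcE hxy
        · rintro rfl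
          exact hcZ (Finset.mem_erase.2 ⟨Ne.symm e1, hc⟩)

/-- **The decomposition.** -/
theorem dec_induct (hbase : ∀ (S : Finset V) (a : V), Good G S a → 4 ≤ S.card →
      (∀ c ∈ S, ∀ X, Cl G (S.erase c) X → a ∉ X → (c = a → X ≠ S.erase c) → X.card ≤ 1) → Q G S a) :
    ∀ (n : ℕ) (S : Finset V) (a : V), S.card = n → Good G S a →
      (∃ b c : V, a ≠ b ∧ a ≠ c ∧ b ≠ c) → Q G S a := by
  intro n
  induction n using Nat.strong_induction_on with
  | _ n ih =>
  intro S a hn hG hV
  rcases Nat.lt_or_ge S.card 4 with h4 | h4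
  · exact card_le_three_Q hG.mem (by omega) hV
  by_cases hns : ∀ c ∈ S, ∀ X, Cl G (S.erase c) X → a ∉ X → (c = a → X ≠ S.erase c) → X.card ≤ 1
  · exact hbase S a hG h4 hns
  push Not at hns
  obtain ⟨c, hc, X, hX, haX, hca, hcard⟩ := hns
  have hXne : X ≠ S.erase c := by
    by_cases he : c = a
    · exact hca he
    · rintro rfl
      exact haX (Finset.mem_erase.2 ⟨Ne.symm he, hG.mem⟩)
  obtain ⟨p, hp, hcp, -⟩ := hG.cond c hc X hX (Or.inr hXne)
  have hXS : X ⊆ S := fun x hx => Finset.mem_of_mem_erase (hX.1 hx)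
  have hcX : c ∉ X := fun hc' => by
    have := hX.1 hc'
    simp at this
  have hpY : p ∉ S \ X := fun hm => (Finset.mem_sdiff.1 hm).2 hp
  have h1 := hG.split1 hc hX haX hp hcp
  have h2 := hG.split2 hc hX (Or.inr hXne)
  have hcardS : (S \ X).card + X.card = S.card := Finset.card_sdiff_add_card_eq_card hXS
  have hS4 : ∃ x y z : V, x ≠ y ∧ x ≠ z ∧ y ≠ z := by
    obtain ⟨b, c', hb, hc', hbc⟩ := hV
    exact ⟨a, b, c', hb, hc', hbc⟩
  obtain ⟨f1, g1, hI1, hcor1⟩ := ih (insert p (S \ X)).card (by
    rw [Finset.card_insert_of_notMem hpY]; omega) _ a rfl h1 hV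
  obtain ⟨f2, g2, hI2, hcor2⟩ := ih (insert c X).card (by
    rw [Finset.card_insert_of_notMem hcX]
    have h3 : X.card < (S.erase c).card := Finset.card_lt_card
      ((Finset.ssubset_iff_subset_ne).2 ⟨hX.1, hXne⟩)
    rw [Finset.card_erase_of_mem hc] at h3
    omega) _ c rfl h2 (by
    obtain ⟨x, y, z, h5, h6, h7⟩ := hS4
    by_cases e1 : c = x
    · exact ⟨y, z, e1 ▸ h5, e1 ▸ h6, h7⟩
    · by_cases e2 : c = y
      · exact ⟨x, z, e1, e2 ▸ h7, h6⟩
      · exact ⟨x, y, e1, e2, h5⟩)
  have hcY : c ∈ S \ X := Finset.mem_sdiff.2 ⟨hc, hcX⟩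
  obtain ⟨f, g, hI, hY, hXc⟩ := glue (X := X) (Y := S \ X) (c := c) (p := p)
    Finset.disjoint_sdiff hcY hp hcp (by
      intro x hx w hw hxw
      by_contra hne
      exact (Finset.mem_sdiff.1 hw).2 (hX.2.2 x hx w
        (Finset.mem_erase.2 ⟨hne, (Finset.mem_sdiff.1 hw).1⟩) hxw)) hI1 hI2 (by
      intro x hx
      exact hcor2 x (Finset.mem_insert_of_mem hx) (fun he => hcX (he ▸ hx)))
  have hun : (S \ X) ∪ X = S := Finset.sdiff_union_of_subset hXS
  rw [hun] at hI
  have haY : a ∈ S \ X := Finset.mem_sdiff.2 ⟨hG.mem, haX⟩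
  refine ⟨f, g, hI, ?_⟩
  intro x hx hxa
  by_cases hxX : x ∈ X
  · have h5 := hcor1 p (Finset.mem_insert_self _ _) (fun he => haX (he ▸ hp))
    exact ⟨(hXc x hxX a haY).1 h5.1, (hXc x hxX a haY).2 h5.2⟩
  · have hxY : x ∈ S \ X := Finset.mem_sdiff.2 ⟨hx, hxX⟩
    have h5 := hcor1 x (Finset.mem_insert_of_mem hxY) hxa
    rw [(hY a haY).1, (hY a haY).2, (hY x hxY).1, (hY x hxY).2]
    exact h5

end Pool.Agent.E8helper59.PT
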