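import Mathlib

set_option autoImplicit false
set_option linter.unusedSectionVars false

/-!
# Triangulations given by rotations: discs
-/

namespace Pool.Agent.E8helper59.PT

variable {U : Type}

/-- The elementary symmetric matrix of the pair `a, b`. -/
def elem [DecidableEq U] (a b u v : U) : ZMod 2 :=
  (if u = a ∧ v = b then 1 else 0) + (if u = b ∧ v = a then 1 else 0)

/-- The vector of a walk. -/
def stepZ [DecidableEq U] : List U → U → U → ZMod 2
  | a :: b :: l, u, v => elem a b u v + stepZ (b :: l) u v
  | _, _, _ => 0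

theorem elem_comm [DecidableEq U] (a b u v : U) : elem a b u v = elem a b v u := by
  unfold elem
  rw [add_comm]
  congr 1 <;> simp only [and_comm]

theorem stepZ_comm [DecidableEq U] (l : List U) (u v : U) : stepZ l u v = stepZ l v u := by
  induction l with
  | nil => rfl
  | cons a l ih =>
    cases l with
    | nil => rfl
    | cons b l =>
      simp only [stepZ]
      rw [ih, elem_comm]

theorem elem_sum [DecidableEq U] [Fintype U] (a b u : U) :
    ∑ v, elem a b u v = (if u = a then 1 else 0) + (if u = b then 1 else 0) := by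
  unfold elem
  rw [Finset.sum_add_distrib]
  congr 1
  · by_cases h : u = a <;> simp [h]
  · by_cases h : u = b <;> simp [h]

theorem stepZ_sum [DecidableEq U] [Fintype U] (l : List U) (a b u : U) :
    ∑ v, stepZ (a :: (l ++ [b])) u v = (if u = a then 1 else 0) + (if u = b then 1 else 0) := by
  induction l generalizing a with
  | nil =>
    simp only [List.nil_append, stepZ, add_zero]
    exact elem_sum a b u
  | cons c l ih =>
    simp only [List.cons_append, stepZ]
    rw [Finset.sum_add_distrib, elem_sum, ih c]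
    have h2 : ∀ x : ZMod 2, x + x = 0 := by decide
    have : ∀ x y z : ZMod 2, x + y + (y + z) = x + z := by decide
    exact this _ _ _

theorem stepZ_closed [DecidableEq U] [Fintype U] (l : List U) (a u : U) :
    ∑ v, stepZ (a :: (l ++ [a])) u v = 0 := by
  rw [stepZ_sum]
  have h2 : ∀ x : ZMod 2, x + x = 0 := by decide
  exact h2 _

theorem elem_ne [DecidableEq U] {a b u v : U} (h : elem a b u v ≠ 0) :
    (u = a ∧ v = b) ∨ (u = b ∧ v = a) := by
  by_contra hc
  push Not at hc
  apply h
  unfold elem
  rw [if_neg (fun h => hc.1 h.1 h.2), if_neg (fun h => hc.2 h.1 h.2), add_zero]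

theorem stepZ_supp [DecidableEq U] {R : U → U → Prop} (hR : ∀ u v, R u v → R v u) (l : List U)
    (hl : l.IsChain R) (u v : U) (h : stepZ l u v ≠ 0) : R u v := by
  induction l with
  | nil => exact absurd rfl h
  | cons a l ih =>
    cases l with
    | nil => exact absurd rfl h
    | cons b l =>
      rw [List.isChain_cons_cons] at hl
      simp only [stepZ] at h
      by_cases h1 : elem a b u v = 0
      · rw [h1, zero_add] at h
        exact ih hl.2 h
      · rcases elem_ne h1 with ⟨rfl, rfl⟩ | ⟨rfl, rfl⟩
        · exact hl.1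
        · exact hR _ _ hl.1

theorem stepZ_notMem [DecidableEq U] (l : List U) {u : U} (v : U) (h : u ∉ l) : stepZ l u v = 0 := by
  induction l with
  | nil => rfl
  | cons a l ih =>
    cases l with
    | nil => rfl
    | cons b l =>
      simp only [stepZ]
      rw [ih (fun h' => h (List.mem_cons_of_mem _ h')), add_zero]
      by_contra hc
      rcases elem_ne hc with ⟨rfl, -⟩ | ⟨rfl, -⟩
      · exact h (by simp)
      · exact h (by simp)

theorem stepZ_append [DecidableEq U] (P Q : List U) (i u v : U) :
    stepZ (P ++ i :: Q) u v = stepZ (P ++ [i]) u v + stepZ (i :: Q) u v := by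
  induction P with
  | nil => simp [stepZ]
  | cons a P ih =>
    cases P with
    | nil =>
      simp only [List.cons_append, List.nil_append, stepZ, add_zero]
    | cons b P =>
      simp only [List.cons_append, stepZ] at ih ⊢
      rw [ih, add_assoc]

/-- The vector of a walk at a vertex which is visited once. -/
theorem stepZ_mid [DecidableEq U] (P Q : List U) {i w j : U} (v : U) (h1 : w ∉ P) (h2 : w ∉ Q)
    (hi : w ≠ i) (hj : w ≠ j) : stepZ (P ++ i :: w :: j :: Q) w v =
      (if v = i then 1 else 0) + (if v = j then 1 else 0) := by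
  rw [stepZ_append, stepZ_notMem (P ++ [i]) v (by simp [h1, hi])]
  simp only [stepZ]
  rw [stepZ_notMem (j :: Q) v (by simp [h2, hj])]
  unfold elem
  simp [hi, hj]

/-- the cyclic list of the neighbours of `v`, starting at `p` -/
structure CycL (G : SimpleGraph U) (rot : U → Equiv.Perm U) (v p : U) (l : List U) : Prop where
  nodup : (p :: l).Nodup
  mem : ∀ x, x ∈ p :: l ↔ G.Adj v x
  chain : (p :: (l ++ [p])).IsChain (fun x y => rot v x = y)

theorem exists_cycList [Finite U] (σ : Equiv.Perm U) (p : U) : ∃ l : List U, (p :: l).Nodup ∧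
    (∀ x, x ∈ p :: l ↔ σ.SameCycle p x) ∧ (p :: (l ++ [p])).IsChain (fun x y => σ x = y) := by
  classical
  have hp : p ∈ Function.periodicPts σ := by
    obtain ⟨n, hn, h⟩ := (isOfFinOrder_iff_pow_eq_one).1 (isOfFinOrder_of_finite σ)
    refine ⟨n, hn, ?_⟩
    show (σ^[n]) p = p
    rw [← Equiv.Perm.coe_pow, h]
    rfl
  have hpos := Function.minimalPeriod_pos_of_mem_periodicPts hp
  obtain ⟨k, hk⟩ : ∃ k, Function.minimalPeriod σ p = k + 1 := ⟨_, (Nat.sub_add_cancel hpos).symm⟩
  have hper : σ^[k + 1] p = p := by
    rw [← hk]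
    exact Function.isPeriodicPt_minimalPeriod σ p
  refine ⟨(List.range k).map fun i => σ^[i + 1] p, ?_, ?_, ?_⟩
  · have h1 : p :: (List.range k).map (fun i => σ^[i + 1] p) =
        (List.range (k + 1)).map fun i => σ^[i] p := by
      rw [List.range_succ_eq_map]
      simp [Function.comp_def]
    rw [h1]
    have h2 := Function.nodup_periodicOrbit (f := σ) (x := p)
    unfold Function.periodicOrbit at h2
    rw [hk] at h2
    simpa using h2
  · intro x
    have h1 : p :: (List.range k).map (fun i => σ^[i + 1] p) =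
        (List.range (k + 1)).map fun i => σ^[i] p := by
      rw [List.range_succ_eq_map]
      simp [Function.comp_def]
    rw [h1]
    have h2 := Function.mem_periodicOrbit_iff (f := σ) (y := x) hp
    unfold Function.periodicOrbit at h2
    rw [hk] at h2
    have h3 : x ∈ (List.range (k + 1)).map (fun i => σ^[i] p) ↔ ∃ n, σ^[n] p = x := by
      rw [← h2]
      simp
    rw [h3]
    constructor
    · rintro ⟨n, hn⟩
      exact ⟨n, by rw [zpow_natCast, Equiv.Perm.coe_pow]; exact hn⟩
    · intro h
      obtain ⟨n, -, hn⟩ := h.exists_pow_eq'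
      exact ⟨n, by rw [← Equiv.Perm.coe_pow]; exact hn⟩
  · have h1 : p :: ((List.range k).map (fun i => σ^[i + 1] p) ++ [p]) =
        (List.range (k + 2)).map fun i => σ^[i] p := by
      rw [List.range_succ, List.map_append, List.range_succ_eq_map]
      simp [Function.comp_def, hper]
    rw [h1, List.isChain_map, List.isChain_range_succ]
    intro m _
    show σ (σ^[m] p) = σ^[m + 1] p
    rw [Function.iterate_succ_apply']

/-- A triangulation of the sphere given by a rotation system. -/
structure Tri [Fintype U] (G : SimpleGraph U) (rot : U → Equiv.Perm U) : Prop where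
  adj_rot : ∀ v u, G.Adj v u → G.Adj v (rot v u)
  tri : ∀ u v, G.Adj u v → rot (rot v u) v = u
  cyc : ∀ v u w, G.Adj v u → G.Adj v w → (rot v).SameCycle u w
  fac : ∀ a b c, G.Adj a b → G.Adj b c → G.Adj c a → rot b a = c ∨ rot a b = c
  pot : ∀ z : U → U → ZMod 2, (∀ u v, z u v = z v u) → (∀ u v, z u v ≠ 0 → G.Adj u v) →
    (∀ u, ∑ v, z u v = 0) → ∃ S : U → U → ZMod 2, (∀ u v, G.Adj u v → S u v = S v (rot v u)) ∧
      ∀ u v, G.Adj u v → S u v + S v u = z u v
  conn : ∀ X : Set U, X.Nonempty → (∀ u ∈ X, ∀ v, G.Adj u v → v ∈ X) → ∀ v, v ∈ X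

section

variable [Fintype U] {G : SimpleGraph U} {rot : U → Equiv.Perm U}

theorem adj_pow (h : Tri G rot) {v u : U} (huv : G.Adj v u) (n : ℕ) :
    G.Adj v (((rot v) ^ n) u) := by
  induction n with
  | zero => exact huv
  | succ n ih =>
    rw [pow_succ', Equiv.Perm.mul_apply]
    exact h.adj_rot _ _ ih

theorem Tri.exists_cycL (h : Tri G rot) {v p : U} (hvp : G.Adj v p) : ∃ l, CycL G rot v p l := by
  obtain ⟨l, h1, h2, h3⟩ := exists_cycList (rot v) p
  refine ⟨l, h1, fun x => (h2 x).trans ⟨fun hx => ?_, fun hx => h.cyc v p x hvp hx⟩, h3⟩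
  obtain ⟨n, -, hn⟩ := hx.exists_pow_eq'
  rw [← hn]
  exact adj_pow h hvp n

/-- the face on one side of an edge -/
theorem Tri.face (h : Tri G rot) {u v w : U} (huv : G.Adj u v) (hw : rot v u = w) :
    G.Adj v w ∧ G.Adj w u ∧ rot w v = u ∧ rot u w = v := by
  subst hw
  have h1 := h.adj_rot v u huv.symm
  have h2 := h.tri u v huv
  have h3 : G.Adj (rot v u) u := by
    have := h.adj_rot (rot v u) v h1.symm
    rwa [h2] at this
  refine ⟨h1, h3, h2, ?_⟩
  have h4 := h.tri v (rot v u) h1
  rw [h2] at h4
  exact h4

theorem z2_add_self (x : ZMod 2) : x + x = 0 := by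
  revert x; decide

/-- Rotating around a vertex. -/
theorem S_chain {S z : U → U → ZMod 2} {w : U} (hS1 : ∀ u v, G.Adj u v → S u v = S v (rot v u))
    (hS2 : ∀ u v, G.Adj u v → S u v + S v u = z u v) (hz : ∀ u v, z u v = z v u) :
    ∀ (l : List U) (p q : U), (p :: (l ++ [q])).IsChain (fun x y => rot w x = y) →
    (∀ x ∈ p :: l, G.Adj w x) → S w q = S w p + ((p :: l).map (z w)).sum := by
  intro l
  induction l with
  | nil =>
    intro p q h hadj
    have h1 := (List.isChain_pair.1 h)
    have hp := hadj p (by simp)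
    have h2 := hS1 p w hp.symm
    rw [h1] at h2
    have h3 := hS2 p w hp.symm
    simp only [List.map_cons, List.map_nil, List.sum_cons, List.sum_nil, add_zero]
    rw [← h2, hz w p, ← h3]
    have : ∀ x y : ZMod 2, x = y + (x + y) := by decide
    exact this _ _
  | cons a l ih =>
    intro p q h hadj
    rw [List.cons_append, List.isChain_cons_cons] at h
    have hp := hadj p (by simp)
    have h2 := hS1 p w hp.symm
    rw [h.1] at h2
    have h3 := hS2 p w hp.symm
    rw [ih a q h.2 (fun x hx => hadj x (by simp [List.mem_cons.1 hx]))]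
    simp only [List.map_cons, List.sum_cons]
    rw [← h2, hz w p, ← h3]
    have : ∀ x y c : ZMod 2, x + c = y + (x + y + c) := by decide
    exact this _ _ _

/-- Around a vertex not on the walk. -/
theorem S_const (h : Tri G rot) {S z : U → U → ZMod 2}
    (hS1 : ∀ u v, G.Adj u v → S u v = S v (rot v u))
    (hS2 : ∀ u v, G.Adj u v → S u v + S v u = z u v) (hz : ∀ u v, z u v = z v u) {w : U}
    (hw : ∀ x, z w x = 0) {a b : U} (ha : G.Adj w a) (hb : G.Adj w b) : S w a = S w b := by
  obtain ⟨n, -, hn⟩ := (h.cyc w a b ha hb).exists_pow_eq'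
  have key : ∀ n : ℕ, S w (((rot w) ^ n) a) = S w a := by
    intro n
    induction n with
    | zero => rfl
    | succ n ih =>
      rw [pow_succ', Equiv.Perm.mul_apply]
      have h1 := adj_pow h ha n
      rw [← hS1 _ _ h1.symm, ← ih]
      have h2 := hS2 _ _ h1
      rw [hw] at h2
      have : ∀ x y : ZMod 2, x + y = 0 → y = x := by decide
      exact this _ _ h2
  rw [← hn, key]

end

end Pool.Agent.E8helper59.PT
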