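import Pool.Agent.E8helper59.SD.Ins

set_option autoImplicit false
set_option linter.unusedSectionVars false

/-!
# Gluing strictly suitable pairs at a cut vertex
-/

namespace Pool.Agent.E8helper59.PT

open Pool.Agent.E8helper59.SD

variable {V : Type} [DecidableEq V]

theorem exists_eps {ι : Type} (s : Finset ι) (A B : ι → ℝ) (hA : ∀ i ∈ s, 0 ≤ A i)
    (hB : ∀ i ∈ s, 0 < B i) : ∃ ε : ℝ, 0 < ε ∧ ∀ i ∈ s, ε * A i < B i := by
  classical
  induction s using Finset.induction_on with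
  | empty => exact ⟨1, one_pos, by simp⟩
  | insert j s _ ih =>
    obtain ⟨ε, h1, h2⟩ := ih (fun i hi => hA i (Finset.mem_insert_of_mem hi))
      (fun i hi => hB i (Finset.mem_insert_of_mem hi))
    have hAj := hA j (Finset.mem_insert_self _ _)
    have hBj := hB j (Finset.mem_insert_self _ _)
    have hpos : 0 < B j / (A j + 1) := div_pos hBj (by linarith)
    refine ⟨min ε (B j / (A j + 1)), lt_min h1 hpos, ?_⟩
    intro i hi
    rcases Finset.mem_insert.1 hi with rfl | hi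
    · calc min ε (B i / (A i + 1)) * A i ≤ B i / (A i + 1) * A i :=
            mul_le_mul_of_nonneg_right (min_le_right _ _) hAj
        _ < B i := by
            rw [div_mul_eq_mul_div, div_lt_iff₀ (by linarith)]
            nlinarith
    · calc min ε (B j / (A j + 1)) * A i ≤ ε * A i :=
            mul_le_mul_of_nonneg_right (min_le_left _ _) (hA i (Finset.mem_insert_of_mem hi))
        _ < B i := h2 i hi

theorem merge1 (f1 f2 : V → ℝ) (X Y : Finset V) (c p : V) (hXY : Disjoint X Y) (hc : c ∈ Y)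
    (hp : ∀ w ∈ Y, f1 w ≠ f1 p) (h2 : ∀ x ∈ X, f2 c < f2 x) :
    ∃ f : V → ℝ, (∀ w ∈ Y, f w = f1 w) ∧
      (∀ x ∈ X, ∀ w ∈ Y, (f1 w < f1 p → f w < f x) ∧ (f1 p < f1 w → f x < f w)) ∧
      ((∀ x ∈ insert c X, ∀ y ∈ insert c X, f2 x < f2 y → f x < f y) ∨
       (∀ x ∈ insert c X, ∀ y ∈ insert c X, f2 x < f2 y → f y < f x)) := by
  obtain ⟨ε, he, hε⟩ := exists_eps (X ×ˢ Y) (fun i => |f2 i.1 - f2 c|) (fun i => |f1 i.2 - f1 p|)
    (fun _ _ => abs_nonneg _) (fun i hi => abs_pos.2 (sub_ne_zero.2 (hp _ (Finset.mem_product.1 hi).2)))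
  have hε' : ∀ x ∈ X, ∀ w ∈ Y, ε * (f2 x - f2 c) < |f1 w - f1 p| := by
    intro x hx w hw
    have h3 := hε (x, w) (Finset.mem_product.2 ⟨hx, hw⟩)
    simp only at h3
    rwa [abs_of_pos (sub_pos.2 (h2 x hx))] at h3
  have hpos : ∀ x ∈ X, 0 < ε * (f2 x - f2 c) := fun x hx => mul_pos he (sub_pos.2 (h2 x hx))
  have hnY : ∀ w ∈ Y, w ∉ X := fun w hw hx => Finset.disjoint_left.1 hXY hx hw
  rcases lt_or_gt_of_ne (hp c hc) with h3 | h3
  · have hmain : ∀ x ∈ X, ∀ w ∈ Y,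
        (f1 w < f1 p → f1 w < f1 p + ε * (f2 x - f2 c)) ∧
          (f1 p < f1 w → f1 p + ε * (f2 x - f2 c) < f1 w) := by
      intro x hx w hw
      have h4 := hε' x hx w hw
      have h5 := hpos x hx
      refine ⟨fun h6 => by linarith, fun h6 => ?_⟩
      rw [abs_of_pos (sub_pos.2 h6)] at h4
      linarith
    refine ⟨fun v => if v ∈ X then f1 p + ε * (f2 v - f2 c) else f1 v, ?_, ?_, Or.inl ?_⟩
    · intro w hw
      simp only [if_neg (hnY w hw)]
    · intro x hx w hw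
      simp only [if_neg (hnY w hw), if_pos hx]
      exact hmain x hx w hw
    · intro x hx y hy hxy
      rcases Finset.mem_insert.1 hx with rfl | hx'
      · rcases Finset.mem_insert.1 hy with rfl | hy
        · exact absurd hxy (lt_irrefl _)
        · simp only [if_neg (hnY x hc), if_pos hy]
          exact (hmain y hy x hc).1 h3
      · rcases Finset.mem_insert.1 hy with rfl | hy
        · exact absurd (h2 x hx') (not_lt.2 hxy.le)
        · simp only [if_pos hx', if_pos hy]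
          have := mul_lt_mul_of_pos_left hxy he
          linarith
  · have hmain : ∀ x ∈ X, ∀ w ∈ Y,
        (f1 w < f1 p → f1 w < f1 p - ε * (f2 x - f2 c)) ∧
          (f1 p < f1 w → f1 p - ε * (f2 x - f2 c) < f1 w) := by
      intro x hx w hw
      have h4 := hε' x hx w hw
      have h5 := hpos x hx
      refine ⟨fun h6 => ?_, fun h6 => by linarith⟩
      rw [abs_of_neg (sub_neg.2 h6)] at h4
      linarith
    refine ⟨fun v => if v ∈ X then f1 p - ε * (f2 v - f2 c) else f1 v, ?_, ?_, Or.inr ?_⟩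
    · intro w hw
      simp only [if_neg (hnY w hw)]
    · intro x hx w hw
      simp only [if_neg (hnY w hw), if_pos hx]
      exact hmain x hx w hw
    · intro x hx y hy hxy
      rcases Finset.mem_insert.1 hx with rfl | hx'
      · rcases Finset.mem_insert.1 hy with rfl | hy
        · exact absurd hxy (lt_irrefl _)
        · simp only [if_neg (hnY x hc), if_pos hy]
          exact (hmain y hy x hc).2 h3
      · rcases Finset.mem_insert.1 hy with rfl | hy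
        · exact absurd (h2 x hx') (not_lt.2 hxy.le)
        · simp only [if_pos hx', if_pos hy]
          have := mul_lt_mul_of_pos_left hxy he
          linarith

theorem sep_map {f f' : V → ℝ} {a b c d a' b' c' d' : V}
    (h1 : (f a < f c → f' a' < f' c') ∧ (f c < f a → f' c' < f' a'))
    (h2 : (f a < f d → f' a' < f' d') ∧ (f d < f a → f' d' < f' a'))
    (h3 : (f b < f c → f' b' < f' c') ∧ (f c < f b → f' c' < f' b'))
    (h4 : (f b < f d → f' b' < f' d') ∧ (f d < f b → f' d' < f' b'))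
    (h : SD.Sep f a b c d) : SD.Sep f' a' b' c' d' := by
  rcases h with ⟨k1, k2, k3, k4⟩ | ⟨k1, k2, k3, k4⟩
  · exact Or.inl ⟨h1.1 k1, h2.1 k2, h3.1 k3, h4.1 k4⟩
  · exact Or.inr ⟨h1.2 k1, h3.2 k2, h2.2 k3, h4.2 k4⟩

theorem sep_map_anti {f f' : V → ℝ} {a b c d : V}
    (h1 : (f a < f c → f' c < f' a) ∧ (f c < f a → f' a < f' c))
    (h2 : (f a < f d → f' d < f' a) ∧ (f d < f a → f' a < f' d))
    (h3 : (f b < f c → f' c < f' b) ∧ (f c < f b → f' b < f' c))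
    (h4 : (f b < f d → f' d < f' b) ∧ (f d < f b → f' b < f' d))
    (h : SD.Sep f a b c d) : SD.Sep f' a b c d := by
  rcases h with ⟨k1, k2, k3, k4⟩ | ⟨k1, k2, k3, k4⟩
  · exact Or.inr ⟨h1.1 k1, h3.1 k3, h2.1 k2, h4.1 k4⟩
  · exact Or.inl ⟨h1.2 k1, h2.2 k3, h3.2 k2, h4.2 k4⟩

/-- **Gluing.** -/
theorem glue {G : SimpleGraph V} {X Y : Finset V} {c p : V} (hXY : Disjoint X Y) (hc : c ∈ Y)
    (hp : p ∈ X) (hcp : G.Adj c p) (hnb : ∀ x ∈ X, ∀ w ∈ Y, G.Adj x w → w = c)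
    {f1 g1 f2 g2 : V → ℝ} (h1 : Inv G ∅ (insert p Y) f1 g1) (h2 : Inv G ∅ (insert c X) f2 g2)
    (h2c : ∀ x ∈ X, f2 c < f2 x ∧ g2 c < g2 x) :
    ∃ f g : V → ℝ, Inv G ∅ (Y ∪ X) f g ∧ (∀ w ∈ Y, f w = f1 w ∧ g w = g1 w) ∧
      ∀ x ∈ X, ∀ w ∈ Y, (f1 w < f1 p → f w < f x) ∧ (g1 w < g1 p → g w < g x) := by
  have hpY : p ∉ Y := fun h => Finset.disjoint_left.1 hXY hp h
  have hne : ∀ w ∈ Y, w ≠ p := fun w hw he => hpY (he ▸ hw)
  obtain ⟨f, a1, a2, a3⟩ := merge1 f1 f2 X Y c p hXY hc (fun w hw he => hne w hw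
    (h1.finj w (Finset.mem_insert_of_mem hw) p (Finset.mem_insert_self _ _) he))
    (fun x hx => (h2c x hx).1)
  obtain ⟨g, b1, b2, b3⟩ := merge1 g1 g2 X Y c p hXY hc (fun w hw he => hne w hw
    (h1.ginj w (Finset.mem_insert_of_mem hw) p (Finset.mem_insert_self _ _) he))
    (fun x hx => (h2c x hx).2)
  -- representatives
  let π : V → V := fun x => if x ∈ X then p else x
  have hπX : ∀ x ∈ X, π x = p := fun x hx => if_pos hx
  have hπY : ∀ x ∈ Y, π x = x := fun x hx => if_neg (fun h => Finset.disjoint_left.1 hXY h hx)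
  have keyf : ∀ x ∈ Y ∪ X, ∀ y ∈ Y ∪ X, f1 (π x) < f1 (π y) → f x < f y := by
    intro x hx y hy hxy
    rcases Finset.mem_union.1 hx with hx | hx <;> rcases Finset.mem_union.1 hy with hy | hy
    · rw [hπY x hx, hπY y hy] at hxy
      rwa [a1 x hx, a1 y hy]
    · rw [hπY x hx, hπX y hy] at hxy
      exact (a2 y hy x hx).1 hxy
    · rw [hπX x hx, hπY y hy] at hxy
      exact (a2 x hx y hy).2 hxy
    · rw [hπX x hx, hπX y hy] at hxy
      exact absurd hxy (lt_irrefl _)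
  have keyg : ∀ x ∈ Y ∪ X, ∀ y ∈ Y ∪ X, g1 (π x) < g1 (π y) → g x < g y := by
    intro x hx y hy hxy
    rcases Finset.mem_union.1 hx with hx | hx <;> rcases Finset.mem_union.1 hy with hy | hy
    · rw [hπY x hx, hπY y hy] at hxy
      rwa [b1 x hx, b1 y hy]
    · rw [hπY x hx, hπX y hy] at hxy
      exact (b2 y hy x hx).1 hxy
    · rw [hπX x hx, hπY y hy] at hxy
      exact (b2 x hx y hy).2 hxy
    · rw [hπX x hx, hπX y hy] at hxy
      exact absurd hxy (lt_irrefl _)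
  have key1 : ∀ a ∈ Y ∪ X, ∀ b ∈ Y ∪ X, ∀ c ∈ Y ∪ X, ∀ d ∈ Y ∪ X,
      SD.Sep f1 (π a) (π b) (π c) (π d) ∨ SD.Sep g1 (π a) (π b) (π c) (π d) →
      SD.Sep f a b c d ∨ SD.Sep g a b c d := by
    intro a ha b hb c hc d hd h
    refine h.imp (fun h => ?_) (fun h => ?_)
    · exact sep_map ⟨keyf a ha c hc, keyf c hc a ha⟩ ⟨keyf a ha d hd, keyf d hd a ha⟩
        ⟨keyf b hb c hc, keyf c hc b hb⟩ ⟨keyf b hb d hd, keyf d hd b hb⟩ h
    · exact sep_map ⟨keyg a ha c hc, keyg c hc a ha⟩ ⟨keyg a ha d hd, keyg d hd a ha⟩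
        ⟨keyg b hb c hc, keyg c hc b hb⟩ ⟨keyg b hb d hd, keyg d hd b hb⟩ h
  have key2 : ∀ a ∈ insert c X, ∀ b ∈ insert c X, ∀ e ∈ insert c X, ∀ d ∈ insert c X,
      SD.Sep f2 a b e d ∨ SD.Sep g2 a b e d → SD.Sep f a b e d ∨ SD.Sep g a b e d := by
    intro a ha b hb e he d hd h
    refine h.imp (fun h => ?_) (fun h => ?_)
    · rcases a3 with a3 | a3
      · exact sep_map ⟨a3 a ha e he, a3 e he a ha⟩ ⟨a3 a ha d hd, a3 d hd a ha⟩
          ⟨a3 b hb e he, a3 e he b hb⟩ ⟨a3 b hb d hd, a3 d hd b hb⟩ h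
      · exact sep_map_anti ⟨a3 a ha e he, a3 e he a ha⟩ ⟨a3 a ha d hd, a3 d hd a ha⟩
          ⟨a3 b hb e he, a3 e he b hb⟩ ⟨a3 b hb d hd, a3 d hd b hb⟩ h
    · rcases b3 with a3 | a3
      · exact sep_map ⟨a3 a ha e he, a3 e he a ha⟩ ⟨a3 a ha d hd, a3 d hd a ha⟩
          ⟨a3 b hb e he, a3 e he b hb⟩ ⟨a3 b hb d hd, a3 d hd b hb⟩ h
      · exact sep_map_anti ⟨a3 a ha e he, a3 e he a ha⟩ ⟨a3 a ha d hd, a3 d hd a ha⟩
          ⟨a3 b hb e he, a3 e he b hb⟩ ⟨a3 b hb d hd, a3 d hd b hb⟩ h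
  have hYX : ∀ w ∈ Y, w ∈ Y ∪ X := fun w hw => Finset.mem_union_left _ hw
  have hXX : ∀ w ∈ X, w ∈ Y ∪ X := fun w hw => Finset.mem_union_right _ hw
  have hpi : p ∈ insert p Y := Finset.mem_insert_self _ _
  have hYp : ∀ w ∈ Y, w ∈ insert p Y := fun w hw => Finset.mem_insert_of_mem hw
  have hXc : ∀ w ∈ X, w ∈ insert c X := fun w hw => Finset.mem_insert_of_mem hw
  have hci : c ∈ insert c X := Finset.mem_insert_self _ _
  have comm : ∀ a b c d, SD.Sep f a b c d ∨ SD.Sep g a b c d → SD.Sep f c d a b ∨ SD.Sep g c d a b :=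
    fun a b c d h => h.imp Sep.comm Sep.comm
  have swl : ∀ a b c d, SD.Sep f a b c d ∨ SD.Sep g a b c d → SD.Sep f b a c d ∨ SD.Sep g b a c d :=
    fun a b c d h => h.imp Sep.swap_left Sep.swap_left
  -- types of edges
  have hedge : ∀ a ∈ Y ∪ X, ∀ b ∈ Y ∪ X, G.Adj a b → (a ∈ Y ∧ b ∈ Y) ∨ (a ∈ X ∧ b ∈ X) ∨
      (a = c ∧ b ∈ X) ∨ (b = c ∧ a ∈ X) := by
    intro a ha b hb hab
    rcases Finset.mem_union.1 ha with ha | ha <;> rcases Finset.mem_union.1 hb with hb | hb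
    · exact Or.inl ⟨ha, hb⟩
    · exact Or.inr (Or.inr (Or.inl ⟨hnb b hb a ha hab.symm, hb⟩))
    · exact Or.inr (Or.inr (Or.inr ⟨hnb a ha b hb hab, ha⟩))
    · exact Or.inr (Or.inl ⟨ha, hb⟩)
  have hsepYX : ∀ a ∈ Y, ∀ b ∈ Y, ∀ x ∈ X, ∀ y ∈ X, G.Adj a b →
      SD.Sep f a b x y ∨ SD.Sep g a b x y := by
    intro a ha b hb x hx y hy hab
    apply key1 a (hYX a ha) b (hYX b hb) x (hXX x hx) y (hXX y hy)
    rw [hπY a ha, hπY b hb, hπX x hx, hπX y hy]
    exact h1.out a (hYp a ha) b (hYp b hb) p hpi (by simp) hab (hne a ha).symm (hne b hb).symm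
  have hsepYc : ∀ a ∈ Y, ∀ b ∈ Y, ∀ y ∈ X, G.Adj a b → a ≠ c → b ≠ c →
      SD.Sep f a b c y ∨ SD.Sep g a b c y := by
    intro a ha b hb y hy hab hac hbc
    apply key1 a (hYX a ha) b (hYX b hb) c (hYX c hc) y (hXX y hy)
    rw [hπY a ha, hπY b hb, hπY c hc, hπX y hy]
    exact h1.sep a (hYp a ha) b (hYp b hb) c (hYp c hc) p hpi hab hcp hac (hne a ha) hbc (hne b hb)
  have hcX : ∀ {a b : V}, ((a ∈ X ∧ b ∈ X) ∨ (a = c ∧ b ∈ X) ∨ (b = c ∧ a ∈ X)) →
      a ∈ insert c X ∧ b ∈ insert c X := by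
    rintro a b (⟨h, h'⟩ | ⟨h, h'⟩ | ⟨h, h'⟩)
    · exact ⟨hXc a h, hXc b h'⟩
    · exact ⟨h ▸ hci, hXc b h'⟩
    · exact ⟨hXc a h', h ▸ hci⟩
  have hsep1 : ∀ a ∈ Y, ∀ b ∈ Y, ∀ x, ∀ y, G.Adj a b →
      ((x ∈ X ∧ y ∈ X) ∨ (x = c ∧ y ∈ X) ∨ (y = c ∧ x ∈ X)) → a ≠ x → a ≠ y → b ≠ x → b ≠ y →
      SD.Sep f a b x y ∨ SD.Sep g a b x y := by
    intro a ha b hb x y hab hxy e1 e2 e3 e4
    rcases hxy with ⟨h3, h4⟩ | ⟨h3, h4⟩ | ⟨h3, h4⟩
    · exact hsepYX a ha b hb x h3 y h4 hab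
    · rw [h3] at e1 e3 ⊢
      exact hsepYc a ha b hb y h4 hab e1 e3
    · rw [h3] at e2 e4 ⊢
      exact comm _ _ _ _ (swl _ _ _ _ (comm _ _ _ _ (hsepYc a ha b hb x h4 hab e2 e4)))
  refine ⟨f, g, ⟨?_, ?_, ?_, ?_⟩, fun w hw => ⟨a1 w hw, b1 w hw⟩,
    fun x hx w hw => ⟨(a2 x hx w hw).1, (b2 x hx w hw).1⟩⟩
  · intro u hu v hv huv
    rcases Finset.mem_union.1 hu with hu | hu <;> rcases Finset.mem_union.1 hv with hv | hv
    · rw [a1 u hu, a1 v hv] at huv
      exact h1.finj u (hYp u hu) v (hYp v hv) huv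
    · exfalso
      rcases lt_or_gt_of_ne (fun he => hne u hu (h1.finj u (hYp u hu) p hpi he)) with h3 | h3
      · exact absurd huv ((a2 v hv u hu).1 h3).ne
      · exact absurd huv ((a2 v hv u hu).2 h3).ne'
    · exfalso
      rcases lt_or_gt_of_ne (fun he => hne v hv (h1.finj v (hYp v hv) p hpi he)) with h3 | h3
      · exact absurd huv ((a2 u hu v hv).1 h3).ne'
      · exact absurd huv ((a2 u hu v hv).2 h3).ne
    · by_contra hne'
      rcases lt_or_gt_of_ne (fun he => hne' (h2.finj u (hXc u hu) v (hXc v hv) he)) with h3 | h3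
      · rcases a3 with a3 | a3
        · exact absurd huv (a3 u (hXc u hu) v (hXc v hv) h3).ne
        · exact absurd huv (a3 u (hXc u hu) v (hXc v hv) h3).ne'
      · rcases a3 with a3 | a3
        · exact absurd huv (a3 v (hXc v hv) u (hXc u hu) h3).ne'
        · exact absurd huv (a3 v (hXc v hv) u (hXc u hu) h3).ne
  · intro u hu v hv huv
    rcases Finset.mem_union.1 hu with hu | hu <;> rcases Finset.mem_union.1 hv with hv | hv
    · rw [b1 u hu, b1 v hv] at huv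
      exact h1.ginj u (hYp u hu) v (hYp v hv) huv
    · exfalso
      rcases lt_or_gt_of_ne (fun he => hne u hu (h1.ginj u (hYp u hu) p hpi he)) with h3 | h3
      · exact absurd huv ((b2 v hv u hu).1 h3).ne
      · exact absurd huv ((b2 v hv u hu).2 h3).ne'
    · exfalso
      rcases lt_or_gt_of_ne (fun he => hne v hv (h1.ginj v (hYp v hv) p hpi he)) with h3 | h3
      · exact absurd huv ((b2 u hu v hv).1 h3).ne'
      · exact absurd huv ((b2 u hu v hv).2 h3).ne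
    · by_contra hne'
      rcases lt_or_gt_of_ne (fun he => hne' (h2.ginj u (hXc u hu) v (hXc v hv) he)) with h3 | h3
      · rcases b3 with a3 | a3
        · exact absurd huv (a3 u (hXc u hu) v (hXc v hv) h3).ne
        · exact absurd huv (a3 u (hXc u hu) v (hXc v hv) h3).ne'
      · rcases b3 with a3 | a3
        · exact absurd huv (a3 v (hXc v hv) u (hXc u hu) h3).ne'
        · exact absurd huv (a3 v (hXc v hv) u (hXc u hu) h3).ne
  · -- edges
    intro a ha b hb x hx y hy hab hxy e1 e2 e3 e4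
    rcases hedge a ha b hb hab with ⟨h3, h4⟩ | h3
    · rcases hedge x hx y hy hxy with ⟨h5, h6⟩ | h5
      · apply key1 a ha b hb x hx y hy
        rw [hπY a h3, hπY b h4, hπY x h5, hπY y h6]
        exact h1.sep a (hYp a h3) b (hYp b h4) x (hYp x h5) y (hYp y h6) hab hxy e1 e2 e3 e4
      · exact hsep1 a h3 b h4 x y hab h5 e1 e2 e3 e4
    · rcases hedge x hx y hy hxy with ⟨h5, h6⟩ | h5
      · exact comm _ _ _ _ (hsep1 x h5 y h6 a b hxy h3 e1.symm e3.symm e2.symm e4.symm)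
      · obtain ⟨k1, k2⟩ := hcX h3
        obtain ⟨k3, k4⟩ := hcX h5
        exact key2 a k1 b k2 x k3 y k4 (h2.sep a k1 b k2 x k3 y k4 hab hxy e1 e2 e3 e4)
  · -- vertices and edges
    have houtc : ∀ y ∈ X, ∀ w ∈ Y, w ≠ c → SD.Sep f c y w w ∨ SD.Sep g c y w w := by
      intro y hy w hw hwc
      apply key1 c (hYX c hc) y (hXX y hy) w (hYX w hw) w (hYX w hw)
      rw [hπY c hc, hπX y hy, hπY w hw]
      exact h1.out c (hYp c hc) p hpi w (hYp w hw) (by simp) hcp hwc (hne w hw)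
    intro a ha b hb w hw _ hab e1 e2
    rcases hedge a ha b hb hab with ⟨h3, h4⟩ | h3
    · rcases Finset.mem_union.1 hw with h5 | h5
      · apply key1 a ha b hb w hw w hw
        rw [hπY a h3, hπY b h4, hπY w h5]
        exact h1.out a (hYp a h3) b (hYp b h4) w (hYp w h5) (by simp) hab e1 e2
      · exact hsepYX a h3 b h4 w h5 w h5 hab
    · rcases Finset.mem_union.1 hw with h5 | h5
      · rcases h3 with ⟨h6, h7⟩ | ⟨h6, h7⟩ | ⟨h6, h7⟩
        · apply key1 a ha b hb w hw w hw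
          rw [hπX a h6, hπX b h7, hπY w h5]
          left
          rcases lt_or_gt_of_ne (fun he => hne w h5 (h1.finj w (hYp w h5) p hpi he)) with h8 | h8
          · exact Or.inr ⟨h8, h8, h8, h8⟩
          · exact Or.inl ⟨h8, h8, h8, h8⟩
        · rw [h6] at e1 ⊢
          exact houtc b h7 w h5 e1
        · rw [h6] at e2 ⊢
          exact swl _ _ _ _ (houtc a h7 w h5 e2)
      · obtain ⟨k1, k2⟩ := hcX h3
        exact key2 a k1 b k2 w (hXc w h5) w (hXc w h5)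
          (h2.out a k1 b k2 w (hXc w h5) (by simp) hab e1 e2)

end Pool.Agent.E8helper59.PT
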