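import Pool.Agent.E8helper59.PT.PL
import Pool.Agent.E8helper59.PT.Dec

set_option autoImplicit false
set_option linter.unusedSectionVars false

/-!
# The incidence graph of vertices, edges and triangles
-/

namespace Pool.Agent.E8helper59.PT

variable {V : Type} [Fintype V] [DecidableEq V]

/-- a clique with one, two or three vertices -/
def IsC (G : SimpleGraph V) (s : Finset V) : Prop :=
  s.Nonempty ∧ s.card ≤ 3 ∧ G.IsClique s

/-- The incidence graph of the vertices, edges and triangles: the cover graph of the poset of the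
cliques with one, two or three vertices. -/
def H3 (G : SimpleGraph V) : SimpleGraph (Finset V) where
  Adj s t := (IsC G s ∧ IsC G t) ∧ ((s ⊆ t ∧ t.card = s.card + 1) ∨ (t ⊆ s ∧ s.card = t.card + 1))
  symm := ⟨fun s t h => ⟨h.1.symm, h.2.symm⟩⟩
  loopless := ⟨fun s h => by rcases h.2 with h | h <;> omega⟩

variable {G : SimpleGraph V}

theorem isC_one (u : V) : IsC G {u} := ⟨⟨u, by simp⟩, by simp, by simp⟩

theorem isC_two {u v : V} (h : G.Adj u v) : IsC G {u, v} := by
  refine ⟨⟨u, by simp⟩, by rw [Finset.card_pair h.ne]; omega, ?_⟩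
  simp only [Finset.coe_insert, Finset.coe_singleton]
  rw [SimpleGraph.isClique_pair]
  intro _
  exact h

theorem card_triple {a b c : V} (h1 : a ≠ b) (h2 : a ≠ c) (h3 : b ≠ c) :
    ({a, b, c} : Finset V).card = 3 := Finset.card_eq_three.2 ⟨a, b, c, h1, h2, h3, rfl⟩

theorem isC_three {a b c : V} (h1 : G.Adj a b) (h2 : G.Adj b c) (h3 : G.Adj c a) :
    IsC G {a, b, c} := by
  refine ⟨⟨a, by simp⟩, (card_triple h1.ne h3.ne.symm h2.ne).le, ?_⟩
  intro x hx y hy hxy
  simp only [Finset.coe_insert, Finset.coe_singleton, Set.mem_insert_iff,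
    Set.mem_singleton_iff] at hx hy
  rcases hx with rfl | rfl | rfl <;> rcases hy with rfl | rfl | rfl
  · exact absurd rfl hxy
  · exact h1
  · exact h3.symm
  · exact h1.symm
  · exact absurd rfl hxy
  · exact h2
  · exact h3
  · exact h2.symm
  · exact absurd rfl hxy

theorem adj12 {u v : V} (h : G.Adj u v) : (H3 G).Adj {u} {u, v} :=
  ⟨⟨isC_one u, isC_two h⟩, Or.inl ⟨by simp, by rw [Finset.card_pair h.ne, Finset.card_singleton]⟩⟩

theorem adj12' {u v : V} (h : G.Adj u v) : (H3 G).Adj {v} {u, v} := by
  rw [Finset.pair_comm]; exact adj12 h.symm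

theorem adj23 {a b c : V} (h1 : G.Adj a b) (h2 : G.Adj b c) (h3 : G.Adj c a) :
    (H3 G).Adj {a, b} {a, b, c} :=
  ⟨⟨isC_two h1, isC_three h1 h2 h3⟩, Or.inl ⟨by
    intro x hx
    simp only [Finset.mem_insert, Finset.mem_singleton] at hx ⊢
    tauto, by rw [Finset.card_pair h1.ne, card_triple h1.ne h3.ne.symm h2.ne]⟩⟩

/-- sums of symmetric functions over pairs -/
theorem sum_symm (F : V → V → ZMod 2) (h1 : ∀ u v, F u v = F v u) (h2 : ∀ u, F u u = 0) :
    ∑ u, ∑ v, F u v = 0 := by
  rw [← Fintype.sum_prod_type']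
  refine Finset.sum_involution (fun (p : V × V) _ => p.swap) ?_ ?_ (fun p _ => Finset.mem_univ _)
    (fun p _ => Prod.swap_swap p)
  · intro p _
    show F p.1 p.2 + F p.2 p.1 = 0
    rw [h1 p.2 p.1]
    exact z2_add_self _
  · intro p _ hp he
    apply hp
    have : p.2 = p.1 := congrArg Prod.fst he
    rw [this]
    exact h2 _

/-- the subdivided vector -/
def subz (z : V → V → ZMod 2) (s t : Finset V) : ZMod 2 :=
  ∑ u, ∑ v, z u v * elem {u} {u, v} s t

theorem elem_weight {W : Type} [Fintype W] [DecidableEq W] (φ : W → ZMod 2) (a b u : W) :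
    ∑ t, φ t * elem a b u t = (if u = a then φ b else 0) + (if u = b then φ a else 0) := by
  unfold elem
  simp only [mul_add, Finset.sum_add_distrib, mul_ite, mul_one, mul_zero]
  congr 1
  · by_cases h : u = a <;> simp [h]
  · by_cases h : u = b <;> simp [h]

theorem subz_weight (z : V → V → ZMod 2) (φ : Finset V → ZMod 2) (s : Finset V) :
    ∑ t, φ t * subz z s t = ∑ u, ∑ v, z u v *
      ((if s = {u} then φ {u, v} else 0) + (if s = {u, v} then φ {u} else 0)) := by
  unfold subz
  simp only [Finset.mul_sum]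
  rw [Finset.sum_comm]
  apply Finset.sum_congr rfl
  intro u _
  rw [Finset.sum_comm]
  apply Finset.sum_congr rfl
  intro v _
  rw [← elem_weight, Finset.mul_sum]
  apply Finset.sum_congr rfl
  intro t _
  ring

theorem subz_even (z : V → V → ZMod 2) (zs : ∀ u v, z u v = z v u) (zd : ∀ u, z u u = 0)
    (ze : ∀ u, ∑ v, z u v = 0) (s : Finset V) : ∑ t, subz z s t = 0 := by
  have h1 := subz_weight z (fun _ => 1) s
  simp only [one_mul] at h1
  rw [h1]
  simp only [mul_add, Finset.sum_add_distrib]
  have h2 : ∑ u, ∑ v, z u v * (if s = {u} then (1 : ZMod 2) else 0) = 0 := by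
    apply Finset.sum_eq_zero
    intro u _
    rw [← Finset.sum_mul, ze, zero_mul]
  have h3 : ∑ u, ∑ v, z u v * (if s = {u, v} then (1 : ZMod 2) else 0) = 0 := by
    apply sum_symm
    · intro u v
      rw [zs, Finset.pair_comm]
    · intro u
      rw [zd, zero_mul]
  rw [h2, h3, add_zero]

theorem singleton_ne_pair {u x y : V} (h : x ≠ y) : ({u} : Finset V) ≠ {x, y} := by
  intro he
  have := congrArg Finset.card he
  rw [Finset.card_pair h, Finset.card_singleton] at this
  omega

theorem pair_eq {u v y : V} (huv : u ≠ v) (h : ({u, v} : Finset V) = {u, y}) : y = v := by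
  have : v ∈ ({u, y} : Finset V) := by rw [← h]; simp
  simp only [Finset.mem_insert, Finset.mem_singleton] at this
  rcases this with h1 | h1
  · exact absurd h1.symm huv
  · exact h1.symm

/-- at a vertex -/
theorem subz_weight_one (z : V → V → ZMod 2) (zd : ∀ u, z u u = 0) (φ : Finset V → ZMod 2) (u : V) :
    ∑ t, φ t * subz z {u} t = ∑ v, z u v * φ {u, v} := by
  rw [subz_weight]
  simp only [mul_add, Finset.sum_add_distrib]
  have h3 : ∑ x, ∑ y, z x y * (if ({u} : Finset V) = {x, y} then φ {x} else 0) = 0 := by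
    apply Finset.sum_eq_zero
    intro x _
    apply Finset.sum_eq_zero
    intro y _
    by_cases hxy : x = y
    · rw [hxy, zd, zero_mul]
    · rw [if_neg (singleton_ne_pair hxy), mul_zero]
  rw [h3, add_zero, Finset.sum_eq_single u]
  · simp
  · intro x _ hx
    apply Finset.sum_eq_zero
    intro y _
    rw [if_neg, mul_zero]
    intro he
    exact hx (Finset.singleton_injective he).symm
  · intro hu
    exact absurd (Finset.mem_univ _) hu

/-- at an edge -/
theorem subz_weight_two (z : V → V → ZMod 2) (φ : Finset V → ZMod 2) {u v : V} (huv : u ≠ v) :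
    ∑ t, φ t * subz z {u, v} t = z u v * φ {u} + z v u * φ {v} := by
  rw [subz_weight]
  simp only [mul_add, Finset.sum_add_distrib]
  have h3 : ∑ x, ∑ y, z x y * (if ({u, v} : Finset V) = {x} then φ {x, y} else 0) = 0 := by
    apply Finset.sum_eq_zero
    intro x _
    apply Finset.sum_eq_zero
    intro y _
    rw [if_neg (singleton_ne_pair huv).symm, mul_zero]
  rw [h3, zero_add, ← Fintype.sum_prod_type']
  rw [show z u v * φ {u} + z v u * φ {v} = ∑ p ∈ ({(u, v), (v, u)} : Finset (V × V)),
    z p.1 p.2 * (if ({u, v} : Finset V) = {p.1, p.2} then φ {p.1} else 0) by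
      rw [Finset.sum_pair (by
        intro he
        exact huv (congrArg Prod.fst he))]
      simp [Finset.pair_comm v u]]
  symm
  apply Finset.sum_subset (Finset.subset_univ _)
  intro p _ hp
  rw [if_neg, mul_zero]
  intro he
  apply hp
  have h1 : p.1 ∈ ({u, v} : Finset V) := by rw [he]; simp
  simp only [Finset.mem_insert, Finset.mem_singleton] at h1 ⊢
  rcases h1 with h1 | h1
  · left
    rw [h1] at he
    exact Prod.ext h1 (pair_eq huv he)
  · right
    rw [h1, Finset.pair_comm] at he
    exact Prod.ext h1 (pair_eq huv.symm he)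

theorem subz_val (z : V → V → ZMod 2) (zd : ∀ u, z u u = 0) {u v : V} (huv : u ≠ v) :
    subz z {u} {u, v} = z u v := by
  have h1 := subz_weight_one z zd (fun t => if t = {u, v} then 1 else 0) u
  simp only [ite_mul, one_mul, zero_mul, Finset.sum_ite_eq', Finset.mem_univ, if_true] at h1
  rw [h1, Finset.sum_eq_single v]
  · simp
  · intro y _ hy
    rw [if_neg, mul_zero]
    intro he
    exact hy (pair_eq huv he.symm)
  · intro hv
    exact absurd (Finset.mem_univ _) hv

theorem subz_comm (z : V → V → ZMod 2) (s t : Finset V) : subz z s t = subz z t s := by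
  unfold subz
  apply Finset.sum_congr rfl
  intro u _
  apply Finset.sum_congr rfl
  intro v _
  rw [elem_comm]

theorem subz_supp {z : V → V → ZMod 2} (za : ∀ u v, z u v ≠ 0 → G.Adj u v) {s t : Finset V}
    (h : subz z s t ≠ 0) : (H3 G).Adj s t := by
  unfold subz at h
  obtain ⟨u, -, hu⟩ := Finset.exists_ne_zero_of_sum_ne_zero h
  obtain ⟨v, -, hv⟩ := Finset.exists_ne_zero_of_sum_ne_zero hu
  have h1 : z u v ≠ 0 := fun h0 => hv (by rw [h0, zero_mul])
  have h2 : elem {u} {u, v} s t ≠ 0 := fun h0 => hv (by rw [h0, mul_zero])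
  rcases elem_ne h2 with ⟨rfl, rfl⟩ | ⟨rfl, rfl⟩
  · exact adj12 (za u v h1)
  · exact (adj12 (za u v h1)).symm

/-- the position of an edge at a vertex -/
def pos1 (pos : Finset V → Finset V → ℝ) (u v : V) : ℝ := pos {u} {u, v}

/-- **The rotation of the graph given by a rotation of the incidence graph.** -/
theorem PL_of_H3 {pos : Finset V → Finset V → ℝ} (h : PL (H3 G) pos) : PL G (pos1 pos) := by
  refine ⟨?_, ?_⟩
  · intro v u w h1 h2 h3
    exact (pair_eq h1.ne (h.inj {v} {v, u} {v, w} (adj12 h1) (adj12 h2) h3)).symm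
  · intro z zs za ze
    have zd : ∀ u, z u u = 0 := fun u => by
      by_contra hc
      exact G.irrefl (za u u hc)
    obtain ⟨α, hα⟩ := h.pl (subz z) (subz_comm z) (fun s t hst => subz_supp za hst)
      (subz_even z zs zd ze)
    refine ⟨fun v => α {v}, fun u v huv => ?_⟩
    have h1 := hα {u} {u, v} (adj12 huv)
    have h2 := hα {v} {u, v} (adj12' huv)
    have c1 : ∀ u v, cnt pos (subz z) {u} {u, v} = cnt (pos1 pos) z u v := by
      intro u v
      have e1 := subz_weight_one z zd (fun t => if pos {u} t < pos {u} {u, v} then 1 else 0) u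
      simp only [ite_mul, one_mul, zero_mul, mul_ite, mul_one, mul_zero] at e1
      exact e1
    have c2 : cnt pos (subz z) {v} {u, v} = cnt (pos1 pos) z v u := by
      rw [Finset.pair_comm]; exact c1 v u
    have c3 := subz_weight_two z (fun t => if pos {u, v} t < pos {u, v} {u} then 1 else 0) huv.ne
    have c4 := subz_weight_two z (fun t => if pos {u, v} t < pos {u, v} {v} then 1 else 0) huv.ne
    simp only [ite_mul, one_mul, zero_mul, mul_ite, mul_one, mul_zero, lt_irrefl, if_false,
      zero_add, add_zero] at c3 c4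
    have c3' : cnt pos (subz z) {u, v} {u} = if pos {u, v} {v} < pos {u, v} {u} then z v u else 0 :=
      c3
    have c4' : cnt pos (subz z) {u, v} {v} = if pos {u, v} {u} < pos {u, v} {v} then z u v else 0 :=
      c4
    have hz1 : subz z {u} {u, v} = z u v := subz_val z zd huv.ne
    have hz2 : subz z {v} {u, v} = z u v := by
      rw [Finset.pair_comm, subz_val z zd huv.ne.symm, zs]
    have hpos : pos {u, v} {u} ≠ pos {u, v} {v} := by
      intro he
      have := h.inj {u, v} {u} {v} (adj12 huv).symm (adj12' huv).symm he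
      exact huv.ne (Finset.singleton_injective this)
    rw [c1, c3', hz1] at h1
    rw [c2, c4', hz2] at h2
    rw [zs v u] at h1
    rcases lt_or_gt_of_ne hpos with h3 | h3
    · rw [if_neg (not_lt.2 h3.le)] at h1
      rw [if_pos h3] at h2
      have : ∀ a b m p q r : ZMod 2, a + m = p + 0 + r → b + m = q + r + r → a + b = p + q + r := by
        decide
      exact this _ _ _ _ _ _ h1 h2
    · rw [if_pos h3] at h1
      rw [if_neg (not_lt.2 h3.le)] at h2
      have : ∀ a b m p q r : ZMod 2, a + m = p + r + r → b + m = q + 0 + r → a + b = p + q + r := by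
        decide
      exact this _ _ _ _ _ _ h1 h2

end Pool.Agent.E8helper59.PT
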