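import Pool.Agent.E8helper59.PT.H3
import Pool.Agent.E8helper59.PT.Base

set_option autoImplicit false
set_option linter.unusedSectionVars false

/-!
# Triangles are faces
-/

namespace Pool.Agent.E8helper59.PT

/-- the truth value as an element of `ℤ/2` -/
noncomputable def lt2 (x y : ℝ) : ZMod 2 := if x < y then 1 else 0

theorem lt2_irrefl (x : ℝ) : lt2 x x = 0 := if_neg (lt_irrefl x)

theorem lt2_add {x y : ℝ} (h : x ≠ y) : lt2 x y + lt2 y x = 1 := by
  unfold lt2
  rcases lt_or_gt_of_ne h with h1 | h1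
  · rw [if_pos h1, if_neg (not_lt.2 h1.le), add_zero]
  · rw [if_neg (not_lt.2 h1.le), if_pos h1, zero_add]

theorem cnt_two {W : Type} [Fintype W] [DecidableEq W] {pos : W → W → ℝ} {z : W → W → ZMod 2}
    {u p q : W} (hz : ∀ w, z u w = (if w = p then 1 else 0) + (if w = q then 1 else 0)) (t : W) :
    cnt pos z u t = lt2 (pos u p) (pos u t) + lt2 (pos u q) (pos u t) := by
  unfold cnt lt2
  have h1 : ∀ w, (if pos u w < pos u t then z u w else 0) =
      (if w = p then (if pos u w < pos u t then 1 else 0) else 0) +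
        (if w = q then (if pos u w < pos u t then 1 else 0) else 0) := by
    intro w
    rw [hz]
    by_cases h1 : pos u w < pos u t
    · simp only [if_pos h1]
    · simp only [if_neg h1, ite_self, add_zero]
  rw [Finset.sum_congr rfl (fun w _ => h1 w), Finset.sum_add_distrib]
  simp

theorem cnt_zero {W : Type} [Fintype W] {pos : W → W → ℝ} {z : W → W → ZMod 2}
    {u : W} (hz : ∀ w, z u w = 0) (t : W) : cnt pos z u t = 0 := by
  unfold cnt
  apply Finset.sum_eq_zero
  intro w _
  rw [hz]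
  simp

variable {V : Type} [Fintype V] [DecidableEq V] {G : SimpleGraph V}

/-- the orientation of a triangle at its centre -/
noncomputable def theta (pos : Finset V → Finset V → ℝ) (a b c : V) : ZMod 2 :=
  lt2 (pos {a, b, c} {c, a}) (pos {a, b, c} {a, b}) +
    lt2 (pos {a, b, c} {a, b}) (pos {a, b, c} {b, c}) +
    lt2 (pos {a, b, c} {b, c}) (pos {a, b, c} {c, a})

theorem triple_rot (a b c : V) : ({a, b, c} : Finset V) = {b, c, a} := by
  ext x
  simp only [Finset.mem_insert, Finset.mem_singleton]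
  tauto

theorem theta_rot (pos : Finset V → Finset V → ℝ) (a b c : V) :
    theta pos a b c = theta pos b c a := by
  unfold theta
  rw [triple_rot a b c]
  ring

theorem facial {pos : Finset V → Finset V → ℝ} (h : PL (H3 G) pos) {B : Finset V} {a b c : V}
    (hbB : b ∈ B) (hab : G.Adj a b) (hbc : G.Adj b c) (hca : G.Adj c a)
    (hconn : ∀ X, Cl G (B.erase a) X → X = B.erase a) {x : V} (hxB : x ∈ B) (hax : G.Adj a x)
    (hxb : x ≠ b) (hxc : x ≠ c) :
    lt2 (pos1 pos a b) (pos1 pos a x) + lt2 (pos1 pos a c) (pos1 pos a x) =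
      theta pos a b c + lt2 (pos1 pos a c) (pos1 pos a b) := by
  have eab := hab.ne
  have ebc := hbc.ne
  have eca := hca.ne
  obtain ⟨A, hA⟩ : ∃ A : Finset V, A = {a} := ⟨_, rfl⟩
  obtain ⟨m, hm⟩ : ∃ m : Finset V, m = {a, b} := ⟨_, rfl⟩
  obtain ⟨t, ht⟩ : ∃ t : Finset V, t = {a, b, c} := ⟨_, rfl⟩
  obtain ⟨n, hn⟩ : ∃ n : Finset V, n = {c, a} := ⟨_, rfl⟩
  obtain ⟨k, hk⟩ : ∃ k : Finset V, k = {b, c} := ⟨_, rfl⟩
  have cA : A.card = 1 := by rw [hA]; simp
  have cm : m.card = 2 := by rw [hm, Finset.card_pair eab]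
  have ct : t.card = 3 := by rw [ht, card_triple eab eca.symm ebc]
  have cn : n.card = 2 := by rw [hn, Finset.card_pair eca]
  have ck : k.card = 2 := by rw [hk, Finset.card_pair ebc]
  have nAm : A ≠ m := fun he => by rw [he] at cA; omega
  have nAt : A ≠ t := fun he => by rw [he] at cA; omega
  have nAn : A ≠ n := fun he => by rw [he] at cA; omega
  have nmt : m ≠ t := fun he => by rw [he] at cm; omega
  have nnt : n ≠ t := fun he => by rw [he] at cn; omega
  have nmn : m ≠ n := fun he => by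
    have h1 : b ∈ n := by rw [← he, hm]; simp
    rw [hn] at h1
    simp only [Finset.mem_insert, Finset.mem_singleton] at h1
    rcases h1 with h1 | h1
    · exact ebc h1
    · exact eab h1.symm
  have aAm : (H3 G).Adj A m := by rw [hA, hm]; exact adj12 hab
  have amt : (H3 G).Adj m t := by rw [hm, ht]; exact adj23 hab hbc hca
  have ant : (H3 G).Adj n t := by
    rw [hn, ht, ← triple_rot c a b]; exact adj23 hca hab hbc
  have aAn : (H3 G).Adj A n := by rw [hA, hn]; exact adj12' hca
  have akt : (H3 G).Adj k t := by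
    rw [hk, ht, triple_rot a b c]; exact adj23 hbc hca hab
  have abk : (H3 G).Adj {b} k := by rw [hk]; exact adj12 hbc
  obtain ⟨z, hz⟩ : ∃ z, z = stepZ [A, m, t, n, A] := ⟨_, rfl⟩
  have zA : ∀ w, z A w = (if w = m then 1 else 0) + (if w = n then 1 else 0) := by
    intro w
    rw [hz]
    simp [stepZ, elem, nAm, nAt, nAn]
  have zm : ∀ w, z m w = (if w = A then 1 else 0) + (if w = t then 1 else 0) := by
    intro w
    rw [hz]
    simp [stepZ, elem, nAm.symm, nmt, nmn]
  have zt : ∀ w, z t w = (if w = m then 1 else 0) + (if w = n then 1 else 0) := by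
    intro w
    rw [hz]
    simp [stepZ, elem, nAt.symm, nmt.symm, nnt.symm]
  have z0 : ∀ s, s ≠ A → s ≠ m → s ≠ t → s ≠ n → ∀ w, z s w = 0 := by
    intro s h1 h2 h3 h4 w
    rw [hz]
    apply stepZ_notMem
    simp [h1, h2, h3, h4]
  obtain ⟨α, hα⟩ := h.pl z (by rw [hz]; exact stepZ_comm _) (by
    intro u v huv
    rw [hz] at huv
    refine stepZ_supp (fun _ _ h => h.symm) _ ?_ u v huv
    simp only [List.isChain_cons_cons, List.isChain_singleton, and_true]
    exact ⟨aAm, amt, ant.symm, aAn.symm⟩) (by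
    intro u
    rw [hz]
    exact stepZ_closed [m, t, n] A u)
  have E1 := hα A m aAm
  have E2 := hα m t amt
  have E3 := hα t k akt.symm
  have E4 := hα {b} k abk
  have nkA : k ≠ A := fun he => by rw [he] at ck; omega
  have nkt : k ≠ t := fun he => by rw [he] at ck; omega
  have hak : a ∉ k := by rw [hk]; simp [eab, eca.symm]
  have ham : a ∈ m := by rw [hm]; simp
  have han : a ∈ n := by rw [hn]; simp
  have hat : a ∈ t := by rw [ht]; simp
  have haA : a ∈ A := by rw [hA]; simp
  have z0' : ∀ s : Finset V, a ∉ s → ∀ w, z s w = 0 := by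
    intro s hs
    exact z0 s (fun he => hs (he ▸ haA)) (fun he => hs (he ▸ ham)) (fun he => hs (he ▸ hat))
      (fun he => hs (he ▸ han))
  have hab' : a ∉ ({b} : Finset V) := by simpa using eab
  have ztk : z t k = 0 := by
    rw [zt]
    have h1 : k ≠ m := fun he => hak (he ▸ ham)
    have h2 : k ≠ n := fun he => hak (he ▸ han)
    simp [h1, h2]
  rw [cnt_two zA, cnt_two zm, zA, lt2_irrefl, lt2_irrefl, if_pos rfl, if_neg nmn] at E1
  rw [cnt_two zm, cnt_two zt, zm, lt2_irrefl, lt2_irrefl, if_neg nAt.symm, if_pos rfl] at E2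
  rw [cnt_two zt, cnt_zero (z0' k hak), ztk] at E3
  rw [cnt_zero (z0' _ hab'), cnt_zero (z0' k hak), z0' _ hab'] at E4
  have P1 := lt2_add (x := pos m t) (y := pos m A) (fun he => nAt.symm (h.inj m t A amt aAm.symm he))
  have P2 := lt2_add (x := pos t n) (y := pos t k) (fun he => hak (by
    rw [← h.inj t n k ant.symm akt.symm he]; exact han))
  -- the constant value
  have hκ : ∀ y ∈ B, y ≠ a → α {y} = α {b} := by
    intro y hyB hya
    have h1 := hconn ((B.erase a).filter fun y => α {y} = α {b}) ⟨Finset.filter_subset _ _,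
      ⟨b, Finset.mem_filter.2 ⟨Finset.mem_erase.2 ⟨eab.symm, hbB⟩, rfl⟩⟩, (by
      intro u hu v hv huv
      rw [Finset.mem_filter] at hu ⊢
      refine ⟨hv, ?_⟩
      have hua := (Finset.mem_erase.1 hu.1).1
      have hva := (Finset.mem_erase.1 hv).1
      have i1 : a ∉ ({u} : Finset V) := by simpa using hua.symm
      have i2 : a ∉ ({v} : Finset V) := by simpa using hva.symm
      have i3 : a ∉ ({u, v} : Finset V) := by simp [hua.symm, hva.symm]
      have k1 := hα {u} {u, v} (adj12 huv)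
      have k2 := hα {v} {u, v} (adj12' huv)
      rw [cnt_zero (z0' _ i1), cnt_zero (z0' _ i3), z0' _ i1] at k1
      rw [cnt_zero (z0' _ i2), cnt_zero (z0' _ i3), z0' _ i2] at k2
      rw [← hu.2]
      have : ∀ p q r : ZMod 2, p + r = 0 + 0 + 0 → q + r = 0 + 0 + 0 → q = p := by decide
      exact this _ _ _ k1 k2)⟩
    have h2 : y ∈ (B.erase a).filter fun y => α {y} = α {b} := by
      rw [h1]; exact Finset.mem_erase.2 ⟨hya, hyB⟩
    exact (Finset.mem_filter.1 h2).2
  -- the neighbour `x`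
  have hxa : x ≠ a := hax.ne.symm
  have E5 := hκ x hxB hxa
  have i1 : a ∉ ({x} : Finset V) := by simpa using hxa.symm
  have hax2 : ({a, x} : Finset V).card = 2 := Finset.card_pair hax.ne
  have i2 : ∀ w, z {a, x} w = 0 := by
    apply z0
    · intro he; rw [he] at hax2; omega
    · intro he
      rw [hm] at he
      exact hxb (pair_eq hax.ne he).symm
    · intro he; rw [he] at hax2; omega
    · intro he
      rw [hn, Finset.pair_comm c a] at he
      exact hxc (pair_eq hax.ne he).symm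
  have E6 := hα A {a, x} (by rw [hA]; exact adj12 hax)
  have E7 := hα {x} {a, x} (adj12' hax)
  have zAx : z A {a, x} = 0 := by
    rw [hz, stepZ_comm, ← hz]
    exact i2 A
  rw [cnt_two zA, cnt_zero i2, zAx] at E6
  rw [cnt_zero (z0' _ i1), cnt_zero i2, z0' _ i1] at E7
  have g1 : pos1 pos a b = pos A m := by rw [hA, hm]; rfl
  have g2 : pos1 pos a c = pos A n := by rw [hA, hn, Finset.pair_comm]; rfl
  have g3 : pos1 pos a x = pos A {a, x} := by rw [hA]; rfl
  have g4 : theta pos a b c = lt2 (pos t n) (pos t m) + lt2 (pos t m) (pos t k) +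
      lt2 (pos t k) (pos t n) := by
    rw [ht, hm, hn, hk]; rfl
  rw [g1, g2, g3, g4]
  rw [E5] at E7
  have : ∀ (αA αm αt αk αb αx p1 p2 p3 p4 p5 p6 p7 p8 : ZMod 2),
      αA + αm = 0 + p1 + (0 + p2) + (1 + 0) →
      αm + αt = p3 + 0 + (0 + p4) + (0 + 1) →
      αt + αk = p5 + p6 + 0 + 0 →
      αb + αk = 0 + 0 + 0 →
      p2 + p3 = 1 → p6 + p7 = 1 →
      αA + αx = p8 + 0 + 0 →
      αb + αx = 0 + 0 + 0 →
      p8 = p4 + p5 + p7 + p1 := by
    intro αA αm αt αk αb αx p1 p2 p3 p4 p5 p6 p7 p8 e1 e2 e3 e4 e5 e6 e7 e8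
    have h2 : (2 : ZMod 2) = 0 := by decide
    linear_combination -(e1 + e2 + e3 + e4 + e5 + e6 + e7 + e8) +
      (αA + αm + αt + αk + αb + αx - p1 - p4 - p5 - 2) * h2
  have := this _ _ _ _ _ _ _ _ _ _ _ _ _ _ E1 E2 E3 E4 P1 P2 E6 E7
  rw [this]

/-- the successor -/
theorem rot_of_sigma {W : Type} [Fintype W] {B : SimpleGraph W} {pos : W → W → ℝ}
    {rot : W → Equiv.Perm W} (hr : RotOf B pos rot)
    (hinj : ∀ v u w, B.Adj v u → B.Adj v w → pos v u = pos v w → u = w) {a b c : W}
    (hab : B.Adj a b) (hac : B.Adj a c) (hbc : b ≠ c)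
    (hx : ∀ x, B.Adj a x → x ≠ b → x ≠ c →
      lt2 (pos a b) (pos a x) + lt2 (pos a c) (pos a x) = lt2 (pos a c) (pos a b)) :
    rot a b = c := by
  have hne : pos a b ≠ pos a c := fun he => hbc (hinj a b c hab hac he)
  have haw := hr.adj_rot a b hab
  by_contra hwc
  rcases lt_or_gt_of_ne hne with h1 | h1
  · rcases hr.nxt a b hab with ⟨h2, h3⟩ | ⟨h2, h3⟩
    · have hwb : rot a b ≠ b := fun he => by rw [he] at h2; exact lt_irrefl _ h2
      have h4 := hx _ haw hwb hwc
      have h5 : pos a (rot a b) < pos a c := lt_of_le_of_ne (h3 c hac h1)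
        (fun he => hwc (hinj a _ _ haw hac he))
      unfold lt2 at h4
      rw [if_pos h2, if_neg (not_lt.2 h5.le), if_neg (not_lt.2 h1.le)] at h4
      exact absurd h4 (by decide)
    · exact absurd (h2 c hac) (not_le.2 h1)
  · rcases hr.nxt a b hab with ⟨h2, h3⟩ | ⟨h2, h3⟩
    · have hwb : rot a b ≠ b := fun he => by rw [he] at h2; exact lt_irrefl _ h2
      have h4 := hx _ haw hwb hwc
      unfold lt2 at h4
      rw [if_pos h2, if_pos (h1.trans h2), if_pos h1] at h4
      exact absurd h4 (by decide)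
    · have h5 : pos a (rot a b) < pos a c := lt_of_le_of_ne (h3 c hac)
        (fun he => hwc (hinj a _ _ haw hac he))
      have hwb : rot a b ≠ b := fun he => by
        rw [he] at h5
        exact lt_asymm h5 h1
      have h4 := hx _ haw hwb hwc
      unfold lt2 at h4
      rw [if_neg (not_lt.2 (h5.trans h1).le), if_neg (not_lt.2 h5.le), if_pos h1] at h4
      exact absurd h4 (by decide)

/-- **Blocks of a graph with planar incidence graph are plane maps.** -/
theorem block_map {pos : Finset V → Finset V → ℝ} (h : PL (H3 G) pos) (B : Finset V)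
    (h4 : 4 ≤ B.card) (hB1 : ∀ X, Cl G B X → X = B)
    (hB2 : ∀ x ∈ B, ∀ X, Cl G (B.erase x) X → X = B.erase x) :
    ∃ rot : {x // x ∈ B} → Equiv.Perm {x // x ∈ B}, PMap (G.comap (Subtype.val)) rot := by
  have hPL := (PL_of_H3 h).induce B
  obtain ⟨rot, hr⟩ := exists_rotOf hPL.inj
  -- the corners of a triangle
  have hcorner : ∀ a b c : {x // x ∈ B}, G.Adj a.1 b.1 → G.Adj b.1 c.1 → G.Adj c.1 a.1 →
      (theta pos a.1 b.1 c.1 = 0 → rot a b = c) ∧ (theta pos a.1 b.1 c.1 = 1 → rot a c = b) := by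
    intro a b c hab hbc hca
    have hf : ∀ x : {x // x ∈ B}, G.Adj a.1 x.1 → x ≠ b → x ≠ c →
        lt2 (pos1 pos a.1 b.1) (pos1 pos a.1 x.1) + lt2 (pos1 pos a.1 c.1) (pos1 pos a.1 x.1) =
        theta pos a.1 b.1 c.1 + lt2 (pos1 pos a.1 c.1) (pos1 pos a.1 b.1) := by
      intro x hax hxb hxc
      exact facial h b.2 hab hbc hca (hB2 a.1 a.2) x.2 hax (fun he => hxb (Subtype.ext he))
        (fun he => hxc (Subtype.ext he))
    have hbc' : b ≠ c := fun he => hbc.ne (congrArg Subtype.val he)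
    have hne : pos1 pos a.1 b.1 ≠ pos1 pos a.1 c.1 := fun he =>
      hbc.ne ((PL_of_H3 h).inj a.1 b.1 c.1 hab hca.symm he)
    constructor
    · intro ht
      refine rot_of_sigma hr hPL.inj hab hca.symm hbc' (fun x hax hxb hxc => ?_)
      have h1 := hf x hax hxb hxc
      rw [ht, zero_add] at h1
      exact h1
    · intro ht
      refine rot_of_sigma hr hPL.inj hca.symm hab hbc'.symm (fun x hax hxc hxb => ?_)
      have h1 := hf x hax hxb hxc
      rw [ht] at h1
      have h2 := lt2_add hne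
      have : ∀ p q r s : ZMod 2, p + q = 1 + r → s + r = 1 → q + p = s := by decide
      exact this _ _ _ _ h1 h2
  refine ⟨rot, hr.adj_rot, hr.cyc, ?_, fun z zs za ze => hPL.pot hr z zs za ze, ?_, ?_⟩
  · -- triangles
    intro a b c hab hbc hca
    have k1 := hcorner a b c hab hbc hca
    have k2 := hcorner b c a hbc hca hab
    have k3 := hcorner c a b hca hab hbc
    rw [← theta_rot pos a.1 b.1 c.1] at k2
    rw [theta_rot pos c.1 a.1 b.1] at k3
    have : ∀ x : ZMod 2, x = 0 ∨ x = 1 := by decide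
    rcases this (theta pos a.1 b.1 c.1) with h0 | h0
    · right
      exact ⟨k1.1 h0, k2.1 h0, k3.1 h0⟩
    · left
      exact ⟨k2.2 h0, k3.2 h0, k1.2 h0⟩
  · -- connectivity
    intro X hX hc v
    classical
    have h1 := hB1 (B.filter fun x => ∃ hx : x ∈ B, (⟨x, hx⟩ : {x // x ∈ B}) ∈ X)
      ⟨Finset.filter_subset _ _, ?_, ?_⟩
    · have h2 : v.1 ∈ B.filter fun x => ∃ hx : x ∈ B, (⟨x, hx⟩ : {x // x ∈ B}) ∈ X := by
        rw [h1]; exact v.2
      obtain ⟨-, h3, h5⟩ := Finset.mem_filter.1 h2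
      exact h5
    · obtain ⟨x, hx⟩ := hX
      exact ⟨x.1, Finset.mem_filter.2 ⟨x.2, x.2, hx⟩⟩
    · intro x hx y hy hxy
      obtain ⟨-, h3, h5⟩ := Finset.mem_filter.1 hx
      exact Finset.mem_filter.2 ⟨hy, hy, hc _ h5 ⟨y, hy⟩ hxy⟩
  · -- degrees
    intro u v huv hrot
    have huv' : G.Adj u.1 v.1 := huv
    -- another neighbour
    obtain ⟨w, hwB, hwu, hvw⟩ : ∃ w ∈ B, w ≠ u.1 ∧ G.Adj v.1 w := by
      by_contra hc
      push Not at hc
      have h1 := hB2 u.1 u.2 {v.1} ⟨?_, ⟨v.1, by simp⟩, ?_⟩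
      · have h2 : (B.erase u.1).card = 1 := by rw [← h1]; simp
        rw [Finset.card_erase_of_mem u.2] at h2
        omega
      · intro x hx
        rw [Finset.mem_singleton.1 hx]
        exact Finset.mem_erase.2 ⟨huv'.ne.symm, v.2⟩
      · intro x hx y hy hxy
        rw [Finset.mem_singleton.1 hx] at hxy
        have h2 := Finset.mem_erase.1 hy
        exact absurd hxy (hc y h2.2 h2.1)
    have hvu : (G.comap (Subtype.val : {x // x ∈ B} → V)).Adj v u := huv.symm
    have hvw' : (G.comap (Subtype.val : {x // x ∈ B} → V)).Adj v ⟨w, hwB⟩ := hvw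
    rcases hr.nxt v u hvu with ⟨h1, -⟩ | ⟨h1, h2⟩
    · rw [hrot] at h1
      exact lt_irrefl _ h1
    · rw [hrot] at h2
      have h3 := hPL.inj v u ⟨w, hwB⟩ hvu hvw' (le_antisymm (h2 _ hvw') (h1 _ hvw'))
      exact hwu (congrArg Subtype.val h3).symm

/-- **The sufficient condition.** -/
theorem Q_of_PL {pos : Finset V → Finset V → ℝ} (h : PL (H3 G) pos) {S : Finset V} {a : V}
    (hG : Good G S a) (hV : ∃ b c : V, a ≠ b ∧ a ≠ c ∧ b ≠ c) : Q G S a :=
  dec_induct (fun S a hG h4 hns => base_case (block_map h) S a hG h4 hns) S.card S a rfl hG hV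

end Pool.Agent.E8helper59.PT
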