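import Mathlib

set_option autoImplicit false
set_option linter.unusedSectionVars false
set_option linter.unusedVariables false

/-!
# Sorting the items at a fork
-/

namespace Pool.Agent.E8helper59.PT

open Classical

variable {V E : Type}

/-- the data at a fork -/
structure Fork (R : V → Finset E) (η : E → ℕ) (c : E → ZMod 2) (oh : V → V → ZMod 2) : Prop where
  anti : ∀ y1 y2, y1 ≠ y2 → (R y1).Nonempty → (R y2).Nonempty → oh y1 y2 + oh y2 y1 = 1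
  col : ∀ y1 y2, y1 ≠ y2 → ∀ r1 ∈ R y1, ∀ r2 ∈ R y2, η r2 < η r1 → c r1 = oh y1 y2
  fre : ∀ y, ∀ r ∈ R y, c r = 1 → (∀ r' ∈ R y, η r ≤ η r') →
    (∃ y3, y3 ≠ y ∧ ∃ r3 ∈ R y3, η r3 < η r) ∨ (∀ y', ∀ r' ∈ R y', η r' = η r → c r' = 1)

/-- the lowest height -/
noncomputable def low (R : V → Finset E) (η : E → ℕ) (y : V) : ℕ := sInf {n | ∃ r ∈ R y, η r = n}

/-- the largest height -/
noncomputable def high (R : V → Finset E) (η : E → ℕ) (y : V) : ℕ := (R y).sup η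

theorem low_le {R : V → Finset E} {η : E → ℕ} {y : V} {r : E} (h : r ∈ R y) : low R η y ≤ η r :=
  Nat.sInf_le ⟨r, h, rfl⟩

theorem exists_low {R : V → Finset E} {η : E → ℕ} {y : V} (h : (R y).Nonempty) :
    ∃ r ∈ R y, η r = low R η y := by
  have : {n | ∃ r ∈ R y, η r = n}.Nonempty := by
    obtain ⟨r, hr⟩ := h
    exact ⟨_, r, hr, rfl⟩
  exact Nat.sInf_mem this

theorem le_high {R : V → Finset E} {η : E → ℕ} {y : V} {r : E} (h : r ∈ R y) : η r ≤ high R η y :=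
  Finset.le_sup h

theorem exists_high {R : V → Finset E} {η : E → ℕ} {y : V} (h : (R y).Nonempty) :
    ∃ r ∈ R y, η r = high R η y := by
  obtain ⟨r, hr, hr'⟩ := Finset.exists_mem_eq_sup _ h η
  exact ⟨r, hr, hr'.symm⟩

/-- the sorting key -/
noncomputable def key (R : V → Finset E) (η : E → ℕ) (c : E → ZMod 2) (N : ℕ) (y : V) : ℤ :=
  if ∀ r ∈ R y, c r = 1 then -((low R η y * N + high R η y : ℕ) : ℤ) - 1
  else if ∀ r ∈ R y, c r = 0 then 1 + ((low R η y * N + high R η y : ℕ) : ℤ) else 0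

theorem z2_ne_one {a : ZMod 2} (h : a ≠ 1) : a = 0 := by revert h; revert a; decide

theorem z2_ne_zero {a : ZMod 2} (h : a ≠ 0) : a = 1 := by revert h; revert a; decide

theorem z2_one_ne_zero : (1 : ZMod 2) ≠ 0 := by decide

theorem z2_other {a b : ZMod 2} (h : a + b = 1) (ha : a = 1) : b = 0 := by
  subst ha; revert h; revert b; decide

theorem z2_other' {a b : ZMod 2} (h : a + b = 1) (ha : a = 0) : b = 1 := by
  subst ha; revert h; revert b; decide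

variable {R : V → Finset E} {η : E → ℕ} {c : E → ZMod 2} {oh : V → V → ZMod 2}

theorem Fork.LL (h : Fork R η c oh) {N : ℕ} (hN : ∀ e, η e < N) {y1 y2 : V} (hne : y1 ≠ y2)
    (L1 : ∀ r ∈ R y1, c r = 1) (L2 : ∀ r ∈ R y2, c r = 1) {r1 r2 : E} (h1 : r1 ∈ R y1)
    (h2 : r2 ∈ R y2)
    (hk : low R η y2 * N + high R η y2 ≤ low R η y1 * N + high R η y1) : ¬ η r1 < η r2 := by
  intro hlt
  have e1 := h.col y2 y1 hne.symm r2 h2 r1 h1 hlt
  rw [L2 r2 h2] at e1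
  have e2 := z2_other (h.anti y2 y1 hne.symm ⟨r2, h2⟩ ⟨r1, h1⟩) e1.symm
  have e3 : ∀ r1' ∈ R y1, ∀ r2' ∈ R y2, η r1' ≤ η r2' := by
    intro r1' h1' r2' h2'
    by_contra hc
    have := h.col y1 y2 hne r1' h1' r2' h2' (not_le.1 hc)
    rw [e2, L1 r1' h1'] at this
    exact z2_one_ne_zero this
  obtain ⟨a, ha, ha'⟩ := exists_high (η := η) ⟨r1, h1⟩
  obtain ⟨b, hb, hb'⟩ := exists_low (η := η) ⟨r2, h2⟩
  have e4 := e3 a ha b hb
  have e5 := low_le (η := η) h1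
  have e6 := le_high (η := η) h2
  have e7 := le_high (η := η) h1
  have e8 := hN a
  rw [ha', hb'] at e4
  rw [ha'] at e8
  rcases Nat.lt_or_ge (low R η y1) (low R η y2) with h3 | h3
  · have h4 : (low R η y1 + 1) * N ≤ low R η y2 * N := Nat.mul_le_mul_right _ h3
    rw [Nat.add_mul, one_mul] at h4
    omega
  · have h4 : low R η y1 = low R η y2 := by omega
    rw [h4] at hk
    omega

theorem Fork.RR (h : Fork R η c oh) {N : ℕ} (hN : ∀ e, η e < N) {y1 y2 : V} (hne : y1 ≠ y2)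
    (L1 : ∀ r ∈ R y1, c r = 0) (L2 : ∀ r ∈ R y2, c r = 0) {r1 r2 : E} (h1 : r1 ∈ R y1)
    (h2 : r2 ∈ R y2)
    (hk : low R η y1 * N + high R η y1 ≤ low R η y2 * N + high R η y2) : ¬ η r2 < η r1 := by
  intro hlt
  have e1 := h.col y1 y2 hne r1 h1 r2 h2 hlt
  rw [L1 r1 h1] at e1
  have e2 := z2_other' (h.anti y1 y2 hne ⟨r1, h1⟩ ⟨r2, h2⟩) e1.symm
  have e3 : ∀ r2' ∈ R y2, ∀ r1' ∈ R y1, η r2' ≤ η r1' := by
    intro r2' h2' r1' h1'
    by_contra hc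
    have := h.col y2 y1 hne.symm r2' h2' r1' h1' (not_le.1 hc)
    rw [e2, L2 r2' h2'] at this
    exact z2_one_ne_zero this.symm
  obtain ⟨a, ha, ha'⟩ := exists_high (η := η) ⟨r2, h2⟩
  obtain ⟨b, hb, hb'⟩ := exists_low (η := η) ⟨r1, h1⟩
  have e4 := e3 a ha b hb
  have e5 := low_le (η := η) h2
  have e6 := le_high (η := η) h1
  have e7 := le_high (η := η) h2
  have e8 := hN a
  rw [ha', hb'] at e4
  rw [ha'] at e8
  rcases Nat.lt_or_ge (low R η y2) (low R η y1) with h3 | h3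
  · have h4 : (low R η y2 + 1) * N ≤ low R η y1 * N := Nat.mul_le_mul_right _ h3
    rw [Nat.add_mul, one_mul] at h4
    omega
  · have h4 : low R η y1 = low R η y2 := by omega
    rw [h4] at hk
    omega

theorem Fork.LM (h : Fork R η c oh) {y1 y2 : V} (hne : y1 ≠ y2)
    (L1 : ∀ r ∈ R y1, c r = 1) (M2 : ¬ ∀ r ∈ R y2, c r = 1) (M2' : ¬ ∀ r ∈ R y2, c r = 0)
    {r1 r2 : E} (h1 : r1 ∈ R y1) (h2 : r2 ∈ R y2) (hlt : η r1 < η r2) : c r2 = 0 := by
  by_contra hc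
  have hc1 := z2_ne_zero hc
  have e1 := h.col y2 y1 hne.symm r2 h2 r1 h1 hlt
  rw [hc1] at e1
  have e2 := z2_other (h.anti y2 y1 hne.symm ⟨r2, h2⟩ ⟨r1, h1⟩) e1.symm
  have e3 : ∀ r1' ∈ R y1, ∀ r2' ∈ R y2, η r1' ≤ η r2' := by
    intro r1' h1' r2' h2'
    by_contra hc
    have := h.col y1 y2 hne r1' h1' r2' h2' (not_le.1 hc)
    rw [e2, L1 r1' h1'] at this
    exact z2_one_ne_zero this
  push Not at M2 M2'
  obtain ⟨z, hz, hz'⟩ := M2
  obtain ⟨a, ha, ha'⟩ := M2'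
  have hz0 := z2_ne_one hz'
  have e4 : ∀ r1' ∈ R y1, η r1' = η z := by
    intro r1' h1'
    refine le_antisymm (e3 r1' h1' z hz) ?_
    by_contra hc
    have := h.col y2 y1 hne.symm z hz r1' h1' (not_le.1 hc)
    rw [← e1, hz0] at this
    exact z2_one_ne_zero this.symm
  rcases h.fre y1 r1 h1 (L1 r1 h1) (fun r' hr' => by rw [e4 r1 h1, e4 r' hr']) with
    ⟨y3, h3, r3, hr3, hlt3⟩ | h5
  · have h4 : y3 ≠ y2 := by
      rintro rfl
      exact absurd hlt3 (not_lt.2 (e3 r1 h1 r3 hr3))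
    have e5 := h.col y2 y3 h4.symm z hz r3 hr3 (hlt3.trans_le (e3 r1 h1 z hz))
    have e6 := h.col y2 y3 h4.symm a ha r3 hr3 (hlt3.trans_le (e3 r1 h1 a ha))
    exact ha' (e6.trans (e5.symm.trans hz0))
  · exact hz' (h5 y2 z hz (e4 r1 h1).symm)

theorem Fork.MR (h : Fork R η c oh) {y1 y2 : V} (hne : y1 ≠ y2)
    (M1 : ¬ ∀ r ∈ R y1, c r = 1) (M1' : ¬ ∀ r ∈ R y1, c r = 0) (L2 : ∀ r ∈ R y2, c r = 0)
    {r1 r2 : E} (h1 : r1 ∈ R y1) (h2 : r2 ∈ R y2) (hlt : η r2 < η r1) : c r1 = 1 := by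
  by_contra hc
  have hc1 := z2_ne_one hc
  have e1 := h.col y1 y2 hne r1 h1 r2 h2 hlt
  rw [hc1] at e1
  have e2 := z2_other' (h.anti y1 y2 hne ⟨r1, h1⟩ ⟨r2, h2⟩) e1.symm
  have e3 : ∀ r2' ∈ R y2, ∀ r1' ∈ R y1, η r2' ≤ η r1' := by
    intro r2' h2' r1' h1'
    by_contra hc
    have := h.col y2 y1 hne.symm r2' h2' r1' h1' (not_le.1 hc)
    rw [e2, L2 r2' h2'] at this
    exact z2_one_ne_zero this.symm
  push Not at M1 M1'
  obtain ⟨z, hz, hz'⟩ := M1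
  obtain ⟨a, ha, ha'⟩ := M1'
  have hz0 := z2_ne_one hz'
  have ha1 := z2_ne_zero ha'
  have e4 : ∀ r2' ∈ R y2, η r2' = η a := by
    intro r2' h2'
    refine le_antisymm (e3 r2' h2' a ha) ?_
    by_contra hc
    have := h.col y1 y2 hne a ha r2' h2' (not_le.1 hc)
    rw [← e1, ha1] at this
    exact z2_one_ne_zero this
  rcases h.fre y1 a ha ha1 (fun r' hr' => by rw [← e4 r2 h2]; exact e3 r2 h2 r' hr') with
    ⟨y3, h3, r3, hr3, hlt3⟩ | h5
  · have h4 : y3 ≠ y2 := by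
      rintro rfl
      rw [e4 r3 hr3] at hlt3
      exact lt_irrefl _ hlt3
    rw [← e4 r2 h2] at hlt3
    have e5 := h.col y1 y3 h3.symm z hz r3 hr3 (hlt3.trans_le (e3 r2 h2 z hz))
    have e6 := h.col y1 y3 h3.symm a ha r3 hr3 (hlt3.trans_le (e3 r2 h2 a ha))
    exact ha' (e6.trans (e5.symm.trans hz0))
  · have := h5 y2 r2 h2 (e4 r2 h2)
    rw [L2 r2 h2] at this
    exact z2_one_ne_zero this.symm

theorem Fork.MM (h : Fork R η c oh) {y1 y2 : V} (hne : y1 ≠ y2) {z1 a2 z2 : E}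
    (hz1 : z1 ∈ R y1) (ha2 : a2 ∈ R y2) (hz2 : z2 ∈ R y2)
    (cz1 : c z1 = 0) (ca2 : c a2 = 1) (cz2 : c z2 = 0) (ho : oh y1 y2 = 1) : False := by
  have ho' := z2_other (h.anti y1 y2 hne ⟨z1, hz1⟩ ⟨a2, ha2⟩) ho
  have e1 : ∀ r2 ∈ R y2, η z1 ≤ η r2 := by
    intro r2 h2
    by_contra hc
    have := h.col y1 y2 hne z1 hz1 r2 h2 (not_le.1 hc)
    rw [ho, cz1] at this
    exact z2_one_ne_zero this.symm
  have e2 : ∀ r1 ∈ R y1, η a2 ≤ η r1 := by
    intro r1 h1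
    by_contra hc
    have := h.col y2 y1 hne.symm a2 ha2 r1 h1 (not_le.1 hc)
    rw [ho', ca2] at this
    exact z2_one_ne_zero this
  have e3 : η z1 = η a2 := le_antisymm (e1 a2 ha2) (e2 z1 hz1)
  rcases h.fre y2 a2 ha2 ca2 (fun r' hr' => by rw [← e3]; exact e1 r' hr') with
    ⟨y3, h3, r3, hr3, hlt3⟩ | h5
  · have h4 : y3 ≠ y1 := by
      rintro rfl
      exact absurd hlt3 (not_lt.2 (e2 r3 hr3))
    rw [← e3] at hlt3
    have e5 := h.col y2 y3 h3.symm z2 hz2 r3 hr3 (hlt3.trans_le (e1 z2 hz2))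
    have e6 := h.col y2 y3 h3.symm a2 ha2 r3 hr3 (hlt3.trans_le (e1 a2 ha2))
    have := e6.trans (e5.symm.trans cz2)
    rw [ca2] at this
    exact z2_one_ne_zero this
  · have := h5 y1 z1 hz1 e3
    rw [cz1] at this
    exact z2_one_ne_zero this.symm

/-- **The sorting lemma.** -/
theorem Fork.sorted (h : Fork R η c oh) {N : ℕ} (hN : ∀ e, η e < N) {y1 y2 : V} (hne : y1 ≠ y2)
    {r1 r2 : E} (h1 : r1 ∈ R y1) (h2 : r2 ∈ R y2) (hk : key R η c N y1 ≤ key R η c N y2) :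
    (η r2 < η r1 → c r1 = 1) ∧ (η r1 < η r2 → c r2 = 0) ∧
      (η r1 = η r2 → ¬ (c r1 = 0 ∧ c r2 = 1)) := by
  unfold key at hk
  by_cases L1 : ∀ r ∈ R y1, c r = 1
  · rw [if_pos L1] at hk
    have g1 : η r1 = η r2 → ¬ (c r1 = 0 ∧ c r2 = 1) := by
      rintro - ⟨h3, -⟩
      rw [L1 r1 h1] at h3
      exact z2_one_ne_zero h3
    refine ⟨fun _ => L1 r1 h1, fun hlt => ?_, g1⟩
    by_cases L2 : ∀ r ∈ R y2, c r = 1
    · rw [if_pos L2] at hk
      exact absurd hlt (h.LL hN hne L1 L2 h1 h2 (by omega))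
    · by_cases R2 : ∀ r ∈ R y2, c r = 0
      · exact R2 r2 h2
      · exact h.LM hne L1 L2 R2 h1 h2 hlt
  · rw [if_neg L1] at hk
    by_cases R1 : ∀ r ∈ R y1, c r = 0
    · rw [if_pos R1] at hk
      by_cases L2 : ∀ r ∈ R y2, c r = 1
      · rw [if_pos L2] at hk
        omega
      · rw [if_neg L2] at hk
        by_cases R2 : ∀ r ∈ R y2, c r = 0
        · rw [if_pos R2] at hk
          refine ⟨fun hlt => absurd hlt (h.RR hN hne R1 R2 h1 h2 (by omega)),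
            fun _ => R2 r2 h2, ?_⟩
          rintro - ⟨-, h3⟩
          rw [R2 r2 h2] at h3
          exact z2_one_ne_zero h3.symm
        · rw [if_neg R2] at hk
          omega
    · rw [if_neg R1] at hk
      by_cases L2 : ∀ r ∈ R y2, c r = 1
      · rw [if_pos L2] at hk
        omega
      · by_cases R2 : ∀ r ∈ R y2, c r = 0
        · refine ⟨fun hlt => h.MR hne L1 R1 R2 h1 h2 hlt, fun _ => R2 r2 h2, ?_⟩
          rintro - ⟨-, h3⟩
          rw [R2 r2 h2] at h3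
          exact z2_one_ne_zero h3.symm
        · exfalso
          push Not at L1 R1 L2 R2
          obtain ⟨z1, hz1, cz1⟩ := L1
          obtain ⟨a1, ha1, ca1⟩ := R1
          obtain ⟨z2, hz2, cz2⟩ := L2
          obtain ⟨a2, ha2, ca2⟩ := R2
          by_cases ho : oh y1 y2 = 1
          · exact h.MM hne hz1 ha2 hz2 (z2_ne_one cz1) (z2_ne_zero ca2) (z2_ne_one cz2) ho
          · exact h.MM hne.symm hz2 ha1 hz1 (z2_ne_one cz2) (z2_ne_zero ca1) (z2_ne_one cz1)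
              (z2_other' (h.anti y1 y2 hne ⟨r1, h1⟩ ⟨r2, h2⟩) (z2_ne_one ho))

end Pool.Agent.E8helper59.PT
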