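import Pool.Agent.E8helper59.PT.NF
import Pool.Agent.E8helper59.PT.H3F

set_option autoImplicit false
set_option linter.unusedSectionVars false
set_option linter.unusedVariables false

/-!
# Fundamental cycles of a normal forest
-/

namespace Pool.Agent.E8helper59.PT

open Classical

section basics

variable {V : Type} [Finite V] [PartialOrder V] {G : SimpleGraph V}

/-- the parent -/
noncomputable def par (y : V) : V := if h : ∃ x, x ⋖ y then h.choose else y

/-- the child of `b` below `w` -/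
noncomputable def nx (b w : V) : V := if h : ∃ c, b ⋖ c ∧ c ≤ w then h.choose else w

theorem par_covBy {x y : V} (h : x < y) : par y ⋖ y := by
  have h1 : ∃ x, x ⋖ y := by
    obtain ⟨z, -, hz⟩ := exists_le_covBy_of_lt h
    exact ⟨z, hz⟩
  unfold par
  rw [dif_pos h1]
  exact h1.choose_spec

theorem NF.cov_unique (hF : NF G) {x x' y : V} (h : x ⋖ y) (h' : x' ⋖ y) : x = x' := by
  rcases hF.chain x x' y h.1.le h'.1.le with h1 | h1
  · rcases h1.lt_or_eq with h2 | h2
    · exact absurd h'.1 (h.2 h2)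
    · exact h2
  · rcases h1.lt_or_eq with h2 | h2
    · exact absurd h.1 (h'.2 h2)
    · exact h2.symm

theorem NF.par_eq (hF : NF G) {x y : V} (h : x ⋖ y) : par y = x :=
  hF.cov_unique (par_covBy h.1) h

theorem NF.le_par (hF : NF G) {x y : V} (h : x < y) : x ≤ par y := by
  obtain ⟨z, hz, hz'⟩ := exists_le_covBy_of_lt h
  rw [hF.par_eq hz']
  exact hz

theorem par_lt {x y : V} (h : x < y) : par y < y := (par_covBy h).1

theorem nx_spec {b w : V} (h : b < w) : b ⋖ nx b w ∧ nx b w ≤ w := by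
  have h1 : ∃ c, b ⋖ c ∧ c ≤ w := exists_covBy_le_of_lt h
  unfold nx
  rw [dif_pos h1]
  exact h1.choose_spec

theorem NF.nx_eq (hF : NF G) {b c w : V} (h : b ⋖ c) (h' : c ≤ w) : nx b w = c := by
  have h1 := nx_spec (h.1.trans_le h')
  rcases hF.chain _ _ w h1.2 h' with h2 | h2
  · rcases h2.lt_or_eq with h3 | h3
    · exact absurd h3 (h.2 h1.1.1)
    · exact h3
  · rcases h2.lt_or_eq with h3 | h3
    · exact absurd h3 (h1.1.2 h.1)
    · exact h3.symm

theorem NF.nx_mono (hF : NF G) {b u w : V} (h : b < u) (h' : u ≤ w) : nx b w = nx b u := by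
  have h1 := nx_spec h
  exact hF.nx_eq h1.1 (h1.2.trans h')

/-- `{w, t}` is a back edge with upper end `w` -/
structure BE (G : SimpleGraph V) (w t : V) : Prop where
  lt : t < w
  adj : G.Adj w t
  ncov : ¬ t ⋖ w

/-- the lower neighbour in the fundamental cycle -/
noncomputable def dn (w t u : V) : V := if u = t then w else par u

/-- the upper neighbour in the fundamental cycle -/
noncomputable def it (w t u : V) : V := if u = w then t else nx u w

theorem dn_self {w t : V} : dn w t t = w := if_pos rfl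

theorem dn_ne {w t u : V} (h : u ≠ t) : dn w t u = par u := if_neg h

theorem it_self {w t : V} : it w t w = t := if_pos rfl

theorem it_ne {w t u : V} (h : u ≠ w) : it w t u = nx u w := if_neg h

theorem NF.dn_mem (hF : NF G) {w t u : V} (h1 : t ≤ u) (h2 : u ≤ w) :
    t ≤ dn w t u ∧ dn w t u ≤ w := by
  by_cases h : u = t
  · rw [h, dn_self]
    exact ⟨by rw [← h] at *; exact h2, le_rfl⟩
  · rw [dn_ne h]
    have h3 := lt_of_le_of_ne h1 (Ne.symm h)
    exact ⟨hF.le_par h3, (par_lt h3).le.trans h2⟩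

theorem NF.it_dn (hF : NF G) {w t u : V} (h1 : t ≤ u) (h2 : u ≤ w) (_htw : t < w) :
    it w t (dn w t u) = u := by
  by_cases h : u = t
  · rw [h, dn_self, it_self]
  · have h3 := lt_of_le_of_ne h1 (Ne.symm h)
    rw [dn_ne h, it_ne (((par_lt h3).trans_le h2).ne)]
    exact hF.nx_eq (par_covBy h3) h2

theorem it_mem {w t u : V} (h1 : t ≤ u) (h2 : u ≤ w) :
    t ≤ it w t u ∧ it w t u ≤ w := by
  by_cases h : u = w
  · rw [h, it_self]
    exact ⟨le_rfl, by rw [h] at h1; exact h1⟩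
  · rw [it_ne h]
    have h3 := nx_spec (lt_of_le_of_ne h2 h)
    exact ⟨h1.trans h3.1.1.le, h3.2⟩

theorem NF.dn_it (hF : NF G) {w t u : V} (h1 : t ≤ u) (h2 : u ≤ w) (_htw : t < w) :
    dn w t (it w t u) = u := by
  by_cases h : u = w
  · rw [h, it_self, dn_self]
  · have h3 := nx_spec (lt_of_le_of_ne h2 h)
    rw [it_ne h, dn_ne (h1.trans_lt h3.1.1).ne']
    exact hF.par_eq h3.1

theorem NF.dn_eq_iff (hF : NF G) {w t u x : V} (htw : t < w) :
    ((t ≤ u ∧ u ≤ w) ∧ x = dn w t u) ↔ ((t ≤ x ∧ x ≤ w) ∧ u = it w t x) := by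
  constructor
  · rintro ⟨⟨h1, h2⟩, rfl⟩
    exact ⟨hF.dn_mem h1 h2, (hF.it_dn h1 h2 htw).symm⟩
  · rintro ⟨⟨h1, h2⟩, rfl⟩
    exact ⟨it_mem h1 h2, (hF.dn_it h1 h2 htw).symm⟩

theorem NF.adj_dn (hF : NF G) {w t u : V} (hr : BE G w t) (h1 : t ≤ u) :
    G.Adj u (dn w t u) := by
  by_cases h : u = t
  · rw [h, dn_self]; exact hr.adj.symm
  · have h3 := lt_of_le_of_ne h1 (Ne.symm h)
    rw [dn_ne h]
    exact (hF.cov _ _ (par_covBy h3)).symm

theorem NF.adj_it (hF : NF G) {w t u : V} (hr : BE G w t) (h2 : u ≤ w) :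
    G.Adj u (it w t u) := by
  by_cases h : u = w
  · rw [h, it_self]; exact hr.adj
  · have h3 := nx_spec (lt_of_le_of_ne h2 h)
    rw [it_ne h]
    exact hF.cov _ _ h3.1

theorem NF.dn_ne_it (hF : NF G) {w t u : V} (hr : BE G w t) (h1 : t ≤ u) (h2 : u ≤ w) :
    dn w t u ≠ it w t u := by
  intro he
  by_cases h : u = t
  · rw [h, dn_self, it_ne hr.lt.ne] at he
    have := (nx_spec hr.lt).1
    rw [← he] at this
    exact hr.ncov this
  · have h3 := lt_of_le_of_ne h1 (Ne.symm h)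
    rw [dn_ne h] at he
    by_cases h' : u = w
    · rw [h', it_self] at he
      have := par_covBy h3
      rw [h', he] at this
      exact hr.ncov this
    · have h4 := nx_spec (lt_of_le_of_ne h2 h')
      rw [it_ne h'] at he
      have := (par_lt h3).trans h4.1.1
      rw [he] at this
      exact lt_irrefl _ this

/-- the lower neighbour on one cycle is not the upper neighbour on another one -/
theorem NF.dn_ne_it' (hF : NF G) {w t w' t' u : V} (hr : BE G w t) (hr' : BE G w' t') (h1 : t ≤ u)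
    (h2 : u ≤ w) (h1' : t' ≤ u) (h2' : u ≤ w') : dn w t u ≠ it w' t' u := by
  intro he
  by_cases h : u = t
  · rw [h, dn_self] at he
    by_cases h' : u = w'
    · rw [← h, h', it_self] at he
      have h3 := hr.lt
      rw [← h, h', he] at h3
      exact lt_asymm h3 hr'.lt
    · rw [← h] at he
      rw [it_ne h'] at he
      have := (nx_spec (lt_of_le_of_ne h2' h')).1
      rw [← he, h] at this
      exact hr.ncov this
  · have h3 := lt_of_le_of_ne h1 (Ne.symm h)
    rw [dn_ne h] at he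
    by_cases h' : u = w'
    · rw [h', it_self] at he
      have := par_covBy h3
      rw [h', he] at this
      exact hr'.ncov this
    · have h4 := nx_spec (lt_of_le_of_ne h2' h')
      rw [it_ne h'] at he
      have := (par_lt h3).trans h4.1.1
      rw [he] at this
      exact lt_irrefl _ this

end basics

section cyc

variable {V : Type} [Fintype V] [PartialOrder V] {G : SimpleGraph V}

/-- the fundamental cycle of the back edge `{w, t}` -/
noncomputable def cyc (w t u x : V) : ZMod 2 :=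
  (if (t ≤ u ∧ u ≤ w) ∧ x = dn w t u then 1 else 0) +
    (if (t ≤ u ∧ u ≤ w) ∧ x = it w t u then 1 else 0)

theorem NF.cyc_symm (hF : NF G) {w t : V} (htw : t < w) (u x : V) : cyc w t u x = cyc w t x u := by
  unfold cyc
  rw [add_comm]
  congr 1
  · exact if_congr (hF.dn_eq_iff htw).symm rfl rfl
  · exact if_congr (hF.dn_eq_iff htw) rfl rfl

theorem cyc_mem {w t u : V} (h : t ≤ u ∧ u ≤ w) (x : V) :
    cyc w t u x = (if x = dn w t u then 1 else 0) + (if x = it w t u then 1 else 0) := by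
  unfold cyc
  congr 1
  · exact if_congr (and_iff_right h) rfl rfl
  · exact if_congr (and_iff_right h) rfl rfl

theorem cyc_notMem {w t u : V} (h : ¬ (t ≤ u ∧ u ≤ w)) (x : V) : cyc w t u x = 0 := by
  unfold cyc
  rw [if_neg (fun h' => h h'.1), if_neg (fun h' => h h'.1), add_zero]

theorem cyc_even (w t u : V) : ∑ x, cyc w t u x = 0 := by
  by_cases h : t ≤ u ∧ u ≤ w
  · simp only [cyc_mem h, Finset.sum_add_distrib, Finset.sum_ite_eq', Finset.mem_univ, if_true]
    decide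
  · simp only [cyc_notMem h, Finset.sum_const_zero]

theorem NF.cyc_supp (hF : NF G) {w t : V} (hr : BE G w t) {u x : V} (h : cyc w t u x ≠ 0) :
    G.Adj u x := by
  by_cases hu : t ≤ u ∧ u ≤ w
  · rw [cyc_mem hu] at h
    by_cases h1 : x = dn w t u
    · rw [h1]; exact hF.adj_dn hr hu.1
    · by_cases h2 : x = it w t u
      · rw [h2]; exact hF.adj_it hr hu.2
      · rw [if_neg h1, if_neg h2, add_zero] at h
        exact absurd rfl h
  · exact absurd (cyc_notMem hu x) h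

/-- the number of the `z`-edges at `u` before `v` -/
noncomputable def oc (o : V → V → V → ZMod 2) (z : V → V → ZMod 2) (u v : V) : ZMod 2 :=
  ∑ w, z u w * o u w v

theorem oc_cyc (o : V → V → V → ZMod 2) {w t u : V} (h : t ≤ u ∧ u ≤ w) (v : V) :
    oc o (cyc w t) u v = o u (dn w t u) v + o u (it w t u) v := by
  unfold oc
  simp only [cyc_mem h, add_mul, ite_mul, one_mul, zero_mul, Finset.sum_add_distrib,
    Finset.sum_ite_eq', Finset.mem_univ, if_true]

theorem oc_cyc_notMem (o : V → V → V → ZMod 2) {w t u : V} (h : ¬ (t ≤ u ∧ u ≤ w)) (v : V) :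
    oc o (cyc w t) u v = 0 := by
  unfold oc
  exact Finset.sum_eq_zero (fun x _ => by rw [cyc_notMem h, zero_mul])

/-- the vertices of the fundamental cycle -/
noncomputable def Pth (w t : V) : Finset V := Finset.univ.filter fun u => t ≤ u ∧ u ≤ w

theorem mem_Pth {w t u : V} : u ∈ Pth w t ↔ t ≤ u ∧ u ≤ w := by simp [Pth]

theorem NF.reindex (hF : NF G) {w t : V} (htw : t < w) (φ : V → V → ZMod 2) :
    ∑ u ∈ Pth w t, φ u (dn w t u) = ∑ u ∈ Pth w t, φ (it w t u) u := by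
  refine Finset.sum_bij' (fun u _ => dn w t u) (fun u _ => it w t u) ?_ ?_ ?_ ?_ ?_
  · intro u hu
    rw [mem_Pth] at hu ⊢
    exact hF.dn_mem hu.1 hu.2
  · intro u hu
    rw [mem_Pth] at hu ⊢
    exact it_mem hu.1 hu.2
  · intro u hu
    rw [mem_Pth] at hu
    exact hF.it_dn hu.1 hu.2 htw
  · intro u hu
    rw [mem_Pth] at hu
    exact hF.dn_it hu.1 hu.2 htw
  · intro u hu
    rw [mem_Pth] at hu
    rw [hF.it_dn hu.1 hu.2 htw]

/-- the parity of the crossings of the even set `z` with an edge -/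
noncomputable def bt (o : V → V → V → ZMod 2) (z : V → V → ZMod 2) (u v : V) : ZMod 2 :=
  oc o z u v + oc o z v u + z u v

/-- the parity of the crossings of the even set `z` with the fundamental cycle -/
noncomputable def FF (o : V → V → V → ZMod 2) (z : V → V → ZMod 2) (w t : V) : ZMod 2 :=
  ∑ u ∈ Pth w t, bt o z u (dn w t u)

/-- potentials give even crossings -/
theorem NF.FF_of_pot (hF : NF G) {o : V → V → V → ZMod 2} {z : V → V → ZMod 2} {α : V → ZMod 2}
    (hα : ∀ u v, G.Adj u v → α u + α v = bt o z u v) {w t : V} (hr : BE G w t) :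
    FF o z w t = 0 := by
  unfold FF
  have h1 : ∑ u ∈ Pth w t, bt o z u (dn w t u) = ∑ u ∈ Pth w t, (α u + α (dn w t u)) := by
    apply Finset.sum_congr rfl
    intro u hu
    rw [mem_Pth] at hu
    exact (hα _ _ (hF.adj_dn hr hu.1)).symm
  rw [h1, Finset.sum_add_distrib, hF.reindex hr.lt (fun _ x => α x)]
  exact z2_add_self _

/-- the local contribution -/
noncomputable def Lv (o : V → V → V → ZMod 2) (w1 t1 w2 t2 u : V) : ZMod 2 :=
  o u (dn w1 t1 u) (dn w2 t2 u) + o u (it w1 t1 u) (dn w2 t2 u) + o u (dn w1 t1 u) (it w2 t2 u) +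
    o u (it w1 t1 u) (it w2 t2 u) + if dn w1 t1 u = dn w2 t2 u then 1 else 0

theorem NF.FF_cyc (hF : NF G) (o : V → V → V → ZMod 2) {w1 t1 w2 t2 : V} (h1 : BE G w1 t1)
    (h2 : BE G w2 t2) : FF o (cyc w1 t1) w2 t2 =
      ∑ u ∈ (Pth w2 t2).filter (fun u => t1 ≤ u ∧ u ≤ w1), Lv o w1 t1 w2 t2 u := by
  unfold FF bt
  simp only [Finset.sum_add_distrib]
  rw [hF.reindex h2.lt (fun u x => oc o (cyc w1 t1) x u), Finset.sum_filter]
  rw [← Finset.sum_add_distrib, ← Finset.sum_add_distrib]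
  apply Finset.sum_congr rfl
  intro u hu
  rw [mem_Pth] at hu
  by_cases h : t1 ≤ u ∧ u ≤ w1
  · rw [if_pos h, oc_cyc o h, oc_cyc o h, cyc_mem h,
      if_neg (hF.dn_ne_it' h2 h1 hu.1 hu.2 h.1 h.2), add_zero]
    unfold Lv
    rw [if_congr (eq_comm (a := dn w2 t2 u)) rfl rfl]
    ring
  · rw [if_neg h, oc_cyc_notMem o h, oc_cyc_notMem o h, cyc_notMem h, add_zero, add_zero]

/-- a family of tournaments -/
structure Trn (G : SimpleGraph V) (o : V → V → V → ZMod 2) : Prop where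
  self : ∀ u x, o u x x = 0
  anti : ∀ u x y, G.Adj u x → G.Adj u y → x ≠ y → o u x y + o u y x = 1

/-- no contribution in the interior of the common path -/
theorem NF.Lv_zero (hF : NF G) {o : V → V → V → ZMod 2} (ho : Trn G o) {w1 t1 w2 t2 u : V}
    (h1 : BE G w1 t1) (a : t1 ≤ u) (a' : u ≤ w1)
    (hd : dn w1 t1 u = dn w2 t2 u) (hi : it w1 t1 u = it w2 t2 u) : Lv o w1 t1 w2 t2 u = 0 := by
  unfold Lv
  rw [← hd, ← hi, if_pos rfl, ho.self, ho.self]
  have h3 := ho.anti u _ _ (hF.adj_dn h1 a) (hF.adj_it h1 a') (hF.dn_ne_it h1 a a')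
  have : ∀ x y : ZMod 2, x + y = 1 → 0 + y + x + 0 + 1 = 0 := by decide
  exact this _ _ h3

/-- below the top of the common path the upper neighbours agree -/
theorem NF.it_eq (hF : NF G) {w1 t1 w2 t2 u b : V} (hub : u < b) (hb1 : b ≤ w1) (hb2 : b ≤ w2) :
    it w1 t1 u = it w2 t2 u := by
  rw [it_ne (hub.trans_le hb1).ne, it_ne (hub.trans_le hb2).ne, hF.nx_mono hub hb1,
    hF.nx_mono hub hb2]

/-- above the bottom of the common path the lower neighbours agree -/
theorem dn_eq {w1 t1 w2 t2 u m : V} (hmu : m < u) (hm1 : t1 ≤ m) (hm2 : t2 ≤ m) :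
    dn w1 t1 u = dn w2 t2 u := by
  rw [dn_ne (hm1.trans_lt hmu).ne', dn_ne (hm2.trans_lt hmu).ne']

/-- the top of the common path -/
structure Top (w1 t1 w2 t2 b : V) : Prop where
  a1 : t1 ≤ b
  a2 : t2 ≤ b
  b1 : b ≤ w1
  b2 : b ≤ w2
  ne : it w1 t1 b ≠ it w2 t2 b

/-- the bottom of the common path -/
structure Bot (w1 t1 w2 t2 m : V) : Prop where
  a1 : t1 ≤ m
  a2 : t2 ≤ m
  b1 : m ≤ w1
  b2 : m ≤ w2
  eq : m = t1 ∨ m = t2

theorem NF.Top_max (hF : NF G) {w1 t1 w2 t2 b u : V} (h : Top w1 t1 w2 t2 b) (hu1 : u ≤ w1)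
    (hu2 : u ≤ w2) : u ≤ b := by
  rcases hF.chain u b w1 hu1 h.b1 with h1 | h1
  · exact h1
  · rcases h1.lt_or_eq with h2 | h2
    · exact absurd (hF.it_eq h2 hu1 hu2) h.ne
    · exact h2.symm.le

theorem NF.Bot_min (hF : NF G) {w1 t1 w2 t2 m u : V} (h : Bot w1 t1 w2 t2 m) (hu1 : t1 ≤ u)
    (hu2 : t2 ≤ u) : m ≤ u := by
  rcases h.eq with h1 | h1 <;> rw [h1] <;> assumption

theorem NF.FF_two (hF : NF G) {o : V → V → V → ZMod 2} (ho : Trn G o) {w1 t1 w2 t2 b m : V}
    (h1 : BE G w1 t1) (h2 : BE G w2 t2) (hb : Top w1 t1 w2 t2 b) (hm : Bot w1 t1 w2 t2 m)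
    (hne : m ≠ b) :
    FF o (cyc w1 t1) w2 t2 = Lv o w1 t1 w2 t2 m + Lv o w1 t1 w2 t2 b := by
  rw [hF.FF_cyc o h1 h2]
  have hbm : b ∈ (Pth w2 t2).filter (fun u => t1 ≤ u ∧ u ≤ w1) := by
    rw [Finset.mem_filter, mem_Pth]
    exact ⟨⟨hb.a2, hb.b2⟩, hb.a1, hb.b1⟩
  have hmm : m ∈ (Pth w2 t2).filter (fun u => t1 ≤ u ∧ u ≤ w1) := by
    rw [Finset.mem_filter, mem_Pth]
    exact ⟨⟨hm.a2, hm.b2⟩, hm.a1, hm.b1⟩
  rw [← Finset.sum_pair hne]
  symm
  apply Finset.sum_subset
  · intro x hx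
    rcases Finset.mem_insert.1 hx with rfl | hx
    · exact hmm
    · rw [Finset.mem_singleton] at hx
      rw [hx]; exact hbm
  · intro u hu hu'
    rw [Finset.mem_insert, Finset.mem_singleton, not_or] at hu'
    rw [Finset.mem_filter, mem_Pth] at hu
    have hub : u < b := lt_of_le_of_ne (hF.Top_max hb hu.2.2 hu.1.2) hu'.2
    have hmu : m < u := lt_of_le_of_ne (hF.Bot_min hm hu.2.1 hu.1.1) (Ne.symm hu'.1)
    exact hF.Lv_zero ho h1 hu.2.1 hu.2.2 (dn_eq hmu hm.a1 hm.a2) (hF.it_eq hub hb.b1 hb.b2)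

theorem NF.FF_one (hF : NF G) {o : V → V → V → ZMod 2} (ho : Trn G o) {w1 t1 w2 t2 b : V}
    (h1 : BE G w1 t1) (h2 : BE G w2 t2) (hb : Top w1 t1 w2 t2 b) (hm : Bot w1 t1 w2 t2 b) :
    FF o (cyc w1 t1) w2 t2 = Lv o w1 t1 w2 t2 b := by
  rw [hF.FF_cyc o h1 h2]
  have hbm : b ∈ (Pth w2 t2).filter (fun u => t1 ≤ u ∧ u ≤ w1) := by
    rw [Finset.mem_filter, mem_Pth]
    exact ⟨⟨hb.a2, hb.b2⟩, hb.a1, hb.b1⟩
  rw [← Finset.sum_singleton (f := Lv o w1 t1 w2 t2) (a := b)]
  symm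
  apply Finset.sum_subset
  · rw [Finset.singleton_subset_iff]; exact hbm
  · intro u hu hu'
    rw [Finset.mem_singleton] at hu'
    rw [Finset.mem_filter, mem_Pth] at hu
    have hub : u < b := lt_of_le_of_ne (hF.Top_max hb hu.2.2 hu.1.2) hu'
    have hmu : b < u := lt_of_le_of_ne (hF.Bot_min hm hu.2.1 hu.1.1) (Ne.symm hu')
    exact absurd hub hmu.asymm

/-- disjoint cycles, equal cycles, or a common path -/
theorem NF.cases (hF : NF G) {w1 t1 w2 t2 : V} (h1 : BE G w1 t1) (h2 : BE G w2 t2) :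
    (∀ u, t1 ≤ u → t2 ≤ u → u ≤ w1 → u ≤ w2 → False) ∨ (w1 = w2 ∧ t1 = t2) ∨
      ∃ b m, Top w1 t1 w2 t2 b ∧ Bot w1 t1 w2 t2 m := by
  by_cases h0 : ∀ u, t1 ≤ u → t2 ≤ u → u ≤ w1 → u ≤ w2 → False
  · exact Or.inl h0
  right
  push Not at h0
  obtain ⟨u, u1, u2, u3, u4, -⟩ := h0
  by_cases hs : w1 = w2 ∧ t1 = t2
  · exact Or.inl hs
  right
  -- the top
  obtain ⟨b, hb, hbm⟩ := Finset.exists_max_image
    (Finset.univ.filter fun x => u ≤ x ∧ x ≤ w1 ∧ x ≤ w2)
    (fun x => (Finset.univ.filter fun y => y ≤ x).card)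
    ⟨u, Finset.mem_filter.2 ⟨Finset.mem_univ _, le_rfl, u3, u4⟩⟩
  simp only [Finset.mem_filter, Finset.mem_univ, true_and] at hb hbm
  have hbmax : ∀ x, b < x → x ≤ w1 → x ≤ w2 → False := by
    intro x hbx hx1 hx2
    have h3 := hbm x ⟨hb.1.trans hbx.le, hx1, hx2⟩
    have h4 : (Finset.univ.filter fun y => y ≤ b).card <
        (Finset.univ.filter fun y => y ≤ x).card := by
      apply Finset.card_lt_card
      refine ⟨fun y hy => ?_, fun hs => ?_⟩
      · rw [Finset.mem_filter] at hy ⊢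
        exact ⟨hy.1, hy.2.trans hbx.le⟩
      · have := hs (Finset.mem_filter.2 ⟨Finset.mem_univ x, le_rfl⟩)
        rw [Finset.mem_filter] at this
        exact hbx.not_ge this.2
    omega
  have hne : it w1 t1 b ≠ it w2 t2 b := by
    intro he
    by_cases e1 : b = w1
    · by_cases e2 : b = w2
      · rw [e1, it_self, ← e1, e2, it_self] at he
        exact hs ⟨e1.symm.trans e2, he⟩
      · have h3 := nx_spec (lt_of_le_of_ne hb.2.2 e2)
        rw [it_ne e2, e1, it_self, ← e1] at he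
        have h4 := h3.1.1
        rw [← he] at h4
        exact h4.not_ge (u1.trans hb.1)
    · by_cases e2 : b = w2
      · have h3 := nx_spec (lt_of_le_of_ne hb.2.1 e1)
        rw [it_ne e1, e2, it_self, ← e2] at he
        have h4 := h3.1.1
        rw [he] at h4
        exact h4.not_ge (u2.trans hb.1)
      · have h3 := nx_spec (lt_of_le_of_ne hb.2.1 e1)
        have h4 := nx_spec (lt_of_le_of_ne hb.2.2 e2)
        rw [it_ne e1, it_ne e2] at he
        refine hbmax (nx b w1) h3.1.1 h3.2 ?_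
        rw [he]
        exact h4.2
  have hTop : Top w1 t1 w2 t2 b := ⟨u1.trans hb.1, u2.trans hb.1, hb.2.1, hb.2.2, hne⟩
  rcases hF.chain t1 t2 u u1 u2 with h3 | h3
  · exact ⟨b, t2, hTop, ⟨h3, le_rfl, u2.trans u3, h2.lt.le, Or.inr rfl⟩⟩
  · exact ⟨b, t1, hTop, ⟨le_rfl, h3, h1.lt.le, u1.trans u4, Or.inl rfl⟩⟩

theorem NF.FF_none (hF : NF G) (o : V → V → V → ZMod 2) {w1 t1 w2 t2 : V}
    (h1 : BE G w1 t1) (h2 : BE G w2 t2)
    (h0 : ∀ u, t1 ≤ u → t2 ≤ u → u ≤ w1 → u ≤ w2 → False) : FF o (cyc w1 t1) w2 t2 = 0 := by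
  rw [hF.FF_cyc o h1 h2]
  apply Finset.sum_eq_zero
  intro u hu
  rw [Finset.mem_filter, mem_Pth] at hu
  exact absurd (h0 u hu.2.1 hu.1.1 hu.2.2 hu.1.2) id

theorem NF.FF_same (hF : NF G) {o : V → V → V → ZMod 2} (ho : Trn G o) {w1 t1 : V}
    (h1 : BE G w1 t1) : FF o (cyc w1 t1) w1 t1 = 0 := by
  rw [hF.FF_cyc o h1 h1]
  apply Finset.sum_eq_zero
  intro u hu
  rw [Finset.mem_filter, mem_Pth] at hu
  exact hF.Lv_zero ho h1 hu.2.1 hu.2.2 rfl rfl

end cyc

end Pool.Agent.E8helper59.PT
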