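import Pool.Agent.E8helper59.PT.LRB

set_option autoImplicit false
set_option linter.unusedSectionVars false
set_option linter.unusedVariables false

/-!
# It is enough to look at the fundamental cycles
-/

namespace Pool.Agent.E8helper59.PT

open Classical

variable {V : Type} [Fintype V] [PartialOrder V] {G : SimpleGraph V}

theorem oc_lin (o : V → V → V → ZMod 2) {ι : Type} (s : Finset ι) (c : ι → ZMod 2)
    (Z : ι → V → V → ZMod 2) (u v : V) :
    oc o (fun a b => ∑ i ∈ s, c i * Z i a b) u v = ∑ i ∈ s, c i * oc o (Z i) u v := by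
  unfold oc
  simp only [Finset.sum_mul, Finset.mul_sum]
  rw [Finset.sum_comm]
  apply Finset.sum_congr rfl
  intro i _
  apply Finset.sum_congr rfl
  intro w _
  ring

theorem FF_lin (o : V → V → V → ZMod 2) {ι : Type} (s : Finset ι) (c : ι → ZMod 2)
    (Z : ι → V → V → ZMod 2) (w t : V) :
    FF o (fun a b => ∑ i ∈ s, c i * Z i a b) w t = ∑ i ∈ s, c i * FF o (Z i) w t := by
  unfold FF bt
  simp only [oc_lin, Finset.mul_sum]
  rw [Finset.sum_comm]
  apply Finset.sum_congr rfl
  intro u _
  rw [← Finset.sum_add_distrib, ← Finset.sum_add_distrib]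
  apply Finset.sum_congr rfl
  intro i _
  ring

theorem NF.cyc_back (hF : NF G) {w t w' t' : V} (h : BE G w t) (h' : BE G w' t') :
    cyc w' t' w t = if (w', t') = (w, t) then 1 else 0 := by
  by_cases he : (w', t') = (w, t)
  · rw [if_pos he]
    have e1 : w' = w := congrArg Prod.fst he
    have e2 : t' = t := congrArg Prod.snd he
    subst e1 e2
    rw [cyc_mem ⟨h.lt.le, le_rfl⟩, it_self, if_pos rfl, dn_ne h.lt.ne', if_neg, zero_add]
    intro hc
    apply h.ncov
    rw [hc]
    exact par_covBy h.lt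
  · rw [if_neg he]
    by_cases hm : t' ≤ w ∧ w ≤ w'
    · rw [cyc_mem hm, if_neg, if_neg, add_zero]
      · intro hc
        by_cases e : w = w'
        · apply he
          rw [e, it_self] at hc
          rw [e, hc]
        · rw [it_ne e] at hc
          have := (nx_spec (lt_of_le_of_ne hm.2 e)).1.1
          rw [← hc] at this
          exact lt_asymm this h.lt
      · intro hc
        by_cases e : w = t'
        · rw [e, dn_self] at hc
          have h1 := h.lt
          rw [hc, e] at h1
          exact lt_asymm h1 h'.lt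
        · rw [dn_ne e] at hc
          apply h.ncov
          rw [hc]
          exact par_covBy (lt_of_le_of_ne hm.1 (Ne.symm e))
    · exact cyc_notMem hm t

/-- the back edges -/
noncomputable def BEs (G : SimpleGraph V) : Finset (V × V) :=
  Finset.univ.filter fun r => BE G r.1 r.2

theorem mem_BEs {r : V × V} : r ∈ BEs G ↔ BE G r.1 r.2 := by simp [BEs]

/-- an even set is the sum of fundamental cycles -/
theorem NF.decomp (hF : NF G) {z : V → V → ZMod 2} (zs : ∀ u v, z u v = z v u)
    (za : ∀ u v, z u v ≠ 0 → G.Adj u v) (ze : ∀ u, ∑ v, z u v = 0) (u v : V) :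
    z u v = ∑ r ∈ BEs G, z r.1 r.2 * cyc r.1 r.2 u v := by
  obtain ⟨d, hd⟩ : ∃ d : V → V → ZMod 2, ∀ u v, d u v = z u v +
      ∑ r ∈ BEs G, z r.1 r.2 * cyc r.1 r.2 u v := ⟨_, fun _ _ => rfl⟩
  have ds : ∀ u v, d u v = d v u := by
    intro u v
    rw [hd, hd, zs]
    congr 1
    apply Finset.sum_congr rfl
    intro r hr
    rw [hF.cyc_symm (mem_BEs.1 hr).lt]
  have da : ∀ u v, d u v ≠ 0 → G.Adj u v := by
    intro u v huv
    by_contra hc
    apply huv
    rw [hd]
    have h1 : z u v = 0 := by
      by_contra h; exact hc (za u v h)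
    rw [h1, zero_add]
    apply Finset.sum_eq_zero
    intro r hr
    have h2 : cyc r.1 r.2 u v = 0 := by
      by_contra h; exact hc (hF.cyc_supp (mem_BEs.1 hr) h)
    rw [h2, mul_zero]
  have de : ∀ u, ∑ v, d u v = 0 := by
    intro u
    simp only [hd, Finset.sum_add_distrib, ze, zero_add]
    rw [Finset.sum_comm]
    apply Finset.sum_eq_zero
    intro r _
    rw [← Finset.mul_sum, cyc_even, mul_zero]
  have db : ∀ w t, BE G w t → d w t = 0 := by
    intro w t h
    rw [hd]
    have h1 : ∑ r ∈ BEs G, z r.1 r.2 * cyc r.1 r.2 w t = z w t := by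
      rw [Finset.sum_eq_single (w, t)]
      · rw [hF.cyc_back h h, if_pos rfl, mul_one]
      · intro r hr hne
        rw [hF.cyc_back h (mem_BEs.1 hr), if_neg hne, mul_zero]
      · intro hn
        exact absurd (mem_BEs.2 h) hn
    rw [h1]
    exact z2_add_self _
  -- `d` vanishes
  have d0 : ∀ y x, x ⋖ y → d y x = 0 := by
    by_contra hc
    push Not at hc
    obtain ⟨y0, x0, hxy0, hd0⟩ := hc
    obtain ⟨y, hy, hym⟩ := Finset.exists_max_image
      (Finset.univ.filter fun y => ∃ x, x ⋖ y ∧ d y x ≠ 0)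
      (fun x => (Finset.univ.filter fun y => y ≤ x).card)
      ⟨y0, Finset.mem_filter.2 ⟨Finset.mem_univ _, x0, hxy0, hd0⟩⟩
    simp only [Finset.mem_filter, Finset.mem_univ, true_and] at hy hym
    obtain ⟨x, hxy, hdx⟩ := hy
    have hmax : ∀ v, y < v → (∃ x, x ⋖ v ∧ d v x ≠ 0) → False := by
      intro v hyv hv
      have h3 := hym v hv
      have h4 : (Finset.univ.filter fun z => z ≤ y).card <
          (Finset.univ.filter fun z => z ≤ v).card := by
        apply Finset.card_lt_card
        refine ⟨fun z hz => ?_, fun hs => ?_⟩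
        · rw [Finset.mem_filter] at hz ⊢
          exact ⟨hz.1, hz.2.trans hyv.le⟩
        · have := hs (Finset.mem_filter.2 ⟨Finset.mem_univ v, le_rfl⟩)
          rw [Finset.mem_filter] at this
          exact hyv.not_ge this.2
      omega
    have h5 := de y
    rw [Finset.sum_eq_single x] at h5
    · exact hdx h5
    · intro v _ hvx
      by_contra hdv
      have hadj := da y v hdv
      rcases hF.comp y v hadj with h6 | h6
      · have h7 : y < v := lt_of_le_of_ne h6 hadj.ne
        by_cases hcov : y ⋖ v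
        · exact hmax v h7 ⟨y, hcov, by rw [ds]; exact hdv⟩
        · exact hdv (by rw [ds]; exact db v y ⟨h7, hadj.symm, hcov⟩)
      · have h7 : v < y := lt_of_le_of_ne h6 hadj.ne'
        by_cases hcov : v ⋖ y
        · exact hvx (hF.cov_unique hcov hxy)
        · exact hdv (db y v ⟨h7, hadj, hcov⟩)
    · intro h; exact absurd (Finset.mem_univ _) h
  have dz : d u v = 0 := by
    by_contra hdv
    have hadj := da u v hdv
    rcases hF.comp u v hadj with h6 | h6
    · have h7 : u < v := lt_of_le_of_ne h6 hadj.ne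
      by_cases hcov : u ⋖ v
      · exact hdv (by rw [ds]; exact d0 v u hcov)
      · exact hdv (by rw [ds]; exact db v u ⟨h7, hadj.symm, hcov⟩)
    · have h7 : v < u := lt_of_le_of_ne h6 hadj.ne'
      by_cases hcov : v ⋖ u
      · exact hdv (d0 u v hcov)
      · exact hdv (db u v ⟨h7, hadj, hcov⟩)
  rw [hd] at dz
  have : ∀ a b : ZMod 2, a + b = 0 → a = b := by decide
  exact this _ _ dz

/-- potentials from even crossings -/
theorem NF.exists_pot (hF : NF G) {o : V → V → V → ZMod 2} {z : V → V → ZMod 2}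
    (zs : ∀ u v, z u v = z v u) (h : ∀ w t, BE G w t → FF o z w t = 0) :
    ∃ α : V → ZMod 2, ∀ u v, G.Adj u v → α u + α v = bt o z u v := by
  have bs : ∀ u v, bt o z u v = bt o z v u := by
    intro u v
    unfold bt
    rw [zs u v]
    ring
  obtain ⟨A, hA⟩ : ∃ A : V → Finset V, ∀ x, A x = Finset.univ.filter fun y => y ≤ x ∧ ∃ p, p < y :=
    ⟨_, fun _ => rfl⟩
  have mA : ∀ x y, y ∈ A x ↔ y ≤ x ∧ ∃ p, p < y := fun x y => by
    rw [hA, Finset.mem_filter]; simp
  have main : ∀ u v, u < v → G.Adj u v →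
      ∑ y ∈ A u, bt o z y (par y) + ∑ y ∈ A v, bt o z y (par y) = bt o z u v := by
    intro u v huv hadj
    have hsub : A u ⊆ A v := by
      intro y hy
      rw [mA] at hy ⊢
      exact ⟨hy.1.trans huv.le, hy.2⟩
    have h1 : ∑ y ∈ A v \ A u, bt o z y (par y) + ∑ y ∈ A u, bt o z y (par y) =
        ∑ y ∈ A v, bt o z y (par y) := Finset.sum_sdiff hsub
    have h2 : ∑ y ∈ A u, bt o z y (par y) + ∑ y ∈ A v, bt o z y (par y) =
        ∑ y ∈ A v \ A u, bt o z y (par y) := by
      rw [← h1]
      have : ∀ a b : ZMod 2, a + (b + a) = b := by decide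
      exact this _ _
    rw [h2]
    have h3 : ∀ y, y ∈ A v \ A u ↔ u < y ∧ y ≤ v := by
      intro y
      rw [Finset.mem_sdiff, mA, mA]
      constructor
      · rintro ⟨⟨a1, a2⟩, a3⟩
        refine ⟨?_, a1⟩
        rcases hF.chain u y v huv.le a1 with h4 | h4
        · exact lt_of_le_of_ne h4 (fun he => a3 ⟨he.symm.le, a2⟩)
        · exact absurd ⟨h4, a2⟩ a3
      · rintro ⟨a1, a2⟩
        exact ⟨⟨a2, u, a1⟩, fun h4 => a1.not_ge h4.1⟩
    by_cases hcov : u ⋖ v
    · have h4 : A v \ A u = {v} := by
        ext y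
        rw [h3, Finset.mem_singleton]
        constructor
        · rintro ⟨a1, a2⟩
          by_contra hne
          exact hcov.2 a1 (lt_of_le_of_ne a2 hne)
        · rintro rfl
          exact ⟨huv, le_rfl⟩
      rw [h4, Finset.sum_singleton, hF.par_eq hcov, bs]
    · have h4 := h v u ⟨huv, hadj.symm, hcov⟩
      unfold FF at h4
      have h5 : Pth v u = insert u (A v \ A u) := by
        ext y
        rw [mem_Pth, Finset.mem_insert, h3]
        constructor
        · rintro ⟨a1, a2⟩
          by_cases he : y = u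
          · exact Or.inl he
          · exact Or.inr ⟨lt_of_le_of_ne a1 (Ne.symm he), a2⟩
        · rintro (rfl | ⟨a1, a2⟩)
          · exact ⟨le_rfl, huv.le⟩
          · exact ⟨a1.le, a2⟩
      rw [h5, Finset.sum_insert (by rw [h3]; exact fun h => lt_irrefl _ h.1), dn_self] at h4
      have h6 : ∑ y ∈ A v \ A u, bt o z y (dn v u y) = ∑ y ∈ A v \ A u, bt o z y (par y) := by
        apply Finset.sum_congr rfl
        intro y hy
        rw [dn_ne ((h3 y).1 hy).1.ne']
      rw [h6] at h4
      have : ∀ a b : ZMod 2, a + b = 0 → b = a := by decide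
      exact this _ _ h4
  refine ⟨fun x => ∑ y ∈ A x, bt o z y (par y), fun u v huv => ?_⟩
  rcases hF.comp u v huv with h1 | h1
  · exact main u v (lt_of_le_of_ne h1 huv.ne) huv
  · rw [add_comm, bs]
    exact main v u (lt_of_le_of_ne h1 huv.ne') huv.symm

/-- the tournaments given by positions -/
noncomputable def po (pos : V → V → ℝ) (u x y : V) : ZMod 2 := lt2 (pos u x) (pos u y)

theorem oc_po (pos : V → V → ℝ) (z : V → V → ZMod 2) (u v : V) :
    oc (po pos) z u v = cnt pos z u v := by
  unfold oc cnt po lt2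
  apply Finset.sum_congr rfl
  intro w _
  rw [mul_ite, mul_one, mul_zero]

theorem trn_po {pos : V → V → ℝ}
    (hinj : ∀ v u w, G.Adj v u → G.Adj v w → pos v u = pos v w → u = w) : Trn G (po pos) where
  self u x := lt2_irrefl _
  anti u x y hx hy hne := lt2_add (fun he => hne (hinj u x y hx hy he))

/-- **It is enough to look at pairs of fundamental cycles.** -/
theorem NF.PL_of_FF (hF : NF G) {pos : V → V → ℝ}
    (hinj : ∀ v u w, G.Adj v u → G.Adj v w → pos v u = pos v w → u = w)
    (h : ∀ w1 t1 w2 t2, BE G w1 t1 → BE G w2 t2 → FF (po pos) (cyc w1 t1) w2 t2 = 0) :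
    PL G pos := by
  refine ⟨hinj, fun z zs za ze => ?_⟩
  obtain ⟨α, hα⟩ := hF.exists_pot (o := po pos) zs (fun w t hr => by
    have h1 : z = fun a b => ∑ r ∈ BEs G, z r.1 r.2 * cyc r.1 r.2 a b := by
      funext a b
      exact hF.decomp zs za ze a b
    rw [h1, FF_lin]
    apply Finset.sum_eq_zero
    intro r hr'
    rw [h _ _ _ _ (mem_BEs.1 hr') hr, mul_zero])
  refine ⟨α, fun u v huv => ?_⟩
  rw [hα u v huv]
  unfold bt
  rw [oc_po, oc_po]

end Pool.Agent.E8helper59.PT
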