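import Pool.Agent.E8helper59.PT.LRP

set_option autoImplicit false
set_option linter.unusedSectionVars false
set_option linter.unusedVariables false

/-!
# From tournaments to planar rotations
-/

namespace Pool.Agent.E8helper59.PT

open Classical

variable {V : Type} [Fintype V] [PartialOrder V] {G : SimpleGraph V}

/-- the item at `b` is a neighbour which is not the parent -/
theorem NF.it_ncov (hF : NF G) {w t b : V} (h : BE G w t) (htb : t ≤ b) (hbw : b ≤ w) :
    ¬ it w t b ⋖ b ∧ ¬ (b < it w t b ∧ ¬ b ⋖ it w t b) := by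
  by_cases he : b = w
  · rw [he, it_self]
    exact ⟨h.ncov, fun h' => lt_asymm h'.1 h.lt⟩
  · have h1 := nx_spec (lt_of_le_of_ne hbw he)
    rw [it_ne he]
    exact ⟨fun h' => lt_asymm h'.1 h1.1.1, fun h' => h'.2 h1.1⟩

theorem NF.bi_it (hF : NF G) {w t b : V} (h : BE G w t) (htb : t ≤ b) (hbw : b ≤ w) :
    bi b (it w t b) = it w t b := hF.bi_item (hF.it_ncov h htb hbw).2

theorem NF.q_it (hF : NF G) {o : V → V → V → ZMod 2} {B : ℤ} {w1 t1 w2 t2 b : V}
    (h1 : BE G w1 t1) (h2 : BE G w2 t2) (hb : Top w1 t1 w2 t2 b) :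
    q G o B b (it w1 t1 b) (it w2 t2 b) =
      if rk G o b (it w1 t1 b) < rk G o b (it w2 t2 b) then 1 else 0 := by
  have e1 := hF.bi_it h1 hb.a1 hb.b1
  have e2 := hF.bi_it h2 hb.a2 hb.b2
  rw [q_blk (hF.it_ncov h1 hb.a1 hb.b1).1 (hF.it_ncov h2 hb.a2 hb.b2).1 (by
    rw [e1, e2]; exact hb.ne), e1, e2]

/-- the contribution at the top -/
theorem NF.Lv_top (hF : NF G) {o : V → V → V → ZMod 2} {B : ℤ}
    (hB : ∀ u x, (4 * ((Fintype.card V : ℤ) + 2)) * rk G o u (bi u x) + ofs G o u x < B)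
    {w1 t1 w2 t2 b : V} (h1 : BE G w1 t1) (h2 : BE G w2 t2) (hb : Top w1 t1 w2 t2 b)
    (ht1 : t1 < b) (ht2 : t2 < b) :
    Lv (q G o B) w1 t1 w2 t2 b =
      if rk G o b (it w1 t1 b) < rk G o b (it w2 t2 b) then 1 else 0 := by
  unfold Lv
  rw [hF.q_it h1 h2 hb, dn_ne ht1.ne', dn_ne ht2.ne', q_self,
    q_par hB (par_covBy ht1) (hF.it_ncov h1 hb.a1 hb.b1).1,
    q_par' hB (par_covBy ht1) (hF.it_ncov h2 hb.a2 hb.b2).1, if_pos rfl]
  have : ∀ x : ZMod 2, 0 + 1 + 0 + x + 1 = x := by decide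
  exact this _

theorem NF.two (hF : NF G) {o : V → V → V → ZMod 2} (ho : Trn G o)
    (hFF : ∀ w1 t1 w2 t2, BE G w1 t1 → BE G w2 t2 → FF o (cyc w1 t1) w2 t2 = 0) {B : ℤ}
    (hB : ∀ u x, (4 * ((Fintype.card V : ℤ) + 2)) * rk G o u (bi u x) + ofs G o u x < B)
    {w1 t1 w2 t2 b m : V} (h1 : BE G w1 t1) (h2 : BE G w2 t2) (hb : Top w1 t1 w2 t2 b)
    (hm : Bot w1 t1 w2 t2 m) (hmb : m < b) :
    Lv (q G o B) w1 t1 w2 t2 m + Lv (q G o B) w1 t1 w2 t2 b = 0 := by
  have ht1 : t1 < b := hm.a1.trans_lt hmb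
  have ht2 : t2 < b := hm.a2.trans_lt hmb
  rw [hF.Lv_top hB h1 h2 hb ht1 ht2]
  have hrne : rk G o b (it w1 t1 b) ≠ rk G o b (it w2 t2 b) := fun he => hb.ne (rk_inj he)
  have hb' : Top w2 t2 w1 t1 b := ⟨hb.a2, hb.a1, hb.b2, hb.b1, hb.ne.symm⟩
  have hc1 : nx m w1 = nx m b := hF.nx_mono hmb hb.b1
  have hc2 : nx m w2 = nx m b := hF.nx_mono hmb hb.b2
  have hi1 : it w1 t1 m = nx m b := by rw [it_ne (hmb.trans_le hb.b1).ne, hc1]
  have hi2 : it w2 t2 m = nx m b := by rw [it_ne (hmb.trans_le hb.b2).ne, hc2]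
  have hnc : m ⋖ nx m b := (nx_spec hmb).1
  have hnc' : ¬ nx m b ⋖ m := fun h => lt_asymm h.1 hnc.1
  by_cases e1 : m = t1
  · by_cases e2 : m = t2
    · -- same end
      subst e1
      subst e2
      have hne : w1 ≠ w2 := by
        rintro rfl
        exact hb.ne rfl
      have hLv : Lv (q G o B) w1 m w2 m m =
          q G o B m w1 w2 + q G o B m (nx m b) w2 + q G o B m w1 (nx m b) := by
        unfold Lv
        rw [dn_self, dn_self, hi1, hi2, q_self, if_neg hne, add_zero, add_zero]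
      rw [hLv]
      have q2 := hF.q_back' (o := o) (B := B) h2
      have q1 := hF.q_back (o := o) (B := B) h1
      rw [hc2] at q2
      rw [hc1] at q1
      rw [q1, q2]
      have hcc : nx m w1 = nx m w2 := hc1.trans hc2.symm
      rcases lt_or_gt_of_ne hrne with hr | hr
      · rw [if_pos hr]
        have hs := (hF.rk_sorted ho hFF h1 h2 hb ht1 ht2 hr).2.2 rfl
        have hlex : lex G o m w1 w2 := ⟨b, hb, ht1, hr⟩
        have htau := hF.tau_lt hlex
        by_cases l1 : lam G o w1 m = 1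
        · rw [if_pos l1]
          by_cases l2 : lam G o w2 m = 1
          · rw [if_pos l2, hF.q_same h1 h2 hcc ⟨fun _ => l2, fun _ => l1⟩,
              if_neg (not_lt.2 htau.le)]
            decide
          · rw [if_neg l2]
            have : q G o B m w1 w2 = 1 := by
              -- `w1 < c < w2`
              have a1 : ps G o B m w1 < ps G o B m (nx m b) := by
                by_contra hc
                unfold q at q1
                rw [if_neg hc, if_pos l1] at q1
                exact z2_one_ne_zero q1.symm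
              have a2 : ps G o B m (nx m b) < ps G o B m w2 := by
                by_contra hc
                unfold q at q2
                rw [if_neg hc, if_neg l2] at q2
                exact z2_one_ne_zero q2.symm
              exact if_pos (a1.trans a2)
            rw [this]
            decide
        · by_cases l2 : lam G o w2 m = 1
          · exact absurd ⟨z2_ne_one l1, l2⟩ hs
          · rw [if_neg l1, if_neg l2, hF.q_same h1 h2 hcc
              ⟨fun h => absurd h l1, fun h => absurd h l2⟩, if_neg (not_lt.2 htau.le)]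
            decide
      · rw [if_neg (not_lt.2 hr.le)]
        have hs := (hF.rk_sorted ho hFF h2 h1 hb' ht2 ht1 hr).2.2 rfl
        have hlex : lex G o m w2 w1 := ⟨b, hb', ht1, hr⟩
        have htau := hF.tau_lt hlex
        by_cases l1 : lam G o w1 m = 1
        · rw [if_pos l1]
          by_cases l2 : lam G o w2 m = 1
          · rw [if_pos l2, hF.q_same h1 h2 hcc ⟨fun _ => l2, fun _ => l1⟩, if_pos htau]
            decide
          · exact absurd ⟨z2_ne_one l2, l1⟩ hs
        · by_cases l2 : lam G o w2 m = 1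
          · rw [if_neg l1, if_pos l2]
            have : q G o B m w1 w2 = 0 := by
              have a1 : ¬ ps G o B m w1 < ps G o B m (nx m b) := by
                intro hc
                unfold q at q1
                rw [if_pos hc, if_neg l1] at q1
                exact z2_one_ne_zero q1
              have a2 : ¬ ps G o B m (nx m b) < ps G o B m w2 := by
                intro hc
                unfold q at q2
                rw [if_pos hc, if_pos l2] at q2
                exact z2_one_ne_zero q2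
              exact if_neg (not_lt.2 ((not_lt.1 a2).trans (not_lt.1 a1)))
            rw [this]
            decide
          · rw [if_neg l1, if_neg l2, hF.q_same h1 h2 hcc
              ⟨fun h => absurd h l1, fun h => absurd h l2⟩, if_pos htau]
            decide
    · -- `t2 < t1`
      subst e1
      have hlt : t2 < m := lt_of_le_of_ne hm.a2 (Ne.symm e2)
      have hw1 : ¬ w1 ⋖ m := fun h => lt_asymm h.1 h1.lt
      have hne : w1 ≠ par m := fun h => hw1 (h ▸ par_covBy hlt)
      have hLv : Lv (q G o B) w1 m w2 t2 m = q G o B m w1 (nx m b) := by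
        unfold Lv
        rw [dn_self, dn_ne hlt.ne', hi1, hi2, q_self, if_neg hne,
          q_par hB (par_covBy hlt) hw1, q_par hB (par_covBy hlt) hnc']
        have : ∀ x : ZMod 2, 1 + 1 + x + 0 + 0 = x := by decide
        exact this _
      rw [hLv]
      have q1 := hF.q_back (o := o) (B := B) h1
      rw [hc1] at q1
      rw [q1]
      rcases lt_or_gt_of_ne hrne with hr | hr
      · rw [if_pos hr, if_pos ((hF.rk_sorted ho hFF h1 h2 hb ht1 ht2 hr).1 hlt)]
        decide
      · rw [if_neg (not_lt.2 hr.le), if_neg, add_zero]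
        rw [(hF.rk_sorted ho hFF h2 h1 hb' ht2 ht1 hr).2.1 hlt]
        exact z2_one_ne_zero.symm
  · -- `t1 < t2`
    have e2 : m = t2 := hm.eq.resolve_left e1
    subst e2
    have hlt : t1 < m := lt_of_le_of_ne hm.a1 (Ne.symm e1)
    have hw2 : ¬ w2 ⋖ m := fun h => lt_asymm h.1 h2.lt
    have hne : par m ≠ w2 := fun h => hw2 (h ▸ par_covBy hlt)
    have hLv : Lv (q G o B) w1 t1 w2 m m = q G o B m (nx m b) w2 := by
      unfold Lv
      rw [dn_self, dn_ne hlt.ne', hi1, hi2, q_self, if_neg hne,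
        q_par' hB (par_covBy hlt) hw2, q_par' hB (par_covBy hlt) hnc']
      have : ∀ x : ZMod 2, 0 + x + 0 + 0 + 0 = x := by decide
      exact this _
    rw [hLv]
    have q2 := hF.q_back' (o := o) (B := B) h2
    rw [hc2] at q2
    rw [q2]
    rcases lt_or_gt_of_ne hrne with hr | hr
    · rw [if_pos hr, if_neg]
      · decide
      · rw [(hF.rk_sorted ho hFF h1 h2 hb ht1 ht2 hr).2.1 hlt]
        exact z2_one_ne_zero.symm
    · rw [if_neg (not_lt.2 hr.le), if_pos ((hF.rk_sorted ho hFF h2 h1 hb' ht2 ht1 hr).1 hlt),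
        add_zero]

theorem NF.one (hF : NF G) {o : V → V → V → ZMod 2} {B : ℤ}
    (hB : ∀ u x, (4 * ((Fintype.card V : ℤ) + 2)) * rk G o u (bi u x) + ofs G o u x < B)
    {w1 t1 w2 t2 b : V} (h1 : BE G w1 t1) (h2 : BE G w2 t2) (hb : Top w1 t1 w2 t2 b)
    (hm : Bot w1 t1 w2 t2 b) : Lv (q G o B) w1 t1 w2 t2 b = 0 := by
  have n1 := hF.it_ncov h1 hb.a1 hb.b1
  have n2 := hF.it_ncov h2 hb.a2 hb.b2
  have e1 := hF.bi_it h1 hb.a1 hb.b1
  have e2 := hF.bi_it h2 hb.a2 hb.b2
  have hq := hF.q_it (o := o) (B := B) h1 h2 hb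
  have fin4 : ∀ x : ZMod 2, x + x + x + x + 0 = 0 := by decide
  by_cases a1 : b = t1
  · have d1 : dn w1 t1 b = w1 := by rw [a1, dn_self]
    have i1 : it w1 t1 b = nx b w1 := it_ne (by rw [a1]; exact h1.lt.ne)
    have f1 : bi b w1 = it w1 t1 b := by rw [i1]; rw [a1]; exact bi_back h1
    have c1 : ¬ w1 ⋖ b := by rw [a1]; exact fun h => lt_asymm h.1 h1.lt
    by_cases a2 : b = t2
    · have d2 : dn w2 t2 b = w2 := by rw [a2, dn_self]
      have i2 : it w2 t2 b = nx b w2 := it_ne (by rw [a2]; exact h2.lt.ne)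
      have f2 : bi b w2 = it w2 t2 b := by rw [i2]; rw [a2]; exact bi_back h2
      have c2 : ¬ w2 ⋖ b := by rw [a2]; exact fun h => lt_asymm h.1 h2.lt
      have hne : w1 ≠ w2 := by
        rintro rfl
        exact hb.ne (f1.symm.trans f2)
      unfold Lv
      rw [d1, d2, if_neg hne, hq, q_blk c1 c2 (by rw [f1, f2]; exact hb.ne),
        q_blk n1.1 c2 (by rw [e1, f2]; exact hb.ne), q_blk c1 n2.1 (by rw [f1, e2]; exact hb.ne),
        f1, f2, e1, e2]
      exact fin4 _
    · have hlt : t2 < b := lt_of_le_of_ne hb.a2 (Ne.symm a2)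
      have hne : w1 ≠ par b := fun h => c1 (h ▸ par_covBy hlt)
      unfold Lv
      rw [d1, dn_ne a2, if_neg hne, hq, q_par hB (par_covBy hlt) c1,
        q_par hB (par_covBy hlt) n1.1, q_blk c1 n2.1 (by rw [f1, e2]; exact hb.ne), f1, e2]
      have : ∀ x : ZMod 2, 1 + 1 + x + x + 0 = 0 := by decide
      exact this _
  · have a2 : b = t2 := hm.eq.resolve_left a1
    have hlt : t1 < b := lt_of_le_of_ne hb.a1 (Ne.symm a1)
    have d2 : dn w2 t2 b = w2 := by rw [a2, dn_self]
    have i2 : it w2 t2 b = nx b w2 := it_ne (by rw [a2]; exact h2.lt.ne)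
    have f2 : bi b w2 = it w2 t2 b := by rw [i2]; rw [a2]; exact bi_back h2
    have c2 : ¬ w2 ⋖ b := by rw [a2]; exact fun h => lt_asymm h.1 h2.lt
    have hne : par b ≠ w2 := fun h => c2 (h ▸ par_covBy hlt)
    unfold Lv
    rw [d2, dn_ne a1, if_neg hne, hq, q_par' hB (par_covBy hlt) c2,
      q_par' hB (par_covBy hlt) n2.1, q_blk n1.1 c2 (by rw [e1, f2]; exact hb.ne), e1, f2]
    have : ∀ x : ZMod 2, 0 + x + 0 + x + 0 = 0 := by decide
    exact this _

/-- **Tournaments with even crossings give a planar rotation.** -/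
theorem NF.exists_PL (hF : NF G) {o : V → V → V → ZMod 2} (ho : Trn G o)
    (hFF : ∀ w1 t1 w2 t2, BE G w1 t1 → BE G w2 t2 → FF o (cyc w1 t1) w2 t2 = 0) :
    ∃ pos : V → V → ℝ, PL G pos := by
  obtain ⟨B, hB⟩ := exists_B G o
  have hinj : ∀ v u w, G.Adj v u → G.Adj v w → ((ps G o B v u : ℤ) : ℝ) = ((ps G o B v w : ℤ) : ℝ) →
      u = w := fun v u w hu hw he => hF.ps_inj hB hu hw (by exact_mod_cast he)
  refine ⟨fun u x => ((ps G o B u x : ℤ) : ℝ), hF.PL_of_FF hinj ?_⟩
  intro w1 t1 w2 t2 h1 h2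
  have htrn : Trn G (q G o B) := by
    rw [← po_eq]
    exact trn_po hinj
  rw [po_eq]
  rcases hF.cases h1 h2 with h | ⟨rfl, rfl⟩ | ⟨b, m, hb, hm⟩
  · exact hF.FF_none _ h1 h2 h
  · exact hF.FF_same htrn h1
  · have hmb : m ≤ b := hF.Top_max hb hm.b1 hm.b2
    rcases hmb.lt_or_eq with h3 | h3
    · rw [hF.FF_two htrn h1 h2 hb hm h3.ne]
      exact hF.two ho hFF hB h1 h2 hb hm h3
    · subst h3
      rw [hF.FF_one htrn h1 h2 hb hm]
      exact hF.one hB h1 h2 hb hm

end Pool.Agent.E8helper59.PT
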