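import Pool.Agent.E8helper59.PT.LRS

set_option autoImplicit false
set_option linter.unusedSectionVars false
set_option linter.unusedVariables false

/-!
# The planar rotation
-/

namespace Pool.Agent.E8helper59.PT

open Classical

variable {V : Type} [Fintype V] [PartialOrder V] {G : SimpleGraph V}

/-- the order of the back edges to `t` -/
def lex (G : SimpleGraph V) (o : V → V → V → ZMod 2) (t w1 w2 : V) : Prop :=
  ∃ b, Top w1 t w2 t b ∧ t < b ∧ rk G o b (it w1 t b) < rk G o b (it w2 t b)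

theorem lex_irrefl {o : V → V → V → ZMod 2} {t w : V} (h : lex G o t w w) : False := by
  obtain ⟨b, hb, -, -⟩ := h
  exact hb.ne rfl

theorem NF.lex_trans (hF : NF G) {o : V → V → V → ZMod 2} {t w1 w2 w3 : V} (h : lex G o t w1 w2)
    (h' : lex G o t w2 w3) : lex G o t w1 w3 := by
  obtain ⟨b, hb, htb, hr⟩ := h
  obtain ⟨b', hb', htb', hr'⟩ := h'
  have fin : ∀ {x y z : ℤ}, x < y → y < z → x < z := fun h h' => h.trans h'
  rcases hF.chain b b' w2 hb.b2 hb'.b1 with h1 | h1
  · rcases h1.lt_or_eq with h2 | h2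
    · have e : it w3 t b = it w2 t b := hF.it_eq h2 hb'.b2 hb'.b1
      exact ⟨b, ⟨hb.a1, hb.a1, hb.b1, h1.trans hb'.b2, by rw [e]; exact hb.ne⟩, htb,
        by rw [e]; exact hr⟩
    · subst h2
      have h3 := fin hr hr'
      exact ⟨b, ⟨hb.a1, hb.a1, hb.b1, hb'.b2, fun he => by rw [he] at h3; exact lt_irrefl _ h3⟩,
        htb, h3⟩
  · rcases h1.lt_or_eq with h2 | h2
    · have e : it w1 t b' = it w2 t b' := hF.it_eq h2 hb.b1 hb.b2
      exact ⟨b', ⟨hb'.a1, hb'.a1, h1.trans hb.b1, hb'.b2, by rw [e]; exact hb'.ne⟩, htb',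
        by rw [e]; exact hr'⟩
    · subst h2
      have h3 := fin hr hr'
      exact ⟨b', ⟨hb.a1, hb.a1, hb.b1, hb'.b2, fun he => by rw [he] at h3; exact lt_irrefl _ h3⟩,
        htb, h3⟩

/-- the number of smaller back edges -/
noncomputable def tau (G : SimpleGraph V) (o : V → V → V → ZMod 2) (w t : V) : ℕ :=
  (Finset.univ.filter fun w' => lex G o t w' w).card

theorem tau_le {o : V → V → V → ZMod 2} (w t : V) : tau G o w t ≤ Fintype.card V :=
  Finset.card_le_univ _

theorem NF.tau_lt (hF : NF G) {o : V → V → V → ZMod 2} {t w1 w2 : V} (h : lex G o t w1 w2) :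
    tau G o w1 t < tau G o w2 t := by
  apply Finset.card_lt_card
  refine ⟨fun z hz => ?_, fun hs => ?_⟩
  · rw [Finset.mem_filter] at hz ⊢
    exact ⟨hz.1, hF.lex_trans hz.2 h⟩
  · have := hs (Finset.mem_filter.2 ⟨Finset.mem_univ w1, h⟩)
    rw [Finset.mem_filter] at this
    exact lex_irrefl this.2

/-- the item of a neighbour -/
noncomputable def bi (u x : V) : V := if u < x then nx u x else x

/-- the offset of a neighbour -/
noncomputable def ofs (G : SimpleGraph V) (o : V → V → V → ZMod 2) (u x : V) : ℤ :=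
  if u < x ∧ ¬ u ⋖ x then
    (if lam G o x u = 1 then -((Fintype.card V : ℤ) + 2) - (tau G o x u : ℤ)
      else ((Fintype.card V : ℤ) + 2) - (tau G o x u : ℤ))
  else 0

/-- the position of a neighbour -/
noncomputable def ps (G : SimpleGraph V) (o : V → V → V → ZMod 2) (B : ℤ) (u x : V) : ℤ :=
  if x ⋖ u then B else (4 * ((Fintype.card V : ℤ) + 2)) * rk G o u (bi u x) + ofs G o u x

theorem ofs_bound {o : V → V → V → ZMod 2} (u x : V) :
    -(2 * (Fintype.card V : ℤ) + 2) ≤ ofs G o u x ∧ ofs G o u x ≤ (Fintype.card V : ℤ) + 2 := by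
  have h1 : (tau G o x u : ℤ) ≤ Fintype.card V := by exact_mod_cast tau_le (G := G) (o := o) x u
  have h2 : (0 : ℤ) ≤ tau G o x u := by positivity
  have h3 : (0 : ℤ) ≤ Fintype.card V := by positivity
  unfold ofs
  split_ifs <;> constructor <;> linarith

theorem exists_B (G : SimpleGraph V) (o : V → V → V → ZMod 2) : ∃ B : ℤ, ∀ u x,
    (4 * ((Fintype.card V : ℤ) + 2)) * rk G o u (bi u x) + ofs G o u x < B := by
  have hfin : (Set.range fun p : V × V =>
      (4 * ((Fintype.card V : ℤ) + 2)) * rk G o p.1 (bi p.1 p.2) + ofs G o p.1 p.2).Finite :=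
    Set.finite_range _
  obtain ⟨B, hB⟩ := hfin.bddAbove
  exact ⟨B + 1, fun u x => Int.lt_add_one_iff.2 (hB ⟨(u, x), rfl⟩)⟩

theorem ps_blk {o : V → V → V → ZMod 2} {B : ℤ} {u x y : V} (hx : ¬ x ⋖ u) (hy : ¬ y ⋖ u)
    (h : rk G o u (bi u x) < rk G o u (bi u y)) : ps G o B u x < ps G o B u y := by
  unfold ps
  rw [if_neg hx, if_neg hy]
  have h1 := ofs_bound (G := G) (o := o) u x
  have h2 := ofs_bound (G := G) (o := o) u y
  have h3 : (0 : ℤ) ≤ Fintype.card V := by positivity
  have h4 : (4 * ((Fintype.card V : ℤ) + 2)) * (rk G o u (bi u x) + 1) ≤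
      (4 * ((Fintype.card V : ℤ) + 2)) * rk G o u (bi u y) :=
    mul_le_mul_of_nonneg_left (Int.add_one_le_iff.2 h) (by linarith)
  linarith

theorem NF.bi_item (hF : NF G) {u x : V} (h : ¬ (u < x ∧ ¬ u ⋖ x)) : bi u x = x := by
  unfold bi
  by_cases h1 : u < x
  · rw [if_pos h1]
    have h2 : u ⋖ x := by
      by_contra hc; exact h ⟨h1, hc⟩
    exact hF.nx_eq h2 le_rfl
  · rw [if_neg h1]

theorem ofs_item {o : V → V → V → ZMod 2} {u x : V} (h : ¬ (u < x ∧ ¬ u ⋖ x)) :
    ofs G o u x = 0 := if_neg h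

theorem bi_back {w t : V} (h : BE G w t) : bi t w = nx t w := if_pos h.lt

theorem ofs_L {o : V → V → V → ZMod 2} {w t : V} (h : BE G w t) (hl : lam G o w t = 1) :
    ofs G o t w = -((Fintype.card V : ℤ) + 2) - (tau G o w t : ℤ) := by
  unfold ofs
  rw [if_pos ⟨h.lt, h.ncov⟩, if_pos hl]

theorem ofs_R {o : V → V → V → ZMod 2} {w t : V} (h : BE G w t) (hl : lam G o w t ≠ 1) :
    ofs G o t w = ((Fintype.card V : ℤ) + 2) - (tau G o w t : ℤ) := by
  unfold ofs
  rw [if_pos ⟨h.lt, h.ncov⟩, if_neg hl]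

theorem ofs_L_neg {o : V → V → V → ZMod 2} {w t : V} (h : BE G w t) (hl : lam G o w t = 1) :
    ofs G o t w < 0 := by
  rw [ofs_L h hl]
  have h2 : (0 : ℤ) ≤ tau G o w t := by positivity
  have h3 : (0 : ℤ) ≤ Fintype.card V := by positivity
  linarith

theorem ofs_R_pos {o : V → V → V → ZMod 2} {w t : V} (h : BE G w t) (hl : lam G o w t ≠ 1) :
    0 < ofs G o t w := by
  rw [ofs_R h hl]
  have h1 : (tau G o w t : ℤ) ≤ Fintype.card V := by exact_mod_cast tau_le (G := G) (o := o) w t
  linarith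

/-- two back edges to `t` from the same child -/
theorem NF.lex_or (hF : NF G) {o : V → V → V → ZMod 2} {t w1 w2 : V} (h1 : BE G w1 t)
    (h2 : BE G w2 t) (hne : w1 ≠ w2) (hc : nx t w1 = nx t w2) :
    lex G o t w1 w2 ∨ lex G o t w2 w1 := by
  have e1 := nx_spec h1.lt
  have e2 := nx_spec h2.lt
  rcases hF.cases h1 h2 with h | h | ⟨b, m, hb, -⟩
  · exact absurd (h t le_rfl le_rfl h1.lt.le h2.lt.le) id
  · exact absurd h.1 hne
  · have h3 : nx t w1 ≤ b := hF.Top_max hb e1.2 (by rw [hc]; exact e2.2)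
    have h4 : t < b := e1.1.1.trans_le h3
    have h5 : rk G o b (it w1 t b) ≠ rk G o b (it w2 t b) := fun he => hb.ne (rk_inj he)
    rcases lt_or_gt_of_ne h5 with h6 | h6
    · exact Or.inl ⟨b, hb, h4, h6⟩
    · exact Or.inr ⟨b, ⟨hb.a1, hb.a1, hb.b2, hb.b1, hb.ne.symm⟩, h4, h6⟩

theorem NF.back_of_adj (hF : NF G) {u x : V} (h : G.Adj u x) (h' : u < x ∧ ¬ u ⋖ x) :
    BE G x u := ⟨h'.1, h.symm, h'.2⟩

theorem NF.ps_inj (hF : NF G) {o : V → V → V → ZMod 2} {B : ℤ}
    (hB : ∀ u x, (4 * ((Fintype.card V : ℤ) + 2)) * rk G o u (bi u x) + ofs G o u x < B)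
    {v u w : V} (hu : G.Adj v u) (hw : G.Adj v w) (he : ps G o B v u = ps G o B v w) : u = w := by
  by_cases h1 : u ⋖ v
  · by_cases h2 : w ⋖ v
    · exact hF.cov_unique h1 h2
    · unfold ps at he
      rw [if_pos h1, if_neg h2] at he
      exact absurd (hB v w) (by rw [he]; exact lt_irrefl _)
  · by_cases h2 : w ⋖ v
    · unfold ps at he
      rw [if_neg h1, if_pos h2] at he
      exact absurd (hB v u) (by rw [he]; exact lt_irrefl _)
    · have h3 : rk G o v (bi v u) = rk G o v (bi v w) := by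
        by_contra hne
        rcases lt_or_gt_of_ne hne with h4 | h4
        · exact absurd (ps_blk (B := B) h1 h2 h4) (by rw [he]; exact lt_irrefl _)
        · exact absurd (ps_blk (B := B) h2 h1 h4) (by rw [he]; exact lt_irrefl _)
      have h4 := rk_inj h3
      unfold ps at he
      rw [if_neg h1, if_neg h2, h3] at he
      have h5 : ofs G o v u = ofs G o v w := by linarith
      by_cases b1 : v < u ∧ ¬ v ⋖ u
      · have c1 := hF.back_of_adj hu b1
        by_cases b2 : v < w ∧ ¬ v ⋖ w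
        · have c2 := hF.back_of_adj hw b2
          rw [bi_back c1, bi_back c2] at h4
          by_contra hne
          have h6 := hF.lex_or (o := o) c1 c2 hne h4
          have h7 : tau G o u v ≠ tau G o w v := by
            rcases h6 with h6 | h6
            · exact (hF.tau_lt h6).ne
            · exact (hF.tau_lt h6).ne'
          apply h7
          by_cases l1 : lam G o u v = 1
          · by_cases l2 : lam G o w v = 1
            · rw [ofs_L c1 l1, ofs_L c2 l2] at h5
              have : (tau G o u v : ℤ) = tau G o w v := by linarith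
              exact_mod_cast this
            · have := ofs_L_neg c1 l1
              have := ofs_R_pos c2 l2
              linarith
          · by_cases l2 : lam G o w v = 1
            · have := ofs_R_pos c1 l1
              have := ofs_L_neg c2 l2
              linarith
            · rw [ofs_R c1 l1, ofs_R c2 l2] at h5
              have : (tau G o u v : ℤ) = tau G o w v := by linarith
              exact_mod_cast this
        · rw [ofs_item b2] at h5
          by_cases l1 : lam G o u v = 1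
          · have := ofs_L_neg c1 l1
            linarith
          · have := ofs_R_pos c1 l1
            linarith
      · rw [ofs_item b1] at h5
        by_cases b2 : v < w ∧ ¬ v ⋖ w
        · have c2 := hF.back_of_adj hw b2
          by_cases l1 : lam G o w v = 1
          · have := ofs_L_neg c2 l1
            linarith
          · have := ofs_R_pos c2 l1
            linarith
        · rw [hF.bi_item b1, hF.bi_item b2] at h4
          exact h4

/-- the comparisons -/
noncomputable def q (G : SimpleGraph V) (o : V → V → V → ZMod 2) (B : ℤ) (u x y : V) : ZMod 2 :=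
  if ps G o B u x < ps G o B u y then 1 else 0

theorem po_eq (o : V → V → V → ZMod 2) (B : ℤ) :
    po (fun u x => ((ps G o B u x : ℤ) : ℝ)) = q G o B := by
  funext u x y
  unfold po lt2 q
  exact if_congr Int.cast_lt rfl rfl

theorem q_self (o : V → V → V → ZMod 2) (B : ℤ) (u x : V) : q G o B u x x = 0 :=
  if_neg (lt_irrefl _)

theorem q_par {o : V → V → V → ZMod 2} {B : ℤ}
    (hB : ∀ u x, (4 * ((Fintype.card V : ℤ) + 2)) * rk G o u (bi u x) + ofs G o u x < B)
    {u x p : V} (hp : p ⋖ u) (hx : ¬ x ⋖ u) : q G o B u x p = 1 := by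
  unfold q
  rw [if_pos]
  unfold ps
  rw [if_neg hx, if_pos hp]
  exact hB u x

theorem q_par' {o : V → V → V → ZMod 2} {B : ℤ}
    (hB : ∀ u x, (4 * ((Fintype.card V : ℤ) + 2)) * rk G o u (bi u x) + ofs G o u x < B)
    {u x p : V} (hp : p ⋖ u) (hx : ¬ x ⋖ u) : q G o B u p x = 0 := by
  unfold q
  rw [if_neg]
  unfold ps
  rw [if_neg hx, if_pos hp]
  exact not_lt.2 (hB u x).le

theorem q_blk {o : V → V → V → ZMod 2} {B : ℤ} {u x y : V} (hx : ¬ x ⋖ u) (hy : ¬ y ⋖ u)
    (h : bi u x ≠ bi u y) : q G o B u x y =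
      if rk G o u (bi u x) < rk G o u (bi u y) then 1 else 0 := by
  unfold q
  have h1 : rk G o u (bi u x) ≠ rk G o u (bi u y) := fun he => h (rk_inj he)
  rcases lt_or_gt_of_ne h1 with h2 | h2
  · rw [if_pos h2, if_pos (ps_blk hx hy h2)]
  · rw [if_neg (not_lt.2 h2.le), if_neg (not_lt.2 (ps_blk hy hx h2).le)]

/-- a back edge and its child -/
theorem NF.q_back (hF : NF G) {o : V → V → V → ZMod 2} {B : ℤ} {w t : V} (h : BE G w t) :
    q G o B t w (nx t w) = if lam G o w t = 1 then 1 else 0 := by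
  have h1 : ¬ w ⋖ t := fun h' => lt_asymm h'.1 h.lt
  have h2 := nx_spec h.lt
  have h3 : ¬ nx t w ⋖ t := fun h' => lt_asymm h'.1 h2.1.1
  have h4 : ¬ (t < nx t w ∧ ¬ t ⋖ nx t w) := fun h' => h'.2 h2.1
  unfold q ps
  rw [if_neg h1, if_neg h3, hF.bi_item h4, ofs_item h4, bi_back h]
  apply if_congr _ rfl rfl
  constructor
  · intro h5
    by_contra hc
    have := ofs_R_pos h hc
    linarith
  · intro h5
    have := ofs_L_neg h h5
    linarith

theorem NF.q_back' (hF : NF G) {o : V → V → V → ZMod 2} {B : ℤ} {w t : V} (h : BE G w t) :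
    q G o B t (nx t w) w = if lam G o w t = 1 then 0 else 1 := by
  have h1 : ¬ w ⋖ t := fun h' => lt_asymm h'.1 h.lt
  have h2 := nx_spec h.lt
  have h3 : ¬ nx t w ⋖ t := fun h' => lt_asymm h'.1 h2.1.1
  have h4 : ¬ (t < nx t w ∧ ¬ t ⋖ nx t w) := fun h' => h'.2 h2.1
  unfold q ps
  rw [if_neg h1, if_neg h3, hF.bi_item h4, ofs_item h4, bi_back h]
  by_cases hl : lam G o w t = 1
  · rw [if_pos hl, if_neg]
    have := ofs_L_neg h hl
    linarith
  · rw [if_neg hl, if_pos]
    have := ofs_R_pos h hl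
    linarith

/-- two back edges to `t` from the same child on the same side -/
theorem NF.q_same (hF : NF G) {o : V → V → V → ZMod 2} {B : ℤ} {w1 w2 t : V} (h1 : BE G w1 t)
    (h2 : BE G w2 t) (hc : nx t w1 = nx t w2) (hl : lam G o w1 t = 1 ↔ lam G o w2 t = 1) :
    q G o B t w1 w2 = if tau G o w2 t < tau G o w1 t then 1 else 0 := by
  have e1 : ¬ w1 ⋖ t := fun h' => lt_asymm h'.1 h1.lt
  have e2 : ¬ w2 ⋖ t := fun h' => lt_asymm h'.1 h2.lt
  unfold q ps
  rw [if_neg e1, if_neg e2, bi_back h1, bi_back h2, hc]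
  apply if_congr _ rfl rfl
  have key : (ofs G o t w1 < ofs G o t w2) ↔ (tau G o w2 t : ℤ) < tau G o w1 t := by
    by_cases l1 : lam G o w1 t = 1
    · rw [ofs_L h1 l1, ofs_L h2 (hl.1 l1)]
      constructor <;> intro h <;> linarith
    · rw [ofs_R h1 l1, ofs_R h2 (fun h => l1 (hl.2 h))]
      constructor <;> intro h <;> linarith
  rw [← Int.ofNat_lt, ← key]
  constructor <;> intro h <;> linarith

end Pool.Agent.E8helper59.PT
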