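import Pool.Agent.E8helper59.PT.LRC
import Pool.Agent.E8helper59.PT.Key

set_option autoImplicit false
set_option linter.unusedSectionVars false
set_option linter.unusedVariables false

/-!
# Left and right
-/

namespace Pool.Agent.E8helper59.PT

open Classical

variable {V : Type} [Fintype V] [PartialOrder V] {G : SimpleGraph V}

/-- the side of a back edge -/
noncomputable def ss (o : V → V → V → ZMod 2) (w t : V) : ZMod 2 :=
  o t w (par t) + o t (nx t w) (par t) + o t w (nx t w)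

/-- the order of two items at `b` relative to the parent -/
noncomputable def oh (o : V → V → V → ZMod 2) (b x y : V) : ZMod 2 :=
  o b x (par b) + o b (par b) y + o b x y + 1

theorem NF.star (hF : NF G) {o : V → V → V → ZMod 2} (ho : Trn G o)
    (hFF : ∀ w1 t1 w2 t2, BE G w1 t1 → BE G w2 t2 → FF o (cyc w1 t1) w2 t2 = 0)
    {w1 t1 w2 t2 b : V} (h1 : BE G w1 t1) (h2 : BE G w2 t2) (hb : Top w1 t1 w2 t2 b)
    (hlt : t2 < t1) (htb : t1 < b) : ss o w1 t1 = oh o b (it w1 t1 b) (it w2 t2 b) := by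
  have hm : Bot w1 t1 w2 t2 t1 := ⟨le_rfl, hlt.le, h1.lt.le, hb.a1.trans hb.b2, Or.inl rfl⟩
  have e := hF.FF_two ho h1 h2 hb hm htb.ne
  rw [hFF _ _ _ _ h1 h2] at e
  have e1 : it w2 t2 t1 = nx t1 w1 := by
    rw [it_ne (htb.trans_le hb.b2).ne, hF.nx_mono htb hb.b2, hF.nx_mono htb hb.b1]
  have hne1 : w1 ≠ par t1 := ((par_lt hlt).trans h1.lt).ne'
  have e2 : Lv o w1 t1 w2 t2 t1 = ss o w1 t1 := by
    unfold Lv ss
    rw [dn_self, dn_ne hlt.ne', it_ne h1.lt.ne, e1, if_neg hne1, ho.self]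
    ring
  have e3 : Lv o w1 t1 w2 t2 b = oh o b (it w1 t1 b) (it w2 t2 b) := by
    unfold Lv oh
    rw [dn_ne htb.ne', dn_ne (hlt.trans htb).ne', if_pos rfl, ho.self, zero_add]
  rw [e2, e3] at e
  have : ∀ a b : ZMod 2, 0 = a + b → a = b := by decide
  exact this _ _ e

theorem NF.oh_anti (hF : NF G) {o : V → V → V → ZMod 2} (ho : Trn G o) {p b x y : V} (hpb : p < b)
    (hx : G.Adj b x) (hy : G.Adj b y) (hxp : x ≠ par b) (hyp : y ≠ par b) (hxy : x ≠ y) :
    oh o b x y + oh o b y x = 1 := by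
  have hp : G.Adj b (par b) := (hF.cov _ _ (par_covBy hpb)).symm
  have e1 := ho.anti b x (par b) hx hp hxp
  have e2 := ho.anti b y (par b) hy hp hyp
  have e3 := ho.anti b x y hx hy hxy
  unfold oh
  have : ∀ a1 a2 b1 b2 c1 c2 : ZMod 2, a1 + a2 = 1 → b1 + b2 = 1 → c1 + c2 = 1 →
      a1 + b2 + c1 + 1 + (b1 + a2 + c2 + 1) = 1 := by decide
  exact this _ _ _ _ _ _ e1 e2 e3

/-- the height -/
noncomputable def hgt (x : V) : ℕ := (Finset.univ.filter fun z => z < x).card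

theorem hgt_lt {x y : V} (h : x < y) : hgt x < hgt y := by
  apply Finset.card_lt_card
  refine ⟨fun z hz => ?_, fun hs => ?_⟩
  · rw [Finset.mem_filter] at hz ⊢
    exact ⟨hz.1, hz.2.trans h⟩
  · have := hs (Finset.mem_filter.2 ⟨Finset.mem_univ x, h⟩)
    rw [Finset.mem_filter] at this
    exact lt_irrefl _ this.2

theorem hgt_bound (x : V) : hgt x < Fintype.card V + 1 := by
  unfold hgt
  exact Nat.lt_succ_of_le (Finset.card_le_univ _)

theorem NF.lt_of_hgt (hF : NF G) {x y b : V} (hx : x < b) (hy : y < b) (h : hgt x < hgt y) :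
    x < y := by
  rcases hF.chain x y b hx.le hy.le with h1 | h1
  · exact lt_of_le_of_ne h1 (fun he => by rw [he] at h; exact lt_irrefl _ h)
  · exfalso
    rcases h1.lt_or_eq with h2 | h2
    · exact absurd (hgt_lt h2) (by omega)
    · rw [h2] at h; exact lt_irrefl _ h

theorem NF.eq_of_hgt (hF : NF G) {x y b : V} (hx : x < b) (hy : y < b) (h : hgt x = hgt y) :
    x = y := by
  rcases hF.chain x y b hx.le hy.le with h1 | h1
  · rcases h1.lt_or_eq with h2 | h2
    · exact absurd (hgt_lt h2) (by omega)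
    · exact h2
  · rcases h1.lt_or_eq with h2 | h2
    · exact absurd (hgt_lt h2) (by omega)
    · exact h2.symm

/-- the returning edges of an item -/
noncomputable def Rt (G : SimpleGraph V) (b y : V) : Finset (V × V) :=
  Finset.univ.filter fun r => BE G r.1 r.2 ∧ r.2 < b ∧ b ≤ r.1 ∧ it r.1 r.2 b = y

theorem mem_Rt {b y : V} {r : V × V} :
    r ∈ Rt G b y ↔ BE G r.1 r.2 ∧ r.2 < b ∧ b ≤ r.1 ∧ it r.1 r.2 b = y := by simp [Rt]

/-- a back edge without constraints -/
def Free (G : SimpleGraph V) (w t : V) : Prop :=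
  ∀ w2 t2 b, BE G w2 t2 → Top w t w2 t2 b → t < b → ¬ t2 < t

/-- the colours after recolouring -/
noncomputable def lam (G : SimpleGraph V) (o : V → V → V → ZMod 2) (w t : V) : ZMod 2 :=
  if Free G w t then 0 else ss o w t

theorem NF.lam_star (hF : NF G) {o : V → V → V → ZMod 2} (ho : Trn G o)
    (hFF : ∀ w1 t1 w2 t2, BE G w1 t1 → BE G w2 t2 → FF o (cyc w1 t1) w2 t2 = 0)
    {w1 t1 w2 t2 b : V} (h1 : BE G w1 t1) (h2 : BE G w2 t2) (hb : Top w1 t1 w2 t2 b)
    (hlt : t2 < t1) (htb : t1 < b) : lam G o w1 t1 = oh o b (it w1 t1 b) (it w2 t2 b) := by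
  unfold lam
  rw [if_neg (fun h => h w2 t2 b h2 hb htb hlt)]
  exact hF.star ho hFF h1 h2 hb hlt htb

theorem NF.fork (hF : NF G) {o : V → V → V → ZMod 2} (ho : Trn G o)
    (hFF : ∀ w1 t1 w2 t2, BE G w1 t1 → BE G w2 t2 → FF o (cyc w1 t1) w2 t2 = 0) (b : V) :
    Fork (Rt G b) (fun r => hgt r.2) (fun r => lam G o r.1 r.2) (oh o b) where
  anti y1 y2 hne h1 h2 := by
    obtain ⟨r1, hr1⟩ := h1
    obtain ⟨r2, hr2⟩ := h2
    rw [mem_Rt] at hr1 hr2
    have e1 := hF.adj_it hr1.1 hr1.2.2.1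
    have e2 := hF.adj_it hr2.1 hr2.2.2.1
    have e3 := hF.dn_ne_it hr1.1 hr1.2.1.le hr1.2.2.1
    have e4 := hF.dn_ne_it hr2.1 hr2.2.1.le hr2.2.2.1
    rw [hr1.2.2.2] at e1 e3
    rw [hr2.2.2.2] at e2 e4
    rw [dn_ne hr1.2.1.ne'] at e3
    rw [dn_ne hr2.2.1.ne'] at e4
    exact hF.oh_anti ho hr1.2.1 e1 e2 e3.symm e4.symm hne
  col y1 y2 hne r1 h1 r2 h2 hlt := by
    rw [mem_Rt] at h1 h2
    have h3 := hF.lt_of_hgt h2.2.1 h1.2.1 hlt
    have hT : Top r1.1 r1.2 r2.1 r2.2 b :=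
      ⟨h1.2.1.le, h2.2.1.le, h1.2.2.1, h2.2.2.1, by rw [h1.2.2.2, h2.2.2.2]; exact hne⟩
    have := hF.lam_star ho hFF h1.1 h2.1 hT h3 h1.2.1
    rw [h1.2.2.2, h2.2.2.2] at this
    exact this
  fre y r hr hc hlow := by
    rw [mem_Rt] at hr
    have hnf : ¬ Free G r.1 r.2 := by
      intro hf
      have : lam G o r.1 r.2 = 0 := if_pos hf
      exact z2_one_ne_zero (hc.symm.trans this)
    unfold Free at hnf
    push Not at hnf
    obtain ⟨w3, t3, b', hBE, hT, htb', ht3⟩ := hnf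
    rcases hF.chain b b' r.1 hr.2.2.1 hT.b1 with h1 | h1
    · rcases h1.lt_or_eq with h2 | h2
      · -- `b < b'`
        exfalso
        have e1 : it w3 t3 b = y := by
          rw [← hr.2.2.2]
          exact (hF.it_eq h2 hT.b2 hT.b1)
        have e2 := hlow (w3, t3) (mem_Rt.2 ⟨hBE, ht3.trans hr.2.1, h2.le.trans hT.b2, e1⟩)
        have e3 := hgt_lt ht3
        simp only at e2
        omega
      · left
        subst h2
        refine ⟨it w3 t3 b, ?_, (w3, t3), mem_Rt.2 ⟨hBE, ht3.trans hr.2.1, hT.b2, rfl⟩,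
          hgt_lt ht3⟩
        rw [← hr.2.2.2]
        exact hT.ne.symm
    · rcases h1.lt_or_eq with h2 | h2
      · -- `b' < b`
        right
        intro y' r' hr' hh
        rw [mem_Rt] at hr'
        have e0 : r'.2 = r.2 := hF.eq_of_hgt hr'.2.1 hr.2.1 hh
        have e1 : it r'.1 r'.2 b' = it r.1 r.2 b' := hF.it_eq h2 hr'.2.2.1 hr.2.2.1
        have hT' : Top r'.1 r'.2 w3 t3 b' := ⟨by rw [e0]; exact hT.a1, hT.a2,
          h2.le.trans hr'.2.2.1, hT.b2, by rw [e1]; exact hT.ne⟩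
        have e2 := hF.lam_star ho hFF hr'.1 hBE hT' (by rw [e0]; exact ht3)
          (by rw [e0]; exact htb')
        have e3 := hF.lam_star ho hFF hr.1 hBE hT ht3 htb'
        show lam G o r'.1 r'.2 = 1
        rw [e2, e1, ← e3]
        exact hc
      · left
        subst h2
        refine ⟨it w3 t3 b', ?_, (w3, t3), mem_Rt.2 ⟨hBE, ht3.trans hr.2.1, hT.b2, rfl⟩,
          hgt_lt ht3⟩
        rw [← hr.2.2.2]
        exact hT.ne.symm

/-- the index of a vertex -/
noncomputable def idx (x : V) : ℕ := (Fintype.equivFin V x).1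

theorem idx_inj {x y : V} (h : idx x = idx y) : x = y :=
  (Fintype.equivFin V).injective (Fin.ext h)

theorem idx_lt (x : V) : idx x < Fintype.card V := (Fintype.equivFin V x).2

/-- the rank of an item -/
noncomputable def rk (G : SimpleGraph V) (o : V → V → V → ZMod 2) (b y : V) : ℤ :=
  key (Rt G b) (fun r => hgt r.2) (fun r => lam G o r.1 r.2) (Fintype.card V + 1) y *
    (Fintype.card V : ℤ) + (idx y : ℤ)

theorem rk_inj {o : V → V → V → ZMod 2} {b y y' : V} (h : rk G o b y = rk G o b y') : y = y' := by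
  unfold rk at h
  have h1 := idx_lt y
  have h2 := idx_lt y'
  have h3 : (0 : ℤ) < Fintype.card V := by
    have : 0 < Fintype.card V := by omega
    exact_mod_cast this
  apply idx_inj
  have h4 : ((idx y : ℤ)) % (Fintype.card V : ℤ) = (idx y' : ℤ) % (Fintype.card V : ℤ) := by
    have h5 := congrArg (fun z : ℤ => z % (Fintype.card V : ℤ)) h
    simp only [Int.add_emod, Int.mul_emod_left, zero_add, Int.emod_emod] at h5
    exact h5
  rw [Int.emod_eq_of_lt (by positivity) (by exact_mod_cast h1),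
    Int.emod_eq_of_lt (by positivity) (by exact_mod_cast h2)] at h4
  exact_mod_cast h4

theorem key_of_rk {o : V → V → V → ZMod 2} {b y y' : V} (h : rk G o b y < rk G o b y') :
    key (Rt G b) (fun r => hgt r.2) (fun r => lam G o r.1 r.2) (Fintype.card V + 1) y ≤
      key (Rt G b) (fun r => hgt r.2) (fun r => lam G o r.1 r.2) (Fintype.card V + 1) y' := by
  by_contra hc
  rw [not_le] at hc
  unfold rk at h
  have h1 := idx_lt y'
  have h2 : (0 : ℤ) < Fintype.card V := by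
    have : 0 < Fintype.card V := by omega
    exact_mod_cast this
  have h3 := mul_le_mul_of_nonneg_right (Int.add_one_le_iff.2 hc) h2.le
  have h4 : (idx y' : ℤ) < Fintype.card V := by exact_mod_cast h1
  have h5 : (0 : ℤ) ≤ (idx y : ℤ) := by positivity
  nlinarith

/-- **The order of the items.** -/
theorem NF.rk_sorted (hF : NF G) {o : V → V → V → ZMod 2} (ho : Trn G o)
    (hFF : ∀ w1 t1 w2 t2, BE G w1 t1 → BE G w2 t2 → FF o (cyc w1 t1) w2 t2 = 0)
    {w1 t1 w2 t2 b : V} (h1 : BE G w1 t1) (h2 : BE G w2 t2) (hb : Top w1 t1 w2 t2 b)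
    (ht1 : t1 < b) (ht2 : t2 < b) (hlt : rk G o b (it w1 t1 b) < rk G o b (it w2 t2 b)) :
    (t2 < t1 → lam G o w1 t1 = 1) ∧ (t1 < t2 → lam G o w2 t2 = 0) ∧
      (t1 = t2 → ¬ (lam G o w1 t1 = 0 ∧ lam G o w2 t2 = 1)) := by
  have hs := (hF.fork ho hFF b).sorted (N := Fintype.card V + 1) (fun e => hgt_bound _) hb.ne
    (r1 := (w1, t1)) (r2 := (w2, t2)) (mem_Rt.2 ⟨h1, ht1, hb.b1, rfl⟩)
    (mem_Rt.2 ⟨h2, ht2, hb.b2, rfl⟩) (key_of_rk hlt)
  exact ⟨fun h => hs.1 (hgt_lt h), fun h => hs.2.1 (hgt_lt h), fun h => hs.2.2 (by rw [h])⟩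

end Pool.Agent.E8helper59.PT
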