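import Pool.Agent.H671R2.PolyAuto

/-!
# Linear systems over `ℤ/2` are solved in polynomial time

`slv U E`: is there an assignment `X : U → ℤ/2` such that for each `e ∈ E` the sum of the `X j`, `j ∈ e.1`,
is `1` if `e.2` and `0` otherwise?  Gaussian elimination on lists of bits.
-/

set_option autoImplicit false

namespace Pool.Agent.E8helper59.PT

open Pool.Agent.NPC

/-- the first bit of a row -/
def rhd (r : List Bool) : Bool := r.head?.getD false

/-- the sum of two rows -/
def rxor (r p : List Bool) : List Bool := (r.zip p).map fun q => (q.1 ^^ q.2)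

/-- elimination of the first unknown -/
def gstep (R : List (List Bool)) : List (List Bool) :=
  R.map fun r => (if rhd r = true then rxor r ((R.filter fun s => rhd s).head?.getD []) else r).tail

/-- the row of an equation -/
def grow {ι : Type} [DecidableEq ι] (U : List ι) (e : List ι × Bool) : List Bool :=
  (U.map fun u => decide ((e.1.filter fun x => decide (x = u)).length % 2 = 1)) ++ [e.2]

/-- solvability of a linear system over `ℤ/2` -/
def slv {ι : Type} [DecidableEq ι] (U : List ι) (E : List (List ι × Bool)) : Bool :=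
  (gstep^[U.length] (E.map (grow U))).all fun r => !(rhd r)

/-! ### The rows -/

@[simp] theorem rhd_nil : rhd [] = false := rfl
@[simp] theorem rhd_cons (b : Bool) (l : List Bool) : rhd (b :: l) = b := rfl
@[simp] theorem rxor_nil_left (l : List Bool) : rxor [] l = [] := rfl
@[simp] theorem rxor_nil_right (l : List Bool) : rxor l [] = [] := by simp [rxor]
@[simp] theorem rxor_cons (b c : Bool) (l m : List Bool) :
    rxor (b :: l) (c :: m) = (b ^^ c) :: rxor l m := rfl

theorem rxor_length (r p : List Bool) : (rxor r p).length = min r.length p.length := by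
  simp [rxor]

/-- the value of a row (with its last entry the constant) at an assignment -/
def ev : List Bool → List Bool → Bool
  | r, [] => rhd r
  | r, x :: xs => ((rhd r && x) ^^ ev r.tail xs)

theorem ev_rxor : ∀ (x r p : List Bool), r.length = x.length + 1 → p.length = x.length + 1 →
    ev (rxor r p) x = (ev r x ^^ ev p x) := by
  intro x
  induction x with
  | nil =>
    intro r p hr hp
    cases r with
    | nil => simp at hr
    | cons b r =>
      cases p with
      | nil => simp at hp
      | cons c p => simp [ev]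
  | cons y x ih =>
    intro r p hr hp
    cases r with
    | nil => simp at hr
    | cons b r =>
      cases p with
      | nil => simp at hp
      | cons c p =>
        simp only [List.length_cons, Nat.add_right_cancel_iff] at hr hp
        have := ih r p hr hp
        simp only [rxor_cons, ev, rhd_cons, List.tail_cons, this]
        cases b <;> cases c <;> cases y <;> cases ev r x <;> cases ev p x <;> rfl

theorem rhd_rxor {s p : List Bool} (hs : s.length ≠ 0) (hp : p.length ≠ 0) (h1 : rhd s = true)
    (h2 : rhd p = true) : rhd (rxor s p) = false := by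
  cases s with
  | nil => simp at hs
  | cons b s =>
    cases p with
    | nil => simp at hp
    | cons c p =>
      simp only [rhd_cons] at h1 h2
      simp [h1, h2]

theorem ev_cons (r : List Bool) (y : Bool) (x : List Bool) :
    ev r (y :: x) = ((rhd r && y) ^^ ev r.tail x) := rfl

theorem gstep_length (R : List (List Bool)) : (gstep R).length = R.length := by
  simp [gstep]

theorem mem_filter_head {R : List (List Bool)} {r : List Bool} (hr : r ∈ R) (h : rhd r = true) :
    ((R.filter fun s => rhd s).head?.getD []) ∈ R ∧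
      rhd ((R.filter fun s => rhd s).head?.getD []) = true := by
  have h1 : r ∈ R.filter fun s => rhd s := List.mem_filter.2 ⟨hr, by simpa using h⟩
  cases h2 : R.filter fun s => rhd s with
  | nil => rw [h2] at h1; simp at h1
  | cons p t =>
    have h3 : p ∈ R.filter fun s => rhd s := by rw [h2]; simp
    have h4 := List.mem_filter.1 h3
    simpa using h4

theorem gstep_rows {R : List (List Bool)} {n : ℕ} (h : ∀ r ∈ R, r.length = n + 1) :
    ∀ r ∈ gstep R, r.length = n := by
  intro r hr
  unfold gstep at hr
  obtain ⟨s, hs, rfl⟩ := List.mem_map.1 hr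
  have h1 := h s hs
  by_cases h2 : rhd s = true
  · have h3 := mem_filter_head hs h2
    have h4 := h _ h3.1
    rw [if_pos h2, List.length_tail, rxor_length, h1, h4]
    simp
  · rw [if_neg h2, List.length_tail, h1]
    simp

theorem gstep_spec {R : List (List Bool)} {n : ℕ} (h : ∀ r ∈ R, r.length = n + 2) :
    (∃ x : List Bool, x.length = n + 1 ∧ ∀ r ∈ R, ev r x = false) ↔
      ∃ x : List Bool, x.length = n ∧ ∀ r ∈ gstep R, ev r x = false := by
  constructor
  · rintro ⟨x, hx, hR⟩
    cases x with
    | nil => simp at hx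
    | cons y x =>
      simp only [List.length_cons, Nat.add_right_cancel_iff] at hx
      refine ⟨x, hx, ?_⟩
      intro r hr
      unfold gstep at hr
      obtain ⟨s, hs, rfl⟩ := List.mem_map.1 hr
      by_cases h2 : rhd s = true
      · have h3 := mem_filter_head hs h2
        set p := (R.filter fun s => rhd s).head?.getD [] with hp
        rw [if_pos h2]
        have h4 := ev_rxor (y :: x) s p (by rw [h s hs]; simp [hx]) (by rw [h p h3.1]; simp [hx])
        rw [hR s hs, hR p h3.1, ev_cons] at h4
        have h5 : rhd (rxor s p) = false :=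
          rhd_rxor (by rw [h s hs]; simp) (by rw [h p h3.1]; simp) h2 h3.2
        rw [h5] at h4
        simpa using h4
      · rw [if_neg h2]
        have h4 := hR s hs
        rw [ev_cons] at h4
        have h5 : rhd s = false := by simpa using h2
        rw [h5] at h4
        simpa using h4
  · rintro ⟨x, hx, hR⟩
    set p := (R.filter fun s => rhd s).head?.getD [] with hp
    refine ⟨ev p.tail x :: x, by simp [hx], ?_⟩
    intro s hs
    have h1 : ((if rhd s = true then rxor s p else s).tail) ∈ gstep R := by
      unfold gstep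
      exact List.mem_map.2 ⟨s, hs, rfl⟩
    have h2 := hR _ h1
    by_cases h3 : rhd s = true
    · rw [if_pos h3] at h2
      have h4 := mem_filter_head hs h3
      rw [← hp] at h4
      have h5 := ev_rxor (ev p.tail x :: x) s p (by rw [h s hs]; simp [hx])
        (by rw [h p h4.1]; simp [hx])
      have h6 : rhd (rxor s p) = false :=
        rhd_rxor (by rw [h s hs]; simp) (by rw [h p h4.1]; simp) h3 h4.2
      have h7 : ev p (ev p.tail x :: x) = false := by
        rw [ev_cons, h4.2]
        simp
      rw [ev_cons, h6, h2, h7] at h5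
      simpa using h5.symm
    · rw [if_neg h3] at h2
      have h5 : rhd s = false := by simpa using h3
      rw [ev_cons, h5, h2]
      rfl

theorem iter_spec : ∀ (n : ℕ) (R : List (List Bool)), (∀ r ∈ R, r.length = n + 1) →
    ((∃ x : List Bool, x.length = n ∧ ∀ r ∈ R, ev r x = false) ↔
      ((gstep^[n] R).all fun r => !(rhd r)) = true) := by
  intro n
  induction n with
  | zero =>
    intro R h
    simp only [List.length_eq_zero_iff, Function.iterate_zero, id_eq, List.all_eq_true,
      Bool.not_eq_true']
    constructor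
    · rintro ⟨x, rfl, hx⟩ r hr
      exact hx r hr
    · intro hx
      exact ⟨[], rfl, fun r hr => hx r hr⟩
  | succ n ih =>
    intro R h
    rw [gstep_spec h, Function.iterate_succ, Function.comp]
    exact ih _ (gstep_rows h)

/-! ### The rows of the equations -/

/-- bits as elements of `ℤ/2` -/
def zb (b : Bool) : ZMod 2 := if b then 1 else 0

@[simp] theorem zb_true : zb true = 1 := rfl
@[simp] theorem zb_false : zb false = 0 := rfl

theorem zb_xor (b c : Bool) : zb (b ^^ c) = zb b + zb c := by
  cases b <;> cases c <;> decide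

theorem zb_and (b c : Bool) : zb (b && c) = zb b * zb c := by
  cases b <;> cases c <;> decide

theorem zb_inj {b c : Bool} (h : zb b = zb c) : b = c := by
  revert h
  cases b <;> cases c <;> decide

theorem zb_decide (z : ZMod 2) : zb (decide (z = 1)) = z := by
  revert z
  decide

theorem zb_parity (n : ℕ) : zb (decide (n % 2 = 1)) = (n : ZMod 2) := by
  rcases Nat.mod_two_eq_zero_or_one n with h | h
  · rw [h]
    have : ((n : ℕ) : ZMod 2) = 0 := by
      rw [ZMod.natCast_eq_zero_iff]
      omega
    rw [this]
    rfl
  · rw [h]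
    have : ((n : ℕ) : ZMod 2) = ((1 : ℕ) : ZMod 2) := by
      rw [ZMod.natCast_eq_natCast_iff]
      exact h
    rw [this]
    simp

theorem ev_map {ι : Type} (c y : ι → Bool) (b : Bool) : ∀ U : List ι,
    zb (ev (U.map c ++ [b]) (U.map y)) = (U.map fun u => zb (c u) * zb (y u)).sum + zb b := by
  intro U
  induction U with
  | nil => simp [ev]
  | cons u U ih =>
    simp only [List.map_cons, List.cons_append, ev_cons, rhd_cons, List.tail_cons, zb_xor, ih,
      zb_and, List.sum_cons]
    ring

theorem sum_ind {ι : Type} [DecidableEq ι] (X : ι → ZMod 2) (j : ι) : ∀ U : List ι, U.Nodup →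
    (U.map fun u => if j = u then X u else 0).sum = if j ∈ U then X j else 0 := by
  intro U
  induction U with
  | nil => simp
  | cons u U ih =>
    intro hU
    rw [List.nodup_cons] at hU
    rw [List.map_cons, List.sum_cons, ih hU.2]
    by_cases h : j = u
    · subst h
      simp [hU.1]
    · simp [h]

theorem sum_count {ι : Type} [DecidableEq ι] (U : List ι) (hU : U.Nodup) (X : ι → ZMod 2) :
    ∀ l : List ι, (∀ j ∈ l, j ∈ U) →
    (U.map fun u => (((l.filter fun x => decide (x = u)).length : ℕ) : ZMod 2) * X u).sum =
      (l.map X).sum := by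
  intro l
  induction l with
  | nil => simp
  | cons j l ih =>
    intro h
    have h1 := ih (fun i hi => h i (List.mem_cons_of_mem _ hi))
    have h2 := sum_ind X j U hU
    rw [if_pos (h j (by simp))] at h2
    rw [List.map_cons, List.sum_cons, ← h1, ← h2, ← List.sum_map_add]
    congr 1
    apply List.map_congr_left
    intro u _
    by_cases e : j = u
    · simp [e]
      ring
    · simp [e]

theorem ev_grow {ι : Type} [DecidableEq ι] (U : List ι) (hU : U.Nodup) (e : List ι × Bool)
    (he : ∀ j ∈ e.1, j ∈ U) (y : ι → Bool) :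
    zb (ev (grow U e) (U.map y)) = (e.1.map fun j => zb (y j)).sum + zb e.2 := by
  unfold grow
  rw [ev_map]
  simp only [zb_parity]
  rw [sum_count U hU (fun j => zb (y j)) e.1 he]

theorem eq_map_of_length {ι : Type} [DecidableEq ι] (U : List ι) (hU : U.Nodup) (x : List Bool)
    (hx : x.length = U.length) : ∃ y : ι → Bool, x = U.map y := by
  refine ⟨fun u => x.getD (U.idxOf u) false, ?_⟩
  apply List.ext_getElem
  · simp [hx]
  · intro i h1 h2
    simp only [List.getElem_map]
    rw [hU.idxOf_getElem i (by simpa using h2)]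
    simp [h1]

theorem slv_spec {ι : Type} [DecidableEq ι] (U : List ι) (E : List (List ι × Bool)) (hU : U.Nodup)
    (hE : ∀ e ∈ E, ∀ j ∈ e.1, j ∈ U) :
    slv U E = true ↔ ∃ X : ι → ZMod 2, ∀ e ∈ E, (e.1.map X).sum = if e.2 then 1 else 0 := by
  unfold slv
  rw [← iter_spec U.length (E.map (grow U)) (by
    intro r hr
    obtain ⟨e, _, rfl⟩ := List.mem_map.1 hr
    simp [grow])]
  have key : ∀ (s t : ZMod 2), s + t = 0 ↔ s = t := by decide
  constructor
  · rintro ⟨x, hx, h⟩
    obtain ⟨y, rfl⟩ := eq_map_of_length U hU x hx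
    refine ⟨fun j => zb (y j), ?_⟩
    intro e he
    have h1 := h _ (List.mem_map.2 ⟨e, he, rfl⟩)
    have h2 := ev_grow U hU e (hE e he) y
    rw [h1] at h2
    exact (key _ _).1 h2.symm
  · rintro ⟨X, hX⟩
    refine ⟨U.map fun u => decide (X u = 1), by simp, ?_⟩
    intro r hr
    obtain ⟨e, he, rfl⟩ := List.mem_map.1 hr
    have h2 := ev_grow U hU e (hE e he) (fun u => decide (X u = 1))
    simp only [zb_decide] at h2
    have h3 : (e.1.map fun j => X j).sum = zb e.2 := hX e he
    rw [h3] at h2
    have h4 : zb e.2 + zb e.2 = 0 := (key _ _).2 rfl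
    rw [h4] at h2
    exact zb_inj h2

/-! ### Polynomial time -/

theorem poly_rhd : Pool.Agent.NPC.Poly rhd := by
  unfold rhd
  fun_prop

theorem poly_rxor {α : Type} [TEnc α] {r p : α → List Bool} (hr : Pool.Agent.NPC.Poly r) (hp : Poly p) :
    Pool.Agent.NPC.Poly (fun a => rxor (r a) (p a)) := by
  unfold rxor
  fun_prop

theorem poly_gstep : Poly gstep := by
  unfold gstep
  have h1 : Pool.Agent.NPC.Poly (fun q : List (List Bool) × List Bool =>
      (if rhd q.2 = true then
        rxor q.2 (((fun a : List (List Bool) × List Bool => (a.1.filter fun s => rhd s).head?) q).getD []) else q.2).tail) := by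
    have h2 : Pool.Agent.NPC.Poly (fun q : List (List Bool) × List Bool => rhd q.2) :=
      poly_rhd.comp (Pool.Agent.NPC.Poly.snd Pool.Agent.NPC.Poly.id)
    have h3 : Pool.Agent.NPC.Poly (fun q : List (List Bool) × List Bool =>
        ((q.1.filter fun s => rhd s).head?).getD []) := by
      have h4 : Pool.Agent.NPC.Poly (fun q : (List (List Bool) × List Bool) × List Bool => rhd q.2) :=
        poly_rhd.comp (Pool.Agent.NPC.Poly.snd Pool.Agent.NPC.Poly.id)
      exact Pool.Agent.NPC.Poly.optGetD (Pool.Agent.NPC.Poly.head? (Pool.Agent.NPC.Poly.filter (Pool.Agent.NPC.Poly.fst Pool.Agent.NPC.Poly.id) h4)) (Pool.Agent.NPC.Poly.const [])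
    exact Pool.Agent.NPC.Poly.tail (Pool.Agent.NPC.Poly.ite (Pool.Agent.NPC.Poly.decide_bool h2) (poly_rxor (Pool.Agent.NPC.Poly.snd Pool.Agent.NPC.Poly.id) h3)
      (Pool.Agent.NPC.Poly.snd Pool.Agent.NPC.Poly.id))
  exact Pool.Agent.NPC.Poly.map (F := fun R r => (if rhd r = true then
    rxor r ((R.filter fun s => rhd s).head?.getD []) else r).tail) Pool.Agent.NPC.Poly.id h1

theorem sz_rows_le (R : List (List Bool)) (m : ℕ) (h : ∀ r ∈ R, r.length ≤ m) :
    sz R ≤ R.length * (4 * m + 1 + 1) + 1 := by
  apply sz_le_length_mul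
  intro r hr
  have h1 := sz_listBool_le r
  have h2 := h r hr
  omega

theorem gstep_le {R : List (List Bool)} {m : ℕ} (h : ∀ r ∈ R, r.length ≤ m) :
    ∀ r ∈ gstep R, r.length ≤ m := by
  intro r hr
  unfold gstep at hr
  obtain ⟨s, hs, rfl⟩ := List.mem_map.1 hr
  have h1 := h s hs
  rw [List.length_tail]
  split_ifs
  · rw [rxor_length]
    omega
  · omega

theorem iter_le (R : List (List Bool)) (m : ℕ) (h : ∀ r ∈ R, r.length ≤ m) (k : ℕ) :
    (gstep^[k] R).length = R.length ∧ ∀ r ∈ gstep^[k] R, r.length ≤ m := by
  induction k with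
  | zero => exact ⟨rfl, h⟩
  | succ k ih =>
    rw [Function.iterate_succ_apply']
    exact ⟨by rw [gstep_length, ih.1], gstep_le ih.2⟩

theorem slv_poly {α ι : Type} [TEnc α] [TEnc ι] [DecidableEq ι] {U : α → List ι}
    {E : α → List (List ι × Bool)} (hU : Poly U) (hE : Poly E) :
    Pool.Agent.NPC.Poly (fun a => slv (U a) (E a)) := by
  unfold slv
  have h1 : Pool.Agent.NPC.Poly (fun a => (E a).map (grow (U a))) := by
    have h2 : Pool.Agent.NPC.Poly (fun p : α × (List ι × Bool) => grow (U p.1) p.2) := by
      unfold grow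
      have h3 : Pool.Agent.NPC.Poly (fun p : α × (List ι × Bool) => U p.1) := hU.comp (Pool.Agent.NPC.Poly.fst Pool.Agent.NPC.Poly.id)
      have h4 : Pool.Agent.NPC.Poly (fun q : (α × (List ι × Bool)) × ι =>
          decide ((q.1.2.1.filter fun x => decide (x = q.2)).length % 2 = 1)) := by
        fun_prop
      exact Pool.Agent.NPC.Poly.append (Pool.Agent.NPC.Poly.map (F := fun (p : α × (List ι × Bool)) u =>
        decide ((p.2.1.filter fun x => decide (x = u)).length % 2 = 1)) h3 h4)
        (Pool.Agent.NPC.Poly.cons (Pool.Agent.NPC.Poly.snd (Pool.Agent.NPC.Poly.snd Pool.Agent.NPC.Poly.id)) (Pool.Agent.NPC.Poly.const []))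
    exact Pool.Agent.NPC.Poly.map (F := fun a e => grow (U a) e) hE h2
  obtain ⟨rU, hrU⟩ := hU.sz_le
  obtain ⟨rE, hrE⟩ := hE.sz_le
  have h5 : Pool.Agent.NPC.Poly (fun a => gstep^[(U a).length] ((E a).map (grow (U a)))) := by
    refine Pool.Agent.NPC.Poly.iterLen (F := fun _ R => gstep R) hU h1 (poly_gstep.comp (Pool.Agent.NPC.Poly.snd Pool.Agent.NPC.Poly.id))
      (rE * (Polynomial.C 4 * (rU + Polynomial.C 1) + Polynomial.C 1 + Polynomial.C 1) +
        Polynomial.C 1) ?_
    intro a k _
    have h6 := iter_le ((E a).map (grow (U a))) ((U a).length + 1) (by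
      intro r hr
      obtain ⟨e, _, rfl⟩ := List.mem_map.1 hr
      simp [grow]) k
    have h7 := sz_rows_le _ _ h6.2
    rw [h6.1, List.length_map] at h7
    refine h7.trans ?_
    have h8 := length_lt_sz (U a)
    have h9 := length_lt_sz (E a)
    have h10 := hrU a
    have h11 := hrE a
    simp only [Polynomial.eval_add, Polynomial.eval_mul, Polynomial.eval_C]
    gcongr
    · omega
    · omega
  exact Pool.Agent.NPC.Poly.all (p := fun _ r => !(rhd r)) h5 (Pool.Agent.NPC.Poly.not (poly_rhd.comp (Pool.Agent.NPC.Poly.snd Pool.Agent.NPC.Poly.id)))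

end Pool.Agent.E8helper59.PT
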