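import Pool.Agent.E8helper59.PT.TSys
import Pool.Agent.E8helper59.PT.Slv
import Pool.Agent.E8helper59.SD.Red

set_option autoImplicit false
set_option linter.unusedSectionVars false
set_option linter.unusedVariables false

/-!
# Labels for the vertices, edges and triangles
-/

namespace Pool.Agent.E8helper59.PT

open Pool.Agent.NPC Pool.Agent.H622R2

theorem TSys.pull {V V' : Type} {G : SimpleGraph V} {G' : SimpleGraph V'} (ψ : V → V')
    (h1 : ∀ a b, G.Adj a b → G'.Adj (ψ a) (ψ b))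
    (h2 : ∀ a b a' b', G.Adj a a' → G.Adj b b' → ψ a = ψ b → a = b) (h : TSys G') : TSys G := by
  obtain ⟨o, Q, p, h⟩ := h
  refine ⟨fun a b c => o (ψ a) (ψ b) (ψ c), fun a b c => Q (ψ a) (ψ b) (ψ c),
    fun a b c => p (ψ a) (ψ b) (ψ c), fun u x => h.self _ _, fun u x y hx hy hxy => ?_,
    fun u v huv x y hxy => ?_⟩
  · exact h.anti _ _ _ (h1 _ _ hx) (h1 _ _ hy) (fun he => hxy (h2 _ _ _ _ hx.symm hy.symm he))
  · have e : ∀ {a b a' b'}, G.Adj a a' → G.Adj b b' → e1 a b = e1 (ψ a) (ψ b) := by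
      intro a b a' b' ha hb
      unfold e1
      by_cases hab : a = b
      · rw [if_pos hab, if_pos (congrArg ψ hab)]
      · rw [if_neg hab, if_neg (fun he => hab (h2 _ _ _ _ ha hb he))]
    have h3 := h.main _ _ (h1 _ _ huv) _ _ (h1 _ _ hxy)
    unfold cf at h3 ⊢
    rw [← e hxy huv, ← e hxy huv.symm, ← e hxy.symm huv.symm, ← e hxy.symm huv] at h3
    exact h3

/-- labels -/
abbrev Lb := ℕ × ℕ × ℕ

/-- membership in a label -/
def mem3 (x : ℕ) (l : Lb) : Bool := decide (x = l.1) || (decide (x = l.2.1) || decide (x = l.2.2))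

/-- inclusion of labels -/
def sub3 (l l' : Lb) : Bool := mem3 l.1 l' && (mem3 l.2.1 l' && mem3 l.2.2 l')

/-- the number of vertices of a label -/
def lev (l : Lb) : ℕ := if l.1 = l.2.1 then 1 else if l.2.1 = l.2.2 then 2 else 3

/-- the labels of cliques -/
def can (M : List (List Bool)) (l : Lb) : Bool :=
  decide (l.1 < M.length) && (decide (l.2.1 < M.length) && (decide (l.2.2 < M.length) &&
    ((decide (l.1 = l.2.1) && decide (l.2.1 = l.2.2)) ||
      ((decide (l.1 < l.2.1) && (decide (l.2.1 = l.2.2) && SD.adjB M l.1 l.2.1)) ||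
        (decide (l.1 < l.2.1) && (decide (l.2.1 < l.2.2) && (SD.adjB M l.1 l.2.1 &&
          (SD.adjB M l.2.1 l.2.2 && SD.adjB M l.1 l.2.2))))))))

/-- adjacency of labels -/
def adj3 (M : List (List Bool)) (l l' : Lb) : Bool :=
  can M l && (can M l' && ((sub3 l l' && decide (lev l' = lev l + 1)) ||
    (sub3 l' l && decide (lev l = lev l' + 1))))

/-- the graph on the labels -/
def LG (M : List (List Bool)) : SimpleGraph Lb where
  Adj l l' := adj3 M l l' = true
  symm := ⟨fun l l' h => by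
    unfold adj3 at *
    simp only [Bool.and_eq_true, Bool.or_eq_true, decide_eq_true_eq] at h ⊢
    exact ⟨h.2.1, h.1, h.2.2.symm⟩⟩
  loopless := ⟨fun l h => by
    unfold adj3 at h
    simp only [Bool.and_eq_true, Bool.or_eq_true, decide_eq_true_eq] at h
    rcases h.2.2 with h | h <;> omega⟩

/-- the clique of a label -/
def cl (n : ℕ) (l : Lb) : Finset (Fin n) := Finset.univ.filter fun x => mem3 x.1 l = true

theorem mem_cl {n : ℕ} {l : Lb} {x : Fin n} :
    x ∈ cl n l ↔ (x.1 = l.1 ∨ x.1 = l.2.1 ∨ x.1 = l.2.2) := by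
  unfold cl mem3
  rw [Finset.mem_filter]
  simp only [Finset.mem_univ, true_and, Bool.or_eq_true, decide_eq_true_eq]

/-- the three kinds of labels -/
theorem can_cases {M : List (List Bool)} {l : Lb} (h : can M l = true) :
    (∃ i : Fin M.length, l = (i.1, i.1, i.1)) ∨
      (∃ i j : Fin M.length, i < j ∧ (matGraph M).Adj i j ∧ l = (i.1, j.1, j.1)) ∨
      (∃ i j k : Fin M.length, i < j ∧ j < k ∧ (matGraph M).Adj i j ∧ (matGraph M).Adj j k ∧
        (matGraph M).Adj i k ∧ l = (i.1, j.1, k.1)) := by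
  obtain ⟨a, b, c⟩ := l
  unfold can at h
  simp only [Bool.and_eq_true, Bool.or_eq_true, decide_eq_true_eq] at h
  obtain ⟨ha, hb, hc, h⟩ := h
  rcases h with ⟨h1, h2⟩ | ⟨h1, h2, h3⟩ | ⟨h1, h2, h3, h4, h5⟩
  · subst h1 h2
    exact Or.inl ⟨⟨a, ha⟩, rfl⟩
  · subst h2
    exact Or.inr (Or.inl ⟨⟨a, ha⟩, ⟨b, hb⟩, h1, (SD.adjB_iff ⟨a, ha⟩ ⟨b, hb⟩).1 h3, rfl⟩)
  · exact Or.inr (Or.inr ⟨⟨a, ha⟩, ⟨b, hb⟩, ⟨c, hc⟩, h1, h2,
      (SD.adjB_iff ⟨a, ha⟩ ⟨b, hb⟩).1 h3, (SD.adjB_iff ⟨b, hb⟩ ⟨c, hc⟩).1 h4,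
      (SD.adjB_iff ⟨a, ha⟩ ⟨c, hc⟩).1 h5, rfl⟩)

theorem can_one {M : List (List Bool)} (i : Fin M.length) : can M (i.1, i.1, i.1) = true := by
  unfold can
  simp [i.2]

theorem can_two {M : List (List Bool)} {i j : Fin M.length} (h : i < j)
    (h1 : (matGraph M).Adj i j) : can M (i.1, j.1, j.1) = true := by
  unfold can
  have h' : i.1 < j.1 := h
  simp [i.2, j.2, h', (SD.adjB_iff i j).2 h1]

theorem can_three {M : List (List Bool)} {i j k : Fin M.length} (h : i < j) (h' : j < k)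
    (h1 : (matGraph M).Adj i j) (h2 : (matGraph M).Adj j k) (h3 : (matGraph M).Adj i k) :
    can M (i.1, j.1, k.1) = true := by
  unfold can
  have e1 : i.1 < j.1 := h
  have e2 : j.1 < k.1 := h'
  simp [i.2, j.2, k.2, e1, e2, (SD.adjB_iff i j).2 h1, (SD.adjB_iff j k).2 h2,
    (SD.adjB_iff i k).2 h3]

theorem cl_one {n : ℕ} (i : Fin n) : cl n (i.1, i.1, i.1) = {i} := by
  ext x
  rw [mem_cl, Finset.mem_singleton, Fin.ext_iff]
  tauto

theorem cl_two {n : ℕ} (i j : Fin n) : cl n (i.1, j.1, j.1) = {i, j} := by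
  ext x
  rw [mem_cl, Finset.mem_insert, Finset.mem_singleton, Fin.ext_iff, Fin.ext_iff]
  tauto

theorem cl_three {n : ℕ} (i j k : Fin n) : cl n (i.1, j.1, k.1) = {i, j, k} := by
  ext x
  rw [mem_cl, Finset.mem_insert, Finset.mem_insert, Finset.mem_singleton, Fin.ext_iff,
    Fin.ext_iff, Fin.ext_iff]

theorem can_isC {M : List (List Bool)} {l : Lb} (h : can M l = true) :
    IsC (matGraph M) (cl M.length l) ∧ (cl M.length l).card = lev l := by
  rcases can_cases h with ⟨i, rfl⟩ | ⟨i, j, h1, h2, rfl⟩ | ⟨i, j, k, h1, h2, h3, h4, h5, rfl⟩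
  · rw [cl_one]
    refine ⟨isC_one i, ?_⟩
    unfold lev
    simp
  · rw [cl_two]
    refine ⟨isC_two h2, ?_⟩
    unfold lev
    have e : i.1 ≠ j.1 := fun h => h1.ne (Fin.ext h)
    rw [Finset.card_pair h1.ne]
    simp [e]
  · rw [cl_three]
    refine ⟨isC_three h3 h4 h5.symm, ?_⟩
    unfold lev
    have e1 : i.1 ≠ j.1 := fun h => h1.ne (Fin.ext h)
    have e2 : j.1 ≠ k.1 := fun h => h2.ne (Fin.ext h)
    rw [card_triple h1.ne (h1.trans h2).ne h2.ne]
    simp [e1, e2]

theorem exists_lab {M : List (List Bool)} {s : Finset (Fin M.length)} (h : IsC (matGraph M) s) :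
    ∃ l, can M l = true ∧ cl M.length l = s := by
  obtain ⟨h1, h2, h3⟩ := h
  have h4 : 0 < s.card := Finset.card_pos.2 h1
  have h5 : s.card = 1 ∨ s.card = 2 ∨ s.card = 3 := by omega
  rcases h5 with h5 | h5 | h5
  · obtain ⟨i, rfl⟩ := Finset.card_eq_one.1 h5
    exact ⟨_, can_one i, cl_one i⟩
  · obtain ⟨i, j, hij, rfl⟩ := Finset.card_eq_two.1 h5
    have hadj : (matGraph M).Adj i j := h3 (by simp) (by simp) hij
    rcases lt_or_gt_of_ne hij with h6 | h6
    · exact ⟨_, can_two h6 hadj, cl_two i j⟩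
    · exact ⟨_, can_two h6 hadj.symm, by rw [cl_two, Finset.pair_comm]⟩
  · obtain ⟨i, j, k, hij, hik, hjk, rfl⟩ := Finset.card_eq_three.1 h5
    have a1 : (matGraph M).Adj i j := h3 (by simp) (by simp) hij
    have a2 : (matGraph M).Adj i k := h3 (by simp) (by simp) hik
    have a3 : (matGraph M).Adj j k := h3 (by simp) (by simp) hjk
    rcases lt_or_gt_of_ne hij with b1 | b1 <;> rcases lt_or_gt_of_ne hik with b2 | b2 <;>
      rcases lt_or_gt_of_ne hjk with b3 | b3
    · exact ⟨_, can_three b1 b3 a1 a3 a2, cl_three i j k⟩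
    · exact ⟨_, can_three b2 b3 a2 a3.symm a1, by rw [cl_three]; ext x; simp; tauto⟩
    · exact absurd (b1.trans b3) b2.asymm
    · exact ⟨_, can_three b2 b1 a2.symm a1 a3.symm, by rw [cl_three]; ext x; simp; tauto⟩
    · exact ⟨_, can_three b1 b2 a1.symm a2 a3, by rw [cl_three]; ext x; simp; tauto⟩
    · exact absurd (b2.trans b3) b1.asymm
    · exact ⟨_, can_three b3 b2 a3 a2.symm a1.symm, by rw [cl_three]; ext x; simp; tauto⟩
    · exact ⟨_, can_three b3 b1 a3.symm a1.symm a2.symm, by rw [cl_three]; ext x; simp; tauto⟩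

theorem cl_sub {M : List (List Bool)} {l l' : Lb} (h : can M l = true) :
    cl M.length l ⊆ cl M.length l' ↔ sub3 l l' = true := by
  obtain ⟨a, b, c⟩ := l
  have hb : a < M.length ∧ b < M.length ∧ c < M.length := by
    unfold can at h
    simp only [Bool.and_eq_true, decide_eq_true_eq] at h
    exact ⟨h.1, h.2.1, h.2.2.1⟩
  unfold sub3 mem3
  simp only [Bool.and_eq_true, Bool.or_eq_true, decide_eq_true_eq]
  constructor
  · intro hs
    have m : ∀ x : Fin M.length, (x.1 = a ∨ x.1 = b ∨ x.1 = c) →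
        (x.1 = l'.1 ∨ x.1 = l'.2.1 ∨ x.1 = l'.2.2) := fun x hx => mem_cl.1 (hs (mem_cl.2 hx))
    exact ⟨m ⟨a, hb.1⟩ (Or.inl rfl), m ⟨b, hb.2.1⟩ (Or.inr (Or.inl rfl)),
      m ⟨c, hb.2.2⟩ (Or.inr (Or.inr rfl))⟩
  · rintro ⟨h1, h2, h3⟩ x hx
    rw [mem_cl] at hx ⊢
    rcases hx with hx | hx | hx
    · rw [hx]; exact h1
    · rw [hx]; exact h2
    · rw [hx]; exact h3

theorem cl_inj {M : List (List Bool)} {l l' : Lb} (h : can M l = true) (h' : can M l' = true)
    (he : cl M.length l = cl M.length l') : l = l' := by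
  have h1 := (cl_sub (l' := l') h).1 he.subset
  have h2 := (cl_sub (l' := l) h').1 he.symm.subset
  obtain ⟨a, b, c⟩ := l
  obtain ⟨a', b', c'⟩ := l'
  unfold sub3 mem3 at h1 h2
  unfold can at h h'
  simp only [Bool.and_eq_true, Bool.or_eq_true, decide_eq_true_eq] at h1 h2 h h'
  obtain ⟨-, -, -, h⟩ := h
  obtain ⟨-, -, -, h'⟩ := h'
  have g : a ≤ b ∧ b ≤ c ∧ (a = b → b = c) := by
    rcases h with ⟨q1, q2⟩ | ⟨q1, q2, -⟩ | ⟨q1, q2, -⟩
    · exact ⟨q1.le, q2.le, fun _ => q2⟩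
    · exact ⟨q1.le, q2.le, fun _ => q2⟩
    · exact ⟨q1.le, q2.le, fun q => absurd q q1.ne⟩
  have g' : a' ≤ b' ∧ b' ≤ c' ∧ (a' = b' → b' = c') := by
    rcases h' with ⟨q1, q2⟩ | ⟨q1, q2, -⟩ | ⟨q1, q2, -⟩
    · exact ⟨q1.le, q2.le, fun _ => q2⟩
    · exact ⟨q1.le, q2.le, fun _ => q2⟩
    · exact ⟨q1.le, q2.le, fun q => absurd q q1.ne⟩
  clear h h' he
  obtain ⟨p1, p2, p3⟩ := h1
  obtain ⟨r1, r2, r3⟩ := h2
  obtain ⟨g1, g2, g3⟩ := g
  obtain ⟨g1', g2', g3'⟩ := g'
  have e1 : a = a' := by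
    clear p2 p3 r2 r3 g3 g3'
    omega
  have e3 : c = c' := by
    clear p1 p2 r1 r2 g3 g3'
    omega
  subst e1 e3
  clear p1 p3 r1 r3
  have e2 : b = b' := by
    by_cases q : a = b
    · have q2 := g3 q
      omega
    · by_cases q' : a = b'
      · have q2' := g3' q'
        omega
      · omega
  rw [e2]

theorem adj3_iff {M : List (List Bool)} {l l' : Lb} (h : can M l = true) (h' : can M l' = true) :
    adj3 M l l' = true ↔ (H3 (matGraph M)).Adj (cl M.length l) (cl M.length l') := by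
  have c1 := can_isC h
  have c2 := can_isC h'
  unfold adj3
  simp only [h, h', Bool.true_and, Bool.and_eq_true, Bool.or_eq_true, decide_eq_true_eq]
  show _ ↔ (_ ∧ _) ∧ (_ ∨ _)
  rw [cl_sub h, cl_sub h', c1.2, c2.2]
  exact ⟨fun h => ⟨⟨c1.1, c2.1⟩, h⟩, fun h => h.2⟩

theorem adj3_can {M : List (List Bool)} {l l' : Lb} (h : adj3 M l l' = true) :
    can M l = true ∧ can M l' = true := by
  unfold adj3 at h
  simp only [Bool.and_eq_true] at h
  exact ⟨h.1, h.2.1⟩

/-- **The linear system on the labels.** -/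
theorem TSys_LG (M : List (List Bool)) : TSys (LG M) ↔ TSys (H3 (matGraph M)) := by
  classical
  constructor
  · intro h
    refine h.pull (fun s => if h : ∃ l, can M l = true ∧ cl M.length l = s then h.choose
      else (0, 0, 0)) ?_ ?_
    · intro s t hst
      have hs := exists_lab hst.1.1
      have ht := exists_lab hst.1.2
      simp only [dif_pos hs, dif_pos ht]
      apply (adj3_iff hs.choose_spec.1 ht.choose_spec.1).2
      rw [hs.choose_spec.2, ht.choose_spec.2]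
      exact hst
    · intro s t s' t' hs' ht' he
      have hs := exists_lab hs'.1.1
      have ht := exists_lab ht'.1.1
      simp only [dif_pos hs, dif_pos ht] at he
      rw [← hs.choose_spec.2, ← ht.choose_spec.2, he]
  · intro h
    refine h.pull (cl M.length) ?_ ?_
    · intro a b hab
      have hc := adj3_can hab
      exact (adj3_iff hc.1 hc.2).1 hab
    · intro a b a' b' ha hb he
      exact cl_inj (adj3_can ha).1 (adj3_can hb).1 he

end Pool.Agent.E8helper59.PT
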