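import Pool.Agent.E8helper59.PT.Dec

set_option autoImplicit false
set_option linter.unusedSectionVars false

/-!
# The local conditions are necessary
-/

namespace Pool.Agent.E8helper59.PT

open Pool.Agent.E8helper59.SD

variable {V : Type} {G : SimpleGraph V}

theorem sep_neg {g : V → ℝ} {a b c d : V} (h : SD.Sep g a b c d) :
    SD.Sep (fun v => - g v) a b c d := by
  unfold SD.Sep at *
  rcases h with ⟨h1, h2, h3, h4⟩ | ⟨h1, h2, h3, h4⟩
  · right
    exact ⟨neg_lt_neg h1, neg_lt_neg h3, neg_lt_neg h2, neg_lt_neg h4⟩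
  · left
    exact ⟨neg_lt_neg h1, neg_lt_neg h3, neg_lt_neg h2, neg_lt_neg h4⟩

theorem strict_neg {f g : V → ℝ} (h : SD.Strict G f g) : SD.Strict G f (fun v => - g v) where
  finj := h.finj
  ginj := fun a b hab => h.ginj (neg_injective hab)
  sep := fun a b c d h1 h2 h3 h4 h5 h6 => (h.sep a b c d h1 h2 h3 h4 h5 h6).imp id sep_neg
  out := fun a b w h1 h2 h3 => (h.out a b w h1 h2 h3).imp id sep_neg

/-- three lower neighbours of `c` -/
theorem mid_false {f g : V → ℝ} (h : SD.Strict G f g) {c k x y : V} (hck : G.Adj c k)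
    (hcx : G.Adj c x) (hcy : G.Adj c y) (hkx : G.Adj k x) (gk : g k < g c) (gx : g x < g c)
    (gy : g y < g c) (h1 : f k < f y) (h2 : f y < f x) : False := by
  have hky : k ≠ y := by rintro rfl; exact lt_irrefl _ h1
  have hxy : x ≠ y := by rintro rfl; exact lt_irrefl _ h2
  have s1 := h.sep k x c y hkx hcy hck.ne.symm hky hcx.ne.symm hxy
  have s2 := h.out c k y hck hcy.ne.symm (Ne.symm hky)
  have s3 := h.out c x y hcx hcy.ne.symm (Ne.symm hxy)
  unfold SD.Sep at s1 s2 s3
  have t1 : g k < g y ∧ g x < g y := by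
    rcases s1 with (s | s) | (s | s)
    · linarith [s.2.1, s.2.2.1, s.2.2.2]
    · linarith [s.2.1, s.2.2.1, s.2.2.2]
    · exact ⟨s.2.1, s.2.2.2⟩
    · linarith [s.1, s.2.1]
  have t2 : f c < f y := by
    rcases s2 with (s | s) | (s | s)
    · exact s.1
    · linarith [s.2.1, s.2.2.1, s.2.2.2]
    · linarith [s.1, s.2.1]
    · linarith [s.1, s.2.1, s.2.2.1, s.2.2.2]
  rcases s3 with (s | s) | (s | s)
  · linarith [s.1, s.2.1, s.2.2.1, s.2.2.2]
  · linarith [s.1, s.2.1, s.2.2.1, s.2.2.2]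
  · linarith [s.1, s.2.1, s.2.2.1, s.2.2.2]
  · linarith [s.1, s.2.1, s.2.2.1, s.2.2.2]

/-- one lower and one upper neighbour of `c` -/
theorem side {f g : V → ℝ} (h : SD.Strict G f g) {c k x y : V} (hck : G.Adj c k)
    (hcx : G.Adj c x) (hcy : G.Adj c y) (hkx : G.Adj k x) (hky : k ≠ y) (hxy : x ≠ y)
    (gk : g k < g c) (gx : g c < g x) :
    (f k < f c ∧ f k < f y ∧ f x < f c ∧ f x < f y) ∨
      (f c < f k ∧ f y < f k ∧ f c < f x ∧ f y < f x) := by
  have s1 := h.sep k x c y hkx hcy hck.ne.symm hky hcx.ne.symm hxy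
  unfold SD.Sep at s1
  rcases s1 with (s | s) | (s | s)
  · exact Or.inl s
  · exact Or.inr ⟨s.1, s.2.2.1, s.2.1, s.2.2.2⟩
  · linarith [s.1, s.2.1, s.2.2.1, s.2.2.2]
  · linarith [s.1, s.2.1, s.2.2.1, s.2.2.2]

/-- in a cyclic order: a set which contains with every point both cyclic neighbours has nothing
above a point outside -/
theorem no_above {N A : Finset V} (hA : A ⊆ N) {pos : V → ℝ}
    (hinj : ∀ x ∈ N, ∀ y ∈ N, pos x = pos y → x = y) {R : V → V → Prop}
    (hF : ∀ k ∈ N, ∀ x ∈ N, (R k x ∨ R x k) → pos k < pos x →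
      (∀ y ∈ N, ¬ (pos k < pos y ∧ pos y < pos x)) ∨ ∀ y ∈ N, pos k ≤ pos y ∧ pos y ≤ pos x)
    (hR : ∀ k ∈ A, ∃ w ∈ A, ∃ w' ∈ A, w ≠ w' ∧ w ≠ k ∧ w' ≠ k ∧ R k w ∧ R k w') {y : V}
    (hy : y ∈ N) (hyA : y ∉ A) : ∀ k ∈ A, ¬ pos y < pos k := by
  classical
  intro k0 hk0 hlt0
  obtain ⟨k, hk, hmin⟩ := Finset.exists_min_image (A.filter fun k => pos y < pos k) pos
    ⟨k0, Finset.mem_filter.2 ⟨hk0, hlt0⟩⟩
  rw [Finset.mem_filter] at hk
  obtain ⟨hkA, hlt⟩ := hk
  have hkN := hA hkA
  have hlow : ∀ w ∈ A, pos w < pos k → R k w → (∀ z ∈ N, pos w ≤ pos z ∧ pos z ≤ pos k) := by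
    intro w hw hwk hRw
    have h1 : pos w < pos y := by
      rcases lt_trichotomy (pos w) (pos y) with h2 | h2 | h2
      · exact h2
      · exact absurd ((hinj w (hA hw) y hy h2) ▸ hw) hyA
      · exact absurd (hmin w (Finset.mem_filter.2 ⟨hw, h2⟩)) (not_le.2 hwk)
    rcases hF w (hA hw) k hkN (Or.inr hRw) hwk with h2 | h2
    · exact absurd ⟨h1, hlt⟩ (h2 y hy)
    · exact h2
  have hup : ∀ w ∈ A, ∀ w' ∈ A, pos k < pos w → pos w < pos w' → R k w' → False := by
    intro w hw w' hw' h1 h2 h3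
    rcases hF k hkN w' (hA hw') (Or.inl h3) (h1.trans h2) with h4 | h4
    · exact h4 w (hA hw) ⟨h1, h2⟩
    · exact absurd (h4 y hy).1 (not_le.2 hlt)
  obtain ⟨w, hw, w', hw', hne, hwk, hwk', hRw, hRw'⟩ := hR k hkA
  have n1 : pos w ≠ pos k := fun he => hwk (hinj w (hA hw) k hkN he)
  have n2 : pos w' ≠ pos k := fun he => hwk' (hinj w' (hA hw') k hkN he)
  have n3 : pos w ≠ pos w' := fun he => hne (hinj w (hA hw) w' (hA hw') he)
  rcases lt_or_gt_of_ne n1 with h1 | h1 <;> rcases lt_or_gt_of_ne n2 with h2 | h2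
  · have h3 := hlow w hw h1 hRw
    have h4 := hlow w' hw' h2 hRw'
    exact n3 (le_antisymm (h3 w' (hA hw')).1 (h4 w (hA hw)).1)
  · exact absurd (hlow w hw h1 hRw w' (hA hw')).2 (not_le.2 h2)
  · exact absurd (hlow w' hw' h2 hRw' w (hA hw)).2 (not_le.2 h1)
  · rcases lt_or_gt_of_ne n3 with h3 | h3
    · exact hup w hw w' hw' h1 h3 hRw'
    · exact hup w' hw' w hw h2 h3 hRw

theorem cyc_all {N A : Finset V} (hA : A ⊆ N) {pos : V → ℝ}
    (hinj : ∀ x ∈ N, ∀ y ∈ N, pos x = pos y → x = y) {R : V → V → Prop}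
    (hF : ∀ k ∈ N, ∀ x ∈ N, (R k x ∨ R x k) → pos k < pos x →
      (∀ y ∈ N, ¬ (pos k < pos y ∧ pos y < pos x)) ∨ ∀ y ∈ N, pos k ≤ pos y ∧ pos y ≤ pos x)
    (hR : ∀ k ∈ A, ∃ w ∈ A, ∃ w' ∈ A, w ≠ w' ∧ w ≠ k ∧ w' ≠ k ∧ R k w ∧ R k w')
    (hne : A.Nonempty) : A = N := by
  by_contra hcon
  obtain ⟨y, hy, hyA⟩ : ∃ y ∈ N, y ∉ A := by
    by_contra hc
    push Not at hc
    exact hcon (Finset.Subset.antisymm hA hc)
  obtain ⟨k, hk⟩ := hne
  have h1 := no_above hA hinj hF hR hy hyA k hk
  have h2 := no_above (pos := fun v => - pos v) hA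
    (fun x hx y hy he => hinj x hx y hy (neg_injective he))
    (R := R) (fun k hk x hx hRk hlt => by
      rcases hF x hx k hk hRk.symm (neg_lt_neg_iff.1 hlt) with h3 | h3
      · left
        intro y hy hc
        exact h3 y hy ⟨neg_lt_neg_iff.1 hc.2, neg_lt_neg_iff.1 hc.1⟩
      · right
        intro y hy
        exact ⟨neg_le_neg (h3 y hy).2, neg_le_neg (h3 y hy).1⟩) hR hy hyA k hk
  have h3 : pos y ≠ pos k := fun he => hyA ((hinj y hy k (hA hk) he) ▸ hk)
  rcases lt_or_gt_of_ne h3 with h4 | h4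
  · exact h1 h4
  · exact h2 (neg_lt_neg h4)

variable [Fintype V]

/-- the position of the neighbours of `c` in the rotation -/
theorem exists_pos {f g : V → ℝ} (h : SD.Strict G f g) (c : V) :
    ∃ pos : V → ℝ, (∀ x, G.Adj c x → ∀ y, G.Adj c y → pos x = pos y → x = y) ∧
      ∀ k, G.Adj c k → ∀ x, G.Adj c x → G.Adj k x → pos k < pos x →
        (∀ y, G.Adj c y → ¬ (pos k < pos y ∧ pos y < pos x)) ∨
          ∀ y, G.Adj c y → pos k ≤ pos y ∧ pos y ≤ pos x := by
  classical
  obtain ⟨K, hK⟩ : ∃ K : ℝ, ∀ v, |f v| < K := by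
    refine ⟨∑ v, |f v| + 1, fun v => ?_⟩
    have := Finset.single_le_sum (f := fun v => |f v|) (fun i _ => abs_nonneg _) (Finset.mem_univ v)
    linarith
  have hK1 : ∀ v, f v - K < 0 := fun v => by linarith [hK v, le_abs_self (f v)]
  have hK2 : ∀ v, 0 < K - f v := fun v => by linarith [hK v, le_abs_self (f v)]
  have hK3 : ∀ v, - K < f v := fun v => by linarith [hK v, neg_abs_le (f v)]
  have hud : ∀ x, G.Adj c x → g x < g c ∨ g c < g x := fun x hx =>
    lt_or_gt_of_ne (h.ginj.ne hx.ne.symm)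
  refine ⟨fun w => if g w < g c then f w - K else K - f w, ?_, ?_⟩
  · intro x hx y hy he
    rcases hud x hx with h1 | h1 <;> rcases hud y hy with h2 | h2
    · simp only [if_pos h1, if_pos h2] at he
      exact h.finj (by linarith)
    · simp only [if_pos h1, if_neg (not_lt.2 h2.le)] at he
      linarith [hK1 x, hK2 y]
    · simp only [if_pos h2, if_neg (not_lt.2 h1.le)] at he
      linarith [hK1 y, hK2 x]
    · simp only [if_neg (not_lt.2 h1.le), if_neg (not_lt.2 h2.le)] at he
      exact h.finj (by linarith)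
  · intro k hk x hx hkx hlt
    rcases hud k hk with h1 | h1 <;> rcases hud x hx with h2 | h2
    · left
      simp only [if_pos h1, if_pos h2] at hlt ⊢
      intro y hy hc
      rcases hud y hy with h3 | h3
      · simp only [if_pos h3] at hc
        exact mid_false h hk hx hy hkx h1 h2 h3 (by linarith [hc.1]) (by linarith [hc.2])
      · simp only [if_neg (not_lt.2 h3.le)] at hc
        linarith [hc.2, hK1 x, hK2 y]
    · simp only [if_pos h1, if_neg (not_lt.2 h2.le)] at hlt ⊢
      by_cases hcm : f c < f k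
      · left
        intro y hy hc
        rcases hud y hy with h3 | h3
        · simp only [if_pos h3] at hc
          have hky : k ≠ y := by rintro rfl; exact lt_irrefl _ hc.1
          have hxy : x ≠ y := by rintro rfl; exact lt_asymm h2 h3
          rcases side h hk hx hy hkx hky hxy h1 h2 with h4 | h4
          · linarith [h4.1]
          · linarith [h4.2.1, hc.1]
        · simp only [if_neg (not_lt.2 h3.le)] at hc
          have hky : k ≠ y := by rintro rfl; exact lt_asymm h1 h3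
          have hxy : x ≠ y := by rintro rfl; exact lt_irrefl _ hc.2
          rcases side h hk hx hy hkx hky hxy h1 h2 with h4 | h4
          · linarith [h4.1]
          · linarith [h4.2.2.2, hc.2]
      · right
        intro y hy
        by_cases hky : k = y
        · subst hky
          simp only [if_pos h1]
          exact ⟨le_rfl, hlt.le⟩
        by_cases hxy : x = y
        · subst hxy
          simp only [if_neg (not_lt.2 h2.le)]
          exact ⟨hlt.le, le_rfl⟩
        rcases side h hk hx hy hkx hky hxy h1 h2 with h4 | h4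
        · rcases hud y hy with h3 | h3
          · simp only [if_pos h3]
            constructor <;> linarith [h4.2.1, hK1 y, hK2 x]
          · simp only [if_neg (not_lt.2 h3.le)]
            constructor <;> linarith [h4.2.2.2, hK1 k, hK2 y]
        · exact absurd h4.1 hcm
    · simp only [if_pos h2, if_neg (not_lt.2 h1.le)] at hlt
      linarith [hK1 x, hK2 k]
    · left
      simp only [if_neg (not_lt.2 h1.le), if_neg (not_lt.2 h2.le)] at hlt ⊢
      intro y hy hc
      rcases hud y hy with h3 | h3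
      · simp only [if_pos h3] at hc
        linarith [hc.1, hK2 k, hK1 y]
      · simp only [if_neg (not_lt.2 h3.le)] at hc
        exact mid_false (strict_neg h) hx hk hy hkx.symm (neg_lt_neg h2) (neg_lt_neg h1)
          (neg_lt_neg h3) (by linarith [hc.2]) (by linarith [hc.1])

variable [DecidableEq V]

theorem cond_of_strict {f g : V → ℝ} (h : SD.Strict G f g) {S : Finset V}
    (hS : ∀ x ∈ S, ∀ y, G.Adj x y → y ∈ S) (hconn : ∀ X, Cl G S X → X = S) {c : V} (hc : c ∈ S)
    {X : Finset V} (hX : Cl G (S.erase c) X) (hne : X ≠ S.erase c) :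
    ∃ k ∈ X, G.Adj c k ∧ Few G S c k := by
  classical
  -- every closed part contains a neighbour of `c`
  have hadj : ∀ Y : Finset V, Cl G (S.erase c) Y → ∃ k ∈ Y, G.Adj c k := by
    intro Y hY
    by_contra hcon
    push Not at hcon
    have h1 : Y = S := by
      apply hconn
      refine ⟨fun x hx => Finset.mem_of_mem_erase (hY.1 hx), hY.2.1, ?_⟩
      intro x hx y hy hxy
      refine hY.2.2 x hx y (Finset.mem_erase.2 ⟨?_, hy⟩) hxy
      rintro rfl
      exact hcon x hx hxy.symm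
    have h2 : c ∈ Y := h1 ▸ hc
    have := hY.1 h2
    simp at this
  by_contra hcon
  push Not at hcon
  obtain ⟨pos, hinj, hF⟩ := exists_pos h c
  have hall : (X.filter fun k => G.Adj c k) = (S.filter fun k => G.Adj c k) := by
    refine cyc_all (pos := pos) (R := fun a b => G.Adj a b) ?_ ?_ ?_ ?_ ?_
    · intro x hx
      rw [Finset.mem_filter] at hx ⊢
      exact ⟨Finset.mem_of_mem_erase (hX.1 hx.1), hx.2⟩
    · intro x hx y hy he
      exact hinj x (Finset.mem_filter.1 hx).2 y (Finset.mem_filter.1 hy).2 he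
    · intro k hk x hx hR hlt
      have hR' : G.Adj k x := by
        rcases hR with hR | hR
        · exact hR
        · exact hR.symm
      rcases hF k (Finset.mem_filter.1 hk).2 x (Finset.mem_filter.1 hx).2 hR' hlt with h1 | h1
      · exact Or.inl fun y hy => h1 y (Finset.mem_filter.1 hy).2
      · exact Or.inr fun y hy => h1 y (Finset.mem_filter.1 hy).2
    · intro k hk
      rw [Finset.mem_filter] at hk
      have h1 := hcon k hk.1 hk.2
      unfold Few at h1
      push Not at h1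
      obtain ⟨w, hw, w', hw', h2, h3, h4, h5, h6⟩ := h1
      refine ⟨w, ?_, w', ?_, h6, h3.ne.symm, h5.ne.symm, h3, h5⟩
      · rw [Finset.mem_filter]
        exact ⟨hX.2.2 k hk.1 w (Finset.mem_erase.2 ⟨h2.ne.symm, hw⟩) h3, h2⟩
      · rw [Finset.mem_filter]
        exact ⟨hX.2.2 k hk.1 w' (Finset.mem_erase.2 ⟨h4.ne.symm, hw'⟩) h5, h4⟩
    · obtain ⟨k, hk, hck⟩ := hadj X hX
      exact ⟨k, Finset.mem_filter.2 ⟨hk, hck⟩⟩
  obtain ⟨k, hk, hck⟩ := hadj _ (hX.compl hne)
  rw [Finset.mem_sdiff] at hk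
  have h1 : k ∈ X.filter fun k => G.Adj c k := by
    rw [hall, Finset.mem_filter]
    exact ⟨Finset.mem_of_mem_erase hk.1, hck⟩
  exact hk.2 (Finset.mem_filter.1 h1).1

/-- **The conditions are necessary.** -/
theorem exists_good {f g : V → ℝ} (h : SD.Strict G f g) {S : Finset V} (hne : S.Nonempty)
    (hS : ∀ x ∈ S, ∀ y, G.Adj x y → y ∈ S) (hconn : ∀ X, Cl G S X → X = S) :
    ∃ a, Good G S a := by
  classical
  obtain ⟨v, hv, hmax⟩ := Finset.exists_max_image S g hne
  refine ⟨v, hv, hconn, ?_⟩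
  intro c hc X hX hX'
  by_cases he : X = S.erase c
  · have hcv : c = v := by
      rcases hX' with h1 | h1
      · exact h1
      · exact absurd he h1
    subst hcv
    -- a neighbour of `v`
    have hnb : (S.filter fun k => G.Adj c k).Nonempty := by
      by_contra hcon
      rw [Finset.not_nonempty_iff_eq_empty] at hcon
      have h1 : X = S := by
        apply hconn
        refine ⟨fun x hx => Finset.mem_of_mem_erase (hX.1 hx), hX.2.1, ?_⟩
        intro x hx y hy hxy
        refine hX.2.2 x hx y (Finset.mem_erase.2 ⟨?_, hy⟩) hxy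
        rintro rfl
        have h2 : x ∈ S.filter fun k => G.Adj y k :=
          Finset.mem_filter.2 ⟨Finset.mem_of_mem_erase (hX.1 hx), hxy.symm⟩
        rw [hcon] at h2
        simp at h2
      have h2 : c ∈ X := h1 ▸ hc
      have := hX.1 h2
      simp at this
    obtain ⟨l, hl, hmin⟩ := Finset.exists_min_image _ f hnb
    rw [Finset.mem_filter] at hl
    refine ⟨l, ?_, hl.2, ?_⟩
    · rw [he]
      exact Finset.mem_erase.2 ⟨hl.2.ne.symm, hl.1⟩
    · have hlow : ∀ x ∈ S, G.Adj c x → g x < g c := fun x hx hcx =>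
        lt_of_le_of_ne (hmax x hx) (h.ginj.ne hcx.ne.symm)
      have hleft : ∀ x ∈ S, G.Adj c x → l ≠ x → f l < f x := fun x hx hcx hlx =>
        lt_of_le_of_ne (hmin x (Finset.mem_filter.2 ⟨hx, hcx⟩)) (h.finj.ne hlx)
      intro w hw w' hw' h1 h2 h3 h4
      by_contra hww
      rcases lt_or_gt_of_ne (h.finj.ne hww) with h5 | h5
      · exact mid_false h hl.2 h3 h1 h4 (hlow l hl.1 hl.2) (hlow w' hw' h3) (hlow w hw h1)
          (hleft w hw h1 h2.ne) h5
      · exact mid_false h hl.2 h1 h3 h2 (hlow l hl.1 hl.2) (hlow w hw h1) (hlow w' hw' h3)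
          (hleft w' hw' h3 h4.ne) h5
  · exact cond_of_strict h hS hconn hc hX he

end Pool.Agent.E8helper59.PT
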