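import Pool.Agent.E8helper59.PT.SysP
import Pool.Agent.E8helper59.PT.Nec
import Pool.Agent.E8helper59.PT.Comp

set_option autoImplicit false
set_option linter.unusedSectionVars false
set_option linter.unusedVariables false

/-!
# The local conditions
-/

namespace Pool.Agent.E8helper59.PT

open Pool.Agent.NPC Pool.Agent.H622R2

section math

variable {V : Type} [Fintype V] [DecidableEq V] {G : SimpleGraph V}

/-- `x` and `y` are separated inside `T` -/
def Sepa (G : SimpleGraph V) (T : Finset V) (x y : V) : Prop :=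
  ∃ f : V → ZMod 2, (∀ u ∈ T, ∀ v ∈ T, G.Adj u v → f u = f v) ∧ f x = 0 ∧ f y = 1

open Classical in
/-- the component of `x` in `T` -/
noncomputable def cmp (G : SimpleGraph V) (T : Finset V) (x : V) : Finset V :=
  T.filter fun y => ¬ Sepa G T x y

theorem mem_cmp {T : Finset V} {x y : V} : y ∈ cmp G T x ↔ y ∈ T ∧ ¬ Sepa G T x y := by
  classical
  unfold cmp
  exact Finset.mem_filter

theorem sepa_of_closed {T X : Finset V} (hX : ∀ x ∈ X, ∀ y ∈ T, G.Adj x y → y ∈ X)
    {x y : V} (hx : x ∈ X) (hy : y ∉ X) : Sepa G T x y := by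
  refine ⟨fun z => if z ∈ X then 0 else 1, fun u hu v hv huv => ?_, if_pos hx, if_neg hy⟩
  by_cases h1 : u ∈ X
  · show (if u ∈ X then (0 : ZMod 2) else 1) = if v ∈ X then 0 else 1
    rw [if_pos h1, if_pos (hX u h1 v hv huv)]
  · show (if u ∈ X then (0 : ZMod 2) else 1) = if v ∈ X then 0 else 1
    rw [if_neg h1, if_neg (fun h2 => h1 (hX v h2 u hu huv.symm))]

theorem not_sepa_self {T : Finset V} (x : V) : ¬ Sepa G T x x := by
  rintro ⟨f, -, h1, h2⟩
  rw [h1] at h2
  exact absurd h2 (by decide)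

theorem self_mem_cmp {T : Finset V} {x : V} (h : x ∈ T) : x ∈ cmp G T x :=
  mem_cmp.2 ⟨h, not_sepa_self x⟩

theorem cmp_closed {T : Finset V} {x y y' : V} (h : y ∈ cmp G T x) (h' : y' ∈ T)
    (hadj : G.Adj y y') : y' ∈ cmp G T x := by
  rw [mem_cmp] at h ⊢
  refine ⟨h', ?_⟩
  rintro ⟨f, h1, h2, h3⟩
  exact h.2 ⟨f, h1, h2, by rw [h1 y h.1 y' h' hadj]; exact h3⟩

theorem cmp_conn {v : V} {X : Finset V} (h : Cl G (cmp G Finset.univ v) X) :
    X = cmp G Finset.univ v := by
  have hX : ∀ x ∈ X, ∀ y ∈ (Finset.univ : Finset V), G.Adj x y → y ∈ X := by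
    intro x hx y _ hxy
    exact h.2.2 x hx y (cmp_closed (h.1 hx) (Finset.mem_univ _) hxy) hxy
  have hv : v ∈ X := by
    by_contra hv
    obtain ⟨x, hx⟩ := h.2.1
    have h1 : Sepa G Finset.univ v x := by
      refine sepa_of_closed (X := Finset.univ \ X) ?_ (by simp [hv]) (by simp [hx])
      intro u hu w _ huw
      rw [Finset.mem_sdiff] at hu ⊢
      exact ⟨Finset.mem_univ _, fun hw => hu.2 (hX w hw u (Finset.mem_univ _) huw.symm)⟩
    exact (mem_cmp.1 (h.1 hx)).2 h1
  apply Finset.Subset.antisymm h.1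
  intro y hy
  by_contra hyX
  exact (mem_cmp.1 hy).2 (sepa_of_closed hX hv hyX)

/-- **The local conditions.** -/
def LC (G : SimpleGraph V) : Prop :=
  ∀ v, ∃ a, ¬ Sepa G Finset.univ v a ∧ ∀ c, ¬ Sepa G Finset.univ v c → ∀ x, x ≠ c →
    ¬ Sepa G Finset.univ v x →
      (c = a ∨ ∃ y, y ≠ c ∧ ¬ Sepa G Finset.univ v y ∧ Sepa G (Finset.univ.erase c) x y) →
        ∃ k, k ≠ c ∧ ¬ Sepa G (Finset.univ.erase c) x k ∧ G.Adj c k ∧ Few G Finset.univ c k

theorem few_cmp {v c k : V} (hc : c ∈ cmp G Finset.univ v) :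
    Few G (cmp G Finset.univ v) c k ↔ Few G Finset.univ c k := by
  constructor
  · intro h w _ w' _ h1 h2 h3 h4
    exact h w (cmp_closed hc (Finset.mem_univ _) h1) w' (cmp_closed hc (Finset.mem_univ _) h3)
      h1 h2 h3 h4
  · intro h w _ w' _ h1 h2 h3 h4
    exact h w (Finset.mem_univ _) w' (Finset.mem_univ _) h1 h2 h3 h4

theorem good_cmp {v a : V} : Good G (cmp G Finset.univ v) a ↔
    ¬ Sepa G Finset.univ v a ∧ ∀ c, ¬ Sepa G Finset.univ v c → ∀ x, x ≠ c →
    ¬ Sepa G Finset.univ v x →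
      (c = a ∨ ∃ y, y ≠ c ∧ ¬ Sepa G Finset.univ v y ∧ Sepa G (Finset.univ.erase c) x y) →
        ∃ k, k ≠ c ∧ ¬ Sepa G (Finset.univ.erase c) x k ∧ G.Adj c k ∧ Few G Finset.univ c k := by
  have mem : ∀ y, y ∈ cmp G Finset.univ v ↔ ¬ Sepa G Finset.univ v y := fun y => by
    rw [mem_cmp]; simp
  constructor
  · intro h
    refine ⟨(mem a).1 h.mem, fun c hc x hxc hx hcond => ?_⟩
    have hcS := (mem c).2 hc
    have hxS := (mem x).2 hx
    -- the component of `x`
    have hsub : ∀ y ∈ cmp G (Finset.univ.erase c) x, y ∈ (cmp G Finset.univ v).erase c := by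
      intro y hy
      have h1 := mem_cmp.1 hy
      rw [Finset.mem_erase]
      refine ⟨(Finset.mem_erase.1 h1.1).1, ?_⟩
      by_contra hyS
      apply h1.2
      refine sepa_of_closed (X := (cmp G Finset.univ v).erase c) ?_
        (Finset.mem_erase.2 ⟨hxc, hxS⟩) (fun h => hyS (Finset.mem_erase.1 h).2)
      intro u hu w hw huw
      rw [Finset.mem_erase] at hu hw ⊢
      exact ⟨hw.1, cmp_closed hu.2 (Finset.mem_univ _) huw⟩
    have hCl : Cl G ((cmp G Finset.univ v).erase c) (cmp G (Finset.univ.erase c) x) := by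
      refine ⟨hsub, ⟨x, self_mem_cmp (Finset.mem_erase.2 ⟨hxc, Finset.mem_univ _⟩)⟩, ?_⟩
      intro u hu w hw huw
      exact cmp_closed hu (Finset.mem_erase.2 ⟨(Finset.mem_erase.1 hw).1, Finset.mem_univ _⟩) huw
    obtain ⟨k, hk, hck, hfew⟩ := h.cond c hcS _ hCl (by
      rcases hcond with h1 | ⟨y, hyc, hy, hxy⟩
      · exact Or.inl h1
      · right
        intro he
        have : y ∈ cmp G (Finset.univ.erase c) x := by
          rw [he]
          exact Finset.mem_erase.2 ⟨hyc, (mem y).2 hy⟩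
        exact (mem_cmp.1 this).2 hxy)
    have hk' := mem_cmp.1 hk
    exact ⟨k, (Finset.mem_erase.1 hk'.1).1, hk'.2, hck, (few_cmp hcS).1 hfew⟩
  · rintro ⟨ha, h⟩
    refine ⟨(mem a).2 ha, fun X hX => cmp_conn hX, fun c hcS X hX hcond => ?_⟩
    obtain ⟨x, hx⟩ := hX.2.1
    have hxS := hX.1 hx
    rw [Finset.mem_erase] at hxS
    have hXc : ∀ u ∈ X, ∀ w ∈ Finset.univ.erase c, G.Adj u w → w ∈ X := by
      intro u hu w hw huw
      have h1 := Finset.mem_erase.1 (hX.1 hu)
      exact hX.2.2 u hu w (Finset.mem_erase.2 ⟨(Finset.mem_erase.1 hw).1,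
        cmp_closed h1.2 (Finset.mem_univ _) huw⟩) huw
    obtain ⟨k, hkc, hxk, hck, hfew⟩ := h c ((mem c).1 hcS) x hxS.1 ((mem x).1 hxS.2) (by
      rcases hcond with h1 | h1
      · exact Or.inl h1
      · right
        have h2 : ¬ (cmp G Finset.univ v).erase c ⊆ X := fun hs =>
          h1 (Finset.Subset.antisymm hX.1 hs)
        rw [Finset.not_subset] at h2
        obtain ⟨y, hy, hyX⟩ := h2
        rw [Finset.mem_erase] at hy
        exact ⟨y, hy.1, (mem y).1 hy.2, sepa_of_closed hXc hx hyX⟩)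
    refine ⟨k, ?_, hck, (few_cmp hcS).2 hfew⟩
    by_contra hkX
    exact hxk (sepa_of_closed hXc hx hkX)

/-- **The criterion.** -/
theorem rect_iff (h3 : 3 ≤ Fintype.card V) :
    SD.RectContact G ↔ TSys (H3 G) ∧ LC G := by
  constructor
  · intro h
    refine ⟨TSys_H3 h, fun v => ?_⟩
    obtain ⟨f, g, hs⟩ := SD.strict_of_rect h
    obtain ⟨a, ha⟩ := exists_good hs (S := cmp G Finset.univ v)
      ⟨v, self_mem_cmp (Finset.mem_univ _)⟩
      (fun x hx y hxy => cmp_closed hx (Finset.mem_univ _) hxy) (fun X hX => cmp_conn hX)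
    exact ⟨a, good_cmp.1 ha⟩
  · rintro ⟨hT, hL⟩
    obtain ⟨pos, hpos⟩ := hT.exists_PL
    apply SD.rect_of_strict
    apply strict_of_comps
    intro v
    obtain ⟨a, ha⟩ := hL v
    have hG : Good G (cmp G Finset.univ v) a := good_cmp.2 ha
    obtain ⟨f, g, hI, -⟩ := Q_of_PL hpos hG (by
      have h4 : 2 ≤ (Finset.univ.erase a).card := by
        rw [Finset.card_erase_of_mem (Finset.mem_univ _), Finset.card_univ]
        omega
      obtain ⟨b, hb, c, hc, hbc⟩ := Finset.one_lt_card.1 h4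
      exact ⟨b, c, (Finset.mem_erase.1 hb).1.symm, (Finset.mem_erase.1 hc).1.symm, hbc⟩)
    exact ⟨cmp G Finset.univ v, self_mem_cmp (Finset.mem_univ _),
      fun x hx y hxy => cmp_closed hx (Finset.mem_univ _) hxy, fun X hX => cmp_conn hX, f, g, hI⟩

theorem rect_small (h3 : Fintype.card V ≤ 2) : SD.RectContact G := by
  classical
  have key : ∀ a b c : V, a ≠ b → a ≠ c → b ≠ c → False := by
    intro a b c h1 h2 h4
    have h5 : ({a, b, c} : Finset V).card = 3 := card_triple h1 h2 h4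
    have h6 := Finset.card_le_univ ({a, b, c} : Finset V)
    omega
  apply SD.rect_of_strict
  refine ⟨fun v => ((Fintype.equivFin V v).1 : ℝ), fun v => ((Fintype.equivFin V v).1 : ℝ),
    fun u v huv => ?_, fun u v huv => ?_, ?_, ?_⟩
  · exact (Fintype.equivFin V).injective (Fin.ext (by exact_mod_cast huv))
  · exact (Fintype.equivFin V).injective (Fin.ext (by exact_mod_cast huv))
  · intro a b c d hab _ h1 _ h2 _
    exact absurd (key a b c hab.ne h1 h2) id
  · intro a b w hab h1 h2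
    exact absurd (key a b w hab.ne h1.symm h2.symm) id

end math

end Pool.Agent.E8helper59.PT
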