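import Mathlib

set_option autoImplicit false
set_option linter.unusedSectionVars false

/-!
# Normal spanning forests
-/

namespace Pool.Agent.E8helper59.PT

variable {V : Type}

/-- a normal spanning forest, given as a partial order -/
structure NF [PartialOrder V] (G : SimpleGraph V) : Prop where
  chain : ∀ x y z : V, x ≤ z → y ≤ z → x ≤ y ∨ y ≤ x
  comp : ∀ x y, G.Adj x y → x ≤ y ∨ y ≤ x
  cov : ∀ x y, x ⋖ y → G.Adj x y

/-- connectedness outside of `A` -/
def RA (G : SimpleGraph V) (A : Finset V) : V → V → Prop :=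
  Relation.ReflTransGen fun x y => x ∉ A ∧ y ∉ A ∧ G.Adj x y

/-- a partial normal forest -/
structure PNF (G : SimpleGraph V) (A : Finset V) (le : V → V → Prop) : Prop where
  mem : ∀ x y, le x y → x ∈ A ∧ y ∈ A
  refl : ∀ x ∈ A, le x x
  anti : ∀ x y, le x y → le y x → x = y
  trans : ∀ x y z, le x y → le y z → le x z
  chain : ∀ x y z, le x z → le y z → le x y ∨ le y x
  comp : ∀ x ∈ A, ∀ y ∈ A, G.Adj x y → le x y ∨ le y x
  cov : ∀ x y, le x y → x ≠ y → (∀ z, le x z → le z y → z = x ∨ z = y) → G.Adj x y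
  ext : ∀ x y, x ∉ A → y ∉ A → RA G A x y → ∀ a ∈ A, ∀ b ∈ A, G.Adj x a → G.Adj y b →
    le a b ∨ le b a

theorem RA.symm {G : SimpleGraph V} {A : Finset V} {x y : V} (h : RA G A x y) : RA G A y x := by
  unfold RA at *
  induction h with
  | refl => exact Relation.ReflTransGen.refl
  | tail _ h2 ih => exact Relation.ReflTransGen.head ⟨h2.2.1, h2.1, h2.2.2.symm⟩ ih

theorem PNF.add [DecidableEq V] {G : SimpleGraph V} {A : Finset V} {le : V → V → Prop}
    (h : PNF G A le) {k : V} (hk : k ∉ A) (D : V → Prop) (h1 : ∀ x, D x → x ∈ A)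
    (h2 : ∀ x y, le y x → D x → D y) (h3 : ∀ x y, D x → D y → le x y ∨ le y x)
    (h4 : ∀ a ∈ A, ∀ x, x ∉ A → RA G A k x → G.Adj x a → D a)
    (h5 : ∀ x, D x → (∀ z, D z → le x z → z = x) → G.Adj x k) :
    PNF G (insert k A) fun x y => le x y ∨ (y = k ∧ (x = k ∨ D x)) := by
  have hkA : ∀ x, x ∈ A → x ≠ k := fun x hx he => hk (he ▸ hx)
  constructor
  · rintro x y (h | ⟨rfl, rfl | h⟩)
    · exact ⟨Finset.mem_insert_of_mem (‹PNF G A le›.mem x y h).1,
        Finset.mem_insert_of_mem (‹PNF G A le›.mem x y h).2⟩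
    · simp
    · exact ⟨Finset.mem_insert_of_mem (h1 x h), Finset.mem_insert_self _ _⟩
  · intro x hx
    rcases Finset.mem_insert.1 hx with rfl | hx
    · exact Or.inr ⟨rfl, Or.inl rfl⟩
    · exact Or.inl (h.refl x hx)
  · rintro x y (a | ⟨a, a'⟩) (b | ⟨b, b'⟩)
    · exact h.anti x y a b
    · exact absurd b (hkA x (h.mem x y a).1)
    · exact absurd a (hkA y (h.mem y x b).1)
    · rw [a, b]
  · rintro x y z (a | ⟨a, a'⟩) (b | ⟨b, b' | b'⟩)
    · exact Or.inl (h.trans x y z a b)
    · exact absurd b' (hkA y (h.mem x y a).2)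
    · exact Or.inr ⟨b, Or.inr (h2 y x a b')⟩
    · exact absurd a (hkA y (h.mem y z b).1)
    · exact Or.inr ⟨b, a'⟩
    · exact Or.inr ⟨b, a'⟩
  · rintro x y z (a | ⟨a, a'⟩) (b | ⟨b, b'⟩)
    · exact (h.chain x y z a b).imp Or.inl Or.inl
    · exact absurd b (hkA z (h.mem x z a).2)
    · exact absurd a (hkA z (h.mem y z b).2)
    · rcases a' with rfl | a'
      · exact Or.inr (Or.inr ⟨rfl, b'⟩)
      · rcases b' with rfl | b'
        · exact Or.inl (Or.inr ⟨rfl, Or.inr a'⟩)
        · exact (h3 x y a' b').imp Or.inl Or.inl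
  · intro x hx y hy hxy
    rcases Finset.mem_insert.1 hx with e1 | e1 <;> rcases Finset.mem_insert.1 hy with e2 | e2
    · rw [e1, e2] at hxy
      exact absurd rfl hxy.ne
    · subst e1
      exact Or.inr (Or.inr ⟨rfl, Or.inr (h4 y e2 x hk Relation.ReflTransGen.refl hxy)⟩)
    · subst e2
      exact Or.inl (Or.inr ⟨rfl, Or.inr (h4 x e1 y hk Relation.ReflTransGen.refl hxy.symm)⟩)
    · exact (h.comp x e1 y e2 hxy).imp Or.inl Or.inl
  · rintro x y (a | ⟨a, a'⟩) hne hb
    · exact h.cov x y a hne (fun z hz1 hz2 => hb z (Or.inl hz1) (Or.inl hz2))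
    · subst a
      rcases a' with rfl | a'
      · exact absurd rfl hne
      · refine h5 x a' (fun z hz hxz => ?_)
        rcases hb z (Or.inl hxz) (Or.inr ⟨rfl, Or.inr hz⟩) with h' | h'
        · exact h'
        · exact absurd h' (hkA z (h1 z hz))
  · intro x y hx hy hR a ha b hb hxa hyb
    rw [Finset.mem_insert, not_or] at hx hy
    have hmono : ∀ {x y}, RA G (insert k A) x y → RA G A x y := by
      intro x y hxy
      unfold RA at *
      induction hxy with
      | refl => exact Relation.ReflTransGen.refl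
      | tail _ h2 ih =>
        obtain ⟨u1, u2, u3⟩ := h2
        rw [Finset.mem_insert, not_or] at u1 u2
        exact ih.tail ⟨u1.2, u2.2, u3⟩
    have hR' := hmono hR
    rcases Finset.mem_insert.1 ha with e1 | e1 <;> rcases Finset.mem_insert.1 hb with e2 | e2
    · exact Or.inl (Or.inr ⟨e2, Or.inl (e1.trans rfl)⟩)
    · subst e1
      refine Or.inr (Or.inr ⟨rfl, Or.inr (h4 b e2 y hy.2 ?_ hyb)⟩)
      exact Relation.ReflTransGen.head ⟨hk, hx.2, hxa.symm⟩ hR'
    · subst e2
      refine Or.inl (Or.inr ⟨rfl, Or.inr (h4 a e1 x hx.2 ?_ hxa)⟩)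
      exact Relation.ReflTransGen.head ⟨hk, hy.2, hyb.symm⟩ hR'.symm
    · exact (h.ext x y hx.2 hy.2 hR' a e1 b e2 hxa hyb).imp Or.inl Or.inl

theorem PNF.step [Fintype V] [DecidableEq V] {G : SimpleGraph V} {A : Finset V}
    {le : V → V → Prop} (h : PNF G A le) (hA : A ≠ Finset.univ) :
    ∃ k le', k ∉ A ∧ PNF G (insert k A) le' := by
  classical
  obtain ⟨v, hv⟩ : ∃ v, v ∉ A := by
    by_contra hc
    push Not at hc
    exact hA (Finset.eq_univ_iff_forall.2 hc)
  obtain ⟨N, hN⟩ : ∃ N : Finset V, N = A.filter fun a => ∃ x, x ∉ A ∧ RA G A v x ∧ G.Adj x a :=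
    ⟨_, rfl⟩
  have hNm : ∀ a, a ∈ N ↔ a ∈ A ∧ ∃ x, x ∉ A ∧ RA G A v x ∧ G.Adj x a := by
    intro a; rw [hN, Finset.mem_filter]
  rcases N.eq_empty_or_nonempty with h0 | h0
  · refine ⟨v, _, hv, h.add hv (fun _ => False) (by simp) (by simp) (by simp) ?_ (by simp)⟩
    intro a ha x hx hvx hxa
    have : a ∈ N := (hNm a).2 ⟨ha, x, hx, hvx, hxa⟩
    rw [h0] at this
    simp at this
  · -- the maximum of `N`
    have hmax : ∃ m ∈ N, ∀ a ∈ N, le a m := by
      have hch : ∀ a ∈ N, ∀ b ∈ N, le a b ∨ le b a := by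
        intro a ha b hb
        obtain ⟨ha1, x, hx, hvx, hxa⟩ := (hNm a).1 ha
        obtain ⟨hb1, y, hy, hvy, hyb⟩ := (hNm b).1 hb
        exact h.ext x y hx hy (hvx.symm.trans hvy) a ha1 b hb1 hxa hyb
      obtain ⟨m, hm, hmm⟩ := Finset.exists_max_image N
        (fun a => (Finset.univ.filter fun b => le b a).card) h0
      refine ⟨m, hm, fun a ha => ?_⟩
      rcases hch a ha m hm with h1 | h1
      · exact h1
      · by_cases he : a = m
        · rw [he]; exact h.refl m ((hNm m).1 hm).1
        · exfalso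
          have h2 := hmm a ha
          have h3 : (Finset.univ.filter fun b => le b m).card <
              (Finset.univ.filter fun b => le b a).card := by
            apply Finset.card_lt_card
            refine ⟨fun b hb => ?_, fun hs => ?_⟩
            · rw [Finset.mem_filter] at hb ⊢
              exact ⟨hb.1, h.trans b m a hb.2 h1⟩
            · have h4 : a ∈ Finset.univ.filter fun b => le b m := hs (by
                rw [Finset.mem_filter]
                exact ⟨Finset.mem_univ _, h.refl a ((hNm a).1 ha).1⟩)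
              rw [Finset.mem_filter] at h4
              exact he (h.anti a m h4.2 h1)
          omega
    obtain ⟨m, hm, hmm⟩ := hmax
    obtain ⟨hm1, k, hk, hvk, hkm⟩ := (hNm m).1 hm
    refine ⟨k, _, hk, h.add hk (fun x => le x m) (fun x hx => (h.mem x m hx).1)
      (fun x y hyx hx => h.trans y x m hyx hx) (fun x y hx hy => h.chain x y m hx hy) ?_ ?_⟩
    · intro a ha x hx hkx hxa
      exact hmm a ((hNm a).2 ⟨ha, x, hx, hvk.trans hkx, hxa⟩)
    · intro x hx hmx
      have : m = x := hmx m (h.refl m hm1) hx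
      rw [← this]
      exact hkm.symm

/-- **Every finite graph has a normal spanning forest.** -/
theorem exists_NF [Finite V] (G : SimpleGraph V) : ∃ P : PartialOrder V, @NF V P G := by
  classical
  cases nonempty_fintype V
  have key : ∀ n, n ≤ Fintype.card V → ∃ A : Finset V, ∃ le, A.card = n ∧ PNF G A le := by
    intro n
    induction n with
    | zero =>
      intro _
      refine ⟨∅, fun _ _ => False, rfl, ?_⟩
      constructor <;> simp
    | succ n ih =>
      intro hn
      obtain ⟨A, le, hA, h⟩ := ih (by omega)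
      have hne : A ≠ Finset.univ := by
        rintro rfl
        rw [Finset.card_univ] at hA
        omega
      obtain ⟨k, le', hk, h'⟩ := h.step hne
      exact ⟨_, le', by rw [Finset.card_insert_of_notMem hk, hA], h'⟩
  obtain ⟨A, le, hA, h⟩ := key _ le_rfl
  have hu : A = Finset.univ := (Finset.card_eq_iff_eq_univ A).1 hA
  subst hu
  let P : PartialOrder V :=
    { le := le
      le_refl := fun x => h.refl x (Finset.mem_univ _)
      le_trans := h.trans
      le_antisymm := h.anti }
  refine ⟨P, ⟨h.chain, fun x y => h.comp x (Finset.mem_univ _) y (Finset.mem_univ _), ?_⟩⟩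
  intro x y hxy
  refine h.cov x y hxy.1.le hxy.1.ne (fun z hxz hzy => ?_)
  by_contra hc
  rw [not_or] at hc
  have h1 : x < z := lt_of_le_of_ne (show x ≤ z from hxz) (Ne.symm hc.1)
  have h2 : z < y := lt_of_le_of_ne (show z ≤ y from hzy) hc.2
  exact hxy.2 h1 h2

end Pool.Agent.E8helper59.PT
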