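import Pool.Agent.E8helper59.PT.Disc

set_option autoImplicit false
set_option linter.unusedSectionVars false

/-!
# Potentials: existence by duality
-/

namespace Pool.Agent.E8helper59.PT

/-- Solving `r ∘ φ = r + t`. -/
theorem orbit_solve {D : Type} [Fintype D] (φ : Equiv.Perm D) (t : D → ZMod 2)
    (h : ∀ c : D → ZMod 2, (∀ d, c (φ d) = c d) → ∑ d, c d * t d = 0) :
    ∃ r : D → ZMod 2, ∀ d, r (φ d) = r d + t d := by
  classical
  let L : (D → ZMod 2) →ₗ[ZMod 2] (D → ZMod 2) :=
    { toFun := fun r d => r (φ d) + r d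
      map_add' := fun r s => by
        funext d
        simp only [Pi.add_apply]
        ring
      map_smul' := fun a r => by
        funext d
        simp only [Pi.smul_apply, smul_eq_mul, RingHom.id_apply]
        ring }
  by_cases ht : t ∈ LinearMap.range L
  · obtain ⟨r, hr⟩ := ht
    refine ⟨r, fun d => ?_⟩
    have h1 : r (φ d) + r d = t d := congrFun hr d
    rw [← h1]
    have : ∀ a b : ZMod 2, a = b + (a + b) := by decide
    exact this _ _
  · exfalso
    obtain ⟨f, hf1, hf2⟩ := Submodule.exists_le_ker_of_notMem ht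
    apply hf1
    rw [LinearMap.pi_apply_eq_sum_univ f t]
    have hc : ∀ d, f (fun j => if φ d = j then 1 else 0) = f (fun j => if d = j then 1 else 0) := by
      intro d
      have h1 : L (fun j => if φ d = j then 1 else 0) ∈ LinearMap.range L := ⟨_, rfl⟩
      have h2 := hf2 h1
      rw [LinearMap.mem_ker] at h2
      have h3 : L (fun j => if φ d = j then 1 else 0) =
          (fun j => if d = j then 1 else 0) + (fun j => if φ d = j then 1 else 0) := by
        funext j
        show (if φ d = φ j then (1 : ZMod 2) else 0) + (if φ d = j then 1 else 0) = _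
        simp only [EmbeddingLike.apply_eq_iff_eq, Pi.add_apply]
      rw [h3, map_add] at h2
      have : ∀ a b : ZMod 2, a + b = 0 → b = a := by decide
      exact this _ _ h2
    have h4 := h (fun d => f (fun j => if d = j then 1 else 0)) hc
    refine Eq.trans ?_ h4
    apply Finset.sum_congr rfl
    intro d _
    rw [smul_eq_mul, mul_comm]

/-- A plane map given by rotations, in which every triangle is a face. -/
structure PMap {V : Type} [Fintype V] (B : SimpleGraph V) (rot : V → Equiv.Perm V) : Prop where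
  adj_rot : ∀ v u, B.Adj v u → B.Adj v (rot v u)
  cyc : ∀ v u w, B.Adj v u → B.Adj v w → (rot v).SameCycle u w
  fac : ∀ a b c, B.Adj a b → B.Adj b c → B.Adj c a →
    (rot b a = c ∧ rot c b = a ∧ rot a c = b) ∨ (rot a b = c ∧ rot b c = a ∧ rot c a = b)
  pot : ∀ z : V → V → ZMod 2, (∀ u v, z u v = z v u) → (∀ u v, z u v ≠ 0 → B.Adj u v) →
    (∀ u, ∑ v, z u v = 0) → ∃ S : V → V → ZMod 2, (∀ u v, B.Adj u v → S u v = S v (rot v u)) ∧
      ∀ u v, B.Adj u v → S u v + S v u = z u v
  conn : ∀ X : Set V, X.Nonempty → (∀ u ∈ X, ∀ v, B.Adj u v → v ∈ X) → ∀ v, v ∈ X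
  deg : ∀ u v, B.Adj u v → rot v u ≠ u

end Pool.Agent.E8helper59.PT
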