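import Pool.Agent.E8helper59.PT.Orbit

set_option autoImplicit false
set_option linter.unusedSectionVars false

/-!
# Planar rotations
-/

namespace Pool.Agent.E8helper59.PT

open Classical

variable {V : Type} [Fintype V]

/-- the parity of the `z`-edges at `u` before `v` -/
noncomputable def cnt (pos : V → V → ℝ) (z : V → V → ZMod 2) (u v : V) : ZMod 2 :=
  ∑ w, if pos u w < pos u v then z u w else 0

/-- The rotation given by `pos` is planar. -/
structure PL (G : SimpleGraph V) (pos : V → V → ℝ) : Prop where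
  inj : ∀ v u w, G.Adj v u → G.Adj v w → pos v u = pos v w → u = w
  pl : ∀ z : V → V → ZMod 2, (∀ u v, z u v = z v u) → (∀ u v, z u v ≠ 0 → G.Adj u v) →
    (∀ u, ∑ v, z u v = 0) → ∃ α : V → ZMod 2, ∀ u v, G.Adj u v →
      α u + α v = cnt pos z u v + cnt pos z v u + z u v

theorem PL.mono {G G' : SimpleGraph V} {pos : V → V → ℝ} (h : PL G pos) (hG : G' ≤ G) :
    PL G' pos where
  inj v u w h1 h2 := h.inj v u w (hG h1) (hG h2)
  pl z zs za ze := by
    obtain ⟨α, hα⟩ := h.pl z zs (fun u v huv => hG (za u v huv)) ze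
    exact ⟨α, fun u v huv => hα u v (hG huv)⟩

/-- the cyclic successor in a finite set ordered by an injective function -/
theorem exists_rot (N : Finset V) (p : V → ℝ) (hp : ∀ u ∈ N, ∀ w ∈ N, p u = p w → u = w) :
    ∃ σ : Equiv.Perm V, (∀ u ∈ N, σ u ∈ N) ∧ (∀ u ∈ N, ∀ w ∈ N, σ.SameCycle u w) ∧
      ∀ u ∈ N, (p u < p (σ u) ∧ ∀ w ∈ N, p u < p w → p (σ u) ≤ p w) ∨
        ((∀ w ∈ N, p w ≤ p u) ∧ ∀ w ∈ N, p (σ u) ≤ p w) := by
  obtain ⟨l, hl⟩ : ∃ l, l = List.insertionSort (fun a b => p a ≤ p b) N.toList := ⟨_, rfl⟩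
  have htot : Std.Total (fun a b : V => p a ≤ p b) := ⟨fun a b => le_total _ _⟩
  have htr : IsTrans V (fun a b : V => p a ≤ p b) := ⟨fun a b c h1 h2 => le_trans h1 h2⟩
  have hperm : l.Perm N.toList := by rw [hl]; exact List.perm_insertionSort _ _
  have hmem : ∀ x, x ∈ l ↔ x ∈ N := fun x => by rw [hperm.mem_iff, Finset.mem_toList]
  have hnd : l.Nodup := hperm.nodup_iff.2 (Finset.nodup_toList N)
  have hsort : l.Pairwise fun a b => p a ≤ p b := by
    rw [hl]; exact List.pairwise_insertionSort _ _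
  have hlt : ∀ (i j : ℕ) (hi : i < l.length) (hj : j < l.length), i < j → p l[i] < p l[j] := by
    intro i j hi hj hij
    have h1 := List.pairwise_iff_getElem.1 hsort i j hi hj hij
    refine lt_of_le_of_ne h1 (fun he => ?_)
    have h2 := hp _ ((hmem _).1 (List.getElem_mem hi)) _ ((hmem _).1 (List.getElem_mem hj)) he
    have h3 := (List.Nodup.getElem_inj_iff hnd).1 h2
    omega
  have hle : ∀ (i j : ℕ) (hi : i < l.length) (hj : j < l.length), i ≤ j → p l[i] ≤ p l[j] := by
    intro i j hi hj hij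
    rcases Nat.lt_or_ge i j with h1 | h1
    · exact (hlt i j hi hj h1).le
    · have : i = j := by omega
      subst this
      exact le_rfl
  refine ⟨l.formPerm, ?_, ?_, ?_⟩
  · intro u hu
    exact (hmem _).1 (List.formPerm_apply_mem_of_mem ((hmem u).2 hu))
  · intro u hu w hw
    obtain ⟨i, hi, rfl⟩ := List.getElem_of_mem ((hmem u).2 hu)
    obtain ⟨j, hj, rfl⟩ := List.getElem_of_mem ((hmem w).2 hw)
    refine ⟨((j + l.length - i : ℕ) : ℤ), ?_⟩
    rw [zpow_natCast, List.formPerm_pow_apply_getElem l hnd _ _ hi]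
    have : (i + (j + l.length - i)) % l.length = j := by
      have h1 : i + (j + l.length - i) = j + l.length := by omega
      rw [h1, Nat.add_mod_right, Nat.mod_eq_of_lt hj]
    simp only [this]
  · intro u hu
    obtain ⟨i, hi, rfl⟩ := List.getElem_of_mem ((hmem u).2 hu)
    rcases Nat.lt_or_ge (i + 1) l.length with h1 | h1
    · left
      rw [List.formPerm_apply_lt_getElem l hnd i h1]
      refine ⟨hlt _ _ hi h1 (Nat.lt_succ_self i), ?_⟩
      intro w hw hlt'
      obtain ⟨j, hj, rfl⟩ := List.getElem_of_mem ((hmem w).2 hw)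
      have h2 : i < j := by
        by_contra hc
        exact absurd (hle j i hj hi (by omega)) (not_le.2 hlt')
      exact hle _ _ h1 hj h2
    · right
      rw [List.formPerm_apply_getElem l hnd i hi]
      have h0 : (i + 1) % l.length = 0 := by
        have : i + 1 = l.length := by omega
        rw [this, Nat.mod_self]
      simp only [h0]
      constructor
      · intro w hw
        obtain ⟨j, hj, rfl⟩ := List.getElem_of_mem ((hmem w).2 hw)
        exact hle _ _ hj hi (by omega)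
      · intro w hw
        obtain ⟨j, hj, rfl⟩ := List.getElem_of_mem ((hmem w).2 hw)
        exact hle _ _ (by omega) hj (Nat.zero_le _)

/-- `rot` is the rotation given by `pos` -/
structure RotOf (G : SimpleGraph V) (pos : V → V → ℝ) (rot : V → Equiv.Perm V) : Prop where
  adj_rot : ∀ v u, G.Adj v u → G.Adj v (rot v u)
  cyc : ∀ v u w, G.Adj v u → G.Adj v w → (rot v).SameCycle u w
  nxt : ∀ v u, G.Adj v u → (pos v u < pos v (rot v u) ∧
      ∀ w, G.Adj v w → pos v u < pos v w → pos v (rot v u) ≤ pos v w) ∨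
    ((∀ w, G.Adj v w → pos v w ≤ pos v u) ∧ ∀ w, G.Adj v w → pos v (rot v u) ≤ pos v w)

theorem exists_rotOf {G : SimpleGraph V} {pos : V → V → ℝ}
    (hp : ∀ v u w, G.Adj v u → G.Adj v w → pos v u = pos v w → u = w) :
    ∃ rot : V → Equiv.Perm V, RotOf G pos rot := by
  have h1 : ∀ v, ∃ σ : Equiv.Perm V, (∀ u ∈ Finset.univ.filter (G.Adj v), σ u ∈
      Finset.univ.filter (G.Adj v)) ∧ (∀ u ∈ Finset.univ.filter (G.Adj v),
      ∀ w ∈ Finset.univ.filter (G.Adj v), σ.SameCycle u w) ∧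
      ∀ u ∈ Finset.univ.filter (G.Adj v), (pos v u < pos v (σ u) ∧
        ∀ w ∈ Finset.univ.filter (G.Adj v), pos v u < pos v w → pos v (σ u) ≤ pos v w) ∨
        ((∀ w ∈ Finset.univ.filter (G.Adj v), pos v w ≤ pos v u) ∧
          ∀ w ∈ Finset.univ.filter (G.Adj v), pos v (σ u) ≤ pos v w) := by
    intro v
    apply exists_rot
    intro u hu w hw he
    exact hp v u w (Finset.mem_filter.1 hu).2 (Finset.mem_filter.1 hw).2 he
  choose rot h2 using h1
  simp only [Finset.mem_filter, Finset.mem_univ, true_and] at h2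
  exact ⟨rot, fun v u hvu => (h2 v).1 u hvu, fun v u w hvu hvw => (h2 v).2.1 u hvu w hvw,
    fun v u hvu => (h2 v).2.2 u hvu⟩

/-- the number of `z`-edges before the next edge -/
theorem RotOf.cnt_next {G : SimpleGraph V} {pos : V → V → ℝ} {rot : V → Equiv.Perm V}
    (h : RotOf G pos rot) (hinj : ∀ v u w, G.Adj v u → G.Adj v w → pos v u = pos v w → u = w)
    {z : V → V → ZMod 2} (za : ∀ u v, z u v ≠ 0 → G.Adj u v) (ze : ∀ u, ∑ v, z u v = 0)
    {v u : V} (hvu : G.Adj v u) : cnt pos z v (rot v u) = cnt pos z v u + z v u := by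
  unfold cnt
  have hz : z v u = ∑ w, if w = u then z v w else 0 := by simp
  rw [hz, ← Finset.sum_add_distrib]
  rcases h.nxt v u hvu with ⟨h1, h2⟩ | ⟨h1, h2⟩
  · apply Finset.sum_congr rfl
    intro w _
    by_cases hw : z v w = 0
    · rw [hw]; simp
    · have hvw := za v w hw
      by_cases hwu : w = u
      · rw [if_pos hwu, if_pos (by rw [hwu]; exact h1), if_neg (by rw [hwu]; exact lt_irrefl _),
          zero_add]
      · rw [if_neg hwu, add_zero]
        rcases lt_or_gt_of_ne (fun he => hwu (hinj v w u hvw hvu he)) with h3 | h3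
        · rw [if_pos h3, if_pos (h3.trans h1)]
        · rw [if_neg (not_lt.2 h3.le), if_neg (not_lt.2 (h2 w hvw h3))]
  · have h3 : ∀ w, (if pos v w < pos v (rot v u) then z v w else 0) = 0 := by
      intro w
      by_cases hw : z v w = 0
      · rw [hw]; simp
      · rw [if_neg (not_lt.2 (h2 w (za v w hw)))]
    rw [Finset.sum_eq_zero (fun w _ => h3 w)]
    refine (Eq.trans ?_ (ze v)).symm
    apply Finset.sum_congr rfl
    intro w _
    by_cases hw : z v w = 0
    · rw [hw]; simp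
    · have hvw := za v w hw
      by_cases hwu : w = u
      · rw [if_pos hwu, if_neg (by rw [hwu]; exact lt_irrefl _), zero_add]
      · rw [if_neg hwu, add_zero, if_pos (lt_of_le_of_ne (h1 w hvw)
          (fun he => hwu (hinj v w u hvw hvu he)))]

theorem PL.pot {G : SimpleGraph V} {pos : V → V → ℝ} {rot : V → Equiv.Perm V}
    (h : PL G pos) (hr : RotOf G pos rot) (z : V → V → ZMod 2) (zs : ∀ u v, z u v = z v u)
    (za : ∀ u v, z u v ≠ 0 → G.Adj u v) (ze : ∀ u, ∑ v, z u v = 0) :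
    ∃ S : V → V → ZMod 2, (∀ u v, G.Adj u v → S u v = S v (rot v u)) ∧
      ∀ u v, G.Adj u v → S u v + S v u = z u v := by
  obtain ⟨α, hα⟩ := h.pl z zs za ze
  refine ⟨fun u v => α u + cnt pos z u v, ?_, ?_⟩
  · intro u v huv
    show α u + cnt pos z u v = α v + cnt pos z v (rot v u)
    rw [hr.cnt_next h.inj za ze huv.symm, zs v u]
    have h1 := hα u v huv
    have : ∀ a b c d e : ZMod 2, a + b = c + d + e → a + c = b + (d + e) := by decide
    exact this _ _ _ _ _ h1
  · intro u v huv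
    show α u + cnt pos z u v + (α v + cnt pos z v u) = z u v
    have h1 := hα u v huv
    have : ∀ a b c d e : ZMod 2, a + b = c + d + e → a + c + (b + d) = e := by decide
    exact this _ _ _ _ _ h1

/-- restriction to an induced subgraph -/
theorem PL.induce {G : SimpleGraph V} {pos : V → V → ℝ} (h : PL G pos) (B : Finset V) :
    PL (G.comap (Subtype.val : {x // x ∈ B} → V)) (fun u v => pos u.1 v.1) := by
  have hsum : ∀ F : V → ZMod 2, (∀ v, v ∉ B → F v = 0) → ∑ v, F v = ∑ v : {x // x ∈ B}, F v.1 := by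
    intro F hF
    rw [← Finset.sum_subset (Finset.subset_univ B) (fun x _ hx => hF x hx)]
    exact (Finset.sum_coe_sort B F).symm
  refine ⟨fun v u w h1 h2 h3 => Subtype.ext (h.inj v.1 u.1 w.1 h1 h2 h3), ?_⟩
  intro z zs za ze
  obtain ⟨Z, hZ⟩ : ∃ Z : V → V → ZMod 2, ∀ u v, Z u v =
      if huv : u ∈ B ∧ v ∈ B then z ⟨u, huv.1⟩ ⟨v, huv.2⟩ else 0 := ⟨_, fun _ _ => rfl⟩
  have hZB : ∀ u v : {x // x ∈ B}, Z u.1 v.1 = z u v := fun u v => by
    rw [hZ, dif_pos ⟨u.2, v.2⟩]
  have hZ0 : ∀ u v, (u ∉ B ∨ v ∉ B) → Z u v = 0 := by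
    intro u v huv
    rw [hZ, dif_neg]
    tauto
  obtain ⟨α, hα⟩ := h.pl Z (by
    intro u v
    by_cases h1 : u ∈ B ∧ v ∈ B
    · have := zs ⟨u, h1.1⟩ ⟨v, h1.2⟩
      rw [← hZB, ← hZB] at this
      exact this
    · rw [hZ0 u v (by tauto), hZ0 v u (by tauto)]) (by
    intro u v huv
    by_cases h1 : u ∈ B ∧ v ∈ B
    · exact za ⟨u, h1.1⟩ ⟨v, h1.2⟩ (by rw [← hZB]; exact huv)
    · exact absurd (hZ0 u v (by tauto)) huv) (by
    intro u
    by_cases h1 : u ∈ B
    · rw [hsum _ (fun v hv => hZ0 u v (Or.inr hv)), ← ze ⟨u, h1⟩]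
      exact Finset.sum_congr rfl (fun v _ => hZB ⟨u, h1⟩ v)
    · exact Finset.sum_eq_zero (fun v _ => hZ0 u v (Or.inl h1)))
  have hcnt : ∀ u v : {x // x ∈ B}, cnt pos Z u.1 v.1 =
      cnt (fun u v : {x // x ∈ B} => pos u.1 v.1) z u v := by
    intro u v
    unfold cnt
    rw [hsum _ (fun w hw => by rw [hZ0 u.1 w (Or.inr hw)]; simp)]
    exact Finset.sum_congr rfl (fun w _ => by rw [hZB])
  refine ⟨fun v => α v.1, fun u v huv => ?_⟩
  rw [← hcnt, ← hcnt, ← hZB]
  exact hα u.1 v.1 huv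

end Pool.Agent.E8helper59.PT
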