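import Pool.Agent.E8helper59.PT.State

set_option autoImplicit false
set_option linter.unusedSectionVars false

/-!
# Discs in triangulations: removable vertices
-/

namespace Pool.Agent.E8helper59.PT

variable {U : Type} {G : SimpleGraph U} {rot : U → Equiv.Perm U} {R : Finset U} [Fintype U]

/-- a vertex with only one neighbour in `R` -/
def Locked (G : SimpleGraph U) (R : Finset U) (v : U) : Prop :=
  ∃ r ∈ R, ∀ y ∈ R, G.Adj v y → y = r

/-- the common neighbour in `R` of consecutive vertices of the contour -/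
theorem ArcAt.edge (hT : Tri G rot) {p v q : U} (h : ArcAt G rot R p v q) :
    rot v p ∈ R ∧ G.Adj p (rot v p) ∧ G.Adj v (rot v p) ∧ rot (rot v p) v = p := by
  have h1 := hT.face h.adj_left.symm rfl
  exact ⟨h.rot_left, h1.2.1.symm, h1.1, h1.2.2.1⟩

theorem locked_chain (hT : Tri G rot) : ∀ (M : List U) (x y q : U) (Q : List U),
    Arcs G rot R (x :: (M ++ y :: q :: Q)) → (∀ w ∈ M, Locked G R w) →
    ∃ r ∈ R, (x :: (M ++ [y])).IsChain (fun u v => rot r v = u) ∧ G.Adj r x ∧ G.Adj r y
  | [], x, y, q, Q, h, _ => by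
    have h1 := (h [] x y q Q rfl).edge hT
    refine ⟨rot y x, h1.1, ?_, h1.2.1.symm, h1.2.2.1.symm⟩
    simp only [List.nil_append, List.isChain_pair]
    exact h1.2.2.2
  | m :: M, x, y, q, Q, h, hM => by
    obtain ⟨r, hr, hc, hrm, hry⟩ := locked_chain hT M m y q Q h.tail
      (fun w hw => hM w (List.mem_cons_of_mem _ hw))
    obtain ⟨b, B, hb⟩ : ∃ b B, M ++ y :: q :: Q = b :: B := by
      cases M with
      | nil => exact ⟨_, _, rfl⟩
      | cons c M => exact ⟨_, _, rfl⟩
    have h1 := (h [] x m b B (by rw [List.cons_append, hb]; rfl)).edge hT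
    obtain ⟨r0, -, hr0⟩ := hM m (by simp)
    have e1 := hr0 _ h1.1 h1.2.2.1
    have e2 := hr0 r hr hrm.symm
    rw [e1, ← e2] at h1
    refine ⟨r, hr, ?_, h1.2.1.symm, hry⟩
    rw [List.cons_append, List.isChain_cons_cons]
    exact ⟨h1.2.2.2, hc⟩

/-- **There is a removable vertex.** -/
theorem State.exists_removable {v1 v2 : U} {L : List U} (hT : Tri G rot)
    (h : State G rot R v1 v2 L) (hR : ∀ r ∈ R, ∃ r' ∈ R, G.Adj r r') :
    ∃ P i w j Q, L = P ++ i :: w :: j :: Q ∧ (∀ z ∈ L, G.Adj w z → z = i ∨ z = j) ∧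
      ¬ Locked G R w := by
  classical
  have hex : ∃ n, ∃ P x M y Q, L = P ++ x :: (M ++ y :: Q) ∧ M ≠ [] ∧ G.Adj x y ∧ M.length = n := by
    obtain ⟨T, hT1⟩ := h.hd
    obtain ⟨T', hT2⟩ := h.lt
    have hadj := h.adj12
    cases T' with
    | nil =>
      exfalso
      rw [hT2] at hT1
      simp only [List.nil_append, List.cons.injEq] at hT1
      exact hadj.ne hT1.1.symm
    | cons a I =>
      rw [hT2] at hT1
      simp only [List.cons_append, List.cons.injEq] at hT1
      obtain ⟨rfl, -⟩ := hT1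
      refine ⟨I.length, [], a, I, v2, [], by rw [hT2]; simp, ?_, hadj, rfl⟩
      rintro rfl
      exact (h.arcs [] v2 a v2 [a] (by rw [hT2]; rfl)).ne rfl
  obtain ⟨P, x, M, y, Q, hL, hM, hxy, hlen⟩ := Nat.find_spec hex
  have hmin : ∀ P' x' M' y' Q', L = P' ++ x' :: (M' ++ y' :: Q') → M' ≠ [] → G.Adj x' y' →
      Nat.find hex ≤ M'.length := fun P' x' M' y' Q' h1 h2 h3 =>
    Nat.find_min' hex ⟨P', x', M', y', Q', h1, h2, h3, rfl⟩
  rw [← hlen] at hmin
  have hnd := h.nodup
  -- no chords
  have hchord : ∀ w ∈ M, ∃ P' i j Q', L = P' ++ i :: w :: j :: Q' ∧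
      ∀ z ∈ L, G.Adj w z → z = i ∨ z = j := by
    intro w hw
    obtain ⟨M1, M2, hM12⟩ := List.append_of_mem hw
    obtain ⟨P1, i, hP1⟩ := snoc_of_cons x M1
    obtain ⟨j, Q1, hQ1⟩ := cons_of_snoc M2 y
    refine ⟨P ++ P1, i, j, Q1 ++ Q, ?_, ?_⟩
    · rw [hL, hM12]
      calc P ++ x :: (M1 ++ w :: M2 ++ y :: Q) = P ++ (x :: M1) ++ w :: (M2 ++ [y]) ++ Q := by simp
        _ = _ := by rw [hP1, hQ1]; simp
    · intro z hz hwz
      by_contra hc
      push Not at hc
      have hz' : z ∈ P ∨ z ∈ x :: M1 ∨ z = w ∨ z ∈ M2 ++ [y] ∨ z ∈ Q := by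
        rw [hL, hM12] at hz
        simp only [List.mem_cons, List.mem_append, List.not_mem_nil, or_false] at hz ⊢
        tauto
      rcases hz' with hz' | hz' | hz' | hz' | hz'
      · exact h.crossing hT hL hxy hw (Or.inl hz') hwz
      · rw [hP1] at hz'
        have hz1 : z ∈ P1 := by
          rcases List.mem_append.1 hz' with h1 | h1
          · exact h1
          · exact absurd (List.mem_singleton.1 h1) hc.1
        obtain ⟨A1, A2, hA⟩ := List.append_of_mem hz1
        have h1 := hmin (P ++ A1) z (A2 ++ [i]) w (M2 ++ y :: Q) (by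
          rw [hL, hM12]
          calc P ++ x :: (M1 ++ w :: M2 ++ y :: Q) = P ++ (x :: M1) ++ w :: (M2 ++ y :: Q) := by
                simp
            _ = _ := by rw [hP1, hA]; simp) (by simp) hwz.symm
        have h2 : (x :: M1).length = (P1 ++ [i]).length := by rw [hP1]
        rw [hA] at h2
        rw [hM12] at h1
        simp at h1 h2
        omega
      · exact hwz.ne hz'.symm
      · rw [hQ1] at hz'
        have hz1 : z ∈ Q1 := by
          rcases List.mem_cons.1 hz' with h1 | h1
          · exact absurd h1 hc.2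
          · exact h1
        obtain ⟨A1, A2, hA⟩ := List.append_of_mem hz1
        have h1 := hmin (P ++ x :: M1) w (j :: A1) z (A2 ++ Q) (by
          rw [hL, hM12]
          calc P ++ x :: (M1 ++ w :: M2 ++ y :: Q) = P ++ (x :: M1) ++ w :: (M2 ++ [y]) ++ Q := by
                simp
            _ = _ := by rw [hQ1, hA]; simp) (by simp) hwz
        have h2 : (M2 ++ [y]).length = (j :: Q1).length := by rw [hQ1]
        rw [hA] at h2
        rw [hM12] at h1
        simp at h1 h2
        omega
      · exact h.crossing hT hL hxy hw (Or.inr hz') hwz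
  -- not all locked
  by_contra hc
  push Not at hc
  have hlock : ∀ w ∈ M, Locked G R w := by
    intro w hw
    obtain ⟨P', i, j, Q', h1, h2⟩ := hchord w hw
    exact hc P' i w j Q' h1 h2
  obtain ⟨q, Q', hq⟩ := cons_of_snoc Q v1
  obtain ⟨r, hr, hchain, hrx, hry⟩ := locked_chain hT M x y q Q' (by
    have h1 := h.arcs
    have h2 : v2 :: (L ++ [v1]) = (v2 :: P) ++ (x :: (M ++ y :: q :: Q')) := by
      rw [hL]
      calc v2 :: (P ++ x :: (M ++ y :: Q) ++ [v1]) = (v2 :: P) ++ (x :: (M ++ y :: (Q ++ [v1]))) := by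
            simp
        _ = _ := by rw [hq]
    rw [h2] at h1
    exact h1.suffix) hlock
  have hxyr := hT.fac x y r hxy hry.symm hrx
  rcases hxyr with h1 | h1
  · have h2 := (hT.face hxy h1).2.2.1
    -- `rot r y = x`, but it is the last element of `M`
    obtain ⟨M', m, rfl⟩ : ∃ M' m, M = M' ++ [m] := by
      rcases List.eq_nil_or_concat M with h3 | ⟨M', b, h3⟩
      · exact absurd h3 hM
      · exact ⟨M', b, by simpa using h3⟩
    have h3 : (x :: (M' ++ [m] ++ [y])) = (x :: M') ++ m :: [y] := by simp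
    rw [h3, List.isChain_split, List.isChain_pair] at hchain
    have h4 : m = x := by rw [← hchain.2, h2]
    rw [hL, h4] at hnd
    have h5 := (List.nodup_append.1 hnd).2.1
    simp at h5
  · have h2 := (hT.face hxy.symm h1).2.2.1
    -- the neighbours of `r`
    have hclosed : ∀ u ∈ x :: (M ++ [y]), rot r u ∈ x :: (M ++ [y]) := by
      have key : ∀ (l : List U) (a : U), (a :: l).IsChain (fun u v => rot r v = u) → ∀ u ∈ l,
          rot r u ∈ a :: l := by
        intro l
        induction l with
        | nil => intro a _ u hu; simp at hu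
        | cons b l ih =>
          intro a hl u hu
          rw [List.isChain_cons_cons] at hl
          rcases List.mem_cons.1 hu with rfl | hu
          · rw [hl.1]; simp
          · exact List.mem_cons_of_mem _ (ih b hl.2 u hu)
      intro u hu
      rcases List.mem_cons.1 hu with rfl | hu
      · rw [h2]; simp
      · exact key _ x hchain u hu
    obtain ⟨r', hr', hrr'⟩ := hR r hr
    obtain ⟨n, -, hn⟩ := (hT.cyc r x r' hrx hrr').exists_pow_eq'
    have h3 : ∀ n : ℕ, ((rot r) ^ n) x ∈ x :: (M ++ [y]) := by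
      intro n
      induction n with
      | zero => simp
      | succ n ih =>
        rw [pow_succ', Equiv.Perm.mul_apply]
        exact hclosed _ ih
    have h4 := h3 n
    rw [hn] at h4
    refine h.notR r' ?_ hr'
    rw [hL]
    simp only [List.mem_cons, List.mem_append, List.not_mem_nil, or_false] at h4 ⊢
    tauto

end Pool.Agent.E8helper59.PT
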