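import Pool.Agent.E8helper59.PT.Rem

set_option autoImplicit false
set_option linter.unusedSectionVars false

/-!
# Discs in triangulations: removing a vertex
-/

namespace Pool.Agent.E8helper59.PT

variable {U : Type} {G : SimpleGraph U} {rot : U → Equiv.Perm U} {R : Finset U} [Fintype U]

theorem CycL.rotate {v p u : U} {l : List U} (h : CycL G rot v p (l ++ [u])) :
    CycL G rot v u (p :: l) := by
  have h1 : (u :: p :: l).Perm (p :: (l ++ [u])) := by
    have : (u :: (p :: l)).Perm ((p :: l) ++ [u]) := (List.perm_append_singleton u (p :: l)).symm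
    simpa using this
  refine ⟨h1.nodup_iff.2 h.nodup, fun x => by rw [h1.mem_iff]; exact h.mem x, ?_⟩
  have h2 := h.chain
  have h3 : p :: (l ++ [u] ++ [p]) = (p :: l) ++ u :: [p] := by simp
  rw [h3, List.isChain_split, List.isChain_pair] at h2
  rw [List.cons_append, List.isChain_cons_cons]
  exact ⟨h2.2, by simpa using h2.1⟩

/-- the last vertex before `p` -/
theorem CycL.last {v p u : U} {l : List U} (h : CycL G rot v p (l ++ [u])) : rot v u = p := by
  have h2 := h.chain
  have h3 : p :: (l ++ [u] ++ [p]) = (p :: l) ++ u :: [p] := by simp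
  rw [h3, List.isChain_split, List.isChain_pair] at h2
  exact h2.2

theorem CycL.next {v p a b : U} {A B : List U} (h : CycL G rot v p (A ++ a :: b :: B)) :
    rot v a = b := by
  have h2 := h.chain
  have h3 : p :: (A ++ a :: b :: B ++ [p]) = (p :: A) ++ a :: b :: (B ++ [p]) := by simp
  rw [h3, List.isChain_split, List.isChain_cons_cons] at h2
  exact h2.2.1

theorem CycL.next_last {v p a : U} {A : List U} (h : CycL G rot v p (A ++ [a])) :
    rot v a = p := h.last

/-- the arcs at the new vertices of the contour -/
theorem arcs_new (hT : Tri G rot) {R' : Finset U} {w j q : U} {Q : List U} (hw : w ∈ R') :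
    ∀ (N : List U) (i : U), (i :: (N ++ [j])).IsChain (fun a b => rot w b = a) →
    (i :: (N ++ [j])).Nodup →
    (∀ n ∈ i :: (N ++ [j]), G.Adj w n) → (∀ n ∈ N, ∀ y ∈ R', G.Adj n y → y = w) →
    (∀ u, rot w j = u → ArcAt G rot R' u j q) → Arcs G rot R' (j :: q :: Q) →
    Arcs G rot R' (i :: (N ++ j :: q :: Q))
  | [], i, hc, _, _, _, hj, hQ => by
    simp only [List.nil_append, List.isChain_pair] at hc
    exact hQ.cons (hj i hc)
  | n :: N, i, hc, hnd, hadj, hN, hj, hQ => by
    obtain ⟨c, B, hb⟩ := cons_of_snoc N j
    obtain ⟨B', hb'⟩ : ∃ B', N ++ j :: q :: Q = c :: B' := by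
      refine ⟨B ++ q :: Q, ?_⟩
      calc N ++ j :: q :: Q = (N ++ [j]) ++ q :: Q := by simp
        _ = _ := by rw [hb]; simp
    rw [List.cons_append, List.isChain_cons_cons] at hc
    have hrec := arcs_new hT hw N n hc.2 (List.nodup_cons.1 hnd).2
      (fun x hx => hadj x (List.mem_cons_of_mem _ hx))
      (fun x hx => hN x (List.mem_cons_of_mem _ hx)) hj hQ
    rw [List.cons_append, hb']
    rw [hb'] at hrec
    refine hrec.cons ?_
    -- the arc at `n`
    have hic : i ≠ c := by
      rintro rfl
      rw [List.cons_append, hb] at hnd
      simp at hnd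
    have hwn := hadj n (by simp)
    have hrc : rot w c = n := by
      have h1 := hc.2
      rw [hb, List.isChain_cons_cons] at h1
      exact h1.1
    have f1 := hT.face hwn.symm hc.1
    -- f1 : Adj w i, Adj i n, rot i w = n, rot n i = w
    have hwc : G.Adj w c := hadj c (by
      rw [List.cons_append, hb]; simp)
    have f2 := hT.face hwc.symm hrc
    -- f2 : Adj w n, Adj n c, rot n w = c, rot c n = w
    obtain ⟨l, hl⟩ := hT.exists_cycL f1.2.1.symm
    have h1 := hl.chain
    cases l with
    | nil =>
      exfalso
      simp only [List.nil_append, List.isChain_pair] at h1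
      rw [f1.2.2.2] at h1
      exact f1.1.ne h1
    | cons a l =>
      simp only [List.cons_append, List.isChain_cons_cons] at h1
      have ha : a = w := by rw [← h1.1, f1.2.2.2]
      subst ha
      cases l with
      | nil =>
        exfalso
        simp only [List.nil_append, List.isChain_pair] at h1
        rw [f2.2.2.1] at h1
        exact hic h1.2.symm
      | cons b l =>
        simp only [List.cons_append, List.isChain_cons_cons] at h1
        have hb2 : b = c := by rw [← h1.2.1, f2.2.2.1]
        subst hb2
        refine ⟨[a], l, hl, by simp, by simpa using hw, ?_⟩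
        intro x hx hxR
        have h2 := hN n (by simp) x hxR ((hl.mem x).1 (by simp [hx]))
        have h3 := hl.nodup
        rw [← h2] at h3
        simp [hx] at h3

/-- **Removing a vertex without chords.** -/
theorem State.remove [DecidableEq U] {v1 v2 : U} {L : List U} (hT : Tri G rot)
    (h : State G rot R v1 v2 L) {P Q : List U} {i w j : U} (hL : L = P ++ i :: w :: j :: Q)
    (hch : ∀ z ∈ L, G.Adj w z → z = i ∨ z = j) :
    (L = [v1, w, v2] ∧ ∀ x, x ∈ R ∨ x = v1 ∨ x = w ∨ x = v2) ∨
    ∃ N, State G rot (insert w R) v1 v2 (P ++ i :: (N ++ j :: Q)) ∧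
      (∀ n ∈ N, n ∉ insert w R ∧ G.Adj n w ∧ ∀ y ∈ insert w R, G.Adj n y → y = w) ∧
      ∀ x, x ∉ insert w R → G.Adj w x → x ∈ i :: (N ++ [j]) := by
  obtain ⟨A, B, hc, hA, hAR, hBR⟩ := h.arc hL
  have hnd := h.nodup
  have hwL : w ∈ L := by rw [hL]; simp
  have hiL : i ∈ L := by rw [hL]; simp
  have hjL : j ∈ L := by rw [hL]; simp
  have hnc := hc.nodup
  have hwR : w ∉ R := h.notR w hwL
  -- the new vertices
  have hBL : ∀ b ∈ B, b ∉ L := by
    intro b hb hbL
    have h1 : G.Adj w b := (hc.mem b).1 (by simp [hb])
    rcases hch b hbL h1 with rfl | rfl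
    · simp [hb] at hnc
    · have h2 := (List.nodup_cons.1 hnc).2
      rw [List.nodup_append] at h2
      exact (List.nodup_cons.1 h2.2.1).1 hb
  have hij : i ≠ j := by
    rintro rfl
    simp at hnc
  have hBw : ∀ b ∈ B, b ≠ w := fun b hb he => ((hc.mem b).1 (by simp [hb])).ne he.symm
  have hchain : (i :: (B.reverse ++ [j])).IsChain (fun a b => rot w b = a) := by
    have h1 := hc.chain
    have h2 : i :: (A ++ j :: B ++ [i]) = (i :: A) ++ (j :: (B ++ [i])) := by simp
    rw [h2] at h1
    have h3 := h1.right_of_append
    have h4 : i :: (B.reverse ++ [j]) = (j :: (B ++ [i])).reverse := by simp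
    rw [h4, List.isChain_reverse]
    exact h3
  have hMnd : (i :: (B.reverse ++ [j])).Nodup := by
    have h4 : i :: (B.reverse ++ [j]) = (j :: (B ++ [i])).reverse := by simp
    rw [h4, List.nodup_reverse]
    have h5 := List.nodup_cons.1 hnc
    have h6 := (List.nodup_append.1 h5.2).2.1
    have h7 : j :: (B ++ [i]) = (j :: B) ++ [i] := by simp
    rw [h7, List.nodup_append]
    refine ⟨h6, by simp, ?_⟩
    intro a ha b hb
    rw [List.mem_singleton.1 hb]
    rintro rfl
    exact h5.1 (by simp [List.mem_cons.1 ha])
  have hMadj : ∀ n ∈ i :: (B.reverse ++ [j]), G.Adj w n := by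
    intro n hn
    apply (hc.mem n).1
    simp only [List.mem_cons, List.mem_append, List.mem_reverse, List.not_mem_nil, or_false] at hn ⊢
    tauto
  have hNlock : ∀ n ∈ B.reverse, ∀ y ∈ insert w R, G.Adj n y → y = w := by
    intro n hn y hy hny
    rcases Finset.mem_insert.1 hy with h1 | h1
    · exact h1
    · exact absurd (h.nbr n (hBR n (List.mem_reverse.1 hn)) ⟨y, h1, hny⟩)
        (hBL n (List.mem_reverse.1 hn))
  -- the neighbours on the contour
  obtain ⟨P0, p, hP0⟩ := snoc_of_cons v2 P
  obtain ⟨q, Q0, hQ0⟩ := cons_of_snoc Q v1
  have hD : v2 :: (L ++ [v1]) = P0 ++ p :: i :: w :: j :: q :: Q0 := by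
    rw [hL]
    calc v2 :: (P ++ i :: w :: j :: Q ++ [v1]) = (v2 :: P) ++ i :: w :: j :: (Q ++ [v1]) := by simp
      _ = _ := by rw [hP0, hQ0]; simp
  obtain ⟨Ai, Bi, hci, hAi, hAiR, hBiR⟩ := h.arcs P0 p i w (j :: q :: Q0) hD
  obtain ⟨Aj, Bj, hcj, hAj, hAjR, hBjR⟩ := h.arcs (P0 ++ [p, i]) w j q Q0 (by rw [hD]; simp)
  obtain ⟨c, N', hcN⟩ := cons_of_snoc B.reverse j
  obtain ⟨M', u, huN⟩ := snoc_of_cons i B.reverse
  have hrc : rot w c = i := by
    rw [hcN, List.isChain_cons_cons] at hchain
    exact hchain.1
  have hru : rot w j = u := by
    have h1 : i :: (B.reverse ++ [j]) = M' ++ u :: [j] := by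
      calc i :: (B.reverse ++ [j]) = (i :: B.reverse) ++ [j] := by simp
        _ = _ := by rw [huN]; simp
    rw [h1, List.isChain_split, List.isChain_pair] at hchain
    exact hchain.2
  have hwc : G.Adj w c := hMadj c (by rw [hcN]; simp)
  have hwj : G.Adj w j := hMadj j (by simp)
  have fc := hT.face hwc.symm hrc
  -- fc : Adj w i, Adj i c, rot i w = c, rot c i = w
  have fu := hT.face hwj.symm hru
  -- fu : Adj w u, Adj u j, rot u w = j, rot j u = w
  by_cases hcase : B = [] ∧ P = [] ∧ Q = []
  · -- only one vertex left
    left
    obtain ⟨rfl, rfl, rfl⟩ := hcase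
    obtain ⟨T, hT1⟩ := h.hd
    obtain ⟨T', hT2⟩ := h.lt
    have hi : i = v1 := by
      rw [hL] at hT1
      simp only [List.nil_append, List.cons.injEq] at hT1
      exact hT1.1
    have hj : j = v2 := by
      rw [hL] at hT2
      have : ([i, w] ++ [j] : List U) = T' ++ [v2] := by simpa using hT2
      have := List.append_inj_right' this rfl
      simpa using this
    subst hi hj
    have hpv : p = j := by
      have : [j] = P0 ++ [p] := hP0
      cases P0 with
      | nil => simpa using this.symm
      | cons a l => simp at this
    have hqv : q = i := by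
      simp only [List.nil_append, List.cons.injEq] at hQ0
      exact hQ0.1.symm
    have hcj' : c = j := by
      simp only [List.reverse_nil, List.nil_append, List.cons.injEq] at hcN
      exact hcN.1.symm
    have hui : u = i := by
      simp only [List.reverse_nil] at huN
      cases M' with
      | nil => simpa using huN.symm
      | cons a l => simp at huN
    rw [hpv] at hci
    rw [hqv] at hcj
    rw [hcj'] at fc
    rw [hui] at fu
    -- the arcs are complete
    have hBi : Bi = [] := by
      cases Bi with
      | nil => rfl
      | cons b l =>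
        exfalso
        have h1 := hci.next
        rw [fc.2.2.1] at h1
        have h2 := hci.nodup
        rw [← h1] at h2
        simp at h2
    have hBj : Bj = [] := by
      cases Bj with
      | nil => rfl
      | cons b l =>
        exfalso
        have h1 := hcj.next
        rw [fu.2.2.2] at h1
        have h2 := hcj.nodup
        rw [← h1] at h2
        simp at h2
    subst hBi hBj
    refine ⟨by simpa using hL, ?_⟩
    have hclosed := hT.conn {x | x ∈ R ∨ x = i ∨ x = w ∨ x = j} ⟨i, Or.inr (Or.inl rfl)⟩ (by
      rintro x (hx | hx | hx | hx) y hxy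
      · by_cases hy : y ∈ R
        · exact Or.inl hy
        · have h1 := h.nbr y hy ⟨x, hx, hxy.symm⟩
          rw [hL] at h1
          simp only [List.nil_append, List.mem_cons, List.not_mem_nil, or_false] at h1
          exact Or.inr h1
      · rw [hx] at hxy
        have h1 := (hci.mem y).2 hxy
        simp only [List.mem_cons, List.mem_append, List.not_mem_nil, or_false] at h1
        rcases h1 with h1 | h1 | h1
        · exact Or.inr (Or.inr (Or.inr h1))
        · exact Or.inl (hAiR y h1)
        · exact Or.inr (Or.inr (Or.inl h1))
      · rw [hx] at hxy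
        have h1 := (hc.mem y).2 hxy
        simp only [List.mem_cons, List.mem_append, List.not_mem_nil, or_false] at h1
        rcases h1 with h1 | h1 | h1
        · exact Or.inr (Or.inl h1)
        · exact Or.inl (hAR y h1)
        · exact Or.inr (Or.inr (Or.inr h1))
      · rw [hx] at hxy
        have h1 := (hcj.mem y).2 hxy
        simp only [List.mem_cons, List.mem_append, List.not_mem_nil, or_false] at h1
        rcases h1 with h1 | h1 | h1
        · exact Or.inr (Or.inr (Or.inl h1))
        · exact Or.inl (hAjR y h1)
        · exact Or.inr (Or.inl h1))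
    exact hclosed
  · right
    have hpL : p ∈ L := by
      have : p ∈ v2 :: P := by rw [hP0]; simp
      rcases List.mem_cons.1 this with h1 | h1
      · obtain ⟨T', hT2⟩ := h.lt
        rw [h1, hT2]; simp
      · rw [hL]; simp [h1]
    have hqL : q ∈ L := by
      have : q ∈ Q ++ [v1] := by rw [hQ0]; simp
      rcases List.mem_append.1 this with h1 | h1
      · rw [hL]; simp [h1]
      · obtain ⟨T', hT1⟩ := h.hd
        rw [List.mem_singleton.1 h1, hT1]; simp
    have hBi : Bi ≠ [] := by
      rintro rfl
      have h1 := hci.last
      rw [fc.2.2.1] at h1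
      -- `c = p`
      apply hcase
      have hB : B = [] := by
        by_contra hB
        have h2 : c ∈ B := by
          cases hBr : B.reverse with
          | nil => simp at hBr; exact absurd hBr hB
          | cons b l =>
            rw [hBr] at hcN
            simp only [List.cons_append, List.cons.injEq] at hcN
            rw [← List.mem_reverse, hBr, hcN.1]
            simp
        exact hBL c h2 (h1 ▸ hpL)
      subst hB
      simp only [List.reverse_nil, List.nil_append, List.cons.injEq] at hcN
      have hpj : p = j := by rw [← h1, hcN.1]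
      have hP : P = [] := by
        by_contra hP
        have h2 : p ∈ P := by
          rcases List.eq_nil_or_concat P with h3 | ⟨P', b, h3⟩
          · exact absurd h3 hP
          · have h3' : P = P' ++ [b] := by simpa using h3
            rw [h3'] at hP0 ⊢
            have h4 : (v2 :: P') ++ [b] = P0 ++ [p] := by simpa using hP0
            have h5 := List.append_inj_right' h4 rfl
            simp only [List.cons.injEq, and_true] at h5
            rw [h5]; simp
        rw [hL] at hnd
        exact (List.nodup_append.1 hnd).2.2 p h2 j (by simp) hpj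
      subst hP
      have hpv : p = v2 := by
        cases P0 with
        | nil => simpa using hP0.symm
        | cons a l => simp at hP0
      have hQ : Q = [] := by
        by_contra hQ
        obtain ⟨T', hT2⟩ := h.lt
        rcases List.eq_nil_or_concat Q with h3 | ⟨Q', b, h3⟩
        · exact hQ h3
        · have h3' : Q = Q' ++ [b] := by simpa using h3
          rw [h3'] at hL
          rw [hL] at hT2
          have h4 : ([] ++ i :: w :: j :: Q') ++ [b] = T' ++ [v2] := by simpa using hT2
          have h5 := List.append_inj_right' h4 rfl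
          simp only [List.cons.injEq, and_true] at h5
          rw [hL] at hnd
          have h6 : ([] ++ i :: w :: j :: (Q' ++ [b])) = [i, w] ++ (j :: (Q' ++ [b])) := by simp
          rw [h6] at hnd
          have h7 := (List.nodup_append.1 hnd).2.1
          rw [h5, ← hpv, hpj] at h7
          simp at h7
      exact ⟨rfl, rfl, hQ⟩
    have hBj : Bj ≠ [] := by
      rintro rfl
      have h1 := hcj.rotate
      -- `q` is before `w`
      have h2 := hcj.last
      have h3 : (rot j) u = (rot j) q := by rw [fu.2.2.2, h2]
      have h4 : u = q := (rot j).injective h3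
      apply hcase
      have hB : B = [] := by
        by_contra hB
        have h5 : u ∈ B := by
          rcases List.eq_nil_or_concat B.reverse with h6 | ⟨B', b, h6⟩
          · simp at h6; exact absurd h6 hB
          · have h6' : B.reverse = B' ++ [b] := by simpa using h6
            rw [h6'] at huN
            have h7 : (i :: B') ++ [b] = M' ++ [u] := by simpa using huN
            have h8 := List.append_inj_right' h7 rfl
            simp only [List.cons.injEq, and_true] at h8
            rw [← List.mem_reverse, h6', h8]
            simp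
        exact hBL u h5 (h4 ▸ hqL)
      subst hB
      have hui : u = i := by
        simp only [List.reverse_nil] at huN
        cases M' with
        | nil => simpa using huN.symm
        | cons a l => simp at huN
      have hqi : q = i := by rw [← h4, hui]
      have hQ : Q = [] := by
        by_contra hQ
        cases Q with
        | nil => exact hQ rfl
        | cons b Q' =>
          simp only [List.cons_append, List.cons.injEq] at hQ0
          rw [hL] at hnd
          have h5 := (List.nodup_append.1 hnd).2.1
          rw [hQ0.1, hqi] at h5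
          simp at h5
      subst hQ
      have hqv : q = v1 := by
        simp only [List.nil_append, List.cons.injEq] at hQ0
        exact hQ0.1.symm
      refine ⟨rfl, ?_, rfl⟩
      by_contra hP
      obtain ⟨T, hT1⟩ := h.hd
      cases P with
      | nil => exact hP rfl
      | cons b P' =>
        rw [hL] at hT1
        simp only [List.cons_append, List.cons.injEq] at hT1
        rw [hL] at hnd
        rw [hT1.1, ← hqv, hqi] at hnd
        simp at hnd
    -- the new arc at `i`
    have harci : ArcAt G rot (insert w R) p i c := by
      cases Bi with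
      | nil => exact absurd rfl hBi
      | cons b Bi =>
        have h1 := hci.next
        rw [fc.2.2.1] at h1
        subst h1
        refine ⟨Ai ++ [w], Bi, by simpa using hci, by simp, ?_, ?_⟩
        · intro x hx
          rcases List.mem_append.1 hx with hx | hx
          · exact Finset.mem_insert_of_mem (hAiR x hx)
          · rw [List.mem_singleton.1 hx]; exact Finset.mem_insert_self _ _
        · intro x hx hxR
          rcases Finset.mem_insert.1 hxR with h1 | h1
          · rw [h1] at hx
            have h2 := (List.nodup_append.1 (List.nodup_cons.1 hci.nodup).2).2.1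
            exact (List.nodup_cons.1 h2).1 (by simp [hx])
          · exact hBiR x (by simp [hx]) h1
    have harcj : ArcAt G rot (insert w R) u j q := by
      rcases List.eq_nil_or_concat Bj with h6 | ⟨B', b, h6⟩
      · exact absurd h6 hBj
      · have h6' : Bj = B' ++ [b] := by simpa using h6
        subst h6'
        have hcj2 : CycL G rot j w ((Aj ++ q :: B') ++ [b]) := by simpa using hcj
        have h1 := hcj2.last
        have h3 : (rot j) u = (rot j) b := by rw [fu.2.2.2, h1]
        have h4 : u = b := (rot j).injective h3
        subst h4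
        refine ⟨w :: Aj, B', by simpa using hcj2.rotate, by simp, ?_, ?_⟩
        · intro x hx
          rcases List.mem_cons.1 hx with rfl | hx
          · exact Finset.mem_insert_self _ _
          · exact Finset.mem_insert_of_mem (hAjR x hx)
        · intro x hx hxR
          rcases Finset.mem_insert.1 hxR with h1 | h1
          · rw [h1] at hx
            have h2 := hcj.nodup
            simp [hx] at h2
          · exact hBjR x (by simp [hx]) h1
    -- the other arcs
    have hmono : ∀ X a x b Y, v2 :: (L ++ [v1]) = X ++ a :: x :: b :: Y → x ≠ i → x ≠ j → x ≠ w →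
        ArcAt G rot (insert w R) a x b := by
      intro X a x b Y hX h1 h2 h3
      obtain ⟨A1, B1, hc1, hA1, hA1R, hB1R⟩ := h.arcs X a x b Y hX
      refine ⟨A1, B1, hc1, hA1, fun y hy => Finset.mem_insert_of_mem (hA1R y hy), ?_⟩
      intro y hy hyR
      rcases Finset.mem_insert.1 hyR with h4 | h4
      · have h5 : G.Adj x w := (hc1.mem w).1 (by simp [← h4, hy])
        have hxL : x ∈ L := by
          have h6 : L ++ [v1] = (X ++ a :: x :: b :: Y).tail := by rw [← hX]; rfl
          have h7 : x ∈ (X ++ [a] ++ [x]).tail := by
            cases X with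
            | nil => simp
            | cons c X => simp
          have h8 : L ++ [v1] = (X ++ [a] ++ [x]).tail ++ (b :: Y) := by
            rw [h6]
            cases X <;> simp
          -- `x` is not the last one
          have h9 : ∃ Z c, b :: Y = Z ++ [c] := snoc_of_cons b Y
          obtain ⟨Z, c', h9⟩ := h9
          rw [h9] at h8
          have h10 : L ++ [v1] = ((X ++ [a] ++ [x]).tail ++ Z) ++ [c'] := by rw [h8]; simp
          have h11 := List.append_inj_left' h10 rfl
          rw [h11]
          simp only [List.mem_append]
          exact Or.inl h7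
        rcases hch x hxL h5.symm with h6 | h6
        · exact h1 h6
        · exact h2 h6
      · exact hB1R y hy h4
    have hDnew : v2 :: ((P ++ i :: (B.reverse ++ j :: Q)) ++ [v1]) =
        P0 ++ p :: i :: (B.reverse ++ j :: q :: Q0) := by
      calc v2 :: ((P ++ i :: (B.reverse ++ j :: Q)) ++ [v1]) =
            (v2 :: P) ++ i :: (B.reverse ++ j :: (Q ++ [v1])) := by simp
        _ = _ := by rw [hP0, hQ0]; simp
    have hv2P : ∀ x ∈ P, x ≠ i ∧ x ≠ j ∧ x ≠ w := by
      intro x hx
      rw [hL] at hnd
      have h1 := (List.nodup_append.1 hnd).2.2 x hx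
      exact ⟨h1 i (by simp), h1 j (by simp), h1 w (by simp)⟩
    have hv1Q : ∀ x ∈ Q, x ≠ i ∧ x ≠ j ∧ x ≠ w := by
      intro x hx
      rw [hL] at hnd
      have h1 := (List.nodup_append.1 hnd).2.1
      simp only [List.nodup_cons, List.mem_cons, not_or] at h1
      refine ⟨?_, ?_, ?_⟩
      · rintro rfl; exact h1.1.2.2 hx
      · rintro rfl; exact h1.2.2.1 hx
      · rintro rfl; exact h1.2.1.2 hx
    have harcs1 : Arcs G rot (insert w R) (P0 ++ [p, i]) := by
      intro X a x b Y hX
      have hxP : x ∈ P := by
        have h1 : (v2 :: P) ++ [i] = X ++ a :: x :: b :: Y := by rw [hP0, ← hX]; simp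
        obtain ⟨Z, c', h9⟩ := snoc_of_cons b Y
        rw [h9] at h1
        have h2 : (v2 :: P) ++ [i] = (X ++ a :: x :: Z) ++ [c'] := by rw [h1]; simp
        have h3 := List.append_inj_left' h2 rfl
        cases X with
        | nil =>
          simp only [List.nil_append, List.cons.injEq] at h3
          rw [h3.2]; simp
        | cons c X =>
          simp only [List.cons_append, List.cons.injEq] at h3
          rw [h3.2]; simp
      have h1 := hv2P x hxP
      refine hmono X a x b (Y ++ w :: j :: q :: Q0) ?_ h1.1 h1.2.1 h1.2.2
      rw [hD]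
      have h2 : P0 ++ p :: i :: w :: j :: q :: Q0 = (P0 ++ [p, i]) ++ w :: j :: q :: Q0 := by simp
      rw [h2, hX]
      simp
    have harcs2 : Arcs G rot (insert w R) (j :: q :: Q0) := by
      intro X a x b Y hX
      have hxQ : x ∈ Q := by
        have h1 : j :: (Q ++ [v1]) = X ++ a :: x :: b :: Y := by rw [hQ0, ← hX]
        obtain ⟨Z, c', h9⟩ := snoc_of_cons b Y
        rw [h9] at h1
        have h2 : (j :: Q) ++ [v1] = (X ++ a :: x :: Z) ++ [c'] := by
          rw [List.cons_append, h1]; simp
        have h3 := List.append_inj_left' h2 rfl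
        cases X with
        | nil =>
          simp only [List.nil_append, List.cons.injEq] at h3
          rw [h3.2]; simp
        | cons c X =>
          simp only [List.cons_append, List.cons.injEq] at h3
          rw [h3.2]; simp
      have h1 := hv1Q x hxQ
      refine hmono (P0 ++ p :: i :: w :: X) a x b Y ?_ h1.1 h1.2.1 h1.2.2
      rw [hD]
      have h2 : P0 ++ p :: i :: w :: j :: q :: Q0 = (P0 ++ [p, i, w]) ++ (j :: q :: Q0) := by simp
      rw [h2, hX]
      simp
    have hjR : j ∉ insert w R := by
      intro hj
      rcases Finset.mem_insert.1 hj with h1 | h1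
      · exact hwj.ne h1.symm
      · exact h.notR j hjL h1
    refine ⟨B.reverse, ⟨?_, ?_, ?_, ?_, ?_, ?_, ?_⟩, ?_, ?_⟩
    · -- nodup
      rw [hL] at hnd
      have h1 := List.nodup_append.1 hnd
      rw [List.nodup_append]
      have h3 : (i :: (B.reverse ++ j :: Q)).Nodup := by
        rw [List.nodup_cons, List.nodup_append]
        have h4 := (List.nodup_cons.1 h1.2.1)
        have h5 := (List.nodup_cons.1 h4.2)
        have h6 := List.nodup_cons.1 hMnd
        refine ⟨?_, (List.nodup_append.1 h6.2).1, h5.2, ?_⟩
        · intro hi
          rcases List.mem_append.1 hi with hi | hi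
          · exact h6.1 (by simp [List.mem_reverse.1 hi])
          · exact h4.1 (by simp [List.mem_cons.1 hi])
        · intro a ha b hb hab
          refine hBL a (List.mem_reverse.1 ha) ?_
          rw [hab, hL]
          simp [List.mem_cons.1 hb]
      refine ⟨h1.1, h3, ?_⟩
      intro a ha b hb hab
      rcases List.mem_cons.1 hb with hb | hb
      · exact h1.2.2 a ha b (by simp [hb]) hab
      · rcases List.mem_append.1 hb with hb | hb
        · refine hBL b (List.mem_reverse.1 hb) ?_
          rw [← hab, hL]
          simp [ha]
        · exact h1.2.2 a ha b (by simp [List.mem_cons.1 hb]) hab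
    · -- notR
      intro x hx hxR
      simp only [List.mem_append, List.mem_cons, List.mem_reverse] at hx
      rcases Finset.mem_insert.1 hxR with h1 | h1
      · rw [h1] at hx
        rcases hx with hx | hx | hx | hx | hx
        · exact (hv2P w hx).2.2 rfl
        · exact fc.1.ne hx
        · exact hBw w hx rfl
        · exact hwj.ne hx
        · exact (hv1Q w hx).2.2 rfl
      · rcases hx with hx | hx | hx | hx | hx
        · exact h.notR x (by rw [hL]; simp [hx]) h1
        · exact h.notR x (by rw [hL]; simp [hx]) h1
        · exact hBR x hx h1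
        · exact h.notR x (by rw [hL]; simp [hx]) h1
        · exact h.notR x (by rw [hL]; simp [hx]) h1
    · -- arcs
      rw [hDnew]
      refine harcs1.join ?_
      have h1 := arcs_new hT (Finset.mem_insert_self w R) B.reverse i hchain hMnd hMadj hNlock
        (fun u' hu' => by
          have : u' = u := by rw [← hu', hru]
          rw [this]; exact harcj) harcs2
      obtain ⟨B', hB'⟩ : ∃ B', B.reverse ++ j :: q :: Q0 = c :: B' := by
        refine ⟨N' ++ q :: Q0, ?_⟩
        calc B.reverse ++ j :: q :: Q0 = (B.reverse ++ [j]) ++ q :: Q0 := by simp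
          _ = _ := by rw [hcN]; simp
      rw [hB'] at h1 ⊢
      exact h1.cons harci
    · -- nbr
      rintro x hx ⟨y, hy, hxy⟩
      have hx' : x ≠ w ∧ x ∉ R := by
        simpa [not_or] using hx
      rcases Finset.mem_insert.1 hy with h1 | h1
      · rw [h1] at hxy
        have h2 := (hc.mem x).2 hxy.symm
        simp only [List.mem_cons, List.mem_append] at h2
        simp only [List.mem_append, List.mem_cons, List.mem_reverse]
        rcases h2 with h2 | h2 | h2 | h2
        · exact Or.inr (Or.inl h2)
        · exact absurd (hAR x h2) hx'.2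
        · exact Or.inr (Or.inr (Or.inr (Or.inl h2)))
        · exact Or.inr (Or.inr (Or.inl h2))
      · have h2 := h.nbr x hx'.2 ⟨y, h1, hxy⟩
        rw [hL] at h2
        simp only [List.mem_cons, List.mem_append] at h2
        simp only [List.mem_append, List.mem_cons, List.mem_reverse]
        rcases h2 with h2 | h2 | h2 | h2 | h2
        · exact Or.inl h2
        · exact Or.inr (Or.inl h2)
        · exact absurd h2 hx'.1
        · exact Or.inr (Or.inr (Or.inr (Or.inl h2)))
        · exact Or.inr (Or.inr (Or.inr (Or.inr h2)))
    · -- conn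
      rintro X ⟨x, hxX, hx⟩ hX
      obtain ⟨a, ha⟩ : ∃ a, a ∈ A := List.exists_mem_of_ne_nil A hA
      have haR := hAR a ha
      have hwa : G.Adj w a := (hc.mem a).1 (by simp [ha])
      have hsub : (∃ x ∈ X, x ∈ R) → ∀ v ∈ R, v ∈ X := fun hx => h.conn X hx
        (fun u hu v huv hu' hv' => hX u hu v huv (Finset.mem_insert_of_mem hu')
          (Finset.mem_insert_of_mem hv'))
      have hex : ∃ x ∈ X, x ∈ R := by
        rcases Finset.mem_insert.1 hx with h1 | h1
        · exact ⟨a, hX x hxX a (h1 ▸ hwa) hx (Finset.mem_insert_of_mem haR), haR⟩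
        · exact ⟨x, hxX, h1⟩
      intro v hv
      rcases Finset.mem_insert.1 hv with h1 | h1
      · rw [h1]
        exact hX a (hsub hex a haR) w hwa.symm (Finset.mem_insert_of_mem haR)
          (Finset.mem_insert_self _ _)
      · exact hsub hex v h1
    · -- head
      obtain ⟨T, hT1⟩ := h.hd
      rw [hL] at hT1
      cases P with
      | nil =>
        simp only [List.nil_append, List.cons.injEq] at hT1
        exact ⟨B.reverse ++ j :: Q, by rw [hT1.1]; rfl⟩
      | cons b P =>
        simp only [List.cons_append, List.cons.injEq] at hT1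
        exact ⟨P ++ i :: (B.reverse ++ j :: Q), by rw [hT1.1]; rfl⟩
    · -- last
      obtain ⟨T, hT1⟩ := h.lt
      rw [hL] at hT1
      rcases List.eq_nil_or_concat Q with h3 | ⟨Q', b, h3⟩
      · subst h3
        have h4 : (P ++ [i, w]) ++ [j] = T ++ [v2] := by rw [← hT1]; simp
        have h5 := List.append_inj_right' h4 rfl
        simp only [List.cons.injEq, and_true] at h5
        exact ⟨P ++ i :: B.reverse, by rw [h5]; simp⟩
      · have h3' : Q = Q' ++ [b] := by simpa using h3
        subst h3'
        have h4 : (P ++ i :: w :: j :: Q') ++ [b] = T ++ [v2] := by rw [← hT1]; simp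
        have h5 := List.append_inj_right' h4 rfl
        simp only [List.cons.injEq, and_true] at h5
        exact ⟨P ++ i :: (B.reverse ++ j :: Q'), by rw [h5]; simp⟩
    · intro n hn
      have hn' := List.mem_reverse.1 hn
      refine ⟨?_, ((hc.mem n).1 (by simp [hn'])).symm, hNlock n hn⟩
      intro hnR
      rcases Finset.mem_insert.1 hnR with h1 | h1
      · exact hBw n hn' h1
      · exact hBR n hn' h1
    · intro x hx hwx
      have hx' : x ≠ w ∧ x ∉ R := by
        simpa [not_or] using hx
      have h2 := (hc.mem x).2 hwx
      simp only [List.mem_cons, List.mem_append] at h2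
      simp only [List.mem_append, List.mem_cons, List.mem_reverse, List.not_mem_nil, or_false]
      rcases h2 with h2 | h2 | h2 | h2
      · exact Or.inl h2
      · exact absurd (hAR x h2) hx'.2
      · exact Or.inr (Or.inr h2)
      · exact Or.inr (Or.inl h2)

end Pool.Agent.E8helper59.PT
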