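import Pool.Agent.E8helper59.PT.Disc

set_option autoImplicit false
set_option linter.unusedSectionVars false

/-!
# Discs in triangulations: states, chords
-/

namespace Pool.Agent.E8helper59.PT

variable {U : Type}

/-- the neighbours of `v` in `R` form an arc from `p` to `q` -/
def ArcAt (G : SimpleGraph U) (rot : U → Equiv.Perm U) (R : Finset U) (p v q : U) : Prop :=
  ∃ A B, CycL G rot v p (A ++ q :: B) ∧ A ≠ [] ∧ (∀ x ∈ A, x ∈ R) ∧ ∀ x ∈ B, x ∉ R

/-- the arcs at all the interior positions of a list -/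
def Arcs (G : SimpleGraph U) (rot : U → Equiv.Perm U) (R : Finset U) (D : List U) : Prop :=
  ∀ X p v q Y, D = X ++ p :: v :: q :: Y → ArcAt G rot R p v q

variable {G : SimpleGraph U} {rot : U → Equiv.Perm U} {R : Finset U}

theorem Arcs.tail {a : U} {l : List U} (h : Arcs G rot R (a :: l)) : Arcs G rot R l :=
  fun X p v q Y hl => h (a :: X) p v q Y (by rw [hl]; rfl)

theorem Arcs.suffix {X l : List U} (h : Arcs G rot R (X ++ l)) : Arcs G rot R l :=
  fun X' p v q Y hl => h (X ++ X') p v q Y (by rw [hl, List.append_assoc])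

theorem Arcs.pre {X l : List U} (h : Arcs G rot R (X ++ l)) : Arcs G rot R X :=
  fun X' p v q Y hl => h X' p v q (Y ++ l) (by rw [hl]; simp)

theorem Arcs.cons {p v q : U} {l : List U} (h1 : ArcAt G rot R p v q)
    (h2 : Arcs G rot R (v :: q :: l)) : Arcs G rot R (p :: v :: q :: l) := by
  intro X p' v' q' Y hl
  cases X with
  | nil =>
    simp only [List.nil_append, List.cons.injEq] at hl
    obtain ⟨rfl, rfl, rfl, -⟩ := hl
    exact h1
  | cons a X =>
    simp only [List.cons_append, List.cons.injEq] at hl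
    exact h2 X p' v' q' Y hl.2

theorem Arcs.join {X Y : List U} {a b : U} (h1 : Arcs G rot R (X ++ [a, b]))
    (h2 : Arcs G rot R (a :: b :: Y)) : Arcs G rot R (X ++ a :: b :: Y) := by
  induction X with
  | nil => exact h2
  | cons x X ih =>
    have h3 := ih h1.tail
    cases X with
    | nil => exact h3.cons (h1 [] x a b [] rfl)
    | cons y X =>
      cases X with
      | nil => exact h3.cons (h1 [] x y a [b] rfl)
      | cons z X => exact h3.cons (h1 [] x y z (X ++ [a, b]) rfl)

theorem snoc_of_cons (a : U) (l : List U) : ∃ P b, a :: l = P ++ [b] := by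
  rcases List.eq_nil_or_concat (a :: l) with h | ⟨P, b, h⟩
  · simp at h
  · exact ⟨P, b, by simpa using h⟩

theorem cons_of_snoc (l : List U) (a : U) : ∃ b Q, l ++ [a] = b :: Q := by
  cases l with
  | nil => exact ⟨a, [], rfl⟩
  | cons b l => exact ⟨b, l ++ [a], rfl⟩

theorem ArcAt.adj_left {p v q : U} (h : ArcAt G rot R p v q) : G.Adj v p := by
  obtain ⟨A, B, h, -⟩ := h
  exact (h.mem p).1 (by simp)

theorem ArcAt.adj_right {p v q : U} (h : ArcAt G rot R p v q) : G.Adj v q := by
  obtain ⟨A, B, h, -⟩ := h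
  exact (h.mem q).1 (by simp)

theorem ArcAt.ne {p v q : U} (h : ArcAt G rot R p v q) : p ≠ q := by
  obtain ⟨A, B, h, -⟩ := h
  have h1 := h.nodup
  rintro rfl
  simp at h1

theorem ArcAt.rot_left {p v q : U} (h : ArcAt G rot R p v q) : rot v p ∈ R := by
  obtain ⟨A, B, h, hA, hR, -⟩ := h
  cases A with
  | nil => exact absurd rfl hA
  | cons a A =>
    have h1 := h.chain
    simp only [List.cons_append, List.isChain_cons_cons] at h1
    rw [h1.1]
    exact hR a (by simp)

variable [Fintype U]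

/-- A disc of removed vertices with its boundary. -/
structure State (G : SimpleGraph U) (rot : U → Equiv.Perm U) (R : Finset U) (v1 v2 : U)
    (L : List U) : Prop where
  nodup : L.Nodup
  notR : ∀ x ∈ L, x ∉ R
  arcs : Arcs G rot R (v2 :: (L ++ [v1]))
  nbr : ∀ x, x ∉ R → (∃ y ∈ R, G.Adj x y) → x ∈ L
  conn : ∀ X : Set U, (∃ x ∈ X, x ∈ R) → (∀ u ∈ X, ∀ v, G.Adj u v → u ∈ R → v ∈ R → v ∈ X) →
    ∀ v ∈ R, v ∈ X
  hd : ∃ T, L = v1 :: T
  lt : ∃ T, L = T ++ [v2]

theorem State.arc {v1 v2 : U} {L : List U} (h : State G rot R v1 v2 L) {P Q : List U} {i w j : U}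
    (hL : L = P ++ i :: w :: j :: Q) : ArcAt G rot R i w j :=
  h.arcs (v2 :: P) i w j (Q ++ [v1]) (by rw [hL]; simp)

theorem State.arc_of_mem {v1 v2 : U} {L : List U} (h : State G rot R v1 v2 L) {x : U}
    (hx : x ∈ L) : ∃ p q, ArcAt G rot R p x q := by
  obtain ⟨P, Q, hL⟩ := List.append_of_mem hx
  obtain ⟨P', p, hP⟩ := snoc_of_cons v2 P
  obtain ⟨q, Q', hQ⟩ := cons_of_snoc Q v1
  refine ⟨p, q, h.arcs P' p x q Q' ?_⟩
  rw [hL]
  calc v2 :: (P ++ x :: Q ++ [v1]) = (v2 :: P) ++ x :: (Q ++ [v1]) := by simp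
    _ = P' ++ p :: x :: q :: Q' := by rw [hP, hQ]; simp

theorem State.hasR {v1 v2 : U} {L : List U} (h : State G rot R v1 v2 L) {x : U}
    (hx : x ∈ L) : ∃ r ∈ R, G.Adj x r := by
  obtain ⟨p, q, A, B, h1, h2, h3, -⟩ := h.arc_of_mem hx
  cases A with
  | nil => exact absurd rfl h2
  | cons a A => exact ⟨a, h3 a (by simp), (h1.mem a).1 (by simp)⟩

omit [Fintype U] in
theorem arcs_chain : ∀ {l : List U} {a : U}, Arcs G rot R (a :: l) → l.IsChain G.Adj
  | [], _, _ => by simp
  | [_], _, _ => by simp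
  | b :: c :: l, a, h => by
    rw [List.isChain_cons_cons]
    exact ⟨(h [] a b c l rfl).adj_right, arcs_chain h.tail⟩

theorem State.chain {v1 v2 : U} {L : List U} (h : State G rot R v1 v2 L) : L.IsChain G.Adj :=
  (arcs_chain h.arcs).left_of_append

/-- the edge from the last to the first vertex -/
theorem State.adj12 {v1 v2 : U} {L : List U} (h : State G rot R v1 v2 L) : G.Adj v1 v2 := by
  obtain ⟨T, hT⟩ := h.hd
  obtain ⟨q, Q', hQ⟩ := cons_of_snoc T v1
  exact (h.arcs [] v2 v1 q Q' (by rw [hT, List.cons_append, hQ]; rfl)).adj_left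

/-- **Chords do not cross.** -/
theorem State.crossing {v1 v2 : U} {L : List U} (hT : Tri G rot) (h : State G rot R v1 v2 L)
    {P M Q : List U} {x y w z : U} (hL : L = P ++ x :: (M ++ y :: Q)) (hxy : G.Adj x y)
    (hw : w ∈ M) (hz : z ∈ P ∨ z ∈ Q) (hwz : G.Adj w z) : False := by
  classical
  obtain ⟨M1, M2, rfl⟩ := List.append_of_mem hw
  obtain ⟨P1, i, hP1⟩ := snoc_of_cons x M1
  obtain ⟨j, Q1, hQ1⟩ := cons_of_snoc M2 y
  have hL2 : L = (P ++ P1) ++ i :: w :: j :: (Q1 ++ Q) := by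
    rw [hL]
    calc P ++ x :: (M1 ++ w :: M2 ++ y :: Q) = P ++ (x :: M1) ++ w :: (M2 ++ [y]) ++ Q := by simp
      _ = _ := by rw [hP1, hQ1]; simp
  have hnd := h.nodup
  -- the walk
  obtain ⟨C, hC⟩ : ∃ C, C = x :: (M1 ++ w :: M2 ++ [y] ++ [x]) := ⟨_, rfl⟩
  have hC2 : C = P1 ++ i :: w :: j :: (Q1 ++ [x]) := by
    rw [hC]
    calc x :: (M1 ++ w :: M2 ++ [y] ++ [x]) = (x :: M1) ++ w :: (M2 ++ [y]) ++ [x] := by simp
      _ = _ := by rw [hP1, hQ1]; simp
  have hCL : ∀ u ∈ C, u ∈ L := by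
    intro u hu
    rw [hC] at hu
    rw [hL]
    simp only [List.mem_cons, List.mem_append, List.not_mem_nil, or_false] at hu ⊢
    tauto
  have hzC : z ∉ C := by
    intro hzc
    rw [hC] at hzc
    rw [hL] at hnd
    have h1 := List.nodup_append.1 hnd
    rcases hz with hz | hz
    · refine h1.2.2 z hz z ?_ rfl
      simp only [List.mem_cons, List.mem_append, List.not_mem_nil, or_false] at hzc ⊢
      tauto
    · have h2 : x :: (M1 ++ w :: M2 ++ y :: Q) = (x :: (M1 ++ w :: M2 ++ [y])) ++ Q := by simp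
      rw [h2] at h1
      refine (List.nodup_append.1 h1.2.1).2.2 z ?_ z hz rfl
      simp only [List.mem_cons, List.mem_append, List.not_mem_nil, or_false] at hzc ⊢
      tauto
  obtain ⟨S, hS1, hS2⟩ := hT.pot (stepZ C) (stepZ_comm C) (by
    intro u v huv
    refine stepZ_supp (fun _ _ h => h.symm) C ?_ u v huv
    have h1 := h.chain
    have h2 : P ++ x :: (M1 ++ w :: M2 ++ y :: Q) = P ++ ((x :: (M1 ++ w :: M2 ++ [y])) ++ Q) := by
      simp
    rw [hL, h2] at h1
    have h3 := h1.right_of_append.left_of_append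
    rw [hC]
    have h4 : x :: (M1 ++ w :: M2 ++ [y] ++ [x]) = (x :: (M1 ++ w :: M2)) ++ y :: [x] := by simp
    rw [h4, List.isChain_split]
    exact ⟨by simpa using h3, by rw [List.isChain_pair]; exact hxy.symm⟩) (by
    intro u
    rw [hC]
    exact stepZ_closed _ _ _)
  -- at `w`
  obtain ⟨A, B, hc, hA, hAR, hBR⟩ := h.arc hL2
  cases A with
  | nil => exact hA rfl
  | cons a0 A =>
  have ha0R := hAR a0 (by simp)
  have hwa0 : G.Adj w a0 := (hc.mem a0).1 (by simp)
  have hzL : z ∈ L := by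
    rw [hL]
    rcases hz with hz | hz <;> simp [hz]
  have hzB : z ∈ B := by
    have h1 := (hc.mem z).2 hwz
    simp only [List.mem_cons, List.mem_append, List.cons_append] at h1
    rcases h1 with h1 | h1 | h1 | h1 | h1
    · exact absurd (by rw [hC2, h1]; simp) hzC
    · exact absurd (h1 ▸ ha0R) (h.notR z hzL)
    · exact absurd (hAR z (by simp [h1])) (h.notR z hzL)
    · exact absurd (by rw [hC2, h1]; simp) hzC
    · exact h1
  obtain ⟨B1, B2, rfl⟩ := List.append_of_mem hzB
  have hnc := hc.nodup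
  have hne : w ≠ i ∧ w ≠ j ∧ w ∉ P1 ∧ w ∉ Q1 := by
    rw [hL2] at hnd
    have h1 := List.nodup_append.1 hnd
    have h2 := (List.nodup_cons.1 h1.2.1)
    have h3 := (List.nodup_cons.1 h2.2)
    refine ⟨fun he => h2.1 (by rw [← he]; simp), fun he => h3.1 (by rw [← he]; simp),
      fun hm => ?_, fun hm => h3.1 (by simp [hm])⟩
    exact h1.2.2 w (by simp [hm]) w (by simp) rfl
  have hwx : w ≠ x := by
    rw [hL] at hnd
    have h1 := (List.nodup_append.1 hnd).2.1
    have h2 := (List.nodup_cons.1 h1).1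
    intro he
    exact h2 (by rw [← he]; simp)
  have hzw : ∀ v, stepZ C w v = (if v = i then 1 else 0) + (if v = j then 1 else 0) := by
    intro v
    rw [hC2]
    exact stepZ_mid P1 (Q1 ++ [x]) v hne.2.2.1 (by simp [hne.2.2.2, hwx]) hne.1 hne.2.1
  have key := S_chain (w := w) hS1 hS2 (stepZ_comm C) (A ++ j :: B1) a0 z (by
    have h1 := hc.chain
    have h2 : i :: (a0 :: A ++ j :: (B1 ++ z :: B2) ++ [i]) =
        [i] ++ ((a0 :: (A ++ j :: B1 ++ [z])) ++ (B2 ++ [i])) := by simp
    rw [h2] at h1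
    exact h1.right_of_append.left_of_append) (by
    intro u hu
    apply (hc.mem u).1
    simp only [List.mem_cons, List.mem_append, List.cons_append] at hu ⊢
    tauto)
  -- the sum is `1`
  have hsum : ((a0 :: (A ++ j :: B1)).map (stepZ C w)).sum = 1 := by
    have hz0 : ∀ l : List U, i ∉ l → j ∉ l → (l.map (stepZ C w)).sum = 0 := by
      intro l
      induction l with
      | nil => intros; rfl
      | cons b l ih =>
        intro h1 h2
        rw [List.map_cons, List.sum_cons, ih (fun h => h1 (by simp [h])) (fun h => h2 (by simp [h])),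
          hzw, if_neg (fun h => h1 (by simp [h])), if_neg (fun h => h2 (by simp [h]))]
        rfl
    have hij : i ≠ j := by
      rintro rfl
      simp at hnc
    have hi1 : i ∉ a0 :: A := by
      intro hm
      refine (List.nodup_cons.1 hnc).1 ?_
      simp only [List.mem_cons, List.mem_append, List.cons_append] at hm ⊢
      tauto
    have hi2 : i ∉ B1 := by
      intro hm
      refine (List.nodup_cons.1 hnc).1 ?_
      simp only [List.mem_cons, List.mem_append, List.cons_append] at hm ⊢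
      tauto
    have h5 := (List.nodup_cons.1 hnc).2
    rw [List.nodup_append] at h5
    have hj1 : j ∉ a0 :: A := fun hm => h5.2.2 j hm j (by simp) rfl
    have hj2 : j ∉ B1 := fun hm => (List.nodup_cons.1 h5.2.1).1 (by simp [hm])
    have h6 : a0 :: (A ++ j :: B1) = (a0 :: A) ++ j :: B1 := by simp
    rw [h6, List.map_append, List.sum_append, hz0 (a0 :: A) hi1 hj1, List.map_cons, List.sum_cons,
      hz0 B1 hi2 hj2, hzw, if_neg hij.symm, if_pos rfl]
    rfl
  rw [hsum] at key
  -- the values on `R`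
  have hRC : ∀ r ∈ R, ∀ v, stepZ C r v = 0 := fun r hr v =>
    stepZ_notMem C v (fun hm => h.notR r (hCL r hm) hr)
  have hR : ∀ r ∈ R, r ∈ {u : U | ∀ v, G.Adj u v → S u v = S a0 w} := by
    refine h.conn _ ⟨a0, ?_, ha0R⟩ ?_
    · intro v hv
      exact S_const hT hS1 hS2 (stepZ_comm C) (hRC a0 ha0R) hv hwa0.symm
    · intro u hu v huv huR hvR v' hv'
      rw [S_const hT hS1 hS2 (stepZ_comm C) (hRC v hvR) hv' huv.symm]
      have h1 := hS2 u v huv
      rw [hRC u huR, hu v huv] at h1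
      have : ∀ a b : ZMod 2, a + b = 0 → b = a := by decide
      exact this _ _ h1
  obtain ⟨r, hr, hzr⟩ := h.hasR hzL
  have hz0 : ∀ v, stepZ C z v = 0 := fun v => stepZ_notMem C v hzC
  have h1 : S z w = S a0 w := by
    rw [S_const hT hS1 hS2 (stepZ_comm C) hz0 hwz.symm hzr]
    have h2 := hS2 z r hzr
    rw [hz0, hR r hr z hzr.symm] at h2
    have : ∀ a b : ZMod 2, a + b = 0 → a = b := by decide
    exact this _ _ h2
  have h3 := hS2 z w hwz.symm
  rw [hz0, h1] at h3
  have h4 := hS2 a0 w hwa0.symm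
  rw [hRC a0 ha0R] at h4
  have : ∀ a b c : ZMod 2, a + b = 0 → a + c = 0 → b = c + 1 → False := by decide
  exact this _ _ _ h3 h4 key

end Pool.Agent.E8helper59.PT
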