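import Pool.Agent.E8helper59.PT.Lab

set_option autoImplicit false
set_option linter.unusedSectionVars false
set_option linter.unusedVariables false

/-!
# The linear system is computable in polynomial time
-/

namespace Pool.Agent.E8helper59.PT

open Pool.Agent.NPC Pool.Agent.H622R2

/-- unknowns: kind and three labels -/
abbrev Un := ℕ × Lb × Lb × Lb

/-- the labels -/
def Ls (M : List (List Bool)) : List Lb :=
  (List.range M.length) ×ˢ ((List.range M.length) ×ˢ (List.range M.length))

/-- the unknowns -/
def Us (M : List (List Bool)) : List Un := [0, 1, 2] ×ˢ (Ls M ×ˢ (Ls M ×ˢ Ls M))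

/-- the first equations -/
def E1s (M : List (List Bool)) : List (List Un × Bool) :=
  (Ls M ×ˢ Ls M).map fun q => ([(0, q.1, q.2, q.2)], false)

/-- the second equations -/
def E2s (M : List (List Bool)) : List (List Un × Bool) :=
  ((Ls M ×ˢ (Ls M ×ˢ Ls M)).filter fun q => adj3 M q.1 q.2.1 && (adj3 M q.1 q.2.2 &&
    !(decide (q.2.1 = q.2.2)))).map fun q =>
      ([(0, q.1, q.2.1, q.2.2), (0, q.1, q.2.2, q.2.1)], true)

/-- the unknowns of an equation of the third kind -/
def e3l (q : (Lb × Lb) × (Lb × Lb)) : List Un :=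
  (if q.2.1 = q.1.1 then [(0, q.1.1, q.2.2, q.1.2)] else []) ++
    ((if q.2.1 = q.1.2 then [(0, q.1.2, q.2.2, q.1.1)] else []) ++
      ((if q.2.2 = q.1.1 then [(0, q.1.1, q.2.1, q.1.2)] else []) ++
        ((if q.2.2 = q.1.2 then [(0, q.1.2, q.2.1, q.1.1)] else []) ++
          [(1, q.2.1, q.2.2, q.1.1), (1, q.2.2, q.2.1, q.1.1), (1, q.2.1, q.2.2, q.1.2),
            (1, q.2.2, q.2.1, q.1.2), (2, q.1.1, q.1.2, q.2.1), (2, q.1.1, q.1.2, q.2.2)])))

/-- the constant of an equation of the third kind -/
def e3c (q : (Lb × Lb) × (Lb × Lb)) : Bool :=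
  xor (decide (q.2.1 = q.1.1) && decide (q.2.2 = q.1.2))
    (decide (q.2.2 = q.1.1) && decide (q.2.1 = q.1.2))

/-- the third equations -/
def E3s (M : List (List Bool)) : List (List Un × Bool) :=
  (((Ls M ×ˢ Ls M) ×ˢ (Ls M ×ˢ Ls M)).filter fun q => adj3 M q.1.1 q.1.2 && adj3 M q.2.1 q.2.2).map
    fun q => (e3l q, e3c q)

/-- **The test of the linear system.** -/
def tsB (M : List (List Bool)) : Bool := slv (Us M) (E1s M ++ (E2s M ++ E3s M))

theorem mem_Ls {M : List (List Bool)} {l : Lb} :
    l ∈ Ls M ↔ l.1 < M.length ∧ l.2.1 < M.length ∧ l.2.2 < M.length := by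
  unfold Ls
  obtain ⟨a, b, c⟩ := l
  simp only [List.mem_product, List.mem_range]

theorem Ls_of_can {M : List (List Bool)} {l : Lb} (h : can M l = true) : l ∈ Ls M := by
  rw [mem_Ls]
  unfold can at h
  simp only [Bool.and_eq_true, decide_eq_true_eq] at h
  exact ⟨h.1, h.2.1, h.2.2.1⟩

theorem mem_Us {M : List (List Bool)} {k : ℕ} {a b c : Lb} :
    (k, a, b, c) ∈ Us M ↔ (k = 0 ∨ k = 1 ∨ k = 2) ∧ a ∈ Ls M ∧ b ∈ Ls M ∧ c ∈ Ls M := by
  unfold Us
  simp only [List.mem_product, List.mem_cons, List.not_mem_nil, or_false]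

theorem Us_nodup (M : List (List Bool)) : (Us M).Nodup := by
  have h : (Ls M).Nodup := by
    unfold Ls
    exact List.nodup_range.product (List.nodup_range.product List.nodup_range)
  unfold Us
  exact List.Nodup.product (by decide) (h.product (h.product h))

theorem sum_ite_one (X : Un → ZMod 2) (c : Prop) [Decidable c] (a : Un) :
    ((if c then [a] else []).map X).sum = (if c then 1 else 0) * X a := by
  split_ifs <;> simp

theorem e3c_val (q : (Lb × Lb) × (Lb × Lb)) : (if e3c q = true then (1 : ZMod 2) else 0) =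
    (if q.2.1 = q.1.1 then 1 else 0) * (if q.2.2 = q.1.2 then 1 else 0) +
      (if q.2.2 = q.1.1 then 1 else 0) * (if q.2.1 = q.1.2 then 1 else 0) := by
  have key : ∀ b1 b2 b3 b4 : Bool, (if (xor (b1 && b2) (b3 && b4)) = true then (1 : ZMod 2) else 0) =
      (if b1 = true then 1 else 0) * (if b2 = true then 1 else 0) +
        (if b3 = true then 1 else 0) * (if b4 = true then 1 else 0) := by decide
  have h := key (decide (q.2.1 = q.1.1)) (decide (q.2.2 = q.1.2)) (decide (q.2.2 = q.1.1))
    (decide (q.2.1 = q.1.2))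
  simp only [decide_eq_true_eq] at h
  exact h

theorem e3_iff (X : Un → ZMod 2) (u v x y : Lb) :
    ((e3l ((u, v), (x, y))).map X).sum = (if e3c ((u, v), (x, y)) = true then 1 else 0) ↔
      (cf (fun a b c => X (0, a, b, c)) u v x y + cf (fun a b c => X (0, a, b, c)) u v y x) +
        (X (1, x, y, u) + X (1, y, x, u)) + (X (1, x, y, v) + X (1, y, x, v)) +
          (X (2, u, v, x) + X (2, u, v, y)) = 0 := by
  classical
  rw [e3c_val]
  unfold e3l cf
  have e : ∀ a b : Lb, (if a = b then (1 : ZMod 2) else 0) = e1 a b := by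
    intro a b
    unfold e1
    by_cases h : a = b
    · rw [if_pos h, if_pos h]
    · rw [if_neg h, if_neg h]
  simp only [List.map_append, List.sum_append, sum_ite_one, List.map_cons, List.map_nil,
    List.sum_cons, List.sum_nil, e]
  have h2 : ∀ A B : ZMod 2, A = B ↔ A + B = 0 := by decide
  rw [h2]
  have h3 : ∀ A B : ZMod 2, A = B → (A = 0 ↔ B = 0) := fun A B h => by rw [h]
  apply h3
  ring

theorem tsB_spec (M : List (List Bool)) : tsB M = true ↔ TSys (LG M) := by
  classical
  unfold tsB
  rw [slv_spec _ _ (Us_nodup M)]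
  · constructor
    · rintro ⟨X, hX⟩
      have h1 : ∀ u ∈ Ls M, ∀ x ∈ Ls M, X (0, u, x, x) = 0 := by
        intro u hu x hx
        have := hX ([(0, u, x, x)], false) (List.mem_append_left _ (by
          unfold E1s
          exact List.mem_map.2 ⟨(u, x), List.mem_product.2 ⟨hu, hx⟩, rfl⟩))
        simpa using this
      refine ⟨fun a b c => if b = c then 0 else X (0, a, b, c), fun a b c => X (1, a, b, c),
        fun a b c => X (2, a, b, c), fun u x => if_pos rfl, fun u x y hx hy hxy => ?_,
        fun u v huv x y hxy => ?_⟩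
      · show (if x = y then 0 else X (0, u, x, y)) + (if y = x then 0 else X (0, u, y, x)) = 1
        rw [if_neg hxy, if_neg hxy.symm]
        have hx' : adj3 M u x = true := hx
        have hy' : adj3 M u y = true := hy
        have := hX ([(0, u, x, y), (0, u, y, x)], true) (List.mem_append_right _
          (List.mem_append_left _ (by
            unfold E2s
            refine List.mem_map.2 ⟨(u, x, y), List.mem_filter.2 ⟨?_, ?_⟩, rfl⟩
            · exact List.mem_product.2 ⟨Ls_of_can (adj3_can hx').1,
                List.mem_product.2 ⟨Ls_of_can (adj3_can hx').2, Ls_of_can (adj3_can hy').2⟩⟩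
            · simp [hx', hy', hxy])))
        simpa using this
      · have huv' : adj3 M u v = true := huv
        have hxy' : adj3 M x y = true := hxy
        have lu := Ls_of_can (adj3_can huv').1
        have lv := Ls_of_can (adj3_can huv').2
        have lx := Ls_of_can (adj3_can hxy').1
        have ly := Ls_of_can (adj3_can hxy').2
        have h3 := hX (e3l ((u, v), (x, y)), e3c ((u, v), (x, y))) (List.mem_append_right _
          (List.mem_append_right _ (by
            unfold E3s
            refine List.mem_map.2 ⟨((u, v), (x, y)), List.mem_filter.2 ⟨?_, ?_⟩, rfl⟩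
            · exact List.mem_product.2 ⟨List.mem_product.2 ⟨lu, lv⟩, List.mem_product.2 ⟨lx, ly⟩⟩
            · simp [huv', hxy'])))
        have ho : ∀ a ∈ Ls M, ∀ b ∈ Ls M, ∀ c, (if b = c then 0 else X (0, a, b, c)) =
            X (0, a, b, c) := by
          intro a ha b hb c
          by_cases hbc : b = c
          · rw [if_pos hbc, ← hbc, h1 a ha b hb]
          · rw [if_neg hbc]
        have h4 := (e3_iff X u v x y).1 h3
        unfold cf at h4 ⊢
        show e1 x u * (if y = v then 0 else X (0, u, y, v)) +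
            e1 x v * (if y = u then 0 else X (0, v, y, u)) + e1 x u * e1 y v +
          (e1 y u * (if x = v then 0 else X (0, u, x, v)) +
            e1 y v * (if x = u then 0 else X (0, v, x, u)) + e1 y u * e1 x v) +
          _ + _ + _ = 0
        rw [ho u lu y ly v, ho v lv y ly u, ho u lu x lx v, ho v lv x lx u]
        exact h4
    · rintro ⟨o, Q, p, h⟩
      obtain ⟨X, hX⟩ : ∃ X : Un → ZMod 2, (∀ a b c, X (0, a, b, c) = o a b c) ∧
          (∀ a b c, X (1, a, b, c) = Q a b c) ∧ ∀ a b c, X (2, a, b, c) = p a b c :=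
        ⟨fun q => if q.1 = 0 then o q.2.1 q.2.2.1 q.2.2.2 else
          if q.1 = 1 then Q q.2.1 q.2.2.1 q.2.2.2 else p q.2.1 q.2.2.1 q.2.2.2,
          fun a b c => rfl, fun a b c => rfl, fun a b c => rfl⟩
      obtain ⟨X0, X1, X2⟩ := hX
      refine ⟨X, fun e he => ?_⟩
      rcases List.mem_append.1 he with he | he
      · unfold E1s at he
        obtain ⟨q, hq, rfl⟩ := List.mem_map.1 he
        simp [X0, h.self]
      · rcases List.mem_append.1 he with he | he
        · unfold E2s at he
          obtain ⟨q, hq, rfl⟩ := List.mem_map.1 he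
          rw [List.mem_filter] at hq
          simp only [Bool.and_eq_true, Bool.not_eq_true', decide_eq_false_iff_not] at hq
          simp [X0, h.anti q.1 q.2.1 q.2.2 hq.2.1 hq.2.2.1 hq.2.2.2]
        · unfold E3s at he
          obtain ⟨⟨⟨u, v⟩, ⟨x, y⟩⟩, hq, rfl⟩ := List.mem_map.1 he
          rw [List.mem_filter] at hq
          simp only [Bool.and_eq_true] at hq
          have h5 := h.main u v hq.2.1 x y hq.2.2
          apply (e3_iff X u v x y).2
          simp only [X1, X2]
          have h6 : (fun a b c => X (0, a, b, c)) = o := by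
            funext a b c
            exact X0 a b c
          rw [h6]
          exact h5
  · intro e he j hj
    rcases List.mem_append.1 he with he | he
    · unfold E1s at he
      obtain ⟨q, hq, rfl⟩ := List.mem_map.1 he
      rw [List.mem_product] at hq
      simp only [List.mem_cons, List.not_mem_nil, or_false] at hj
      rw [hj, mem_Us]
      exact ⟨Or.inl rfl, hq.1, hq.2, hq.2⟩
    · rcases List.mem_append.1 he with he | he
      · unfold E2s at he
        obtain ⟨q, hq, rfl⟩ := List.mem_map.1 he
        rw [List.mem_filter, List.mem_product, List.mem_product] at hq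
        simp only [List.mem_cons, List.not_mem_nil, or_false] at hj
        rcases hj with hj | hj <;> rw [hj, mem_Us]
        · exact ⟨Or.inl rfl, hq.1.1, hq.1.2.1, hq.1.2.2⟩
        · exact ⟨Or.inl rfl, hq.1.1, hq.1.2.2, hq.1.2.1⟩
      · unfold E3s at he
        obtain ⟨⟨⟨u, v⟩, ⟨x, y⟩⟩, hq, rfl⟩ := List.mem_map.1 he
        rw [List.mem_filter, List.mem_product, List.mem_product, List.mem_product] at hq
        obtain ⟨⟨⟨lu, lv⟩, ⟨lx, ly⟩⟩, -⟩ := hq
        unfold e3l at hj
        simp only [List.mem_append, List.mem_ite_nil_right, List.mem_cons, List.not_mem_nil,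
          or_false] at hj
        rcases hj with ⟨-, rfl⟩ | ⟨-, rfl⟩ | ⟨-, rfl⟩ | ⟨-, rfl⟩ | rfl | rfl | rfl | rfl | rfl |
          rfl <;> rw [mem_Us]
        · exact ⟨Or.inl rfl, lu, ly, lv⟩
        · exact ⟨Or.inl rfl, lv, ly, lu⟩
        · exact ⟨Or.inl rfl, lu, lx, lv⟩
        · exact ⟨Or.inl rfl, lv, lx, lu⟩
        · exact ⟨Or.inr (Or.inl rfl), lx, ly, lu⟩
        · exact ⟨Or.inr (Or.inl rfl), ly, lx, lu⟩
        · exact ⟨Or.inr (Or.inl rfl), lx, ly, lv⟩
        · exact ⟨Or.inr (Or.inl rfl), ly, lx, lv⟩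
        · exact ⟨Or.inr (Or.inr rfl), lu, lv, lx⟩
        · exact ⟨Or.inr (Or.inr rfl), lu, lv, ly⟩

end Pool.Agent.E8helper59.PT
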