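import Pool.Agent.E8helper59.PT.Sys

set_option autoImplicit false
set_option linter.unusedSectionVars false
set_option linter.unusedVariables false

/-!
# Polynomial time
-/

namespace Pool.Agent.E8helper59.PT

open Pool.Agent.NPC Pool.Agent.H622R2

variable {α : Type} [TEnc α]

theorem range_poly {f : α → List (List Bool)} (hf : Poly f) :
    Poly (fun a => List.range (f a).length) := Poly.range_length hf

theorem adjB_poly {M : α → List (List Bool)} {i j : α → ℕ} (hM : Poly M) (hi : Poly i)
    (hj : Poly j) : Poly (fun a => SD.adjB (M a) (i a) (j a)) :=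
  (SD.adjB_poly.comp (Poly.pair (Poly.pair hM hi) hj))

theorem mem3_poly {x : α → ℕ} {l : α → Lb} (hx : Poly x) (hl : Poly l) :
    Poly (fun a => mem3 (x a) (l a)) := by
  unfold mem3
  fun_prop

attribute [local fun_prop] range_poly adjB_poly mem3_poly

theorem sub3_poly {l l' : α → Lb} (hl : Poly l) (hl' : Poly l') :
    Poly (fun a => sub3 (l a) (l' a)) := by
  unfold sub3
  fun_prop

theorem lev_poly {l : α → Lb} (hl : Poly l) : Poly (fun a => lev (l a)) := by
  unfold lev
  fun_prop

attribute [local fun_prop] sub3_poly lev_poly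

theorem can_poly {M : α → List (List Bool)} {l : α → Lb} (hM : Poly M) (hl : Poly l) :
    Poly (fun a => can (M a) (l a)) := by
  unfold can
  fun_prop

attribute [local fun_prop] can_poly

theorem adj3_poly {M : α → List (List Bool)} {l l' : α → Lb} (hM : Poly M) (hl : Poly l)
    (hl' : Poly l') : Poly (fun a => adj3 (M a) (l a) (l' a)) := by
  unfold adj3
  fun_prop

attribute [local fun_prop] adj3_poly

theorem Ls_poly {M : α → List (List Bool)} (hM : Poly M) : Poly (fun a => Ls (M a)) := by
  unfold Ls
  fun_prop

attribute [local fun_prop] Ls_poly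

theorem Us_poly {M : α → List (List Bool)} (hM : Poly M) : Poly (fun a => Us (M a)) := by
  unfold Us
  fun_prop

theorem E1s_poly {M : α → List (List Bool)} (hM : Poly M) : Poly (fun a => E1s (M a)) := by
  unfold E1s
  fun_prop

theorem E2s_poly {M : α → List (List Bool)} (hM : Poly M) : Poly (fun a => E2s (M a)) := by
  unfold E2s
  fun_prop

theorem e3l_poly {q : α → (Lb × Lb) × (Lb × Lb)} (hq : Poly q) : Poly (fun a => e3l (q a)) := by
  unfold e3l
  fun_prop

theorem e3c_poly {q : α → (Lb × Lb) × (Lb × Lb)} (hq : Poly q) : Poly (fun a => e3c (q a)) := by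
  unfold e3c
  fun_prop

attribute [local fun_prop] e3l_poly e3c_poly

theorem E3s_poly {M : α → List (List Bool)} (hM : Poly M) : Poly (fun a => E3s (M a)) := by
  unfold E3s
  fun_prop

theorem tsB_poly : Poly tsB := by
  unfold tsB
  exact slv_poly (Us_poly Poly.id)
    (Poly.append (E1s_poly Poly.id) (Poly.append (E2s_poly Poly.id) (E3s_poly Poly.id)))

end Pool.Agent.E8helper59.PT
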