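import Pool.Agent.E8helper59.PT.Orbit

set_option autoImplicit false
set_option linter.unusedSectionVars false

/-!
# The triangulation of a plane map
-/

namespace Pool.Agent.E8helper59.PT

open Classical

variable {V : Type} [Fintype V] {B : SimpleGraph V} {rot : V → Equiv.Perm V}

/-- the face on one side of `uv` is a triangle -/
def Closed (rot : V → Equiv.Perm V) (u v : V) : Prop :=
  rot (rot v u) v = u ∧ rot u (rot v u) = v

/-- the darts whose face is not a triangle -/
@[ext] structure OD (B : SimpleGraph V) (rot : V → Equiv.Perm V) where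
  s : V
  t : V
  adj : B.Adj s t
  op : ¬ Closed rot s t

noncomputable instance : Fintype (OD B rot) :=
  Fintype.ofInjective (fun d : OD B rot => (d.s, d.t)) (fun d e h => by
    simp only [Prod.mk.injEq] at h
    exact OD.ext h.1 h.2)

theorem PMap.adj_inv (h : PMap B rot) {v w : V} (hvw : B.Adj v w) :
    B.Adj v ((rot v).symm w) := by
  have h1 : (rot v).SameCycle w ((rot v).symm w) := ⟨-1, by simp⟩
  obtain ⟨n, -, hn⟩ := h1.exists_pow_eq'
  rw [← hn]
  induction n with
  | zero => exact hvw
  | succ n ih =>
    clear hn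
    have : ∀ n : ℕ, B.Adj v (((rot v) ^ n) w) := by
      intro n
      induction n with
      | zero => exact hvw
      | succ n ih =>
        rw [pow_succ', Equiv.Perm.mul_apply]
        exact h.adj_rot _ _ ih
    exact this _

theorem closed_next {u v : V} (h : Closed rot u v) : Closed rot v (rot v u) := by
  obtain ⟨h1, h2⟩ := h
  exact ⟨by rw [h1, h2], by rw [h1]⟩

theorem closed_prev {u v : V} (h : Closed rot v (rot v u)) : Closed rot u v := by
  obtain ⟨h1, h2⟩ := h
  have h3 : rot (rot v u) v = u := (rot v).injective h2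
  exact ⟨h3, by rw [h3] at h1; exact h1⟩

/-- the next dart of the face -/
noncomputable def phi (h : PMap B rot) : Equiv.Perm (OD B rot) where
  toFun d := ⟨d.t, rot d.t d.s, h.adj_rot _ _ d.adj.symm, fun hc => d.op (closed_prev hc)⟩
  invFun d := ⟨(rot d.s).symm d.t, d.s, (h.adj_inv d.adj).symm, fun hc => d.op (by
    have := closed_next hc
    rwa [Equiv.apply_symm_apply] at this)⟩
  left_inv d := by
    ext
    · simp
    · simp
  right_inv d := by
    ext
    · simp
    · simp

variable (h : PMap B rot)

@[simp] theorem phi_s (d : OD B rot) : (phi h d).s = d.t := rfl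
@[simp] theorem phi_t (d : OD B rot) : (phi h d).t = rot d.t d.s := rfl
@[simp] theorem phi_symm_t (d : OD B rot) : ((phi h).symm d).t = d.s := rfl

theorem phi_ne (d : OD B rot) : phi h d ≠ d := fun he => d.adj.ne (by
  have := congrArg OD.s he
  simp only [phi_s] at this
  exact this.symm)

theorem phi2_ne (d : OD B rot) : phi h (phi h d) ≠ d := fun he => h.deg d.s d.t d.adj (by
  have := congrArg OD.s he
  simpa using this)

theorem phi3_ne (d : OD B rot) : phi h (phi h (phi h d)) ≠ d := fun he => d.op (by
  have h1 := congrArg OD.s he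
  have h2 := congrArg OD.t he
  simp only [phi_s, phi_t] at h1 h2
  rw [h1] at h2
  exact ⟨h1, h2⟩)

/-- the open faces -/
def Fc (h : PMap B rot) : Type := Quotient (Equiv.Perm.SameCycle.setoid (phi h))

/-- the face of a dart -/
noncomputable def face (d : OD B rot) : Fc h := Quotient.mk (Equiv.Perm.SameCycle.setoid (phi h)) d

noncomputable instance : Fintype (Fc h) :=
  Fintype.ofSurjective (face h) Quot.mk_surjective

theorem face_surj (F : Fc h) : ∃ d, face h d = F := Quot.mk_surjective F

theorem face_eq {d e : OD B rot} : face h d = face h e ↔ (phi h).SameCycle d e := by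
  unfold face
  exact Quotient.eq

@[simp] theorem face_phi (d : OD B rot) : face h (phi h d) = face h d :=
  (face_eq h).2 (Equiv.Perm.SameCycle.symm ⟨1, by simp⟩)

@[simp] theorem face_phi_symm (d : OD B rot) : face h ((phi h).symm d) = face h d :=
  (face_eq h).2 (Equiv.Perm.SameCycle.symm ⟨-1, by simp⟩)

/-- the vertices of the triangulation -/
abbrev TV (h : PMap B rot) : Type := V ⊕ (OD B rot ⊕ Fc h)

/-- adjacency -/
def TAdj : TV h → TV h → Prop
  | Sum.inl u, Sum.inl v => B.Adj u v
  | Sum.inl u, Sum.inr (Sum.inl d) => u = d.s ∨ u = d.t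
  | Sum.inr (Sum.inl d), Sum.inl u => u = d.s ∨ u = d.t
  | Sum.inr (Sum.inl d), Sum.inr (Sum.inl e) => e = phi h d ∨ d = phi h e
  | Sum.inr (Sum.inl d), Sum.inr (Sum.inr F) => face h d = F
  | Sum.inr (Sum.inr F), Sum.inr (Sum.inl d) => face h d = F
  | _, _ => False

/-- the graph of the triangulation -/
def TG : SimpleGraph (TV h) where
  Adj := TAdj h
  symm := ⟨by
    rintro (u | d | F) (v | e | F') hh
    · exact SimpleGraph.Adj.symm hh
    · exact hh
    · exact hh
    · exact hh
    · exact hh.symm
    · exact hh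
    · exact hh
    · exact hh
    · exact hh⟩
  loopless := ⟨by
    rintro (u | d | F) hh
    · exact B.irrefl hh
    · rcases hh with hh | hh <;> exact phi_ne h d hh.symm
    · exact hh⟩

/-- rotation at a vertex of the map -/
noncomputable def rotV (v : V) : Equiv.Perm (TV h) where
  toFun x := match x with
    | Sum.inl u => if hu : B.Adj u v then
        (if ho : Closed rot u v then Sum.inl (rot v u) else Sum.inr (Sum.inl ⟨u, v, hu, ho⟩))
        else Sum.inl u
    | Sum.inr (Sum.inl d) => if d.t = v then Sum.inr (Sum.inl (phi h d)) else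
        if d.s = v then Sum.inl d.t else Sum.inr (Sum.inl d)
    | Sum.inr (Sum.inr F) => Sum.inr (Sum.inr F)
  invFun x := match x with
    | Sum.inl w => if hw : B.Adj v w then
        (if ho : Closed rot v w then Sum.inl ((rot v).symm w) else Sum.inr (Sum.inl ⟨v, w, hw, ho⟩))
        else Sum.inl w
    | Sum.inr (Sum.inl d) => if d.s = v then Sum.inr (Sum.inl ((phi h).symm d)) else
        if d.t = v then Sum.inl d.s else Sum.inr (Sum.inl d)
    | Sum.inr (Sum.inr F) => Sum.inr (Sum.inr F)
  left_inv x := by
    rcases x with u | d | F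
    · by_cases hu : B.Adj u v
      · by_cases ho : Closed rot u v
        · simp only [dif_pos hu, dif_pos ho, dif_pos (h.adj_rot v u hu.symm),
            dif_pos (closed_next ho), Equiv.symm_apply_apply]
        · simp only [dif_pos hu, dif_neg ho, if_neg hu.ne, if_true]
      · simp only [dif_neg hu, dif_neg (fun hh : B.Adj v u => hu hh.symm)]
    · by_cases ht : d.t = v
      · simp only [if_pos ht, phi_s, Equiv.symm_apply_apply]
      · by_cases hs : d.s = v
        · subst hs
          simp only [if_neg ht, if_true, dif_pos d.adj, dif_neg d.op]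
        · simp only [if_neg ht, if_neg hs]
    · rfl
  right_inv x := by
    rcases x with w | d | F
    · by_cases hw : B.Adj v w
      · by_cases ho : Closed rot v w
        · have h1 : Closed rot ((rot v).symm w) v := by
            apply closed_prev
            rwa [Equiv.apply_symm_apply]
          simp only [dif_pos hw, dif_pos ho, dif_pos (h.adj_inv hw).symm, dif_pos h1,
            Equiv.apply_symm_apply]
        · simp only [dif_pos hw, dif_neg ho, if_neg hw.ne.symm, if_true]
      · simp only [dif_neg hw, dif_neg (fun hh : B.Adj w v => hw hh.symm)]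
    · by_cases hs : d.s = v
      · simp only [if_pos hs, phi_symm_t, Equiv.apply_symm_apply]
      · by_cases ht : d.t = v
        · subst ht
          simp only [if_neg hs, if_true, dif_pos d.adj, dif_neg d.op]
        · simp only [if_neg ht, if_neg hs]
    · rfl

/-- rotation at a vertex of an open dart -/
noncomputable def rotY (d : OD B rot) : Equiv.Perm (TV h) where
  toFun x := match x with
    | Sum.inl u => if u = d.t then Sum.inl d.s else
        if u = d.s then Sum.inr (Sum.inl ((phi h).symm d)) else Sum.inl u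
    | Sum.inr (Sum.inl e) => if e = phi h d then Sum.inl d.t else
        if e = (phi h).symm d then Sum.inr (Sum.inr (face h d)) else Sum.inr (Sum.inl e)
    | Sum.inr (Sum.inr F) => if F = face h d then Sum.inr (Sum.inl (phi h d)) else
        Sum.inr (Sum.inr F)
  invFun x := match x with
    | Sum.inl u => if u = d.s then Sum.inl d.t else
        if u = d.t then Sum.inr (Sum.inl (phi h d)) else Sum.inl u
    | Sum.inr (Sum.inl e) => if e = (phi h).symm d then Sum.inl d.s else
        if e = phi h d then Sum.inr (Sum.inr (face h d)) else Sum.inr (Sum.inl e)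
    | Sum.inr (Sum.inr F) => if F = face h d then Sum.inr (Sum.inl ((phi h).symm d)) else
        Sum.inr (Sum.inr F)
  left_inv x := by
    have hst := d.adj.ne
    have h2 : phi h d ≠ (phi h).symm d := fun he => phi2_ne h d (by
      rw [he, Equiv.apply_symm_apply])
    rcases x with u | e | F
    · by_cases h3 : u = d.t
      · simp [h3]
      · by_cases h4 : u = d.s
        · simp [h4, hst]
        · simp [h3, h4]
    · by_cases h3 : e = phi h d
      · simp [h3, hst.symm]
      · by_cases h4 : e = (phi h).symm d
        · simp [h4, h2.symm]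
        · simp [h3, h4]
    · by_cases h3 : F = face h d
      · simp [h3, h2]
      · simp [h3]
  right_inv x := by
    have hst := d.adj.ne
    have h2 : phi h d ≠ (phi h).symm d := fun he => phi2_ne h d (by
      rw [he, Equiv.apply_symm_apply])
    rcases x with u | e | F
    · by_cases h3 : u = d.s
      · simp [h3]
      · by_cases h4 : u = d.t
        · simp [h4, hst.symm]
        · simp [h3, h4]
    · by_cases h3 : e = (phi h).symm d
      · simp [h3, hst]
      · by_cases h4 : e = phi h d
        · simp [h4, h2]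
        · simp [h3, h4]
    · by_cases h3 : F = face h d
      · simp [h3, h2.symm]
      · simp [h3]

/-- rotation at the centre of an open face -/
noncomputable def rotZ (F : Fc h) : Equiv.Perm (TV h) where
  toFun x := match x with
    | Sum.inr (Sum.inl e) => if face h e = F then Sum.inr (Sum.inl ((phi h).symm e)) else
        Sum.inr (Sum.inl e)
    | y => y
  invFun x := match x with
    | Sum.inr (Sum.inl e) => if face h e = F then Sum.inr (Sum.inl (phi h e)) else
        Sum.inr (Sum.inl e)
    | y => y
  left_inv x := by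
    rcases x with u | e | F'
    · rfl
    · by_cases h3 : face h e = F
      · simp [h3]
      · simp [h3]
    · rfl
  right_inv x := by
    rcases x with u | e | F'
    · rfl
    · by_cases h3 : face h e = F
      · simp [h3]
      · simp [h3]
    · rfl

/-- the rotation of the triangulation -/
noncomputable def rotT : TV h → Equiv.Perm (TV h)
  | Sum.inl v => rotV h v
  | Sum.inr (Sum.inl d) => rotY h d
  | Sum.inr (Sum.inr F) => rotZ h F

theorem rotT_closed {u v : V} (huv : B.Adj u v) (hc : Closed rot u v) :
    rotT h (Sum.inl v) (Sum.inl u) = Sum.inl (rot v u) := by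
  show (rotV h v) (Sum.inl u) = _
  simp only [rotV, Equiv.coe_fn_mk, dif_pos huv, dif_pos hc]

theorem rotT_open (d : OD B rot) :
    rotT h (Sum.inl d.t) (Sum.inl d.s) = Sum.inr (Sum.inl d) := by
  show (rotV h d.t) (Sum.inl d.s) = _
  simp only [rotV, Equiv.coe_fn_mk, dif_pos d.adj, dif_neg d.op]

theorem rotT_in (d : OD B rot) :
    rotT h (Sum.inl d.t) (Sum.inr (Sum.inl d)) = Sum.inr (Sum.inl (phi h d)) := by
  show (rotV h d.t) (Sum.inr (Sum.inl d)) = _
  simp only [rotV, Equiv.coe_fn_mk, if_true]

theorem rotT_out (d : OD B rot) :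
    rotT h (Sum.inl d.s) (Sum.inr (Sum.inl d)) = Sum.inl d.t := by
  show (rotV h d.s) (Sum.inr (Sum.inl d)) = _
  simp only [rotV, Equiv.coe_fn_mk, if_true, if_neg d.adj.ne.symm]

theorem rotT_yt (d : OD B rot) :
    rotT h (Sum.inr (Sum.inl d)) (Sum.inl d.t) = Sum.inl d.s := by
  show (rotY h d) (Sum.inl d.t) = _
  simp only [rotY, Equiv.coe_fn_mk, if_true]

theorem rotT_ys (d : OD B rot) :
    rotT h (Sum.inr (Sum.inl d)) (Sum.inl d.s) = Sum.inr (Sum.inl ((phi h).symm d)) := by
  show (rotY h d) (Sum.inl d.s) = _
  simp only [rotY, Equiv.coe_fn_mk, if_true, if_neg d.adj.ne]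

theorem rotT_yy (d : OD B rot) :
    rotT h (Sum.inr (Sum.inl d)) (Sum.inr (Sum.inl (phi h d))) = Sum.inl d.t := by
  show (rotY h d) _ = _
  simp only [rotY, Equiv.coe_fn_mk, if_true]

theorem rotT_yy' (d : OD B rot) :
    rotT h (Sum.inr (Sum.inl (phi h d))) (Sum.inr (Sum.inl d)) =
      Sum.inr (Sum.inr (face h d)) := by
  show (rotY h (phi h d)) _ = _
  simp only [rotY, Equiv.coe_fn_mk, if_neg (phi2_ne h d).symm, Equiv.symm_apply_apply, if_true,
    face_phi]

theorem rotT_yz (d : OD B rot) :
    rotT h (Sum.inr (Sum.inl d)) (Sum.inr (Sum.inr (face h d))) = Sum.inr (Sum.inl (phi h d)) := by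
  show (rotY h d) _ = _
  simp only [rotY, Equiv.coe_fn_mk, if_true]

theorem rotT_zy (d : OD B rot) :
    rotT h (Sum.inr (Sum.inr (face h d))) (Sum.inr (Sum.inl d)) =
      Sum.inr (Sum.inl ((phi h).symm d)) := by
  show (rotZ h (face h d)) _ = _
  simp only [rotZ, Equiv.coe_fn_mk, if_true]

/-- case analysis on the darts -/
theorem dart_cases {P : TV h → TV h → Prop}
    (h1 : ∀ u v, B.Adj u v → Closed rot u v → P (Sum.inl u) (Sum.inl v))
    (h2 : ∀ d : OD B rot, P (Sum.inl d.s) (Sum.inl d.t))
    (h3 : ∀ d : OD B rot, P (Sum.inl d.s) (Sum.inr (Sum.inl d)))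
    (h4 : ∀ d : OD B rot, P (Sum.inl d.t) (Sum.inr (Sum.inl d)))
    (h5 : ∀ d : OD B rot, P (Sum.inr (Sum.inl d)) (Sum.inl d.s))
    (h6 : ∀ d : OD B rot, P (Sum.inr (Sum.inl d)) (Sum.inl d.t))
    (h7 : ∀ d : OD B rot, P (Sum.inr (Sum.inl d)) (Sum.inr (Sum.inl (phi h d))))
    (h8 : ∀ d : OD B rot, P (Sum.inr (Sum.inl (phi h d))) (Sum.inr (Sum.inl d)))
    (h9 : ∀ d : OD B rot, P (Sum.inr (Sum.inl d)) (Sum.inr (Sum.inr (face h d))))
    (h10 : ∀ d : OD B rot, P (Sum.inr (Sum.inr (face h d))) (Sum.inr (Sum.inl d))) :
    ∀ x y, (TG h).Adj x y → P x y := by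
  rintro (u | d | F) (v | e | F') hh
  · by_cases hc : Closed rot u v
    · exact h1 u v hh hc
    · exact h2 ⟨u, v, hh, hc⟩
  · rcases hh with rfl | rfl
    · exact h3 e
    · exact h4 e
  · exact hh.elim
  · rcases hh with rfl | rfl
    · exact h5 d
    · exact h6 d
  · rcases hh with rfl | rfl
    · exact h7 d
    · exact h8 e
  · obtain rfl : face h d = F' := hh
    exact h9 d
  · exact hh.elim
  · obtain rfl : face h e = F := hh
    exact h10 e
  · exact hh.elim

theorem TG_adj_rot : ∀ v u, (TG h).Adj v u → (TG h).Adj v (rotT h v u) := by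
  intro v u hvu
  refine dart_cases h (P := fun x y => (TG h).Adj y (rotT h y x)) ?_ ?_ ?_ ?_ ?_ ?_ ?_ ?_ ?_ ?_ u v
    hvu.symm
  · intro u v huv hc
    rw [rotT_closed h huv hc]
    exact h.adj_rot _ _ huv.symm
  · intro d
    rw [rotT_open]
    exact Or.inr rfl
  · intro d
    rw [rotT_ys]
    exact Or.inr ((phi h).apply_symm_apply d).symm
  · intro d
    rw [rotT_yt]
    exact Or.inl rfl
  · intro d
    rw [rotT_out]
    exact d.adj
  · intro d
    rw [rotT_in]
    exact Or.inl rfl
  · intro d
    rw [rotT_yy']
    exact face_phi h d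
  · intro d
    rw [rotT_yy]
    exact Or.inr rfl
  · intro d
    rw [rotT_zy]
    exact face_phi_symm h d
  · intro d
    rw [rotT_yz]
    exact Or.inl rfl

theorem TG_tri : ∀ u v, (TG h).Adj u v → rotT h (rotT h v u) v = u := by
  refine dart_cases h (P := fun x y => rotT h (rotT h y x) y = x) ?_ ?_ ?_ ?_ ?_ ?_ ?_ ?_ ?_ ?_
  · intro u v huv hc
    rw [rotT_closed h huv hc, rotT_closed h (h.adj_rot _ _ huv.symm) (closed_next hc), hc.1]
  · intro d
    rw [rotT_open, rotT_yt]
  · intro d
    rw [rotT_ys]
    have := rotT_yy h ((phi h).symm d)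
    rw [Equiv.apply_symm_apply] at this
    rw [this]
    rfl
  · intro d
    rw [rotT_yt, rotT_out]
  · intro d
    rw [rotT_out, rotT_open]
  · intro d
    rw [rotT_in]
    have := rotT_ys h (phi h d)
    rw [Equiv.symm_apply_apply] at this
    exact this
  · intro d
    rw [rotT_yy']
    have := rotT_zy h (phi h d)
    rw [Equiv.symm_apply_apply, face_phi] at this
    exact this
  · intro d
    rw [rotT_yy, rotT_in]
  · intro d
    rw [rotT_zy]
    have := rotT_yz h ((phi h).symm d)
    rw [Equiv.apply_symm_apply, face_phi_symm] at this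
    exact this
  · intro d
    rw [rotT_yz, rotT_yy']

end Pool.Agent.E8helper59.PT
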