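import Pool.Agent.E8helper59.PT.TB

set_option autoImplicit false
set_option linter.unusedSectionVars false

/-!
# The triangulation of a plane map: properties
-/

namespace Pool.Agent.E8helper59.PT

open Classical

variable {V : Type} [Fintype V] {B : SimpleGraph V} {rot : V → Equiv.Perm V} (h : PMap B rot)

theorem TG_face {x y z : TV h} (hxy : (TG h).Adj x y) (hz : rotT h y x = z) :
    rotT h z y = x ∧ rotT h x z = y := by
  subst hz
  have h1 := TG_adj_rot h y x hxy.symm
  have h2 := TG_tri h x y hxy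
  have h4 := TG_tri h y (rotT h y x) h1
  rw [h2] at h4
  exact ⟨h2, h4⟩

theorem fac_rot {a b c : TV h} (hab : (TG h).Adj a b)
    (hQ : rotT h b a = c ∨ rotT h a b = c) : rotT h c b = a ∨ rotT h b c = a := by
  rcases hQ with h1 | h1
  · exact Or.inl (TG_face h hab h1).1
  · exact Or.inr (TG_face h hab.symm h1).2

theorem fac_rot' {a b c : TV h} (hab : (TG h).Adj a b)
    (hQ : rotT h b a = c ∨ rotT h a b = c) : rotT h a c = b ∨ rotT h c a = b := by
  rcases hQ with h1 | h1
  · exact Or.inl (TG_face h hab h1).2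
  · exact Or.inr (TG_face h hab.symm h1).1

theorem fac_vvv {a b c : V} (hab : B.Adj a b) (hbc : B.Adj b c) (hca : B.Adj c a) :
    rotT h (Sum.inl b) (Sum.inl a) = Sum.inl c ∨ rotT h (Sum.inl a) (Sum.inl b) = Sum.inl c := by
  rcases h.fac a b c hab hbc hca with ⟨h1, h2, h3⟩ | ⟨h1, h2, h3⟩
  · left
    rw [rotT_closed h hab ⟨by rw [h1, h2], by rw [h1, h3]⟩, h1]
  · right
    rw [rotT_closed h hab.symm ⟨by rw [h1, h3], by rw [h1, h2]⟩, h1]

theorem fac_vvy {a b : V} {d : OD B rot} (hab : a ≠ b) (ha : a = d.s ∨ a = d.t)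
    (hb : b = d.s ∨ b = d.t) :
    rotT h (Sum.inl b) (Sum.inl a) = Sum.inr (Sum.inl d) ∨
      rotT h (Sum.inl a) (Sum.inl b) = Sum.inr (Sum.inl d) := by
  rcases ha with rfl | rfl <;> rcases hb with rfl | rfl
  · exact absurd rfl hab
  · exact Or.inl (rotT_open h d)
  · exact Or.inr (rotT_open h d)
  · exact absurd rfl hab

theorem fac_vyy_aux {a : V} {d : OD B rot} (ha : a = d.s ∨ a = d.t)
    (hb : a = (phi h d).s ∨ a = (phi h d).t) :
    rotT h (Sum.inr (Sum.inl d)) (Sum.inl a) = Sum.inr (Sum.inl (phi h d)) ∨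
      rotT h (Sum.inl a) (Sum.inr (Sum.inl d)) = Sum.inr (Sum.inl (phi h d)) := by
  rcases ha with rfl | rfl
  · rcases hb with h1 | h1
    · exact absurd h1 d.adj.ne
    · exact absurd h1.symm (h.deg _ _ d.adj)
  · exact Or.inr (rotT_in h d)

theorem fac_vyy {a : V} {d e : OD B rot} (ha : a = d.s ∨ a = d.t) (hb : a = e.s ∨ a = e.t)
    (hde : e = phi h d ∨ d = phi h e) :
    rotT h (Sum.inr (Sum.inl d)) (Sum.inl a) = Sum.inr (Sum.inl e) ∨
      rotT h (Sum.inl a) (Sum.inr (Sum.inl d)) = Sum.inr (Sum.inl e) := by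
  rcases hde with rfl | rfl
  · exact fac_vyy_aux h ha hb
  · have h1 := fac_vyy_aux h hb ha
    have h2 : (TG h).Adj (Sum.inl a) (Sum.inr (Sum.inl e)) := hb
    exact (fac_rot' h h2 h1).symm

theorem fac_zyy {d e : OD B rot} (hde : e = phi h d ∨ d = phi h e) :
    rotT h (Sum.inr (Sum.inl d)) (Sum.inr (Sum.inr (face h d))) = Sum.inr (Sum.inl e) ∨
      rotT h (Sum.inr (Sum.inr (face h d))) (Sum.inr (Sum.inl d)) = Sum.inr (Sum.inl e) := by
  rcases hde with rfl | rfl
  · exact Or.inl (rotT_yz h d)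
  · right
    rw [rotT_zy, Equiv.symm_apply_apply]

theorem no_yyy {d e f : OD B rot} (h1 : e = phi h d ∨ d = phi h e) (h2 : f = phi h e ∨ e = phi h f)
    (h3 : d = phi h f ∨ f = phi h d) : False := by
  rcases h1 with h1 | h1 <;> rcases h2 with h2 | h2 <;> rcases h3 with h3 | h3
  · rw [h2, h1] at h3; exact phi3_ne h d h3.symm
  · rw [h1] at h2
    rw [h3] at h2
    exact phi_ne h _ h2.symm
  · rw [h1] at h2
    have h4 := (phi h).injective h2
    rw [← h4] at h3
    exact phi_ne h _ h3.symm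
  · rw [h1] at h2
    have h4 := (phi h).injective h2
    rw [← h4] at h3
    exact phi_ne h _ h3.symm
  · rw [h1] at h3
    have h4 := (phi h).injective h3
    rw [h4] at h2
    exact phi_ne h _ h2.symm
  · rw [h2] at h3
    have h4 := (phi h).injective h3
    rw [← h4] at h1
    exact phi_ne h _ h1.symm
  · rw [h1] at h3
    have h4 := (phi h).injective h3
    rw [h4] at h2
    exact phi_ne h _ h2.symm
  · rw [h3, h1] at h2; exact phi3_ne h e h2.symm

theorem TG_fac : ∀ a b c, (TG h).Adj a b → (TG h).Adj b c → (TG h).Adj c a →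
    rotT h b a = c ∨ rotT h a b = c := by
  rintro (a | d | F) (b | e | F') (c | f | F'') h1 h2 h3
  · exact fac_vvv h h1 h2 h3
  · exact fac_vvy h (SimpleGraph.Adj.ne h1) h3 h2
  · exact h3.elim
  · -- a, y_e, c
    have h4 : rotT h (Sum.inl a) (Sum.inl c) = Sum.inr (Sum.inl e) ∨
        rotT h (Sum.inl c) (Sum.inl a) = Sum.inr (Sum.inl e) := fac_vvy h (SimpleGraph.Adj.ne h3) h2 h1
    -- (c, a, e): rotate to (a, e, c)
    exact fac_rot h h3 h4
  · exact fac_vyy h h1 h3 h2
  · exact h3.elim
  · exact h1.elim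
  · exact h1.elim
  · exact h1.elim
  · -- y_d, b, c
    have h4 : rotT h (Sum.inl c) (Sum.inl b) = Sum.inr (Sum.inl d) ∨
        rotT h (Sum.inl b) (Sum.inl c) = Sum.inr (Sum.inl d) := fac_vvy h (SimpleGraph.Adj.ne h2) h1 h3
    exact fac_rot' h h2 h4
  · -- y_d, b, y_f
    have h4 := fac_vyy h (a := b) (d := f) (e := d) h2 h1 h3
    -- (b, f, d) -> want (d, b, f)
    exact fac_rot' h h2 h4
  · exact h2.elim
  · -- y_d, y_e, c
    have h4 := fac_vyy h (a := c) (d := d) (e := e) h3 h2 h1
    -- (c, d, e) -> (d, e, c)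
    exact fac_rot h h3 h4
  · exact absurd (no_yyy h h1 h2 h3) id
  · -- y_d, y_e, z
    obtain rfl : face h e = F'' := h2
    have h5 : face h d = face h e := h3
    have h4 := fac_zyy h h1
    rw [h5] at h4
    exact fac_rot h h3 h4
  · exact h2.elim
  · -- y_d, z, y_f
    obtain rfl : face h d = F' := h1
    have h5 : face h f = face h d := h2
    have h4 := fac_zyy h h3
    rw [h5] at h4
    -- (z, f, d) -> (d, z, f)
    exact fac_rot' h h2 h4
  · exact h2.elim
  · exact h1.elim
  · exact h1.elim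
  · exact h1.elim
  · exact h3.elim
  · -- z, y_e, y_f
    obtain rfl : face h e = F := h1
    exact fac_zyy h h2
  · exact h3.elim
  · exact h1.elim
  · exact h1.elim
  · exact h1.elim

theorem TG_conn (X : Set (TV h)) (hX : X.Nonempty)
    (hc : ∀ u ∈ X, ∀ v, (TG h).Adj u v → v ∈ X) : ∀ v, v ∈ X := by
  have hyV : ∀ d : OD B rot, (Sum.inr (Sum.inl d) : TV h) ∈ X → (Sum.inl d.s : TV h) ∈ X :=
    fun d hd => hc _ hd _ (Or.inl rfl)
  obtain ⟨v0, hv0⟩ : ∃ v, (Sum.inl v : TV h) ∈ X := by
    obtain ⟨x, hx⟩ := hX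
    rcases x with v | d | F
    · exact ⟨v, hx⟩
    · exact ⟨_, hyV d hx⟩
    · obtain ⟨d, rfl⟩ := face_surj h F
      exact ⟨_, hyV d (hc _ hx _ rfl)⟩
  have hV : ∀ v, (Sum.inl v : TV h) ∈ X := by
    intro v
    exact h.conn {u | (Sum.inl u : TV h) ∈ X} ⟨v0, hv0⟩ (fun u hu v huv => hc _ hu _ huv) v
  have hD : ∀ d : OD B rot, (Sum.inr (Sum.inl d) : TV h) ∈ X :=
    fun d => hc _ (hV d.s) _ (Or.inl rfl)
  rintro (v | d | F)
  · exact hV v
  · exact hD d
  · obtain ⟨d, rfl⟩ := face_surj h F
    exact hc _ (hD d) _ rfl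

theorem sameCycle_step {α : Type} {σ : Equiv.Perm α} {x y : α} (hxy : σ x = y) :
    σ.SameCycle x y := ⟨1, by simpa using hxy⟩

theorem TG_cyc : ∀ v u w, (TG h).Adj v u → (TG h).Adj v w → (rotT h v).SameCycle u w := by
  -- all neighbours are in the same cycle as a given one
  rintro (v | d | F)
  · -- vertices
    have hstep : ∀ u, B.Adj v u → (rotT h (Sum.inl v)).SameCycle (Sum.inl u) (Sum.inl (rot v u)) := by
      intro u hvu
      by_cases hcl : Closed rot u v
      · exact sameCycle_step (rotT_closed h hvu.symm hcl)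
      · obtain ⟨d, hd1, hd2⟩ : ∃ d : OD B rot, d.s = u ∧ d.t = v := ⟨⟨u, v, hvu.symm, hcl⟩, rfl, rfl⟩
        subst hd1 hd2
        have h1 := sameCycle_step (rotT_open h d)
        have h2 := sameCycle_step (rotT_in h d)
        have h3 := sameCycle_step (rotT_out h (phi h d))
        rw [phi_s, phi_t] at h3
        exact (h1.trans h2).trans h3
    have hpow : ∀ (n : ℕ) (u : V), B.Adj v u →
        (rotT h (Sum.inl v)).SameCycle (Sum.inl u) (Sum.inl (((rot v) ^ n) u)) ∧
          B.Adj v (((rot v) ^ n) u) := by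
      intro n u hvu
      induction n with
      | zero => exact ⟨Equiv.Perm.SameCycle.refl _ _, hvu⟩
      | succ n ih =>
        rw [pow_succ', Equiv.Perm.mul_apply]
        exact ⟨ih.1.trans (hstep _ ih.2), h.adj_rot _ _ ih.2⟩
    have hVV : ∀ u w, B.Adj v u → B.Adj v w →
        (rotT h (Sum.inl v)).SameCycle (Sum.inl u) (Sum.inl w) := by
      intro u w hu hw
      obtain ⟨n, -, hn⟩ := (h.cyc v u w hu hw).exists_pow_eq'
      rw [← hn]
      exact (hpow n u hu).1
    have hrep : ∀ x, (TG h).Adj (Sum.inl v) x → ∃ u, B.Adj v u ∧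
        (rotT h (Sum.inl v)).SameCycle (Sum.inl u) x := by
      rintro (u | d | F) hx
      · exact ⟨u, hx, Equiv.Perm.SameCycle.refl _ _⟩
      · rcases hx with rfl | rfl
        · exact ⟨d.t, d.adj, (sameCycle_step (rotT_out h d)).symm⟩
        · exact ⟨d.s, d.adj.symm, sameCycle_step (rotT_open h d)⟩
      · exact hx.elim
    intro x y hx hy
    obtain ⟨u, hu, h1⟩ := hrep x hx
    obtain ⟨w, hw, h2⟩ := hrep y hy
    exact (h1.symm.trans (hVV u w hu hw)).trans h2
  · -- vertices of darts
    have hrep : ∀ x, (TG h).Adj (Sum.inr (Sum.inl d)) x →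
        (rotT h (Sum.inr (Sum.inl d))).SameCycle (Sum.inr (Sum.inl (phi h d))) x := by
      have k1 := sameCycle_step (rotT_yy h d)
      have k2 := sameCycle_step (rotT_yt h d)
      have k3 := sameCycle_step (rotT_ys h d)
      have k4 := sameCycle_step (rotT_yy' h ((phi h).symm d))
      rw [Equiv.apply_symm_apply, face_phi_symm] at k4
      rintro (u | e | F) hx
      · rcases hx with rfl | rfl
        · exact k1.trans k2
        · exact k1
      · rcases hx with rfl | hx
        · exact Equiv.Perm.SameCycle.refl _ _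
        · have : e = (phi h).symm d := by rw [hx, Equiv.symm_apply_apply]
          rw [this]
          exact (k1.trans k2).trans k3
      · obtain rfl : face h d = F := hx
        exact ((k1.trans k2).trans k3).trans k4
    intro x y hx hy
    exact (hrep x hx).symm.trans (hrep y hy)
  · -- centres
    have hpow : ∀ (n : ℕ) (d : OD B rot),
        (rotT h (Sum.inr (Sum.inr (face h d)))).SameCycle (Sum.inr (Sum.inl d))
          (Sum.inr (Sum.inl (((phi h) ^ n) d))) := by
      intro n d
      induction n with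
      | zero => exact Equiv.Perm.SameCycle.refl _ _
      | succ n ih =>
        rw [pow_succ', Equiv.Perm.mul_apply]
        refine ih.trans ?_
        have hface : face h ((phi h) ((phi h ^ n) d)) = face h d := by
          refine (face_eq h).2 (Equiv.Perm.SameCycle.symm ⟨n + 1, ?_⟩)
          rw [zpow_add_one, zpow_natCast, ← pow_succ, pow_succ', Equiv.Perm.mul_apply]
        have k := sameCycle_step (rotT_zy h ((phi h) ((phi h ^ n) d)))
        rw [hface, Equiv.symm_apply_apply] at k
        exact k.symm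
    rintro (x | d | x) (y | e | y) hx hy
    · exact hx.elim
    · exact hx.elim
    · exact hx.elim
    · exact hy.elim
    · obtain rfl : face h d = F := hx
      have hde : face h e = face h d := hy
      obtain ⟨n, -, hn⟩ := ((face_eq h).1 hde.symm).exists_pow_eq'
      rw [← hn]
      exact hpow n d
    · exact hy.elim
    · exact hx.elim
    · exact hx.elim
    · exact hx.elim

end Pool.Agent.E8helper59.PT
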