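import Pool.Agent.E8helper59.PT.TB2

set_option autoImplicit false
set_option linter.unusedSectionVars false

/-!
# The triangulation of a plane map: potentials
-/

namespace Pool.Agent.E8helper59.PT

open Classical

variable {V : Type} [Fintype V] {B : SimpleGraph V} {rot : V → Equiv.Perm V} (h : PMap B rot)

theorem sum_two {α : Type} [Fintype α] {f : α → ZMod 2} {a b : α} (hab : a ≠ b)
    (hf : ∀ x, x ≠ a → x ≠ b → f x = 0) : ∑ x, f x = f a + f b := by
  rw [← Finset.sum_pair hab]
  symm
  apply Finset.sum_subset (Finset.subset_univ _)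
  intro x _ hx
  simp only [Finset.mem_insert, Finset.mem_singleton, not_or] at hx
  exact hf x hx.1 hx.2

theorem sum_one {α : Type} [Fintype α] {f : α → ZMod 2} {a : α}
    (hf : ∀ x, x ≠ a → f x = 0) : ∑ x, f x = f a :=
  Fintype.sum_eq_single a hf

section

variable {z : TV h → TV h → ZMod 2} (zs : ∀ u v, z u v = z v u)
  (za : ∀ u v, z u v ≠ 0 → (TG h).Adj u v) (ze : ∀ u, ∑ v, z u v = 0)

include zs za

theorem z_vz (v : V) (F : Fc h) : z (Sum.inl v) (Sum.inr (Sum.inr F)) = 0 := by
  by_contra hc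
  exact za _ _ hc

theorem z_vy {v : V} {d : OD B rot} (h1 : v ≠ d.s) (h2 : v ≠ d.t) :
    z (Sum.inl v) (Sum.inr (Sum.inl d)) = 0 := by
  by_contra hc
  rcases za _ _ hc with h3 | h3
  · exact h1 h3
  · exact h2 h3

include ze

theorem even_v (v : V) : ∑ u, z (Sum.inl v) (Sum.inl u) +
    ∑ d, z (Sum.inl v) (Sum.inr (Sum.inl d)) = 0 := by
  have h1 := ze (Sum.inl v)
  rw [Fintype.sum_sum_type, Fintype.sum_sum_type] at h1
  rw [Finset.sum_eq_zero (s := Finset.univ) (f := fun F => z (Sum.inl v) (Sum.inr (Sum.inr F)))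
    (fun F _ => z_vz h zs za v F), add_zero] at h1
  exact h1

theorem even_y (d : OD B rot) : z (Sum.inl d.s) (Sum.inr (Sum.inl d)) +
    z (Sum.inl d.t) (Sum.inr (Sum.inl d)) +
    (z (Sum.inr (Sum.inl d)) (Sum.inr (Sum.inl (phi h d))) +
     z (Sum.inr (Sum.inl ((phi h).symm d))) (Sum.inr (Sum.inl d)) +
     z (Sum.inr (Sum.inl d)) (Sum.inr (Sum.inr (face h d)))) = 0 := by
  have h1 := ze (Sum.inr (Sum.inl d))
  rw [Fintype.sum_sum_type, Fintype.sum_sum_type] at h1
  rw [sum_two (a := d.s) (b := d.t) d.adj.ne (fun x h2 h3 => by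
    rw [zs]; exact z_vy h zs za h2 h3)] at h1
  have h2 : phi h d ≠ (phi h).symm d := fun he => phi2_ne h d (by
      rw [he, Equiv.apply_symm_apply])
  rw [sum_two (a := phi h d) (b := (phi h).symm d) h2 (fun x h3 h4 => by
    by_contra hc
    rcases za _ _ hc with h5 | h5
    · exact h3 h5
    · exact h4 (by rw [h5, Equiv.symm_apply_apply]))] at h1
  rw [sum_one (a := face h d) (fun F hF => by
    by_contra hc
    exact hF (show face h d = F from za _ _ hc).symm)] at h1
  rw [zs (Sum.inl d.s), zs (Sum.inl d.t), zs (Sum.inr (Sum.inl ((phi h).symm d)))]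
  exact h1

theorem even_z (c : Fc h → ZMod 2) :
    ∑ d, c (face h d) * z (Sum.inr (Sum.inl d)) (Sum.inr (Sum.inr (face h d))) = 0 := by
  have h1 : ∀ d : OD B rot, c (face h d) * z (Sum.inr (Sum.inl d)) (Sum.inr (Sum.inr (face h d))) =
      ∑ F, c F * z (Sum.inr (Sum.inl d)) (Sum.inr (Sum.inr F)) := by
    intro d
    symm
    apply Fintype.sum_eq_single
    intro F hF
    have : z (Sum.inr (Sum.inl d)) (Sum.inr (Sum.inr F)) = 0 := by
      by_contra hc
      exact hF (show face h d = F from za _ _ hc).symm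
    rw [this, mul_zero]
  rw [Finset.sum_congr rfl (fun d _ => h1 d), Finset.sum_comm]
  apply Finset.sum_eq_zero
  intro F _
  rw [← Finset.mul_sum]
  have h2 := ze (Sum.inr (Sum.inr F))
  rw [Fintype.sum_sum_type, Fintype.sum_sum_type] at h2
  rw [Finset.sum_eq_zero (s := Finset.univ) (f := fun v => z (Sum.inr (Sum.inr F)) (Sum.inl v))
    (fun v _ => by rw [zs]; exact z_vz h zs za v F), zero_add] at h2
  rw [Finset.sum_eq_zero (s := Finset.univ) (f := fun F' => z (Sum.inr (Sum.inr F))
    (Sum.inr (Sum.inr F'))) (fun F' _ => by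
      by_contra hc
      exact za _ _ hc), add_zero] at h2
  have h3 : ∑ d, z (Sum.inr (Sum.inl d)) (Sum.inr (Sum.inr F)) = 0 := by
    rw [← h2]
    exact Finset.sum_congr rfl (fun d _ => zs _ _)
  rw [h3, mul_zero]

theorem exists_r : ∃ r : OD B rot → ZMod 2, ∀ d, r (phi h d) = r d +
    (z (Sum.inl d.t) (Sum.inr (Sum.inl d)) + z (Sum.inl d.t) (Sum.inr (Sum.inl (phi h d)))) := by
  apply orbit_solve
  intro c hc
  obtain ⟨c', hc'⟩ : ∃ c' : Fc h → ZMod 2, ∀ d, c d = c' (face h d) := by
    have hinv : ∀ (n : ℕ) d, c (((phi h) ^ n) d) = c d := by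
      intro n d
      induction n with
      | zero => rfl
      | succ n ih => rw [pow_succ', Equiv.Perm.mul_apply, hc, ih]
    refine ⟨fun F => c (Classical.choose (face_surj h F)), fun d => ?_⟩
    have h1 := Classical.choose_spec (face_surj h (face h d))
    obtain ⟨n, -, hn⟩ := ((face_eq h).1 h1).exists_pow_eq'
    show c d = c (Classical.choose (face_surj h (face h d)))
    rw [← hinv n (Classical.choose (face_surj h (face h d))), hn]
  have h1 : ∑ d, c d * (z (Sum.inl d.t) (Sum.inr (Sum.inl d)) +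
      z (Sum.inl d.t) (Sum.inr (Sum.inl (phi h d)))) =
      ∑ d, c d * (z (Sum.inl d.t) (Sum.inr (Sum.inl d)) +
        z (Sum.inl d.s) (Sum.inr (Sum.inl d))) := by
    simp only [mul_add, Finset.sum_add_distrib]
    congr 1
    rw [← Equiv.sum_comp (phi h) (fun d => c d * z (Sum.inl d.s) (Sum.inr (Sum.inl d)))]
    exact Finset.sum_congr rfl (fun d _ => by rw [hc, phi_s])
  rw [h1]
  have h2 : ∀ d, c d * (z (Sum.inl d.t) (Sum.inr (Sum.inl d)) +
        z (Sum.inl d.s) (Sum.inr (Sum.inl d))) =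
      c d * z (Sum.inr (Sum.inl d)) (Sum.inr (Sum.inl (phi h d))) +
      c d * z (Sum.inr (Sum.inl ((phi h).symm d))) (Sum.inr (Sum.inl d)) +
      c d * z (Sum.inr (Sum.inl d)) (Sum.inr (Sum.inr (face h d))) := by
    intro d
    have h3 := even_y h zs za ze d
    rw [← mul_add, ← mul_add]
    congr 1
    have : ∀ a b c : ZMod 2, a + b + c = 0 → b + a = c := by decide
    exact this _ _ _ h3
  rw [Finset.sum_congr rfl (fun d _ => h2 d), Finset.sum_add_distrib, Finset.sum_add_distrib]
  have h3 : ∑ d, c d * z (Sum.inr (Sum.inl ((phi h).symm d))) (Sum.inr (Sum.inl d)) =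
      ∑ d, c d * z (Sum.inr (Sum.inl d)) (Sum.inr (Sum.inl (phi h d))) := by
    rw [← Equiv.sum_comp (phi h)
      (fun d => c d * z (Sum.inr (Sum.inl ((phi h).symm d))) (Sum.inr (Sum.inl d)))]
    exact Finset.sum_congr rfl (fun d _ => by rw [hc, Equiv.symm_apply_apply])
  rw [h3, z2_add_self, zero_add]
  have h4 := even_z h zs za ze c'
  rw [← h4]
  exact Finset.sum_congr rfl (fun d _ => by rw [hc'])

theorem TG_pot : ∃ S : TV h → TV h → ZMod 2,
    (∀ u v, (TG h).Adj u v → S u v = S v (rotT h v u)) ∧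
      ∀ u v, (TG h).Adj u v → S u v + S v u = z u v := by
  obtain ⟨r, hr⟩ := exists_r h zs za ze
  -- the values of `r` on all pairs
  obtain ⟨rr, hrr, hrr0⟩ : ∃ rr : V → V → ZMod 2, (∀ d : OD B rot, rr d.s d.t = r d) ∧
      ∀ u v, (∀ d : OD B rot, ¬ (d.s = u ∧ d.t = v)) → rr u v = 0 := by
    refine ⟨fun u v => if hd : ∃ d : OD B rot, d.s = u ∧ d.t = v then r hd.choose else 0, ?_, ?_⟩
    · intro d
      have hex : ∃ e : OD B rot, e.s = d.s ∧ e.t = d.t := ⟨d, rfl, rfl⟩
      simp only [dif_pos hex]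
      congr 1
      exact OD.ext hex.choose_spec.1 hex.choose_spec.2
    · intro u v huv
      have hex : ¬ ∃ d : OD B rot, d.s = u ∧ d.t = v := fun ⟨d, hd⟩ => huv d hd
      simp only [dif_neg hex]
  have hrc : ∀ u v, Closed rot u v → rr u v = 0 := by
    intro u v huv
    apply hrr0
    rintro d ⟨rfl, rfl⟩
    exact d.op huv
  have hra : ∀ u v, rr u v ≠ 0 → B.Adj u v := by
    intro u v huv
    by_contra hc
    apply huv
    apply hrr0
    rintro d ⟨rfl, rfl⟩
    exact hc d.adj
  -- sums of `rr`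
  have hsum1 : ∀ v, ∑ u, rr v u = ∑ d, if d.s = v then r d else 0 := by
    intro v
    have h1 : ∀ u, rr v u = ∑ d, if d.s = v ∧ d.t = u then r d else 0 := by
      intro u
      by_cases hex : ∃ d : OD B rot, d.s = v ∧ d.t = u
      · obtain ⟨d, hd1, hd2⟩ := hex
        rw [Fintype.sum_eq_single d]
        · rw [if_pos ⟨hd1, hd2⟩, ← hrr, hd1, hd2]
        · intro e he
          rw [if_neg]
          rintro ⟨h3, h4⟩
          exact he (OD.ext (h3.trans hd1.symm) (h4.trans hd2.symm))
      · rw [hrr0 _ _ (fun d hd => hex ⟨d, hd⟩)]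
        symm
        apply Finset.sum_eq_zero
        intro d _
        rw [if_neg (fun hd => hex ⟨d, hd⟩)]
    rw [Finset.sum_congr rfl (fun u _ => h1 u), Finset.sum_comm]
    apply Finset.sum_congr rfl
    intro d _
    by_cases hd : d.s = v
    · rw [if_pos hd, Fintype.sum_eq_single d.t]
      · rw [if_pos ⟨hd, rfl⟩]
      · intro u hu
        rw [if_neg (fun hh => hu hh.2.symm)]
    · rw [if_neg hd]
      apply Finset.sum_eq_zero
      intro u _
      rw [if_neg (fun hh => hd hh.1)]
  have hsum2 : ∀ v, ∑ u, rr u v = ∑ d, if d.t = v then r d else 0 := by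
    intro v
    have h1 : ∀ u, rr u v = ∑ d, if d.s = u ∧ d.t = v then r d else 0 := by
      intro u
      by_cases hex : ∃ d : OD B rot, d.s = u ∧ d.t = v
      · obtain ⟨d, hd1, hd2⟩ := hex
        rw [Fintype.sum_eq_single d]
        · rw [if_pos ⟨hd1, hd2⟩, ← hrr, hd1, hd2]
        · intro e he
          rw [if_neg]
          rintro ⟨h3, h4⟩
          exact he (OD.ext (h3.trans hd1.symm) (h4.trans hd2.symm))
      · rw [hrr0 _ _ (fun d hd => hex ⟨d, hd⟩)]
        symm
        apply Finset.sum_eq_zero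
        intro d _
        rw [if_neg (fun hd => hex ⟨d, hd⟩)]
    rw [Finset.sum_congr rfl (fun u _ => h1 u), Finset.sum_comm]
    apply Finset.sum_congr rfl
    intro d _
    by_cases hd : d.t = v
    · rw [if_pos hd, Fintype.sum_eq_single d.s]
      · rw [if_pos ⟨rfl, hd⟩]
      · intro u hu
        rw [if_neg (fun hh => hu hh.1.symm)]
    · rw [if_neg hd]
      apply Finset.sum_eq_zero
      intro u _
      rw [if_neg (fun hh => hd hh.2)]
  -- the vector on the map
  have hev : ∀ v, ∑ u, (z (Sum.inl v) (Sum.inl u) + (rr v u + rr u v)) = 0 := by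
    intro v
    rw [Finset.sum_add_distrib, Finset.sum_add_distrib, hsum1, hsum2]
    have h1 : (∑ d : OD B rot, if d.s = v then r d else 0) =
        ∑ d : OD B rot, if d.t = v then r (phi h d) else 0 := by
      rw [← Equiv.sum_comp (phi h) (fun d => if d.s = v then r d else 0)]
      rfl
    have h2 : (∑ d : OD B rot, if d.t = v then r (phi h d) else 0) +
        (∑ d : OD B rot, if d.t = v then r d else 0) =
        ∑ d : OD B rot, z (Sum.inl v) (Sum.inr (Sum.inl d)) := by
      rw [← Finset.sum_add_distrib]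
      have h3 : ∀ d : OD B rot, ((if d.t = v then r (phi h d) else 0) +
          (if d.t = v then r d else 0)) = (if d.t = v then z (Sum.inl v) (Sum.inr (Sum.inl d)) else 0)
            + (if (phi h d).s = v then z (Sum.inl v) (Sum.inr (Sum.inl (phi h d))) else 0) := by
        intro d
        by_cases hd : d.t = v
        · rw [if_pos hd, if_pos hd, if_pos hd, if_pos (by rw [phi_s]; exact hd), hr, hd]
          have : ∀ a b c : ZMod 2, a + (b + c) + a = b + c := by decide
          exact this _ _ _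
        · rw [if_neg hd, if_neg hd, if_neg hd, if_neg (by rw [phi_s]; exact hd)]
      rw [Finset.sum_congr rfl (fun d _ => h3 d), Finset.sum_add_distrib]
      rw [Equiv.sum_comp (phi h) (fun d => if d.s = v then z (Sum.inl v) (Sum.inr (Sum.inl d)) else 0),
        ← Finset.sum_add_distrib]
      apply Finset.sum_congr rfl
      intro d _
      by_cases h4 : d.t = v
      · by_cases h5 : d.s = v
        · exact absurd (h5.trans h4.symm) d.adj.ne
        · rw [if_pos h4, if_neg h5, add_zero]
      · by_cases h5 : d.s = v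
        · rw [if_neg h4, if_pos h5, zero_add]
        · rw [if_neg h4, if_neg h5, z_vy h zs za (fun he => h5 he.symm) (fun he => h4 he.symm),
            add_zero]
    rw [h1, h2]
    exact even_v h zs za ze v
  obtain ⟨S', hS1, hS2⟩ := h.pot (fun u v => z (Sum.inl u) (Sum.inl v) + (rr u v + rr v u))
    (fun u v => by rw [zs]; ring) (fun u v huv => by
      by_contra hc
      apply huv
      have h1 : rr u v = 0 := by
        by_contra hc'
        exact hc (hra _ _ hc')
      have h2 : rr v u = 0 := by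
        by_contra hc'
        exact hc (hra _ _ hc').symm
      have h3 : z (Sum.inl u) (Sum.inl v) = 0 := by
        by_contra hc'
        exact hc (za _ _ hc')
      show z (Sum.inl u) (Sum.inl v) + (rr u v + rr v u) = 0
      rw [h1, h2, h3]
      rfl) hev
  -- the colours
  obtain ⟨a, ha⟩ : ∃ a : OD B rot → ZMod 2, ∀ d, a d = S' d.s d.t + r d := ⟨_, fun _ => rfl⟩
  obtain ⟨c, hc⟩ : ∃ c : OD B rot → ZMod 2, ∀ d, c d = a d + z (Sum.inl d.t) (Sum.inr (Sum.inl d)) :=
    ⟨_, fun _ => rfl⟩
  obtain ⟨e, he⟩ : ∃ e : OD B rot → ZMod 2, ∀ d, e d = c d +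
      z (Sum.inr (Sum.inl d)) (Sum.inr (Sum.inl (phi h d))) := ⟨_, fun _ => rfl⟩
  have haphi : ∀ d, a (phi h d) = c d + z (Sum.inl d.t) (Sum.inr (Sum.inl (phi h d))) := by
    intro d
    rw [ha, hc, ha, hr, phi_s, phi_t, ← hS1 _ _ d.adj]
    ring
  have hcs : ∀ d, a d = c ((phi h).symm d) + z (Sum.inl d.s) (Sum.inr (Sum.inl d)) := by
    intro d
    have := haphi ((phi h).symm d)
    rw [Equiv.apply_symm_apply, phi_symm_t] at this
    exact this
  let S : TV h → TV h → ZMod 2 := fun x y => match x, y with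
    | Sum.inl u, Sum.inl v => S' u v + rr u v
    | Sum.inl u, Sum.inr (Sum.inl d) => if u = d.t then a d else c ((phi h).symm d)
    | Sum.inr (Sum.inl d), Sum.inl u => if u = d.s then a d else c d
    | Sum.inr (Sum.inl d), Sum.inr (Sum.inl d') => if d' = phi h d then e d else c d'
    | Sum.inr (Sum.inl d), Sum.inr (Sum.inr _) => e ((phi h).symm d)
    | Sum.inr (Sum.inr _), Sum.inr (Sum.inl d) => e d
    | _, _ => 0
  have s1 : ∀ u v, S (Sum.inl u) (Sum.inl v) = S' u v + rr u v := fun _ _ => rfl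
  have s2 : ∀ d : OD B rot, S (Sum.inl d.t) (Sum.inr (Sum.inl d)) = a d := fun d => if_pos rfl
  have s3 : ∀ d : OD B rot, S (Sum.inl d.s) (Sum.inr (Sum.inl d)) = c ((phi h).symm d) :=
    fun d => if_neg d.adj.ne
  have s4 : ∀ d : OD B rot, S (Sum.inr (Sum.inl d)) (Sum.inl d.s) = a d := fun d => if_pos rfl
  have s5 : ∀ d : OD B rot, S (Sum.inr (Sum.inl d)) (Sum.inl d.t) = c d :=
    fun d => if_neg d.adj.ne.symm
  have s6 : ∀ d : OD B rot, S (Sum.inr (Sum.inl d)) (Sum.inr (Sum.inl (phi h d))) = e d :=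
    fun d => if_pos rfl
  have s7 : ∀ d : OD B rot, S (Sum.inr (Sum.inl (phi h d))) (Sum.inr (Sum.inl d)) = c d :=
    fun d => if_neg (phi2_ne h d).symm
  have s8 : ∀ (d : OD B rot) (F : Fc h), S (Sum.inr (Sum.inl d)) (Sum.inr (Sum.inr F)) =
    e ((phi h).symm d) := fun _ _ => rfl
  have s9 : ∀ (d : OD B rot) (F : Fc h), S (Sum.inr (Sum.inr F)) (Sum.inr (Sum.inl d)) =
    e d := fun _ _ => rfl
  have sopen : ∀ d : OD B rot, S (Sum.inl d.s) (Sum.inl d.t) = a d := fun d => by
    rw [s1, hrr, ha]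
  clear_value S
  refine ⟨S, ?_, ?_⟩
  · refine dart_cases h (P := fun x y => S x y = S y (rotT h y x)) ?_ ?_ ?_ ?_ ?_ ?_ ?_ ?_ ?_ ?_
    · intro u v huv hcl
      rw [rotT_closed h huv hcl, s1, s1, hrc _ _ hcl, hrc _ _ (closed_next hcl), hS1 _ _ huv]
    · intro d
      rw [rotT_open, sopen, s2]
    · intro d
      rw [rotT_ys, s3]
      have := s7 ((phi h).symm d)
      rw [Equiv.apply_symm_apply] at this
      exact this.symm
    · intro d
      rw [rotT_yt, s2, s4]
    · intro d
      rw [rotT_out, s4, sopen]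
    · intro d
      rw [rotT_in, s5]
      have := s3 (phi h d)
      rw [Equiv.symm_apply_apply, phi_s] at this
      exact this.symm
    · intro d
      rw [rotT_yy', s6, s8, Equiv.symm_apply_apply]
    · intro d
      rw [rotT_yy, s7, s5]
    · intro d
      rw [rotT_zy, s8, s9]
    · intro d
      rw [rotT_yz, s9, s6]
  · have hsym : ∀ x y, S x y + S y x = z x y → S y x + S x y = z y x := by
      intro x y hxy
      rw [add_comm, hxy, zs]
    have hvy_t : ∀ d : OD B rot, S (Sum.inl d.t) (Sum.inr (Sum.inl d)) +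
        S (Sum.inr (Sum.inl d)) (Sum.inl d.t) = z (Sum.inl d.t) (Sum.inr (Sum.inl d)) := by
      intro d
      rw [s2, s5, hc]
      have : ∀ a b : ZMod 2, a + (a + b) = b := by decide
      exact this _ _
    have hvy_s : ∀ d : OD B rot, S (Sum.inl d.s) (Sum.inr (Sum.inl d)) +
        S (Sum.inr (Sum.inl d)) (Sum.inl d.s) = z (Sum.inl d.s) (Sum.inr (Sum.inl d)) := by
      intro d
      rw [s3, s4, hcs d]
      have : ∀ a b : ZMod 2, a + (a + b) = b := by decide
      exact this _ _
    have hyy : ∀ d : OD B rot, S (Sum.inr (Sum.inl d)) (Sum.inr (Sum.inl (phi h d))) +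
        S (Sum.inr (Sum.inl (phi h d))) (Sum.inr (Sum.inl d)) =
          z (Sum.inr (Sum.inl d)) (Sum.inr (Sum.inl (phi h d))) := by
      intro d
      rw [s6, s7, he]
      have : ∀ a b : ZMod 2, a + b + a = b := by decide
      exact this _ _
    have hyz : ∀ d : OD B rot, S (Sum.inr (Sum.inl d)) (Sum.inr (Sum.inr (face h d))) +
        S (Sum.inr (Sum.inr (face h d))) (Sum.inr (Sum.inl d)) =
          z (Sum.inr (Sum.inl d)) (Sum.inr (Sum.inr (face h d))) := by
      intro d
      have h1 := even_y h zs za ze d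
      have h2 := hcs d
      have h3 := hc d
      have h4 := he d
      have h5 := he ((phi h).symm d)
      rw [Equiv.apply_symm_apply] at h5
      rw [s8, s9, h4, h5, h3, h2]
      have : ∀ p q r s t w : ZMod 2, p + q + (r + s + t) = 0 → w + s + (w + p + q + r) = t := by
        decide
      exact this _ _ _ _ _ _ h1
    refine dart_cases h (P := fun x y => S x y + S y x = z x y) ?_ ?_ ?_ ?_ ?_ ?_ ?_ ?_ ?_ ?_
    · intro u v huv _
      have h1 := hS2 u v huv
      rw [s1, s1]
      have : ∀ a b c d w : ZMod 2, a + b = w + (c + d) → a + c + (b + d) = w := by decide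
      exact this _ _ _ _ _ h1
    · intro d
      have h1 := hS2 d.s d.t d.adj
      rw [s1, s1]
      have : ∀ a b c d w : ZMod 2, a + b = w + (c + d) → a + c + (b + d) = w := by decide
      exact this _ _ _ _ _ h1
    · exact hvy_s
    · exact hvy_t
    · intro d
      exact hsym _ _ (hvy_s d)
    · intro d
      exact hsym _ _ (hvy_t d)
    · exact hyy
    · intro d
      exact hsym _ _ (hyy d)
    · exact hyz
    · intro d
      exact hsym _ _ (hyz d)

end

/-- **The triangulation of a plane map.** -/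
theorem TG_Tri : Tri (TG h) (rotT h) where
  adj_rot := TG_adj_rot h
  tri := TG_tri h
  cyc := TG_cyc h
  fac := TG_fac h
  pot := fun _ zs za ze => TG_pot h zs za ze
  conn := TG_conn h

end Pool.Agent.E8helper59.PT
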