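import Pool.Agent.E8helper59.PT.LRF
import Pool.Agent.E8helper59.PT.Box

set_option autoImplicit false
set_option linter.unusedSectionVars false
set_option linter.unusedVariables false

/-!
# A system of linear equations over `ℤ/2`
-/

namespace Pool.Agent.E8helper59.PT

open Classical

variable {V : Type}

/-- the indicator of an equality -/
noncomputable def e1 (x y : V) : ZMod 2 := if x = y then 1 else 0

/-- the coefficient of the edge `{x, y}` -/
noncomputable def cf (o : V → V → V → ZMod 2) (u v x y : V) : ZMod 2 :=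
  e1 x u * o u y v + e1 x v * o v y u + e1 x u * e1 y v

/-- **The linear system.** -/
structure TSol (G : SimpleGraph V) (o Q p : V → V → V → ZMod 2) : Prop where
  self : ∀ u x, o u x x = 0
  anti : ∀ u x y, G.Adj u x → G.Adj u y → x ≠ y → o u x y + o u y x = 1
  main : ∀ u v, G.Adj u v → ∀ x y, G.Adj x y →
    (cf o u v x y + cf o u v y x) + (Q x y u + Q y x u) + (Q x y v + Q y x v) +
      (p u v x + p u v y) = 0

/-- the linear system has a solution -/
def TSys (G : SimpleGraph V) : Prop := ∃ o Q p : V → V → V → ZMod 2, TSol G o Q p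

theorem TSol.pot [Fintype V] {G : SimpleGraph V} {o Q p : V → V → V → ZMod 2} (h : TSol G o Q p)
    {z : V → V → ZMod 2} (zs : ∀ u v, z u v = z v u) (za : ∀ u v, z u v ≠ 0 → G.Adj u v)
    (ze : ∀ u, ∑ v, z u v = 0) :
    ∃ α : V → ZMod 2, ∀ u v, G.Adj u v → α u + α v = bt o z u v := by
  refine ⟨fun w => ∑ x, ∑ y, z x y * Q x y w, fun u v huv => ?_⟩
  have zd : ∀ x, z x x = 0 := fun x => by
    by_contra hc
    exact G.irrefl (za x x hc)
  have h1 : bt o z u v = ∑ x, ∑ y, z x y * cf o u v x y := by
    unfold bt oc cf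
    simp only [mul_add, Finset.sum_add_distrib]
    have a1 : ∀ F : V → V → ZMod 2, ∀ a, ∑ x, ∑ y, z x y * (e1 x a * F x y) =
        ∑ y, z a y * F a y := by
      intro F a
      rw [Finset.sum_eq_single a]
      · apply Finset.sum_congr rfl
        intro y _
        unfold e1
        rw [if_pos rfl, one_mul]
      · intro x _ hx
        apply Finset.sum_eq_zero
        intro y _
        unfold e1
        rw [if_neg hx, zero_mul, mul_zero]
      · intro h; exact absurd (Finset.mem_univ _) h
    rw [a1 (fun x y => o u y v) u, a1 (fun x y => o v y u) v, a1 (fun x y => e1 y v) u]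
    congr 1
    rw [Finset.sum_eq_single v]
    · unfold e1
      rw [if_pos rfl, mul_one]
    · intro y _ hy
      unfold e1
      rw [if_neg hy, mul_zero]
    · intro h; exact absurd (Finset.mem_univ _) h
  have h2 : ∑ x, ∑ y, z x y * p u v x = 0 := by
    apply Finset.sum_eq_zero
    intro x _
    rw [← Finset.sum_mul, ze, zero_mul]
  have h3 : ∑ x, ∑ y, z x y * (cf o u v x y + Q x y u + Q x y v + p u v x) = 0 := by
    rw [← Fintype.sum_prod_type']
    refine Finset.sum_involution (fun (q : V × V) _ => q.swap) ?_ ?_ (fun q _ => Finset.mem_univ _)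
      (fun q _ => Prod.swap_swap q)
    · rintro ⟨x, y⟩ _
      show z x y * (cf o u v x y + Q x y u + Q x y v + p u v x) +
        z y x * (cf o u v y x + Q y x u + Q y x v + p u v y) = 0
      rw [zs y x, ← mul_add]
      by_cases hz : z x y = 0
      · rw [hz, zero_mul]
      · have h4 := h.main u v huv x y (za x y hz)
        have : (cf o u v x y + Q x y u + Q x y v + p u v x) +
            (cf o u v y x + Q y x u + Q y x v + p u v y) = 0 := by
          rw [← h4]; ring
        rw [this, mul_zero]
    · rintro ⟨x, y⟩ _ hne he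
      apply hne
      have : y = x := congrArg Prod.fst he
      subst this
      show z y y * _ = 0
      rw [zd, zero_mul]
  simp only [mul_add, Finset.sum_add_distrib] at h3
  rw [h1]
  rw [h2] at h3
  have : ∀ a b c : ZMod 2, a + b + c + 0 = 0 → b + c = a := by decide
  exact this _ _ _ h3

/-- **The algebraic Hanani–Tutte theorem.** -/
theorem TSys.exists_PL [Fintype V] {G : SimpleGraph V} (h : TSys G) :
    ∃ pos : V → V → ℝ, PL G pos := by
  obtain ⟨o, Q, p, h⟩ := h
  obtain ⟨P, hF⟩ := exists_NF G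
  let _ := P
  refine hF.exists_PL ⟨h.self, h.anti⟩ ?_
  intro w1 t1 w2 t2 h1 h2
  obtain ⟨α, hα⟩ := h.pot (z := cyc w1 t1) (hF.cyc_symm h1.lt)
    (fun u v huv => hF.cyc_supp h1 huv) (fun u => cyc_even w1 t1 u)
  exact hF.FF_of_pot hα h2

section strict

variable {G : SimpleGraph V} {f g : V → ℝ}

/-- a vertex to the left of an edge -/
noncomputable def Pl (f g : V → ℝ) (u v w : V) : ZMod 2 :=
  if g u < g w ∧ g w < g v ∧ f w < f u ∧ f w < f v then 1 else 0

/-- a vertex to the right of an edge -/
noncomputable def Pr (f g : V → ℝ) (x y w : V) : ZMod 2 :=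
  if g x < g w ∧ g w < g y ∧ f x < f w ∧ f y < f w then 1 else 0

theorem Pl_zero {u v w : V} (h : ¬ (g u < g w ∧ g w < g v ∧ f w < f u ∧ f w < f v)) :
    Pl f g u v w = 0 := if_neg h

theorem Pr_zero {u v w : V} (h : ¬ (g u < g w ∧ g w < g v ∧ f u < f w ∧ f v < f w)) :
    Pr f g u v w = 0 := if_neg h

/-- the tournament at a vertex -/
noncomputable def og (f g : V → ℝ) (u x y : V) : ZMod 2 :=
  if g u < g x then (if g u < g y then lt2 (f x) (f y) else 1)
  else (if g u < g y then 0 else lt2 (f y) (f x))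

theorem sep_disj (h : SD.Strict G f g) {u v x y : V} (huv : G.Adj u v) (hxy : G.Adj x y)
    (h1 : u ≠ x) (h2 : u ≠ y) (h3 : v ≠ x) (h4 : v ≠ y) (guv : g u < g v) (gxy : g x < g y) :
    Pr f g x y u + Pr f g x y v + Pl f g u v x + Pl f g u v y = 0 := by
  have n1 : g u ≠ g x := fun h' => h1 (h.ginj h')
  have n2 : g u ≠ g y := fun h' => h2 (h.ginj h')
  have n3 : g v ≠ g x := fun h' => h3 (h.ginj h')
  have n4 : g v ≠ g y := fun h' => h4 (h.ginj h')
  rcases h.sep u v x y huv hxy h1 h2 h3 h4 with (⟨a, b, c, d⟩ | ⟨a, b, c, d⟩) |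
    (⟨a, b, c, d⟩ | ⟨a, b, c, d⟩)
  · rw [Pr_zero (by rintro ⟨-, -, h5, -⟩; linarith), Pr_zero (by rintro ⟨-, -, h5, -⟩; linarith),
      Pl_zero (by rintro ⟨-, -, h5, -⟩; linarith), Pl_zero (by rintro ⟨-, -, h5, -⟩; linarith)]
    decide
  · unfold Pr Pl
    simp only [a, b, c, d, and_true]
    rcases lt_or_gt_of_ne n1 with m1 | m1 <;> rcases lt_or_gt_of_ne n2 with m2 | m2 <;>
      rcases lt_or_gt_of_ne n3 with m3 | m3 <;> rcases lt_or_gt_of_ne n4 with m4 | m4 <;>
      simp only [m1, m2, m3, m4, not_lt.2 m1.le, not_lt.2 m2.le, not_lt.2 m3.le, not_lt.2 m4.le,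
        and_true, and_false, if_true, if_false] <;> first | decide | (exfalso; linarith)
  · rw [Pr_zero (by rintro ⟨h5, -⟩; linarith), Pr_zero (by rintro ⟨h5, -⟩; linarith),
      Pl_zero (by rintro ⟨-, h5, -⟩; linarith), Pl_zero (by rintro ⟨-, h5, -⟩; linarith)]
    decide
  · rw [Pr_zero (by rintro ⟨-, h5, -⟩; linarith), Pr_zero (by rintro ⟨-, h5, -⟩; linarith),
      Pl_zero (by rintro ⟨h5, -⟩; linarith), Pl_zero (by rintro ⟨h5, -⟩; linarith)]
    decide

/-- two edges with the same lower end -/
theorem sep_low (h : SD.Strict G f g) {u v y : V} (huv : G.Adj u v) (huy : G.Adj u y)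
    (hvy : v ≠ y) (guv : g u < g v) (guy : g u < g y) :
    lt2 (f y) (f v) + Pr f g u y v + Pl f g u v y = 0 := by
  have n1 : f v ≠ f y := fun h' => hvy (h.finj h')
  have n2 : g v ≠ g y := fun h' => hvy (h.ginj h')
  rcases lt_or_gt_of_ne n1 with m1 | m1
  · rw [Pr_zero (by rintro ⟨-, -, -, h5⟩; linarith), Pl_zero (by rintro ⟨-, -, -, h5⟩; linarith)]
    unfold lt2
    rw [if_neg (not_lt.2 m1.le)]
    decide
  · rcases lt_or_gt_of_ne n2 with m2 | m2
    · -- `g v < g y`
      have h3 : f u < f v := by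
        rcases h.out u y v huy huv.ne' hvy with (⟨a, b, c, d⟩ | ⟨a, b, c, d⟩) |
          (⟨a, b, c, d⟩ | ⟨a, b, c, d⟩) <;> linarith
      rw [Pl_zero (by rintro ⟨-, h5, -⟩; linarith)]
      unfold lt2 Pr
      rw [if_pos m1, if_pos ⟨guv, m2, h3, m1⟩]
      decide
    · have h3 : f y < f u := by
        rcases h.out u v y huv huy.ne' hvy.symm with (⟨a, b, c, d⟩ | ⟨a, b, c, d⟩) |
          (⟨a, b, c, d⟩ | ⟨a, b, c, d⟩) <;> linarith
      rw [Pr_zero (by rintro ⟨-, h5, -⟩; linarith)]
      unfold lt2 Pl
      rw [if_pos m1, if_pos ⟨guy, m2, h3, m1⟩]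
      decide

/-- two edges with the same upper end -/
theorem sep_up (h : SD.Strict G f g) {u v x : V} (huv : G.Adj u v) (hxv : G.Adj x v)
    (hux : u ≠ x) (guv : g u < g v) (gxv : g x < g v) :
    lt2 (f x) (f u) + Pr f g x v u + Pl f g u v x = 0 := by
  have n1 : f u ≠ f x := fun h' => hux (h.finj h')
  have n2 : g u ≠ g x := fun h' => hux (h.ginj h')
  rcases lt_or_gt_of_ne n1 with m1 | m1
  · rw [Pr_zero (by rintro ⟨-, -, h5, -⟩; linarith), Pl_zero (by rintro ⟨-, -, h5, -⟩; linarith)]
    unfold lt2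
    rw [if_neg (not_lt.2 m1.le)]
    decide
  · rcases lt_or_gt_of_ne n2 with m2 | m2
    · -- `g u < g x`
      have h3 : f x < f v := by
        rcases h.out u v x huv hux.symm hxv.ne with (⟨a, b, c, d⟩ | ⟨a, b, c, d⟩) |
          (⟨a, b, c, d⟩ | ⟨a, b, c, d⟩) <;> linarith
      rw [Pr_zero (by rintro ⟨h5, -⟩; linarith)]
      unfold lt2 Pl
      rw [if_pos m1, if_pos ⟨m2, gxv, m1, h3⟩]
      decide
    · have h3 : f v < f u := by
        rcases h.out x v u hxv hux huv.ne with (⟨a, b, c, d⟩ | ⟨a, b, c, d⟩) |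
          (⟨a, b, c, d⟩ | ⟨a, b, c, d⟩) <;> linarith
      rw [Pl_zero (by rintro ⟨h5, -⟩; linarith)]
      unfold lt2 Pr
      rw [if_pos m1, if_pos ⟨m2, guv, m1, h3⟩]
      decide

/-- the weights of the vertices -/
noncomputable def pg (f g : V → ℝ) (u v w : V) : ZMod 2 :=
  if g u < g v then Pl f g u v w + e1 w v else Pl f g v u w + e1 w u

theorem cf_symm (o : V → V → V → ZMod 2) (u v x y : V) :
    cf o u v x y + cf o u v y x = cf o v u x y + cf o v u y x := by
  unfold cf
  ring

theorem og_uu {u x y : V} (h1 : g u < g x) (h2 : g u < g y) :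
    og f g u x y = lt2 (f x) (f y) := by
  unfold og; rw [if_pos h1, if_pos h2]

theorem og_ud {u x y : V} (h1 : g u < g x) (h2 : g y < g u) : og f g u x y = 1 := by
  unfold og; rw [if_pos h1, if_neg (not_lt.2 h2.le)]

theorem og_du {u x y : V} (h1 : g x < g u) (h2 : g u < g y) : og f g u x y = 0 := by
  unfold og; rw [if_neg (not_lt.2 h1.le), if_pos h2]

theorem og_dd {u x y : V} (h1 : g x < g u) (h2 : g y < g u) :
    og f g u x y = lt2 (f y) (f x) := by
  unfold og; rw [if_neg (not_lt.2 h1.le), if_neg (not_lt.2 h2.le)]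

theorem strict_main (h : SD.Strict G f g) {u v x y : V} (huv : G.Adj u v) (hxy : G.Adj x y)
    (guv : g u < g v) (gxy : g x < g y) :
    (cf (og f g) u v x y + cf (og f g) u v y x) + (Pr f g x y u + Pr f g y x u) +
      (Pr f g x y v + Pr f g y x v) + (pg f g u v x + pg f g u v y) = 0 := by
  have z1 : ∀ w, Pr f g y x w = 0 := fun w => Pr_zero (by rintro ⟨h1, h2, -⟩; linarith)
  rw [z1, z1]
  unfold pg
  rw [if_pos guv, if_pos guv]
  have e_eq : ∀ a : V, e1 a a = 1 := fun a => if_pos rfl
  have e_ne : ∀ {a b : V}, a ≠ b → e1 a b = 0 := fun h => if_neg h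
  by_cases c1 : x = u
  · subst c1
    have hxv := huv.ne
    by_cases c2 : y = v
    · subst c2
      unfold cf
      rw [e_eq, e_ne hxv, e_eq, e_ne hxv.symm, Pr_zero (by rintro ⟨h1, -⟩; linarith),
        Pr_zero (by rintro ⟨-, h1, -⟩; linarith), Pl_zero (by rintro ⟨h1, -⟩; linarith),
        Pl_zero (by rintro ⟨-, h1, -⟩; linarith), og_uu guv guv, og_dd guv guv, lt2_irrefl,
        lt2_irrefl]
      simp only [zero_mul, add_zero, zero_add, one_mul, mul_zero]
      decide
    · have hs := sep_low h huv hxy (Ne.symm c2) guv gxy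
      unfold cf
      rw [e_eq, e_ne hxv, e_ne hxy.ne', e_ne c2, Pr_zero (w := x) (by rintro ⟨h1, -⟩; linarith),
        Pl_zero (w := x) (by rintro ⟨h1, -⟩; linarith), og_uu gxy guv]
      simp only [zero_mul, add_zero, zero_add, one_mul, mul_zero]
      exact hs
  · by_cases c2 : y = v
    · subst c2
      have hs := sep_up h huv hxy (Ne.symm c1) guv gxy
      have hn : f x ≠ f u := fun h' => c1 (h.finj h')
      unfold cf
      rw [e_eq, e_ne hxy.ne, e_ne c1, e_ne huv.ne', Pr_zero (w := y)
        (by rintro ⟨-, h1, -⟩; linarith), Pl_zero (w := y) (by rintro ⟨-, h1, -⟩; linarith),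
        og_dd gxy guv]
      have h5 := lt2_add hn
      simp only [zero_mul, add_zero, zero_add, one_mul, mul_zero]
      have : ∀ a a' b c : ZMod 2, a + a' = 1 → a + b + c = 0 → a' + b + (c + 1) = 0 := by decide
      exact this _ _ _ _ h5 hs
    · by_cases c3 : x = v
      · subst c3
        unfold cf
        have hyu : y ≠ u := by
          rintro rfl
          linarith
        rw [e_eq, e_ne huv.ne', e_ne hyu, e_ne hxy.ne', Pr_zero (by rintro ⟨h1, -⟩; linarith),
          Pr_zero (by rintro ⟨h1, -⟩; linarith), Pl_zero (by rintro ⟨-, h1, -⟩; linarith),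
          Pl_zero (by rintro ⟨-, h1, -⟩; linarith), og_ud gxy guv]
        simp only [zero_mul, add_zero, zero_add, one_mul, mul_zero]
        decide
      · by_cases c4 : y = u
        · subst c4
          unfold cf
          rw [e_eq, e_ne c1, e_ne c3, e_ne c2, Pr_zero (by rintro ⟨-, h1, -⟩; linarith),
            Pr_zero (by rintro ⟨-, h1, -⟩; linarith), Pl_zero (by rintro ⟨h1, -⟩; linarith),
            Pl_zero (by rintro ⟨h1, -⟩; linarith), og_du gxy guv]
          simp only [zero_mul, add_zero, zero_add, one_mul, mul_zero]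
        · have hs := sep_disj h huv hxy (Ne.symm c1) (Ne.symm c4) (Ne.symm c3) (Ne.symm c2) guv gxy
          unfold cf
          rw [e_ne c1, e_ne c2, e_ne c3, e_ne c4]
          simp only [zero_mul, add_zero, zero_add, mul_zero]
          rw [← hs]
          ring

/-- **Strictly suitable pairs solve the linear system.** -/
theorem TSys_of_strict (h : SD.Strict G f g) : TSys G := by
  refine ⟨og f g, Pr f g, pg f g, ?_, ?_, ?_⟩
  · intro u x
    unfold og
    split_ifs <;> exact lt2_irrefl _
  · intro u x y hx hy hxy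
    have n1 : f x ≠ f y := fun h' => hxy (h.finj h')
    unfold og
    by_cases a : g u < g x <;> by_cases b : g u < g y
    · rw [if_pos a, if_pos b, if_pos b, if_pos a]
      exact lt2_add n1
    · rw [if_pos a, if_neg b, if_neg b, if_pos a]
      decide
    · rw [if_neg a, if_pos b, if_pos b, if_neg a]
      decide
    · rw [if_neg a, if_neg b, if_neg b, if_neg a]
      exact lt2_add n1.symm
  · have key : ∀ u v, G.Adj u v → g u < g v → ∀ x y, G.Adj x y →
        (cf (og f g) u v x y + cf (og f g) u v y x) + (Pr f g x y u + Pr f g y x u) +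
          (Pr f g x y v + Pr f g y x v) + (pg f g u v x + pg f g u v y) = 0 := by
      intro u v huv guv x y hxy
      have n : g x ≠ g y := fun h' => hxy.ne (h.ginj h')
      rcases lt_or_gt_of_ne n with m | m
      · exact strict_main h huv hxy guv m
      · have := strict_main h huv hxy.symm guv m
        rw [← this]
        ring
    intro u v huv x y hxy
    have n : g u ≠ g v := fun h' => huv.ne (h.ginj h')
    rcases lt_or_gt_of_ne n with m | m
    · exact key u v huv m x y hxy
    · have := key v u huv.symm m x y hxy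
      have e : ∀ w, pg f g u v w = pg f g v u w := by
        intro w
        unfold pg
        rw [if_neg (not_lt.2 m.le), if_pos m]
      rw [e, e, cf_symm, ← this]
      ring

/-- **Rectangle contact graphs: the linear system of the incidence graph has a solution.** -/
theorem TSys_H3 [Fintype V] [DecidableEq V] (h : SD.RectContact G) : TSys (H3 G) := by
  obtain ⟨f, g, hs⟩ := SD.strict_of_rect (rect_H3 h)
  exact TSys_of_strict hs

end strict

end Pool.Agent.E8helper59.PT
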